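import Mathlib

/-!
# R-sequencings of groups `E ⋊ C₃` with `E` an elementary abelian 2-group

Abstract construction used for `A₄ × C₂^m`.
-/

namespace Pool.Agent.V1137.RSeq

/-- The partial product `a 0 * a 1 * ⋯ * a i`. -/
def partialProd {G : Type*} [Group G] (a : ℕ → G) (i : ℕ) : G :=
  ((List.range (i + 1)).map a).prod

/-- `G` (finite, of order `n`) is R-sequenceable: its elements can be listed as
`a 0 = 1, a 1, …, a (n-1)`, each exactly once, so that the partial products
`b i = a 0 * ⋯ * a i` (`0 ≤ i ≤ n - 2`) are pairwise distinct and `b (n-1) = 1`. -/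
def RSequenceable (G : Type*) [Group G] : Prop :=
  ∃ a : ℕ → G, a 0 = 1 ∧ Set.BijOn a (Set.Iio (Nat.card G)) Set.univ ∧
    Set.InjOn (partialProd a) (Set.Iio (Nat.card G - 1)) ∧
    partialProd a (Nat.card G - 1) = 1

lemma partialProd_succ {G : Type*} [Group G] (a : ℕ → G) (i : ℕ) :
    partialProd a (i + 1) = partialProd a i * a (i + 1) := by
  unfold partialProd
  rw [List.range_succ (n := i + 1), List.map_append, List.prod_append]
  simp

/-- A surjection from `{0, …, n-1}` onto a type with `n` elements is a bijection. -/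
lemma bijOn_of_surj {G : Type*} [Finite G] (a : ℕ → G)
    (h : ∀ z : G, ∃ i < Nat.card G, a i = z) :
    Set.BijOn a (Set.Iio (Nat.card G)) Set.univ := by
  have hs : Function.Surjective (fun i : Fin (Nat.card G) => a i) := by
    intro z
    obtain ⟨i, hi, hz⟩ := h z
    exact ⟨⟨i, hi⟩, hz⟩
  have hb := hs.bijective_of_nat_card_le (by simp)
  refine ⟨fun _ _ => Set.mem_univ _, ?_, ?_⟩
  · intro i hi j hj hij
    have := hb.1 (a₁ := ⟨i, hi⟩) (a₂ := ⟨j, hj⟩) hij
    simpa using this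
  · intro z _
    obtain ⟨i, hi, hz⟩ := h z
    exact ⟨i, hi, hz⟩

/-- Criterion in terms of the partial products. -/
lemma rseq_of_terrace {G : Type*} [Group G] [Finite G] (b : ℕ → G) (miss : G)
    (hn : 1 ≤ Nat.card G)
    (h0 : b 0 = 1) (hlast : b (Nat.card G - 1) = 1)
    (hb : ∀ z : G, z ≠ miss → ∃ i < Nat.card G - 1, b i = z)
    (ha : ∀ z : G, z ≠ 1 → ∃ i < Nat.card G - 1, (b i)⁻¹ * b (i + 1) = z) :
    RSequenceable G := by
  classical
  let a : ℕ → G := fun i => if i = 0 then 1 else (b (i - 1))⁻¹ * b i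
  have hpp : ∀ i, partialProd a i = b i := by
    intro i
    induction i with
    | zero => simp [partialProd, a, h0]
    | succ i ih => rw [partialProd_succ, ih]; simp [a]
  refine ⟨a, by simp [a], ?_, ?_, ?_⟩
  · apply bijOn_of_surj
    intro z
    by_cases hz : z = 1
    · exact ⟨0, by omega, by simp [a, hz]⟩
    · obtain ⟨i, hi, hiz⟩ := ha z hz
      exact ⟨i + 1, by omega, by simp [a, hiz]⟩
  · have hbij := bijOn_of_surj (G := G)
      (fun i => if i = Nat.card G - 1 then miss else b i) (by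
        intro z
        by_cases hz : z = miss
        · exact ⟨Nat.card G - 1, by omega, by simp [hz]⟩
        · obtain ⟨i, hi, hiz⟩ := hb z hz
          exact ⟨i, by omega, by rw [if_neg (by omega), hiz]⟩)
    intro i hi j hj hij
    rw [hpp, hpp] at hij
    have hi' : i < Nat.card G - 1 := hi
    have hj' : j < Nat.card G - 1 := hj
    apply hbij.2.1 (show i ∈ Set.Iio (Nat.card G) from Set.mem_Iio.2 (by omega))
      (show j ∈ Set.Iio (Nat.card G) from Set.mem_Iio.2 (by omega))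
    simp only
    rw [if_neg (by omega), if_neg (by omega), hij]
  · rw [hpp, hlast]

/-- The explicit terrace. -/
noncomputable def terr {G K : Type*} [Group G] [Field K] (q : ℕ) (g : K) (ι : K → G) (t : G)
    (i : ℕ) : G :=
  if i = 0 then 1
  else if i < 2 * q - 1 then
    (if i % 2 = 1 then ι (g ^ ((i - 1) / 2)) else ι (g ^ ((i - 2) / 2 + 2)) * t)
  else if i < 3 * q - 2 then ι (g ^ (i - (2 * q - 1) + 1)) * t ^ 2
  else if i = 3 * q - 2 then t
  else 1

section terr

variable {G K : Type*} [Group G] [Field K] (q : ℕ) (g : K) (ι : K → G) (t : G)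

lemma terr_zero : terr q g ι t 0 = 1 := by simp [terr]

lemma terr_A (j : ℕ) (hj : j < q - 1) : terr q g ι t (2 * j + 1) = ι (g ^ j) := by
  have h1 : 2 * j + 1 ≠ 0 := by omega
  have h2 : 2 * j + 1 < 2 * q - 1 := by omega
  have h3 : (2 * j + 1) % 2 = 1 := by omega
  have h4 : (2 * j + 1 - 1) / 2 = j := by omega
  rw [terr, if_neg h1, if_pos h2, if_pos h3, h4]

lemma terr_A' (j : ℕ) (hj : j < q - 1) : terr q g ι t (2 * j + 2) = ι (g ^ (j + 2)) * t := by
  have h1 : 2 * j + 2 ≠ 0 := by omega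
  have h2 : 2 * j + 2 < 2 * q - 1 := by omega
  have h3 : ¬ (2 * j + 2) % 2 = 1 := by omega
  have h4 : (2 * j + 2 - 2) / 2 = j := by omega
  rw [terr, if_neg h1, if_pos h2, if_neg h3, h4]

lemma terr_B (j : ℕ) (hj : j < q - 1) :
    terr q g ι t (2 * q - 1 + j) = ι (g ^ (j + 1)) * t ^ 2 := by
  have h1 : 2 * q - 1 + j ≠ 0 := by omega
  have h2 : ¬ 2 * q - 1 + j < 2 * q - 1 := by omega
  have h3 : 2 * q - 1 + j < 3 * q - 2 := by omega
  have h4 : 2 * q - 1 + j - (2 * q - 1) + 1 = j + 1 := by omega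
  rw [terr, if_neg h1, if_neg h2, if_pos h3, h4]

lemma terr_Q (hq : 2 ≤ q) : terr q g ι t (3 * q - 2) = t := by
  have h1 : 3 * q - 2 ≠ 0 := by omega
  have h2 : ¬ 3 * q - 2 < 2 * q - 1 := by omega
  have h3 : ¬ 3 * q - 2 < 3 * q - 2 := by omega
  rw [terr, if_neg h1, if_neg h2, if_neg h3, if_pos rfl]

lemma terr_last (hq : 2 ≤ q) : terr q g ι t (3 * q - 1) = 1 := by
  have h1 : 3 * q - 1 ≠ 0 := by omega
  have h2 : ¬ 3 * q - 1 < 2 * q - 1 := by omega
  have h3 : ¬ 3 * q - 1 < 3 * q - 2 := by omega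
  have h4 : ¬ 3 * q - 1 = 3 * q - 2 := by omega
  rw [terr, if_neg h1, if_neg h2, if_neg h3, if_neg h4]

end terr

/-- The abstract theorem. -/
theorem rseq_abstract {G K : Type*} [Group G] [Finite G] [Field K] [CharP K 2]
    (q : ℕ) (hq : 4 ≤ q) (g : K) (hg1 : g ≠ 1) (hgq : g ^ (q - 1) = 1)
    (hgen : ∀ x : K, x ≠ 0 → ∃ j < q - 1, g ^ j = x)
    (ι : K → G) (hι : ∀ x y, ι (x + y) = ι x * ι y) (t : G) (ht : t ^ 3 = 1)
    (σ : K ≃+ K) (hσ : ∀ x, t * ι x = ι (σ x) * t)
    (h1 : σ 1 = g) (h2 : σ g = 1 + g)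
    (hsurj : ∀ z : G, ∃ x : K, z = ι x ∨ z = ι x * t ∨ z = ι x * t ^ 2)
    (hcard : Nat.card G = 3 * q) :
    RSequenceable G := by
  have hg0 : g ≠ 0 := by
    rintro rfl
    rw [zero_pow (by omega)] at hgq
    exact zero_ne_one hgq
  have hxx : ∀ x : K, x + x = 0 := fun x => CharTwo.add_self_eq_zero x
  have hι0 : ι 0 = 1 := by
    have := hι 0 0
    rw [add_zero] at this
    simpa using this
  have hιinv : ∀ x, (ι x)⁻¹ = ι x := by
    intro x
    rw [inv_eq_iff_mul_eq_one, ← hι, hxx, hι0]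
  have ht2 : t ^ 2 * t = 1 := by rw [← pow_succ, ht]
  have htinv : t⁻¹ = t ^ 2 := by
    rw [inv_eq_iff_mul_eq_one, ← pow_succ', ht]
  have ht2inv : (t ^ 2)⁻¹ = t := by
    rw [inv_eq_iff_mul_eq_one, ht2]
  have hσ2 : ∀ x, t ^ 2 * ι x = ι (σ (σ x)) * t ^ 2 := by
    intro x
    rw [pow_two, mul_assoc, hσ, ← mul_assoc, hσ, mul_assoc]
  have hσ3 : ∀ x, ι (σ (σ (σ x))) = ι x := by
    intro x
    have e : t ^ 3 * ι x = ι (σ (σ (σ x))) * t ^ 3 := by
      rw [pow_succ', mul_assoc, hσ2, ← mul_assoc, hσ, mul_assoc, ← pow_succ']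
    rw [ht, one_mul, mul_one] at e
    exact e.symm
  have hσ0 : ∀ x, x ≠ 0 → σ x ≠ 0 := fun x hx h => hx (by simpa using h)
  have hgp1 : (1 + g : K) ≠ 0 := by
    intro h
    apply hg1
    have : g = (1 + g) + 1 := by rw [add_comm 1 g, add_assoc, hxx, add_zero]
    rw [this, h, zero_add]
  have hgp2 : (1 + g ^ 2 : K) ≠ 0 := by
    have : (1 + g ^ 2 : K) = (1 + g) ^ 2 := by
      rw [CharTwo.add_sq, one_pow]
    rw [this]
    exact pow_ne_zero _ hgp1
  apply rseq_of_terrace (terr q g ι t) (t ^ 2) (by omega) (terr_zero _ _ _ _)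
  · rw [hcard]; exact terr_last _ _ _ _ (by omega)
  · -- every element except `t^2` is visited
    intro z hz
    rw [hcard]
    obtain ⟨x, rfl | rfl | rfl⟩ := hsurj z
    · by_cases hx : x = 0
      · exact ⟨0, by omega, by rw [terr_zero, hx, hι0]⟩
      · obtain ⟨j, hj, rfl⟩ := hgen x hx
        exact ⟨2 * j + 1, by omega, terr_A _ _ _ _ _ hj⟩
    · by_cases hx : x = 0
      · exact ⟨3 * q - 2, by omega, by rw [terr_Q _ _ _ _ (by omega), hx, hι0, one_mul]⟩
      · obtain ⟨j, hj, hjx⟩ := hgen (x / g ^ 2) (div_ne_zero hx (pow_ne_zero _ hg0))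
        refine ⟨2 * j + 2, by omega, ?_⟩
        rw [terr_A' _ _ _ _ _ hj, pow_add, hjx, div_mul_cancel₀ _ (pow_ne_zero _ hg0)]
    · by_cases hx : x = 0
      · exact absurd (by rw [hx, hι0, one_mul]) hz
      · obtain ⟨j, hj, hjx⟩ := hgen (x / g) (div_ne_zero hx hg0)
        refine ⟨2 * q - 1 + j, by omega, ?_⟩
        rw [terr_B _ _ _ _ _ hj, pow_succ, hjx, div_mul_cancel₀ _ hg0]
  · -- every nonidentity element is a quotient
    intro z hz
    rw [hcard]
    obtain ⟨x, rfl | rfl | rfl⟩ := hsurj z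
    · -- label in class 0, `x ≠ 0`
      have hx : x ≠ 0 := by
        rintro rfl
        exact hz hι0
      -- `σ (y * (1 + g)) = x`
      obtain ⟨y, hy⟩ : ∃ y, σ (y * (1 + g)) = x :=
        ⟨σ.symm x / (1 + g), by rw [div_mul_cancel₀ _ hgp1, σ.apply_symm_apply]⟩
      have hy0 : y ≠ 0 := by
        rintro rfl
        rw [zero_mul, map_zero] at hy
        exact hx hy.symm
      obtain ⟨j, hj, rfl⟩ := hgen y hy0
      rcases Nat.eq_zero_or_pos j with rfl | hjpos
      · refine ⟨0, by omega, ?_⟩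
        have hx1 : x = 1 := by
          rw [← hy, pow_zero, one_mul, map_add, h1, h2, add_comm 1 g, ← add_assoc, hxx, zero_add]
        rw [terr_zero, show 0 + 1 = 2 * 0 + 1 from rfl, terr_A _ _ _ _ _ (by omega), hx1]
        simp
      · obtain ⟨i, rfl⟩ : ∃ i, j = i + 1 := ⟨j - 1, by omega⟩
        refine ⟨2 * q - 1 + i, by omega, ?_⟩
        rw [terr_B _ _ _ _ _ (by omega), add_assoc, terr_B _ _ _ _ _ (by omega), mul_inv_rev,
          ht2inv, hιinv, mul_assoc, ← mul_assoc (ι _) (ι _), ← hι, ← mul_assoc t, hσ, mul_assoc,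
          ← pow_succ', ht, mul_one, ← hy]
        congr 2
        ring
    · -- label in class 1
      by_cases hx : x = 0
      · refine ⟨2 * q - 2, by omega, ?_⟩
        have e1 : 2 * q - 2 = 2 * (q - 2) + 2 := by omega
        have e2 : 2 * q - 2 + 1 = 2 * q - 1 + 0 := by omega
        have e3 : q - 2 + 2 = (q - 1) + 1 := by omega
        rw [e2, e1, terr_A' _ _ _ _ _ (by omega), terr_B _ _ _ _ _ (by omega), e3, pow_succ g (q-1),
          hgq, one_mul, zero_add, pow_one, hx, hι0, one_mul, mul_inv_rev]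
        rw [mul_assoc, ← mul_assoc (ι g)⁻¹, inv_mul_cancel, one_mul, htinv, ← pow_add]
        rw [show 2 + 2 = 3 + 1 from rfl, pow_succ, ht, one_mul]
      · obtain ⟨j, hj, hjx⟩ := hgen (x / (1 + g ^ 2)) (div_ne_zero hx hgp2)
        refine ⟨2 * j + 1, by omega, ?_⟩
        rw [terr_A _ _ _ _ _ hj, show 2 * j + 1 + 1 = 2 * j + 2 from rfl, terr_A' _ _ _ _ _ hj,
          hιinv, ← mul_assoc, ← hι]
        congr 2
        have : g ^ j + g ^ (j + 2) = g ^ j * (1 + g ^ 2) := by ring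
        rw [this, hjx, div_mul_cancel₀ _ hgp2]
    · -- label in class 2
      by_cases hx : x = 0
      · refine ⟨3 * q - 2, by omega, ?_⟩
        have e : 3 * q - 2 + 1 = 3 * q - 1 := by omega
        rw [e, terr_last _ _ _ _ (by omega), terr_Q _ _ _ _ (by omega), hx, hι0, one_mul, mul_one,
          htinv]
      · -- `x = σ (σ (y * (g + g^2)))`
        have hgg : g * (1 + g) ≠ 0 := mul_ne_zero hg0 hgp1
        obtain ⟨y, hy⟩ : ∃ y, σ (σ (y * (g * (1 + g)))) = x :=
          ⟨σ.symm (σ.symm x) / (g * (1 + g)), by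
            rw [div_mul_cancel₀ _ hgg, σ.apply_symm_apply, σ.apply_symm_apply]⟩
        have hy0 : y ≠ 0 := by
          rintro rfl
          rw [zero_mul, map_zero, map_zero] at hy
          exact hx hy.symm
        obtain ⟨j, hj, rfl⟩ := hgen y hy0
        by_cases hj2 : j = q - 2
        · refine ⟨2 * q - 1 + (q - 2), by omega, ?_⟩
          have e1 : 2 * q - 1 + (q - 2) + 1 = 3 * q - 2 := by omega
          have e2 : q - 2 + 1 = q - 1 := by omega
          have hx' : ι x = ι g := by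
            have e3 : g ^ j * (g * (1 + g)) = 1 + g := by
              rw [← mul_assoc, ← pow_succ, hj2, e2, hgq, one_mul]
            rw [← hy, e3, ← h2, ← h1, hσ3]
          rw [e1, terr_Q _ _ _ _ (by omega), terr_B _ _ _ _ _ (by omega), e2, hgq, hx',
            mul_inv_rev, ht2inv, hιinv, hσ, h1, mul_assoc, pow_two]
        · refine ⟨2 * j + 2, by omega, ?_⟩
          rw [show 2 * j + 2 + 1 = 2 * (j + 1) + 1 from rfl, terr_A _ _ _ _ _ (by omega),
            terr_A' _ _ _ _ _ (by omega), mul_inv_rev, hιinv, mul_assoc, ← hι, htinv, hσ2, ← hy]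
          congr 3
          congr 1
          ring

end Pool.Agent.V1137.RSeq
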