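import Mathlib

/-!
# Signings of graphs with large smallest Laplacian eigenvalue (interlacing family argument)

Real symmetric version with signs `±1`; all functions are multiaffine functions of vertex
variables.
-/

namespace Pool.Agent.V1137.Signing

open Matrix Complex
open scoped ComplexOrder

variable {V : Type*} [Fintype V] [DecidableEq V]

/-- The (finite difference) derivative of a multiaffine function. -/
def dd (u : V) (f : (V → ℂ) → ℂ) : (V → ℂ) → ℂ :=
  fun y => f (Function.update y u 1) - f (Function.update y u 0)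

/-- `f` is affine in each variable. -/
def MA (f : (V → ℂ) → ℂ) : Prop :=
  ∀ (y : V → ℂ) (u : V) (a : ℂ),
    f (Function.update y u a) = f (Function.update y u 0) + a * dd u f y

/-- `f` does not vanish when all variables are in the open upper half plane. -/
def Stab (f : (V → ℂ) → ℂ) : Prop := ∀ y : V → ℂ, (∀ v, 0 < (y v).im) → f y ≠ 0

/-- `f` has real coefficients. -/
def RC (f : (V → ℂ) → ℂ) : Prop :=
  ∀ y : V → ℂ, f (fun v => (starRingEnd ℂ) (y v)) = (starRingEnd ℂ) (f y)

/-- The averaging operator of an edge. -/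
def Top (p : V × V) (f : (V → ℂ) → ℂ) : (V → ℂ) → ℂ :=
  fun y => f y + dd p.1 f y + dd p.2 f y

/-- The averaging operator of a list of edges. -/
def Tops : List (V × V) → ((V → ℂ) → ℂ) → ((V → ℂ) → ℂ)
  | [], f => f
  | e :: E, f => Tops E (Top e f)

omit [Fintype V] in
lemma dd_update (u : V) (f : (V → ℂ) → ℂ) (y : V → ℂ) (a : ℂ) :
    dd u f (Function.update y u a) = dd u f y := by
  simp [dd]

omit [Fintype V] in
lemma dd_add (u : V) (f g : (V → ℂ) → ℂ) : dd u (fun y => f y + g y) = fun y => dd u f y + dd u g y := by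
  funext y; simp only [dd]; ring

omit [Fintype V] in
lemma dd_smul (u : V) (c : ℂ) (f : (V → ℂ) → ℂ) : dd u (fun y => c * f y) = fun y => c * dd u f y := by
  funext y; simp only [dd]; ring

omit [Fintype V] in
lemma Top_add (p : V × V) (f g : (V → ℂ) → ℂ) :
    Top p (fun y => f y + g y) = fun y => Top p f y + Top p g y := by
  funext y; simp only [Top, dd_add]; ring

omit [Fintype V] in
lemma Top_smul (p : V × V) (c : ℂ) (f : (V → ℂ) → ℂ) :
    Top p (fun y => c * f y) = fun y => c * Top p f y := by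
  funext y; simp only [Top, dd_smul]; ring

omit [Fintype V] in
lemma Tops_add (E : List (V × V)) : ∀ (f g : (V → ℂ) → ℂ),
    Tops E (fun y => f y + g y) = fun y => Tops E f y + Tops E g y := by
  induction E with
  | nil => intro f g; rfl
  | cons e E ih => intro f g; simp only [Tops, Top_add, ih]

omit [Fintype V] in
lemma Tops_smul (E : List (V × V)) (c : ℂ) : ∀ (f : (V → ℂ) → ℂ),
    Tops E (fun y => c * f y) = fun y => c * Tops E f y := by
  induction E with
  | nil => intro f; rfl
  | cons e E ih => intro f; simp only [Tops, Top_smul, ih]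

omit [Fintype V] in
lemma MA.dd {f : (V → ℂ) → ℂ} (hf : MA f) (w : V) : MA (dd w f) := by
  intro y u a
  by_cases h : u = w
  · subst h
    simp only [dd_update]
    simp [Signing.dd]
  · simp only [Signing.dd]
    have hc : ∀ b c : ℂ, Function.update (Function.update y u b) w c =
        Function.update (Function.update y w c) u b := fun b c =>
      Function.update_comm (Ne.symm h ∘ Eq.symm ∘ Eq.symm) _ _ _ |>.symm ▸ rfl
    rw [hc, hc, hc, hc, hc, hc, hf _ u a, hf _ u a]
    simp only [Signing.dd]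
    ring

omit [Fintype V] in
lemma MA.add {f g : (V → ℂ) → ℂ} (hf : MA f) (hg : MA g) : MA (fun y => f y + g y) := by
  intro y u a
  simp only [dd_add, hf y u a, hg y u a]
  ring

omit [Fintype V] in
lemma MA.smul {f : (V → ℂ) → ℂ} (c : ℂ) (hf : MA f) : MA (fun y => c * f y) := by
  intro y u a
  simp only [dd_smul, hf y u a]
  ring

omit [Fintype V] in
lemma MA.Top {f : (V → ℂ) → ℂ} (hf : MA f) (p : V × V) : MA (Top p f) :=
  (hf.add (hf.dd p.1)).add (hf.dd p.2)

omit [Fintype V] in
lemma MA.Tops {f : (V → ℂ) → ℂ} (hf : MA f) (E : List (V × V)) : MA (Tops E f) := by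
  induction E generalizing f with
  | nil => exact hf
  | cons e E ih => exact ih (hf.Top e)

omit [Fintype V] in
/-- The logarithmic derivative of a stable multiaffine function has non-positive imaginary part,
and it is zero only if the derivative vanishes. -/
lemma Stab.logder {f : (V → ℂ) → ℂ} (hs : Stab f) (hf : MA f) (u : V) (y : V → ℂ)
    (hy : ∀ v, 0 < (y v).im) : (dd u f y / f y).im < 0 ∨ dd u f y = 0 := by
  by_cases hb : dd u f y = 0
  · exact Or.inr hb
  · left
    have h1 : f y = f (Function.update y u 0) + y u * dd u f y := by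
      have := hf y u (y u)
      rwa [Function.update_eq_self] at this
    set α := f (Function.update y u 0)
    set β := dd u f y
    -- the root `-α/β` is not in the upper half plane
    have h2 : (-(α / β)).im ≤ 0 := by
      by_contra h
      push Not at h
      have := hs (Function.update y u (-(α / β))) (by
        intro v
        by_cases hv : v = u
        · subst hv; simpa using h
        · simpa [Function.update_of_ne hv] using hy v)
      apply this
      rw [hf y u]
      field_simp
      ring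
    have h3 : f y = β * (y u + α / β) := by
      rw [h1]; field_simp; ring
    have h4 : β / f y = (y u + α / β)⁻¹ := by
      have : f y ≠ 0 := hs y hy
      rw [h3] at this ⊢
      have h5 : (y u + α / β) ≠ 0 := right_ne_zero_of_mul this
      rw [div_mul_eq_div_div, div_self hb, one_div]
    rw [h4, Complex.inv_im]
    have h6 : 0 < (y u + α / β).im := by
      have := hy u
      simp only [Complex.neg_im] at h2
      rw [Complex.add_im]
      linarith
    apply div_neg_of_neg_of_pos
    · linarith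
    · apply Complex.normSq_pos.2
      intro h0
      rw [h0] at h6
      simp at h6

omit [Fintype V] in
lemma Stab.Top {f : (V → ℂ) → ℂ} (hs : Stab f) (hf : MA f) (p : V × V) : Stab (Top p f) := by
  intro y hy h0
  have hne := hs y hy
  have key : 1 + dd p.1 f y / f y + dd p.2 f y / f y = 0 := by
    have : (Signing.Top p f y) / f y = 0 := by rw [h0, zero_div]
    rw [Signing.Top, add_div, add_div, div_self hne] at this
    exact this
  rcases hs.logder hf p.1 y hy with h1 | h1 <;> rcases hs.logder hf p.2 y hy with h2 | h2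
  · have := congrArg Complex.im key
    simp only [Complex.add_im, Complex.one_im, Complex.zero_im] at this
    linarith
  · rw [h2] at key
    have := congrArg Complex.im key
    simp only [Complex.add_im, Complex.one_im, Complex.zero_im, zero_div] at this
    linarith
  · rw [h1] at key
    have := congrArg Complex.im key
    simp only [Complex.add_im, Complex.one_im, Complex.zero_im, zero_div] at this
    linarith
  · rw [h1, h2] at key
    simp at key

omit [Fintype V] in
lemma Stab.Tops {f : (V → ℂ) → ℂ} (hs : Stab f) (hf : MA f) (E : List (V × V)) :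
    Stab (Tops E f) := by
  induction E generalizing f with
  | nil => exact hs
  | cons e E ih => exact ih (hs.Top hf e) (hf.Top e)

omit [Fintype V] in
lemma RC.dd {f : (V → ℂ) → ℂ} (hf : RC f) (u : V) : RC (dd u f) := by
  intro y
  simp only [Signing.dd, map_sub]
  rw [← hf, ← hf]
  congr 2 <;> funext v <;> by_cases hv : v = u <;> simp [Function.update_apply, hv]

omit [Fintype V] in
lemma RC.Top {f : (V → ℂ) → ℂ} (hf : RC f) (p : V × V) : RC (Top p f) := by
  intro y
  simp only [Signing.Top, map_add]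
  rw [hf y, hf.dd p.1 y, hf.dd p.2 y]

omit [Fintype V] in
lemma RC.Tops {f : (V → ℂ) → ℂ} (hf : RC f) (E : List (V × V)) : RC (Tops E f) := by
  induction E generalizing f with
  | nil => exact hf
  | cons e E ih => exact ih (hf.Top e)

lemma diff_dd {f : (V → ℂ) → ℂ} (hf : Differentiable ℂ f) (u : V) : Differentiable ℂ (dd u f) := by
  have h : ∀ a : ℂ, Differentiable ℂ (fun y : V → ℂ => Function.update y u a) := by
    intro a
    rw [differentiable_pi]
    intro v
    by_cases hv : v = u
    · subst hv; simp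
    · simp only [Function.update_of_ne hv]
      fun_prop
  exact (hf.comp (h 1)).sub (hf.comp (h 0))

lemma diff_Tops {f : (V → ℂ) → ℂ} (hf : Differentiable ℂ f) (E : List (V × V)) :
    Differentiable ℂ (Tops E f) := by
  induction E generalizing f with
  | nil => exact hf
  | cons e E ih => exact ih ((hf.add (diff_dd hf e.1)).add (diff_dd hf e.2))

/-! ### Determinants -/

/-- `det (diag y + L)`. -/
noncomputable def detL (L : Matrix V V ℂ) : (V → ℂ) → ℂ := fun y => (Matrix.diagonal y + L).det

/-- The vector `e_u - s e_v`. -/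
def rv (s : ℂ) (p : V × V) : V → ℂ := Pi.single p.1 1 - s • Pi.single p.2 1

/-- The rank one matrix of a signed edge. -/
def R (s : ℂ) (p : V × V) : Matrix V V ℂ := Matrix.vecMulVec (rv s p) (rv s p)

lemma diag_update (L : Matrix V V ℂ) (y : V → ℂ) (u : V) (a : ℂ) :
    Matrix.diagonal (Function.update y u a) + L =
      Matrix.updateRow (Matrix.diagonal y + L) u (L u + a • Pi.single u 1) := by
  ext i j
  by_cases hi : i = u
  · subst hi
    rw [Matrix.updateRow_self]
    by_cases hj : i = j
    · subst hj; simp [add_comm]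
    · simp [Matrix.diagonal_apply_ne _ hj, Pi.single_eq_of_ne (Ne.symm hj)]
  · rw [Matrix.updateRow_ne hi]
    by_cases hj : i = j
    · subst hj; simp [hi]
    · simp [Matrix.diagonal_apply_ne _ hj]

lemma detL_update (L : Matrix V V ℂ) (y : V → ℂ) (u : V) (a : ℂ) :
    detL L (Function.update y u a) =
      (Matrix.updateRow (Matrix.diagonal y + L) u (L u)).det +
        a * (Matrix.updateRow (Matrix.diagonal y + L) u (Pi.single u 1)).det := by
  rw [detL, diag_update, Matrix.det_updateRow_add, Matrix.det_updateRow_smul]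

lemma dd_detL (L : Matrix V V ℂ) (y : V → ℂ) (u : V) :
    dd u (detL L) y = (Matrix.updateRow (Matrix.diagonal y + L) u (Pi.single u 1)).det := by
  rw [dd, detL_update, detL_update]; ring

lemma MA_detL (L : Matrix V V ℂ) : MA (detL L) := by
  intro y u a
  rw [dd_detL, detL_update, detL_update]; ring

lemma RC_detL (L : Matrix V V ℂ) (hL : ∀ i j, (starRingEnd ℂ) (L i j) = L i j) : RC (detL L) := by
  intro y
  rw [detL, detL, Matrix.det_apply, Matrix.det_apply, map_sum]
  refine Finset.sum_congr rfl fun σ _ => ?_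
  have : ∀ z : ℂ, (starRingEnd ℂ) (Equiv.Perm.sign σ • z) =
      Equiv.Perm.sign σ • (starRingEnd ℂ) z := by
    intro z
    rcases Int.units_eq_one_or (Equiv.Perm.sign σ) with h | h <;> simp [h]
  rw [this, map_prod]
  congr 1
  refine Finset.prod_congr rfl fun i _ => ?_
  by_cases h : σ i = i
  · rw [h]; simp [hL]
  · simp [Matrix.diagonal_apply_ne _ h, hL]

lemma diff_detL (L : Matrix V V ℂ) : Differentiable ℂ (detL L) := by
  unfold detL
  simp only [Matrix.det_apply]
  refine Differentiable.fun_sum fun σ _ => ?_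
  have : ∀ z : (V → ℂ) → ℂ, Differentiable ℂ z → Differentiable ℂ fun y =>
      Equiv.Perm.sign σ • z y := by
    intro z hz
    rcases Int.units_eq_one_or (Equiv.Perm.sign σ) with h | h
    · simpa [h] using hz
    · simpa [h] using hz.neg
  apply this
  have hent : ∀ i, Differentiable ℂ fun y : V → ℂ => (Matrix.diagonal y + L) (σ i) i := by
    intro i
    by_cases h : σ i = i
    · rw [h]
      simp only [Matrix.add_apply, Matrix.diagonal_apply_eq]
      fun_prop
    · simp only [Matrix.add_apply, Matrix.diagonal_apply_ne _ h]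
      fun_prop
  intro y
  exact (HasFDerivAt.finsetProd (𝕜 := ℂ) (u := Finset.univ)
    (g := fun i (y : V → ℂ) => (Matrix.diagonal y + L) (σ i) i)
    fun i _ => (hent i y).hasFDerivAt).differentiableAt

lemma updateRow_R (M : Matrix V V ℂ) (s : ℂ) (hs : s * s = 1) (p : V × V) (hp : p.1 ≠ p.2) :
    M + R s p = Matrix.updateRow (Matrix.updateRow M p.1 (M p.1 + rv s p)) p.2
      (M p.2 + (-s) • rv s p) := by
  ext i j
  simp only [Matrix.add_apply, R, Matrix.vecMulVec_apply]
  by_cases h2 : i = p.2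
  · subst h2
    rw [Matrix.updateRow_self]
    simp [rv, Pi.single_eq_of_ne hp.symm]
  · rw [Matrix.updateRow_ne h2]
    by_cases h1 : i = p.1
    · subst h1
      rw [Matrix.updateRow_self]
      simp [rv, Pi.single_eq_of_ne hp]
    · rw [Matrix.updateRow_ne h1]
      simp [rv, Pi.single_eq_of_ne h1, Pi.single_eq_of_ne h2]

/-- The averaging identity. -/
lemma avg_detL (L : Matrix V V ℂ) (p : V × V) (hp : p.1 ≠ p.2) :
    Top p (detL L) = fun y => (1 / 2) * (detL (L + R 1 p) y + detL (L + R (-1) p) y) := by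
  funext y
  set M := Matrix.diagonal y + L with hM
  have key : ∀ s : ℂ, s * s = 1 → detL (L + R s p) y = M.det +
      (Matrix.updateRow M p.1 (Pi.single p.1 1)).det +
      (Matrix.updateRow M p.2 (Pi.single p.2 1)).det -
      s * ((Matrix.updateRow M p.1 (Pi.single p.2 1)).det +
      (Matrix.updateRow M p.2 (Pi.single p.1 1)).det) := by
    intro s hs
    have e : Matrix.diagonal y + (L + R s p) = M + R s p := by rw [hM, add_assoc]
    rw [detL, e, updateRow_R M s hs p hp]
    -- expand the second row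
    rw [Matrix.det_updateRow_add, Matrix.det_updateRow_smul]
    -- exchange the order of updates
    have hcomm : ∀ a b : V → ℂ, Matrix.updateRow (Matrix.updateRow M p.1 a) p.2 b =
        Matrix.updateRow (Matrix.updateRow M p.2 b) p.1 a := by
      intro a b
      exact Function.update_comm hp _ _ _
    have h22 : ∀ a : V → ℂ, Matrix.updateRow (Matrix.updateRow M p.1 a) p.2 (M p.2) =
        Matrix.updateRow M p.1 a := by
      intro a
      rw [hcomm]
      congr 1
      exact Function.update_eq_self _ _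
    rw [h22, Matrix.det_updateRow_add, hcomm, Matrix.det_updateRow_add]
    have h11 : Matrix.updateRow M p.1 (M p.1) = M := Function.update_eq_self _ _
    have h12 : Matrix.updateRow (Matrix.updateRow M p.2 (rv s p)) p.1 (M p.1) =
        Matrix.updateRow M p.2 (rv s p) := by
      rw [← hcomm, h11]
    have h13 : (Matrix.updateRow (Matrix.updateRow M p.2 (rv s p)) p.1 (rv s p)).det = 0 := by
      apply Matrix.det_zero_of_row_eq hp
      rw [Matrix.updateRow_self, Matrix.updateRow_ne hp.symm, Matrix.updateRow_self]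
    rw [h11, h12, h13]
    have hrv : ∀ q : V, (Matrix.updateRow M q (rv s p)).det =
        (Matrix.updateRow M q (Pi.single p.1 1)).det -
          s * (Matrix.updateRow M q (Pi.single p.2 1)).det := by
      intro q
      have : rv s p = Pi.single p.1 1 + (-s) • Pi.single p.2 1 := by
        rw [rv, neg_smul, sub_eq_add_neg]
      rw [this, Matrix.det_updateRow_add, Matrix.det_updateRow_smul]
      ring
    rw [hrv, hrv]
    linear_combination (Matrix.updateRow M p.2 (Pi.single p.2 1)).det * hs
  rw [key 1 (by ring), key (-1) (by ring)]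
  rw [Top, dd_detL, dd_detL]
  simp only [detL, ← hM]
  ring

/-- Imaginary part of the quadratic form of `diag y + L`. -/
lemma im_form (L : Matrix V V ℂ) (hL : L.IsHermitian) (y : V → ℂ) (x : V → ℂ) :
    (star x ⬝ᵥ ((Matrix.diagonal y + L) *ᵥ x)).im = ∑ v, (y v).im * Complex.normSq (x v) := by
  rw [Matrix.add_mulVec, dotProduct_add, Complex.add_im]
  have h := hL.im_star_dotProduct_mulVec_self x
  have h' : (star x ⬝ᵥ (L *ᵥ x)).im = 0 := h
  rw [h', add_zero, dotProduct, Complex.im_sum]
  refine Finset.sum_congr rfl fun v _ => ?_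
  rw [Matrix.mulVec_diagonal]
  simp only [Pi.star_apply, RCLike.star_def]
  have : (starRingEnd ℂ) (x v) * (y v * x v) = y v * (Complex.normSq (x v) : ℂ) := by
    rw [Complex.normSq_eq_conj_mul_self]; ring
  rw [this, Complex.mul_im, Complex.ofReal_re, Complex.ofReal_im]
  ring

lemma form_pos (y : V → ℂ) (hy : ∀ v, 0 < (y v).im) (x : V → ℂ) (hx : x ≠ 0) :
    0 < ∑ v, (y v).im * Complex.normSq (x v) := by
  obtain ⟨v, hv⟩ := Function.ne_iff.1 hx
  refine Finset.sum_pos' (fun w _ => mul_nonneg (hy w).le (Complex.normSq_nonneg _))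
    ⟨v, Finset.mem_univ _, mul_pos (hy v) (Complex.normSq_pos.2 hv)⟩

lemma det_ne (L : Matrix V V ℂ) (hL : L.IsHermitian) (y : V → ℂ) (hy : ∀ v, 0 < (y v).im) :
    (Matrix.diagonal y + L).det ≠ 0 := by
  intro h
  obtain ⟨x, hx, hx0⟩ := Matrix.exists_mulVec_eq_zero_iff.2 h
  have h1 := im_form L hL y x
  rw [hx0] at h1
  simp only [dotProduct_zero, Complex.zero_im] at h1
  have := form_pos y hy x hx
  linarith

lemma Stab_detL (L : Matrix V V ℂ) (hL : L.IsHermitian) : Stab (detL L) := det_ne L hL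

lemma im_inv_form (L : Matrix V V ℂ) (hL : L.IsHermitian) (y : V → ℂ) (hy : ∀ v, 0 < (y v).im)
    (r : V → ℂ) (hr : r ≠ 0) :
    (star r ⬝ᵥ ((Matrix.diagonal y + L)⁻¹ *ᵥ r)).im < 0 := by
  set M := Matrix.diagonal y + L with hM
  have hdet : IsUnit M.det := isUnit_iff_ne_zero.2 (det_ne L hL y hy)
  set z := M⁻¹ *ᵥ r with hz
  have hrz : r = M *ᵥ z := by
    rw [hz, Matrix.mulVec_mulVec, Matrix.mul_nonsing_inv _ hdet, Matrix.one_mulVec]
  have hz0 : z ≠ 0 := by
    intro h0
    rw [h0, Matrix.mulVec_zero] at hrz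
    exact hr hrz
  have h1 : star r ⬝ᵥ z = (starRingEnd ℂ) (star z ⬝ᵥ (M *ᵥ z)) := by
    rw [← hrz]
    simp only [dotProduct, map_sum, map_mul, Pi.star_apply, RCLike.star_def, Complex.conj_conj]
    exact Finset.sum_congr rfl fun v _ => mul_comm _ _
  rw [h1, Complex.conj_im, hM, im_form L hL y z]
  have := form_pos y hy z hz0
  linarith

lemma detL_add_R (L : Matrix V V ℂ) (hL : L.IsHermitian) (y : V → ℂ) (hy : ∀ v, 0 < (y v).im)
    (s : ℂ) (p : V × V) :
    detL (L + R s p) y = detL L y * (1 + rv s p ⬝ᵥ ((Matrix.diagonal y + L)⁻¹ *ᵥ rv s p)) := by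
  have hdet : IsUnit (Matrix.diagonal y + L).det := isUnit_iff_ne_zero.2 (det_ne L hL y hy)
  have e : Matrix.diagonal y + (L + R s p) = (Matrix.diagonal y + L) +
      Matrix.replicateCol Unit (rv s p) * Matrix.replicateRow Unit (rv s p) := by
    rw [← add_assoc]
    congr 1
    ext i j
    simp [R, Matrix.vecMulVec_apply, Matrix.mul_apply]
  rw [detL, e, Matrix.det_add_replicateCol_mul_replicateRow hdet]
  congr 1
  rw [Matrix.det_unique, Matrix.add_apply, Matrix.one_apply_eq, Matrix.mul_assoc,
    ← Matrix.replicateCol_mulVec, Matrix.replicateRow_mul_replicateCol_apply]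

lemma rv_ne (s : ℂ) (p : V × V) (hp : p.1 ≠ p.2) : rv s p ≠ 0 := by
  intro h
  have := congrFun h p.1
  simp [rv, Pi.single_eq_of_ne hp] at this

lemma star_rv (s : ℂ) (hs : (starRingEnd ℂ) s = s) (p : V × V) : star (rv s p) = rv s p := by
  funext v
  simp only [rv, Pi.star_apply, Pi.sub_apply, Pi.smul_apply, smul_eq_mul, RCLike.star_def, map_sub,
    map_mul, hs]
  congr 1
  · by_cases h : v = p.1 <;> simp [Pi.single_apply, h]
  · by_cases h : v = p.2 <;> simp [Pi.single_apply, h]

/-- Stability of all non-negative combinations. -/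
lemma Stab_comb (L : Matrix V V ℂ) (hL : L.IsHermitian) (p : V × V) (hp : p.1 ≠ p.2) (a b : ℝ)
    (ha : 0 ≤ a) (hb : 0 ≤ b) (hab : 0 < a + b) :
    Stab (fun y => (a : ℂ) * detL (L + R 1 p) y + (b : ℂ) * detL (L + R (-1) p) y) := by
  intro y hy h0
  simp only at h0
  rw [detL_add_R L hL y hy, detL_add_R L hL y hy] at h0
  have hd : detL L y ≠ 0 := det_ne L hL y hy
  have h1 := im_inv_form L hL y hy (rv 1 p) (rv_ne 1 p hp)
  have h2 := im_inv_form L hL y hy (rv (-1) p) (rv_ne (-1) p hp)
  rw [star_rv 1 (by simp)] at h1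
  rw [star_rv (-1) (by simp)] at h2
  set A := rv 1 p ⬝ᵥ ((Matrix.diagonal y + L)⁻¹ *ᵥ rv 1 p)
  set B := rv (-1) p ⬝ᵥ ((Matrix.diagonal y + L)⁻¹ *ᵥ rv (-1) p)
  have h3 : (a : ℂ) * (1 + A) + (b : ℂ) * (1 + B) = 0 := by
    have : detL L y * ((a : ℂ) * (1 + A) + (b : ℂ) * (1 + B)) = 0 := by
      rw [← h0]; ring
    exact (mul_eq_zero.1 this).resolve_left hd
  have h4 := congrArg Complex.im h3
  simp only [Complex.add_im, Complex.mul_im, Complex.ofReal_re, Complex.ofReal_im, Complex.one_im,
    zero_mul, add_zero, zero_add, Complex.zero_im] at h4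
  rcases eq_or_lt_of_le ha with h | h
  · have hb' : 0 < b := by rw [← h] at hab; simpa using hab
    rw [← h] at h4
    have := mul_neg_of_pos_of_neg hb' h2
    linarith
  · have h5 := mul_neg_of_pos_of_neg h h1
    have h6 := mul_nonpos_of_nonneg_of_nonpos hb h2.le
    linarith

/-! ### Selection lemma (open mapping theorem) -/

open Filter Topology Set in
lemma sel_aux (P0 P1 : ℂ → ℂ) (h0 : Differentiable ℂ P0) (h1 : Differentiable ℂ P1)
    (p0 p1 : ℝ → ℝ) (e0 : ∀ t : ℝ, P0 t = p0 t) (e1 : ∀ t : ℝ, P1 t = p1 t)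
    (hnr : ∀ c : ℝ, 0 ≤ c → ∀ z : ℂ, z.im ≠ 0 → P0 z + c * P1 z ≠ 0)
    (t1 t0 b : ℝ) (h10 : t1 < t0) (h0b : t0 < b) (hp1 : ∀ t, t1 < t → t ≤ b → 0 < p1 t)
    (hb : 0 < p0 b) (ht1 : 0 < p0 t1) (ht0 : p0 t0 ≤ 0) : False := by
  have c0 : Continuous p0 := by
    have : p0 = fun t : ℝ => (P0 t).re := by funext t; rw [e0]; simp
    rw [this]
    exact Complex.continuous_re.comp (h0.continuous.comp Complex.continuous_ofReal)
  have c1 : Continuous p1 := by
    have : p1 = fun t : ℝ => (P1 t).re := by funext t; rw [e1]; simp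
    rw [this]
    exact Complex.continuous_re.comp (h1.continuous.comp Complex.continuous_ofReal)
  let K : Set ℝ := Icc t1 b ∩ {t | p0 t ≤ 0}
  have hK : IsCompact K := isCompact_Icc.inter_right (isClosed_le c0 continuous_const)
  have hKne : K.Nonempty := ⟨t0, ⟨h10.le, h0b.le⟩, ht0⟩
  have hKp : ∀ t ∈ K, t1 < t ∧ t < b ∧ 0 < p1 t := by
    rintro t ⟨⟨ha, hb'⟩, hc⟩
    have h2 : t1 < t := lt_of_le_of_ne ha (by rintro rfl; exact absurd hc (not_le.2 ht1))
    have h3 : t < b := lt_of_le_of_ne hb' (by rintro rfl; exact absurd hc (not_le.2 hb))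
    exact ⟨h2, h3, hp1 t h2 hb'⟩
  obtain ⟨ts, hts, hmax⟩ := hK.exists_isMaxOn hKne
    (f := fun t => -p0 t / p1 t) (c0.neg.continuousOn.div c1.continuousOn
      fun t ht => (hKp t ht).2.2.ne')
  obtain ⟨hs1, hs2, hs3⟩ := hKp ts hts
  set c : ℝ := -p0 ts / p1 ts with hc
  have hc0 : 0 ≤ c := div_nonneg (neg_nonneg.2 hts.2) hs3.le
  have hle : ∀ t, t1 < t → t < b → -p0 t ≤ c * p1 t := by
    intro t ha hb'
    have hp := hp1 t ha hb'.le
    by_cases ht : p0 t ≤ 0
    · have : -p0 t / p1 t ≤ c := hmax (show t ∈ K from ⟨⟨ha.le, hb'.le⟩, ht⟩)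
      rwa [div_le_iff₀ hp] at this
    · push Not at ht
      have := mul_nonneg hc0 hp.le
      linarith
  -- the meromorphic function
  let Φ : ℂ → ℂ := fun z => -P0 z / P1 z
  have hP1ne : P1 (ts : ℂ) ≠ 0 := by rw [e1]; exact_mod_cast hs3.ne'
  have hΦ : AnalyticAt ℂ Φ (ts : ℂ) :=
    (h0.analyticAt _).neg.div (h1.analyticAt _) hP1ne
  have hΦts : Φ ts = (c : ℂ) := by
    simp only [Φ, e0, e1, hc]; push_cast; ring
  have hev : ∀ᶠ z in 𝓝 (ts : ℂ), t1 < z.re ∧ z.re < b ∧ P1 z ≠ 0 := by
    have a1 : ∀ᶠ z in 𝓝 (ts : ℂ), t1 < z.re :=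
      Complex.continuous_re.continuousAt.eventually_const_lt (by simpa using hs1)
    have a2 : ∀ᶠ z in 𝓝 (ts : ℂ), z.re < b :=
      Complex.continuous_re.continuousAt.eventually_lt_const (by simpa using hs2)
    have a3 : ∀ᶠ z in 𝓝 (ts : ℂ), P1 z ≠ 0 := h1.continuous.continuousAt.eventually_ne hP1ne
    filter_upwards [a1, a2, a3] with z b1 b2 b3 using ⟨b1, b2, b3⟩
  rcases hΦ.eventually_constant_or_nhds_le_map_nhds with hconst | hopen
  · -- there are nonreal points arbitrarily close
    have := hconst.and hev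
    rw [Metric.eventually_nhds_iff] at this
    obtain ⟨ε, hε, hz⟩ := this
    have hz' := @hz ((ts : ℂ) + (ε / 2 : ℝ) * Complex.I) (by
      rw [dist_eq_norm, add_sub_cancel_left, norm_mul, Complex.norm_I, mul_one, Complex.norm_real,
        Real.norm_eq_abs, abs_of_pos (by positivity)]
      linarith)
    obtain ⟨h2, _, _, h3⟩ := hz'
    rw [hΦts] at h2
    simp only [Φ] at h2
    rw [div_eq_iff h3] at h2
    refine hnr c hc0 _ ?_ (by rw [← h2]; ring : P0 ((ts : ℂ) + (ε / 2 : ℝ) * Complex.I) +
      c * P1 ((ts : ℂ) + (ε / 2 : ℝ) * Complex.I) = 0)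
    simp
    positivity
  · have himg : Φ '' {z | t1 < z.re ∧ z.re < b ∧ P1 z ≠ 0} ∈ 𝓝 (c : ℂ) := by
      rw [← hΦts]
      exact hopen (image_mem_map hev)
    rw [Metric.mem_nhds_iff] at himg
    obtain ⟨ε, hε, hball⟩ := himg
    obtain ⟨z, ⟨hz1, hz2, hz3⟩, hz4⟩ := hball (show ((c + ε / 2 : ℝ) : ℂ) ∈ Metric.ball (c : ℂ) ε by
      rw [Metric.mem_ball, dist_eq_norm, ← Complex.ofReal_sub, Complex.norm_real,
        add_sub_cancel_left, Real.norm_eq_abs, abs_of_pos (by positivity)]
      linarith)
    simp only [Φ] at hz4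
    rw [div_eq_iff hz3] at hz4
    have hzim : z.im = 0 := by
      by_contra him
      exact hnr (c + ε / 2) (by positivity) z him (by rw [← hz4]; ring)
    have hzre : z = (z.re : ℂ) := by
      apply Complex.ext <;> simp [hzim]
    rw [hzre, e0, e1] at hz4
    have h5 : -p0 z.re = (c + ε / 2) * p1 z.re := by exact_mod_cast hz4
    have h6 := hle z.re hz1 hz2
    have h7 := hp1 z.re hz1 hz2.le
    nlinarith

open Set in
lemma sel (P0 P1 : ℂ → ℂ) (h0 : Differentiable ℂ P0) (h1 : Differentiable ℂ P1)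
    (p0 p1 : ℝ → ℝ) (e0 : ∀ t : ℝ, P0 t = p0 t) (e1 : ∀ t : ℝ, P1 t = p1 t)
    (hnr : ∀ c : ℝ, 0 ≤ c → ∀ z : ℂ, z.im ≠ 0 → P0 z + c * P1 z ≠ 0)
    (hnr' : ∀ c : ℝ, 0 ≤ c → ∀ z : ℂ, z.im ≠ 0 → P1 z + c * P0 z ≠ 0)
    (lam : ℝ) (hp0 : ∀ t, 0 < t → 0 < p0 t) (hp1 : ∀ t, 0 < t → 0 < p1 t)
    (havg : ∀ t, -lam < t → 0 < p0 t + p1 t) :
    (∀ t, -lam < t → 0 < p0 t) ∨ (∀ t, -lam < t → 0 < p1 t) := by
  by_contra hcon
  push Not at hcon
  obtain ⟨⟨a0, ha0, hpa0⟩, ⟨a1, ha1, hpa1⟩⟩ := hcon
  have c0 : Continuous p0 := by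
    have : p0 = fun t : ℝ => (P0 t).re := by funext t; rw [e0]; simp
    rw [this]
    exact Complex.continuous_re.comp (h0.continuous.comp Complex.continuous_ofReal)
  have c1 : Continuous p1 := by
    have : p1 = fun t : ℝ => (P1 t).re := by funext t; rw [e1]; simp
    rw [this]
    exact Complex.continuous_re.comp (h1.continuous.comp Complex.continuous_ofReal)
  have last : ∀ (q : ℝ → ℝ) (a : ℝ), Continuous q → -lam < a → q a ≤ 0 → (∀ t, 0 < t → 0 < q t) →
      ∃ t, -lam < t ∧ t ≤ 0 ∧ q t ≤ 0 ∧ ∀ s, t < s → 0 < q s := by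
    intro q a hq ha hqa hpos
    have ha0' : a ≤ 0 := by
      by_contra h
      push Not at h
      exact absurd (hpos a h) (not_lt.2 hqa)
    have hK : IsCompact (Icc a 0 ∩ {t | q t ≤ 0}) :=
      isCompact_Icc.inter_right (isClosed_le hq continuous_const)
    obtain ⟨t, ht, hmax⟩ := hK.exists_isGreatest ⟨a, ⟨le_rfl, ha0'⟩, hqa⟩
    refine ⟨t, lt_of_lt_of_le ha ht.1.1, ht.1.2, ht.2, fun s hs => ?_⟩
    by_contra h
    push Not at h
    by_cases hs0 : 0 < s
    · exact absurd (hpos s hs0) (not_lt.2 h)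
    · push Not at hs0
      have := hmax (show s ∈ Icc a 0 ∩ {t | q t ≤ 0} from ⟨⟨ht.1.1.trans hs.le, hs0⟩, h⟩)
      linarith
  obtain ⟨t0, hl0, hz0, hq0, hm0⟩ := last p0 a0 c0 ha0 hpa0 hp0
  obtain ⟨t1, hl1, hz1, hq1, hm1⟩ := last p1 a1 c1 ha1 hpa1 hp1
  have hA : 0 < p0 t1 := by
    have := havg t1 hl1
    linarith
  have hB : 0 < p1 t0 := by
    have := havg t0 hl0
    linarith
  rcases lt_trichotomy t1 t0 with h | h | h
  · exact sel_aux P0 P1 h0 h1 p0 p1 e0 e1 hnr t1 t0 1 h (by linarith) (fun t ht _ => hm1 t ht)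
      (hp0 1 one_pos) hA hq0
  · subst h; linarith
  · exact sel_aux P1 P0 h1 h0 p1 p0 e1 e0 hnr' t0 t1 1 h (by linarith) (fun t ht _ => hm0 t ht)
      (hp1 1 one_pos) hB hq1

/-! ### Choosing the signs one edge at a time -/

/-- Real entries. -/
def RealM (L : Matrix V V ℂ) : Prop := ∀ i j, (starRingEnd ℂ) (L i j) = L i j

lemma psd_R (s : ℂ) (hs : (starRingEnd ℂ) s = s) (p : V × V) : (R s p).PosSemidef := by
  have := Matrix.posSemidef_vecMulVec_self_star (rv s p)
  rwa [star_rv s hs] at this

lemma realM_add_R (L : Matrix V V ℂ) (hL : RealM L) (s : ℂ) (hs : (starRingEnd ℂ) s = s)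
    (p : V × V) : RealM (L + R s p) := by
  intro i j
  have h := star_rv s hs p
  have hi : (starRingEnd ℂ) (rv s p i) = rv s p i := congrFun h i
  have hj : (starRingEnd ℂ) (rv s p j) = rv s p j := congrFun h j
  simp only [Matrix.add_apply, map_add, hL i j, R, Matrix.vecMulVec_apply, map_mul, hi, hj]

lemma Tops_avg (e : V × V) (he : e.1 ≠ e.2) (E : List (V × V)) (L : Matrix V V ℂ) (y : V → ℂ) :
    Tops (e :: E) (detL L) y =
      (1 / 2) * (Tops E (detL (L + R 1 e)) y + Tops E (detL (L + R (-1) e)) y) := by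
  rw [Tops, avg_detL L e he, Tops_smul, Tops_add]

lemma pos_Tops (E : List (V × V)) (hE : ∀ p ∈ E, p.1 ≠ p.2) : ∀ (L : Matrix V V ℂ),
    L.PosSemidef → ∀ t : ℝ, 0 < t → 0 < (Tops E (detL L) (fun _ => (t : ℂ))).re := by
  induction E with
  | nil =>
    intro L hL t ht
    have h1 : (Matrix.diagonal (fun _ : V => (t : ℂ))).PosDef :=
      Matrix.PosDef.diagonal (fun _ => by exact_mod_cast ht)
    have h2 := (h1.add_posSemidef hL).det_pos
    exact (Complex.pos_iff.1 h2).1
  | cons e E ih =>
    intro L hL t ht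
    rw [Tops_avg e (hE e (by simp))]
    have h1 := ih (fun p hp => hE p (by simp [hp])) (L + R 1 e) (hL.add (psd_R 1 (by simp) e)) t ht
    have h2 := ih (fun p hp => hE p (by simp [hp])) (L + R (-1) e)
      (hL.add (psd_R (-1) (by simp) e)) t ht
    have : ((1 / 2 : ℂ) * (Tops E (detL (L + R 1 e)) (fun _ => (t : ℂ)) +
        Tops E (detL (L + R (-1) e)) (fun _ => (t : ℂ)))).re =
        (1 / 2) * ((Tops E (detL (L + R 1 e)) (fun _ => (t : ℂ))).re +
        (Tops E (detL (L + R (-1) e)) (fun _ => (t : ℂ))).re) := by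
      simp [Complex.mul_re]
    rw [this]
    linarith

theorem select (E : List (V × V)) (hnd : E.Nodup) (hE : ∀ p ∈ E, p.1 ≠ p.2) (lam : ℝ) :
    ∀ (L : Matrix V V ℂ), L.PosSemidef → RealM L →
    (∀ t : ℝ, -lam < t → 0 < (Tops E (detL L) (fun _ => (t : ℂ))).re) →
    ∃ s : V × V → ℂ, (∀ p, s p = 1 ∨ s p = -1) ∧
      ∀ t : ℝ, -lam < t → 0 < (detL (L + (E.map fun p => R (s p) p).sum) (fun _ => (t : ℂ))).re := by
  induction E with
  | nil =>
    intro L _ _ h
    refine ⟨fun _ => 1, fun _ => Or.inl rfl, fun t ht => ?_⟩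
    simpa [Tops] using h t ht
  | cons e E ih =>
    intro L hL hR h
    have he : e.1 ≠ e.2 := hE e (by simp)
    have hE' : ∀ p ∈ E, p.1 ≠ p.2 := fun p hp => hE p (by simp [hp])
    rw [List.nodup_cons] at hnd
    have hL1 := hL.add (psd_R 1 (by simp) e)
    have hL2 := hL.add (psd_R (-1) (by simp) e)
    have hR1 := realM_add_R L hR 1 (by simp) e
    have hR2 := realM_add_R L hR (-1) (by simp) e
    set f0 := Tops E (detL (L + R 1 e)) with hf0
    set f1 := Tops E (detL (L + R (-1) e)) with hf1
    have rc0 : RC f0 := (RC_detL _ hR1).Tops E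
    have rc1 : RC f1 := (RC_detL _ hR2).Tops E
    have real_on : ∀ f : (V → ℂ) → ℂ, RC f → ∀ t : ℝ,
        f (fun _ => (t : ℂ)) = ((f (fun _ => (t : ℂ))).re : ℂ) := by
      intro f hf t
      have := hf (fun _ => (t : ℂ))
      simp only [Complex.conj_ofReal] at this
      exact (Complex.conj_eq_iff_re.1 this.symm).symm
    have stab_upper : ∀ (c d : ℝ), 0 ≤ c → 0 ≤ d → 0 < c + d →
        Stab (fun y => (c : ℂ) * f0 y + (d : ℂ) * f1 y) := by
      intro c d hc hd hcd
      have := (Stab_comb L hL.1 e he c d hc hd hcd).Tops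
        (((MA_detL (L + R 1 e)).smul _).add ((MA_detL (L + R (-1) e)).smul _)) E
      rw [Tops_add, Tops_smul, Tops_smul] at this
      exact this
    have hnr : ∀ (c d : ℝ), 0 ≤ c → 0 ≤ d → 0 < c + d → ∀ z : ℂ, z.im ≠ 0 →
        (c : ℂ) * f0 (fun _ => z) + (d : ℂ) * f1 (fun _ => z) ≠ 0 := by
      intro c d hc hd hcd z hz
      rcases lt_or_gt_of_ne hz with hneg | hpos
      · intro h0
        refine stab_upper c d hc hd hcd (fun _ => (starRingEnd ℂ) z) (fun _ => by simpa using hneg) ?_
        have h1 := rc0 (fun _ => z)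
        have h2 := rc1 (fun _ => z)
        simp only
        rw [h1, h2, ← Complex.conj_ofReal c, ← Complex.conj_ofReal d, ← map_mul, ← map_mul, ← map_add,
          h0, map_zero]
      · exact stab_upper c d hc hd hcd (fun _ => z) (fun _ => hpos)
    have hconst : Differentiable ℂ (fun z : ℂ => (fun _ : V => z)) := by
      rw [differentiable_pi]; intro _; exact differentiable_id
    have hsel := sel (fun z => f0 (fun _ => z)) (fun z => f1 (fun _ => z))
      ((diff_Tops (diff_detL _) E).comp hconst) ((diff_Tops (diff_detL _) E).comp hconst)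
      (fun t => (f0 (fun _ => (t : ℂ))).re) (fun t => (f1 (fun _ => (t : ℂ))).re)
      (real_on f0 rc0) (real_on f1 rc1)
      (fun c hc z hz => by
        have := hnr 1 c zero_le_one hc (by linarith) z hz
        simpa using this)
      (fun c hc z hz => by
        have := hnr c 1 hc zero_le_one (by linarith) z hz
        rw [add_comm]
        simpa using this)
      lam (fun t ht => pos_Tops E hE' _ hL1 t ht) (fun t ht => pos_Tops E hE' _ hL2 t ht)
      (fun t ht => by
        have := h t ht
        rw [Tops_avg e he] at this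
        have e2 : ((1 / 2 : ℂ) * (f0 (fun _ => (t : ℂ)) + f1 (fun _ => (t : ℂ)))).re =
            (1 / 2) * ((f0 (fun _ => (t : ℂ))).re + (f1 (fun _ => (t : ℂ))).re) := by
          simp [Complex.mul_re]
        rw [e2] at this
        linarith)
    have finish : ∀ a : ℂ, (a = 1 ∨ a = -1) → ∀ s : V × V → ℂ, (∀ p, s p = 1 ∨ s p = -1) →
        (∀ t : ℝ, -lam < t →
          0 < (detL ((L + R a e) + (E.map fun p => R (s p) p).sum) (fun _ => (t : ℂ))).re) →
        ∃ s : V × V → ℂ, (∀ p, s p = 1 ∨ s p = -1) ∧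
          ∀ t : ℝ, -lam < t →
            0 < (detL (L + ((e :: E).map fun p => R (s p) p).sum) (fun _ => (t : ℂ))).re := by
      intro a ha s hs hh
      refine ⟨Function.update s e a, ?_, ?_⟩
      · intro p
        by_cases hp : p = e
        · subst hp; simpa using ha
        · simpa [Function.update_of_ne hp] using hs p
      · intro t ht
        have e3 : L + ((e :: E).map fun p => R (Function.update s e a p) p).sum =
            (L + R a e) + (E.map fun p => R (s p) p).sum := by
          rw [List.map_cons, List.sum_cons, Function.update_self, add_assoc]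
          congr 3
          apply List.map_congr_left
          intro p hp
          have : p ≠ e := fun h => hnd.1 (h ▸ hp)
          rw [Function.update_of_ne this]
        rw [e3]
        exact hh t ht
    rcases hsel with h1 | h1
    · obtain ⟨s, hs, hh⟩ := ih hnd.2 hE' (L + R 1 e) hL1 hR1 h1
      exact finish 1 (Or.inl rfl) s hs hh
    · obtain ⟨s, hs, hh⟩ := ih hnd.2 hE' (L + R (-1) e) hL2 hR2 h1
      exact finish (-1) (Or.inr rfl) s hs hh

end Pool.Agent.V1137.Signing
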