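import Mathlib
import Pool.Agent.V1137.Signing

/-!
# The averaged polynomial is a weighted matching polynomial; positivity from a supersolution
-/

namespace Pool.Agent.V1137.Signing

open Finset

variable {V : Type*} [DecidableEq V]

/-- Weighted matching polynomial of a list of edges, restricted to a vertex set. -/
def Z {K : Type*} [CommRing K] : List (V × V) → (V → K) → Finset V → K
  | [], w, H => ∏ v ∈ H, w v
  | e :: E, w, H => Z E w H - if e.1 ∈ H ∧ e.2 ∈ H then Z E w ((H.erase e.1).erase e.2) else 0

lemma Z_cast (E : List (V × V)) (w : V → ℝ) : ∀ H : Finset V,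
    Z E (fun v => ((w v : ℝ) : ℂ)) H = ((Z E w H : ℝ) : ℂ) := by
  induction E with
  | nil => intro H; simp [Z]
  | cons e E ih =>
    intro H
    simp only [Z]
    rw [ih]
    split_ifs with h
    · rw [ih]; push_cast; ring
    · push_cast; ring

lemma Z_empty {K : Type*} [CommRing K] (E : List (V × V)) (w : V → K) : Z E w ∅ = 1 := by
  induction E with
  | nil => simp [Z]
  | cons e E ih => simp [Z, ih]

lemma Z_shift {K : Type*} [CommRing K] (E : List (V × V)) (u : V) (w : V → K) : ∀ H : Finset V,
    Z E (fun v => w v + if v = u then 1 else 0) H =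
      Z E w H + if u ∈ H then Z E w (H.erase u) else 0 := by
  induction E with
  | nil =>
    intro H
    simp only [Z]
    split_ifs with h
    · rw [← Finset.mul_prod_erase _ _ h, ← Finset.mul_prod_erase _ w h]
      have : ∏ v ∈ H.erase u, (w v + if v = u then 1 else 0) = ∏ v ∈ H.erase u, w v := by
        apply Finset.prod_congr rfl
        intro v hv
        rw [if_neg (Finset.ne_of_mem_erase hv), add_zero]
      rw [this, if_pos rfl]
      ring
    · rw [add_zero]
      apply Finset.prod_congr rfl
      intro v hv
      rw [if_neg (by rintro rfl; exact h hv), add_zero]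
  | cons e E ih =>
    intro H
    simp only [Z]
    rw [ih H]
    by_cases hab : e.1 ∈ H ∧ e.2 ∈ H
    · rw [if_pos hab, if_pos hab, ih]
      by_cases hu : u ∈ H
      · rw [if_pos hu, if_pos hu]
        by_cases hu1 : u = e.1
        · have h1 : ¬ (u ∈ (H.erase e.1).erase e.2) := by simp [hu1]
          have h2 : ¬ (e.1 ∈ H.erase u ∧ e.2 ∈ H.erase u) := by simp [hu1]
          rw [if_neg h1, if_neg h2]; ring
        · by_cases hu2 : u = e.2
          · have h1 : ¬ (u ∈ (H.erase e.1).erase e.2) := by simp [hu2]
            have h2 : ¬ (e.1 ∈ H.erase u ∧ e.2 ∈ H.erase u) := by simp [hu2]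
            rw [if_neg h1, if_neg h2]; ring
          · have h1 : u ∈ (H.erase e.1).erase e.2 := by simp [hu1, hu2, hu]
            have h2 : (e.1 ∈ H.erase u ∧ e.2 ∈ H.erase u) := by
              simp [Ne.symm hu1, Ne.symm hu2, hab]
            rw [if_pos h1, if_pos h2]
            have h3 : (((H.erase e.1).erase e.2).erase u) = ((H.erase u).erase e.1).erase e.2 := by
              ext x; simp only [Finset.mem_erase]; tauto
            rw [h3]; ring
      · rw [if_neg hu, if_neg hu]
        have h1 : ¬ (u ∈ (H.erase e.1).erase e.2) := by simp [hu]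
        rw [if_neg h1]; ring
    · rw [if_neg hab, if_neg hab]
      have h2 : ¬ (e.1 ∈ H.erase u ∧ e.2 ∈ H.erase u) := by
        intro h
        exact hab ⟨Finset.mem_of_mem_erase h.1, Finset.mem_of_mem_erase h.2⟩
      rw [if_neg h2]
      ring

/-- Number of edges of the list at `v`. -/
def dg (E : List (V × V)) (v : V) : ℕ :=
  (E.map fun p => (if v = p.1 then 1 else 0) + (if v = p.2 then 1 else 0)).sum

lemma dd_mono (H : Finset V) (u : V) (y : V → ℂ) :
    dd u (fun y => ∏ v ∈ H, y v) y = (if u ∈ H then 1 else 0) * ∏ v ∈ H.erase u, y v := by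
  simp only [dd]
  have hne : ∀ a : ℂ, ∏ v ∈ H.erase u, Function.update y u a v = ∏ v ∈ H.erase u, y v := by
    intro a
    apply Finset.prod_congr rfl
    intro v hv
    rw [Function.update_of_ne (Finset.ne_of_mem_erase hv)]
  by_cases h : u ∈ H
  · rw [← Finset.mul_prod_erase _ _ h, ← Finset.mul_prod_erase _ (Function.update y u 0) h, hne, hne,
      if_pos h]
    simp
  · have : ∀ a : ℂ, ∏ v ∈ H, Function.update y u a v = ∏ v ∈ H, y v := by
      intro a
      apply Finset.prod_congr rfl
      intro v hv
      rw [Function.update_of_ne (by rintro rfl; exact h hv)]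
    rw [this, this, if_neg h]
    ring

/-- The averaged function is the weighted matching polynomial. -/
theorem Tops_mono (E : List (V × V)) (hE : ∀ p ∈ E, p.1 ≠ p.2) : ∀ (H : Finset V) (y : V → ℂ),
    Tops E (fun y => ∏ v ∈ H, y v) y = Z E (fun v => y v + dg E v) H := by
  induction E with
  | nil => intro H y; simp [Tops, Z, dg]
  | cons e E ih =>
    intro H y
    have he : e.1 ≠ e.2 := hE e (by simp)
    have ih' := ih (fun p hp => hE p (by simp [hp]))
    have htop : Top e (fun y : V → ℂ => ∏ v ∈ H, y v) = fun y =>
        ((∏ v ∈ H, y v) + (if e.1 ∈ H then 1 else 0) * ∏ v ∈ H.erase e.1, y v) +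
          (if e.2 ∈ H then 1 else 0) * ∏ v ∈ H.erase e.2, y v := by
      funext y
      simp only [Top, dd_mono]
    rw [Tops, htop, Tops_add, Tops_add, Tops_smul, Tops_smul]
    simp only [ih']
    have hw : (fun v => y v + (dg (e :: E) v : ℂ)) =
        fun v => ((y v + (dg E v : ℂ)) + if v = e.1 then 1 else 0) + if v = e.2 then 1 else 0 := by
      funext v
      simp only [dg, List.map_cons, List.sum_cons]
      push_cast
      ring
    rw [hw]
    set w : V → ℂ := fun v => y v + (dg E v : ℂ) with hwdef
    simp only [Z]
    have hs : ∀ H : Finset V, Z E (fun v => (w v + if v = e.1 then 1 else 0) +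
        if v = e.2 then 1 else 0) H =
        Z E w H + (if e.1 ∈ H then Z E w (H.erase e.1) else 0) +
        if e.2 ∈ H then (Z E w (H.erase e.2) + if e.1 ∈ H.erase e.2 then
          Z E w ((H.erase e.2).erase e.1) else 0) else 0 := by
      intro H
      rw [Z_shift E e.2 (fun v => w v + if v = e.1 then 1 else 0) H, Z_shift E e.1 w H,
        Z_shift E e.1 w (H.erase e.2)]
    have hw' : (fun v => y v + (dg E v : ℂ) + (if v = e.1 then 1 else 0) +
        if v = e.2 then 1 else 0) = (fun v => (w v + if v = e.1 then 1 else 0) +
        if v = e.2 then 1 else 0) := rfl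
    rw [hw', hs, hs]
    have hc : (H.erase e.2).erase e.1 = (H.erase e.1).erase e.2 := Finset.erase_right_comm
    by_cases h1 : e.1 ∈ H <;> by_cases h2 : e.2 ∈ H <;>
      simp [h1, h2, he, he.symm, hc]
    ring

/-- Sum over the edges of the list at `u`. -/
def inc {K : Type*} [CommRing K] (E : List (V × V)) (u : V) (F : V → K) : K :=
  (E.map fun p => if p.1 = u then F p.2 else if p.2 = u then F p.1 else 0).sum

lemma inc_sub {K : Type*} [CommRing K] (E : List (V × V)) (u : V) (F F' : V → K) :
    inc E u (fun c => F c - F' c) = inc E u F - inc E u F' := by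
  induction E with
  | nil => simp [inc]
  | cons e E ih =>
    simp only [inc, List.map_cons, List.sum_cons] at ih ⊢
    rw [ih]
    split_ifs <;> ring

/-- Expansion of the matching polynomial at a vertex. -/
theorem Z_vertex {K : Type*} [CommRing K] (E : List (V × V)) (hE : ∀ p ∈ E, p.1 ≠ p.2)
    (w : V → K) (u : V) : ∀ H : Finset V, u ∈ H →
    Z E w H = w u * Z E w (H.erase u) -
      inc E u (fun c => if c ∈ H then Z E w ((H.erase u).erase c) else 0) := by
  induction E with
  | nil =>
    intro H hu
    simp only [Z, inc, List.map_nil, List.sum_nil, sub_zero]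
    rw [Finset.mul_prod_erase _ _ hu]
  | cons e E ih =>
    intro H hu
    have he : e.1 ≠ e.2 := hE e (by simp)
    have ih' := ih (fun p hp => hE p (by simp [hp]))
    simp only [Z, inc, List.map_cons, List.sum_cons]
    rw [ih' H hu]
    by_cases h1 : e.1 = u
    · subst h1
      rw [if_pos rfl, if_neg (by simp : ¬ (e.1 ∈ H.erase e.1 ∧ e.2 ∈ H.erase e.1))]
      have hG : (fun c => if c ∈ H then Z E w ((H.erase e.1).erase c) -
          (if e.1 ∈ (H.erase e.1).erase c ∧ e.2 ∈ (H.erase e.1).erase c then
            Z E w ((((H.erase e.1).erase c).erase e.1).erase e.2) else 0) else 0) =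
          (fun c => if c ∈ H then Z E w ((H.erase e.1).erase c) else 0) := by
        funext c
        rw [if_neg (by simp : ¬ (e.1 ∈ (H.erase e.1).erase c ∧ e.2 ∈ (H.erase e.1).erase c)),
          sub_zero]
      rw [if_neg (by simp : ¬ (e.1 ∈ (H.erase e.1).erase e.2 ∧ e.2 ∈ (H.erase e.1).erase e.2))]
      have hG' : inc E e.1 (fun c => if c ∈ H then Z E w ((H.erase e.1).erase c) -
          (if e.1 ∈ (H.erase e.1).erase c ∧ e.2 ∈ (H.erase e.1).erase c then
            Z E w ((((H.erase e.1).erase c).erase e.1).erase e.2) else 0) else 0) =
          inc E e.1 (fun c => if c ∈ H then Z E w ((H.erase e.1).erase c) else 0) := by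
        rw [hG]
      simp only [inc] at hG' ⊢
      rw [hG']
      simp only [hu, true_and]
      split_ifs <;> ring
    · by_cases h2 : e.2 = u
      · subst h2
        rw [if_neg h1, if_pos rfl, if_neg (by simp : ¬ (e.1 ∈ H.erase e.2 ∧ e.2 ∈ H.erase e.2))]
        have hG : (fun c => if c ∈ H then Z E w ((H.erase e.2).erase c) -
            (if e.1 ∈ (H.erase e.2).erase c ∧ e.2 ∈ (H.erase e.2).erase c then
              Z E w ((((H.erase e.2).erase c).erase e.1).erase e.2) else 0) else 0) =
            (fun c => if c ∈ H then Z E w ((H.erase e.2).erase c) else 0) := by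
          funext c
          rw [if_neg (by simp : ¬ (e.1 ∈ (H.erase e.2).erase c ∧ e.2 ∈ (H.erase e.2).erase c)),
            sub_zero]
        rw [if_neg (by simp : ¬ (e.1 ∈ (H.erase e.2).erase e.1 ∧ e.2 ∈ (H.erase e.2).erase e.1))]
        have hG' : inc E e.2 (fun c => if c ∈ H then Z E w ((H.erase e.2).erase c) -
            (if e.1 ∈ (H.erase e.2).erase c ∧ e.2 ∈ (H.erase e.2).erase c then
              Z E w ((((H.erase e.2).erase c).erase e.1).erase e.2) else 0) else 0) =
            inc E e.2 (fun c => if c ∈ H then Z E w ((H.erase e.2).erase c) else 0) := by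
          rw [hG]
        simp only [inc] at hG' ⊢
        rw [hG']
        have hc : (H.erase e.2).erase e.1 = (H.erase e.1).erase e.2 := Finset.erase_right_comm
        simp only [hu, and_true, hc]
        split_ifs <;> ring
      · rw [if_neg h1, if_neg h2, zero_add]
        by_cases hab : e.1 ∈ H ∧ e.2 ∈ H
        · rw [if_pos hab]
          have hu' : u ∈ (H.erase e.1).erase e.2 := by simp [Ne.symm h1, Ne.symm h2, hu]
          rw [ih' _ hu', if_pos (by simp [h1, h2, hab] : e.1 ∈ H.erase u ∧ e.2 ∈ H.erase u)]
          have hG : (fun c => if c ∈ H then Z E w ((H.erase u).erase c) -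
              (if e.1 ∈ (H.erase u).erase c ∧ e.2 ∈ (H.erase u).erase c then
                Z E w ((((H.erase u).erase c).erase e.1).erase e.2) else 0) else 0) =
              (fun c => (fun c => if c ∈ H then Z E w ((H.erase u).erase c) else 0) c -
                (fun c => if c ∈ (H.erase e.1).erase e.2 then
                  Z E w ((((H.erase e.1).erase e.2).erase u).erase c) else 0) c) := by
            funext c
            simp only
            by_cases hc : c ∈ H
            · rw [if_pos hc, if_pos hc]
              congr 1
              by_cases hc' : c ∈ (H.erase e.1).erase e.2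
              · rw [if_pos hc']
                simp only [Finset.mem_erase] at hc'
                rw [if_pos (by simp [h1, h2, hab, Ne.symm hc'.1, Ne.symm hc'.2.1])]
                congr 1
                ext x; simp only [Finset.mem_erase]; tauto
              · rw [if_neg hc', if_neg]
                intro h
                simp only [Finset.mem_erase] at h hc'
                tauto
            · rw [if_neg hc, if_neg hc, if_neg (by
                intro h; exact hc (Finset.mem_of_mem_erase (Finset.mem_of_mem_erase h)))]
              ring
          have hG' : inc E u (fun c => if c ∈ H then Z E w ((H.erase u).erase c) -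
              (if e.1 ∈ (H.erase u).erase c ∧ e.2 ∈ (H.erase u).erase c then
                Z E w ((((H.erase u).erase c).erase e.1).erase e.2) else 0) else 0) =
              inc E u (fun c => if c ∈ H then Z E w ((H.erase u).erase c) else 0) -
              inc E u (fun c => if c ∈ (H.erase e.1).erase e.2 then
                  Z E w ((((H.erase e.1).erase e.2).erase u).erase c) else 0) := by
            rw [hG, inc_sub]
          simp only [inc] at hG' ⊢
          rw [hG']
          have hc : ((H.erase e.1).erase e.2).erase u = ((H.erase u).erase e.1).erase e.2 := by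
            ext x; simp only [Finset.mem_erase]; tauto
          rw [hc]
          ring
        · rw [if_neg hab]
          rw [if_neg (by
            intro h
            exact hab ⟨Finset.mem_of_mem_erase h.1, Finset.mem_of_mem_erase h.2⟩ :
              ¬ (e.1 ∈ H.erase u ∧ e.2 ∈ H.erase u))]
          have hG : (fun c => if c ∈ H then Z E w ((H.erase u).erase c) -
              (if e.1 ∈ (H.erase u).erase c ∧ e.2 ∈ (H.erase u).erase c then
                Z E w ((((H.erase u).erase c).erase e.1).erase e.2) else 0) else 0) =
              (fun c => if c ∈ H then Z E w ((H.erase u).erase c) else 0) := by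
            funext c
            rw [if_neg (by
              intro h
              simp only [Finset.mem_erase] at h
              exact hab ⟨h.1.2.2, h.2.2.2⟩ :
              ¬ (e.1 ∈ (H.erase u).erase c ∧ e.2 ∈ (H.erase u).erase c)), sub_zero]
          have hG' : inc E u (fun c => if c ∈ H then Z E w ((H.erase u).erase c) -
              (if e.1 ∈ (H.erase u).erase c ∧ e.2 ∈ (H.erase u).erase c then
                Z E w ((((H.erase u).erase c).erase e.1).erase e.2) else 0) else 0) =
              inc E u (fun c => if c ∈ H then Z E w ((H.erase u).erase c) else 0) := by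
            rw [hG]
          simp only [inc] at hG' ⊢
          rw [hG']
          ring

end Pool.Agent.V1137.Signing
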