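import Mathlib
import Pool.Agent.V1137.SigningZ

/-!
# Signings of a graph: from supersolutions to signings with large smallest Laplacian eigenvalue
-/

namespace Pool.Agent.V1137.Signing

open Finset
open scoped ComplexOrder

variable {V : Type*} [Fintype V] [DecidableEq V]

/-- The edges of `G` as a list of ordered pairs (one orientation for each edge). -/
noncomputable def eList (G : SimpleGraph V) [DecidableRel G.Adj] : List (V × V) :=
  G.edgeFinset.toList.map (fun e => Quot.out e)

variable (G : SimpleGraph V) [DecidableRel G.Adj]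

lemma mem_eList {p : V × V} (hp : p ∈ eList G) : G.Adj p.1 p.2 ∧ Quot.out (s(p.1, p.2)) = p := by
  simp only [eList, List.mem_map, Finset.mem_toList, SimpleGraph.mem_edgeFinset] at hp
  obtain ⟨e, he, rfl⟩ := hp
  have h : s((Quot.out e).1, (Quot.out e).2) = e := Quot.out_eq e
  rw [h]
  refine ⟨?_, rfl⟩
  rw [← SimpleGraph.mem_edgeSet, h]
  exact he

lemma eList_ne {p : V × V} (hp : p ∈ eList G) : p.1 ≠ p.2 := (mem_eList G hp).1.ne

lemma eList_nodup : (eList G).Nodup := by
  apply List.Nodup.map _ (Finset.nodup_toList _)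
  intro a b h
  have := congrArg (Quot.mk (Sym2.Rel V)) h
  rwa [Quot.out_eq, Quot.out_eq] at this

/-- Incidence sums are sums over neighbours. -/
lemma inc_eList {K : Type*} [CommRing K] (u : V) (F : V → K) :
    inc (eList G) u F = ∑ c ∈ G.neighborFinset u, F c := by
  have h1 : inc (eList G) u F = ∑ e ∈ G.edgeFinset,
      (if (Quot.out e).1 = u then F (Quot.out e).2 else if (Quot.out e).2 = u then
        F (Quot.out e).1 else 0) := by
    rw [inc, eList, List.map_map, Finset.sum_map_toList]
    rfl
  rw [h1]
  symm
  have hinj : Set.InjOn (fun c => s(u, c)) (G.neighborFinset u : Set V) := by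
    intro a _ b _ h
    have h' : a = b ∨ u = b ∧ a = u := by simpa using h
    rcases h' with h' | ⟨h1, h2⟩
    · exact h'
    · rw [h2, h1]
  have hsub : (G.neighborFinset u).image (fun c => s(u, c)) ⊆ G.edgeFinset := by
    intro e he
    simp only [Finset.mem_image, SimpleGraph.mem_neighborFinset] at he
    obtain ⟨c, hc, rfl⟩ := he
    simpa using hc
  rw [← Finset.sum_subset hsub]
  · rw [Finset.sum_image hinj]
    apply Finset.sum_congr rfl
    intro c hc
    rw [SimpleGraph.mem_neighborFinset] at hc
    have hout : s((Quot.out s(u, c)).1, (Quot.out s(u, c)).2) = s(u, c) := Quot.out_eq _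
    rw [Sym2.eq_iff] at hout
    rcases hout with ⟨h2, h3⟩ | ⟨h2, h3⟩
    · rw [h2, h3, if_pos rfl]
    · rw [h2, h3, if_neg hc.ne', if_pos rfl]
  · intro e he hne
    rw [SimpleGraph.mem_edgeFinset] at he
    have hout : s((Quot.out e).1, (Quot.out e).2) = e := Quot.out_eq _
    have hadj : G.Adj (Quot.out e).1 (Quot.out e).2 := by
      rw [← SimpleGraph.mem_edgeSet, hout]; exact he
    split_ifs with h2 h3
    · exfalso
      apply hne
      rw [Finset.mem_image]
      refine ⟨(Quot.out e).2, ?_, ?_⟩
      · rw [SimpleGraph.mem_neighborFinset, ← h2]; exact hadj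
      · rw [← h2]; exact hout
    · exfalso
      apply hne
      rw [Finset.mem_image]
      refine ⟨(Quot.out e).1, ?_, ?_⟩
      · rw [SimpleGraph.mem_neighborFinset, ← h3]; exact hadj.symm
      · rw [← h3, Sym2.eq_swap]; exact hout
    · rfl

lemma dg_eList (v : V) : dg (eList G) v = G.degree v := by
  have h : (dg (eList G) v : ℤ) = inc (eList G) v (fun _ => (1 : ℤ)) := by
    have : ∀ E : List (V × V), (∀ p ∈ E, p.1 ≠ p.2) →
        (dg E v : ℤ) = inc E v (fun _ => (1 : ℤ)) := by
      intro E
      induction E with
      | nil => intro _; simp [dg, inc]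
      | cons e E ih =>
        intro hE
        have ih' := ih (fun p hp => hE p (by simp [hp]))
        have he := hE e (by simp)
        simp only [dg, inc, List.map_cons, List.sum_cons] at ih' ⊢
        rw [← ih']
        push_cast
        congr 1
        by_cases h1 : v = e.1
        · subst h1
          simp [he]
        · by_cases h2 : v = e.2
          · subst h2
            simp [he.symm, he]
          · simp [h1, h2, Ne.symm h1, Ne.symm h2]
    exact this _ (fun p hp => eList_ne G hp)
  rw [inc_eList] at h
  simp only [Finset.sum_const, SimpleGraph.card_neighborFinset_eq_degree, nsmul_eq_mul,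
    mul_one] at h
  exact_mod_cast h

/-- Positivity of the weighted matching polynomial from a supersolution on directed edges. -/
theorem Z_pos (w : V → ℝ) (ρ : V → V → ℝ) (r : V) (hρ : ∀ u c, 0 < ρ u c)
    (h1 : ∀ u, ∑ c ∈ G.neighborFinset u, ρ u c < w u)
    (h2 : ∀ v u, G.Adj v u → u ≠ r → 1 / ρ v u ≤ w u - ∑ c ∈ (G.neighborFinset u).erase v, ρ u c) :
    0 < Z (eList G) w Finset.univ := by
  have hE : ∀ p ∈ eList G, p.1 ≠ p.2 := fun p hp => eList_ne G hp
  have hexp : ∀ (H : Finset V) (u : V), u ∈ H → Z (eList G) w H = w u * Z (eList G) w (H.erase u) -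
      ∑ c ∈ (G.neighborFinset u).filter (· ∈ H), Z (eList G) w ((H.erase u).erase c) := by
    intro H u hu
    rw [Z_vertex (eList G) hE w u H hu, inc_eList, Finset.sum_filter]
  have key : ∀ n : ℕ, ∀ H : Finset V, H.card = n → r ∉ H →
      0 < Z (eList G) w H ∧ ∀ u ∈ H, ∀ v, v ∉ H → G.Adj v u →
        Z (eList G) w (H.erase u) ≤ ρ v u * Z (eList G) w H := by
    intro n
    induction n with
    | zero =>
      intro H hH _
      rw [Finset.card_eq_zero] at hH
      subst hH
      refine ⟨by rw [Z_empty]; exact one_pos, fun u hu => by simp at hu⟩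
    | succ n ih =>
      intro H hH hr
      have step : ∀ u ∈ H, 0 < Z (eList G) w (H.erase u) ∧
          ∀ c ∈ (G.neighborFinset u).filter (· ∈ H),
            Z (eList G) w ((H.erase u).erase c) ≤ ρ u c * Z (eList G) w (H.erase u) := by
        intro u hu
        have hcard : (H.erase u).card = n := by rw [Finset.card_erase_of_mem hu]; omega
        obtain ⟨hpos, hrat⟩ := ih (H.erase u) hcard (fun h => hr (Finset.mem_of_mem_erase h))
        refine ⟨hpos, fun c hc => ?_⟩
        rw [Finset.mem_filter, SimpleGraph.mem_neighborFinset] at hc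
        exact hrat c (Finset.mem_erase.2 ⟨hc.1.ne', hc.2⟩) u (by simp) hc.1
      have hne : H.Nonempty := Finset.card_pos.1 (by omega)
      constructor
      · obtain ⟨u, hu⟩ := hne
        obtain ⟨hpos, hc⟩ := step u hu
        rw [hexp H u hu]
        have hs : ∑ c ∈ (G.neighborFinset u).filter (· ∈ H), Z (eList G) w ((H.erase u).erase c) ≤
            (∑ c ∈ G.neighborFinset u, ρ u c) * Z (eList G) w (H.erase u) := by
          calc _ ≤ ∑ c ∈ (G.neighborFinset u).filter (· ∈ H), ρ u c * Z (eList G) w (H.erase u) :=
                Finset.sum_le_sum hc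
            _ ≤ ∑ c ∈ G.neighborFinset u, ρ u c * Z (eList G) w (H.erase u) :=
                Finset.sum_le_sum_of_subset_of_nonneg (Finset.filter_subset _ _)
                  (fun c _ _ => (mul_pos (hρ u c) hpos).le)
            _ = _ := by rw [Finset.sum_mul]
        have := mul_lt_mul_of_pos_right (h1 u) hpos
        linarith
      · intro u hu v hv hadj
        obtain ⟨hpos, hc⟩ := step u hu
        have hur : u ≠ r := fun h => hr (h ▸ hu)
        have hsub : (G.neighborFinset u).filter (· ∈ H) ⊆ (G.neighborFinset u).erase v := by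
          intro c hc
          rw [Finset.mem_filter] at hc
          exact Finset.mem_erase.2 ⟨fun h => hv (h ▸ hc.2), hc.1⟩
        have hs : ∑ c ∈ (G.neighborFinset u).filter (· ∈ H), Z (eList G) w ((H.erase u).erase c) ≤
            (∑ c ∈ (G.neighborFinset u).erase v, ρ u c) * Z (eList G) w (H.erase u) := by
          calc _ ≤ ∑ c ∈ (G.neighborFinset u).filter (· ∈ H), ρ u c * Z (eList G) w (H.erase u) :=
                Finset.sum_le_sum hc
            _ ≤ ∑ c ∈ (G.neighborFinset u).erase v, ρ u c * Z (eList G) w (H.erase u) :=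
                Finset.sum_le_sum_of_subset_of_nonneg hsub
                  (fun c _ _ => (mul_pos (hρ u c) hpos).le)
            _ = _ := by rw [Finset.sum_mul]
        have hle : 1 / ρ v u * Z (eList G) w (H.erase u) ≤ Z (eList G) w H := by
          rw [hexp H u hu]
          have := mul_le_mul_of_nonneg_right (h2 v u hadj hur) hpos.le
          linarith
        have h3 := mul_le_mul_of_nonneg_left hle (hρ v u).le
        have h4 : ρ v u * (1 / ρ v u * Z (eList G) w (H.erase u)) = Z (eList G) w (H.erase u) := by
          field_simp [(hρ v u).ne']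
        rw [h4] at h3
        exact h3
  -- the root
  rw [hexp Finset.univ r (Finset.mem_univ r)]
  obtain ⟨hpos, hrat⟩ := key _ (Finset.univ.erase r) rfl (by simp)
  have hs : ∑ c ∈ (G.neighborFinset r).filter (· ∈ Finset.univ),
      Z (eList G) w ((Finset.univ.erase r).erase c) ≤
      (∑ c ∈ G.neighborFinset r, ρ r c) * Z (eList G) w (Finset.univ.erase r) := by
    rw [Finset.sum_mul, Finset.filter_true_of_mem (fun c _ => Finset.mem_univ c)]
    apply Finset.sum_le_sum
    intro c hc
    rw [SimpleGraph.mem_neighborFinset] at hc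
    exact hrat c (Finset.mem_erase.2 ⟨hc.ne', Finset.mem_univ c⟩) r (by simp) hc
  have := mul_lt_mul_of_pos_right (h1 r) hpos
  linarith

/-- The signed Laplacian matrix. -/
def sLap (σ : V → V → ℂ) : Matrix V V ℂ := fun x y =>
  if x = y then (G.degree x : ℂ) else if G.Adj x y then -σ x y else 0

lemma sum_R (s : V × V → ℂ) (hs : ∀ p, s p = 1 ∨ s p = -1) :
    ∃ σ : V → V → ℂ, (∀ x y, σ x y = 1 ∨ σ x y = -1) ∧ (∀ x y, G.Adj x y → σ x y = σ y x) ∧
      ((eList G).map fun p => R (s p) p).sum = sLap G σ := by
  classical
  let τ : V → V → ℂ := fun x c => s (Quot.out s(x, c))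
  have hτ : ∀ x c, τ x c = 1 ∨ τ x c = -1 := fun x c => hs _
  have hsym : ∀ x y, τ x y = τ y x := fun x y => by simp only [τ]; rw [Sym2.eq_swap]
  refine ⟨τ, hτ, fun x y _ => hsym x y, ?_⟩
  have hmem : ∀ p ∈ eList G, s p = τ p.1 p.2 := by
    intro p hp
    simp only [τ]
    rw [(mem_eList G hp).2]
  ext x y
  have hentry : ∀ E : List (V × V), (∀ p ∈ E, p.1 ≠ p.2 ∧ s p = τ p.1 p.2) →
      ((E.map fun p => R (s p) p).sum) x y =
        if x = y then inc E x (fun _ => (1 : ℂ)) else inc E x (fun c => if c = y then -τ x c else 0) := by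
    intro E
    induction E with
    | nil => intro _; simp [inc]
    | cons e E ih =>
      intro hE
      obtain ⟨he, hse⟩ := hE e (by simp)
      have ih' := ih (fun p hp => hE p (by simp [hp]))
      rw [List.map_cons, List.sum_cons, Matrix.add_apply, ih']
      have hR : R (s e) e x y = if x = y then
          (if e.1 = x then 1 else if e.2 = x then 1 else 0) else
          (if e.1 = x then (if e.2 = y then -τ x e.2 else 0) else if e.2 = x then
            (if e.1 = y then -τ x e.1 else 0) else 0) := by
        have hss : s e * s e = 1 := by rcases hs e with h | h <;> rw [h] <;> ring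
        simp only [R, Matrix.vecMulVec_apply, rv, Pi.sub_apply, Pi.smul_apply, smul_eq_mul,
          Pi.single_apply]
        by_cases hxy : x = y
        · subst hxy
          rw [if_pos rfl]
          by_cases h1 : e.1 = x
          · subst h1
            simp [he]
          · by_cases h2 : e.2 = x
            · subst h2
              simp [he.symm, he, hss]
            · simp [h1, h2, Ne.symm h1, Ne.symm h2]
        · rw [if_neg hxy]
          by_cases h1 : e.1 = x
          · subst h1
            by_cases h3 : e.2 = y
            · subst h3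
              simp [he, he.symm, hse]
            · simp [he, Ne.symm hxy, h3, Ne.symm h3]
          · by_cases h2 : e.2 = x
            · subst h2
              by_cases h3 : e.1 = y
              · subst h3
                simp [he, he.symm, hse, hsym e.2 e.1]
              · simp [he, he.symm, h3, Ne.symm h3, hxy, Ne.symm hxy]
            · simp [h1, h2, Ne.symm h1, Ne.symm h2]
      rw [hR]
      simp only [inc, List.map_cons, List.sum_cons]
      split_ifs <;> ring
  rw [hentry _ (fun p hp => ⟨eList_ne G hp, hmem p hp⟩), inc_eList, inc_eList, sLap]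
  by_cases hxy : x = y
  · rw [if_pos hxy, if_pos hxy]
    simp
  · rw [if_neg hxy, if_neg hxy]
    by_cases hadj : G.Adj x y
    · rw [if_pos hadj, Finset.sum_ite_eq' (G.neighborFinset x) y, if_pos (by simpa using hadj)]
    · rw [if_neg hadj, Finset.sum_ite_eq' (G.neighborFinset x) y, if_neg (by simpa using hadj)]

/-- **Main theorem.** If the directed edges carry a positive supersolution for `lam`, then the graph
has a signing all of whose Laplacian eigenvalues are at least `lam`. -/
theorem exists_signing (lam : ℝ) (ρ : V → V → ℝ) (r : V) (hρ : ∀ u c, 0 < ρ u c)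
    (h1 : ∀ u, ∑ c ∈ G.neighborFinset u, ρ u c ≤ G.degree u - lam)
    (h2 : ∀ v u, G.Adj v u → u ≠ r →
      1 / ρ v u ≤ G.degree u - lam - ∑ c ∈ (G.neighborFinset u).erase v, ρ u c) :
    ∃ σ : V → V → ℂ, (∀ x y, σ x y = 1 ∨ σ x y = -1) ∧ (∀ x y, G.Adj x y → σ x y = σ y x) ∧
      ∀ t : ℝ, -lam < t → (Matrix.diagonal (fun _ => (t : ℂ)) + sLap G σ).det ≠ 0 := by
  have hbase : ∀ t : ℝ, -lam < t →
      0 < (Tops (eList G) (detL (0 : Matrix V V ℂ)) (fun _ => (t : ℂ))).re := by
    intro t ht
    have e1 : detL (0 : Matrix V V ℂ) = fun y : V → ℂ => ∏ v ∈ Finset.univ, y v := by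
      funext y
      rw [detL, add_zero, Matrix.det_diagonal]
    rw [e1, Tops_mono (eList G) (fun p hp => eList_ne G hp)]
    have e2 : (fun v => (t : ℂ) + (dg (eList G) v : ℂ)) =
        fun v => (((t + G.degree v : ℝ)) : ℂ) := by
      funext v
      rw [dg_eList]
      push_cast
      ring
    rw [e2, Z_cast, Complex.ofReal_re]
    apply Z_pos G _ ρ r hρ
    · intro u
      have := h1 u
      linarith
    · intro v u hadj hur
      have := h2 v u hadj hur
      linarith
  obtain ⟨s, hs, hdet⟩ := select (eList G) (eList_nodup G) (fun p hp => eList_ne G hp) lam 0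
    Matrix.PosSemidef.zero (fun i j => by simp) hbase
  obtain ⟨σ, hσ1, hσ2, hσ3⟩ := sum_R G s hs
  refine ⟨σ, hσ1, hσ2, fun t ht h0 => ?_⟩
  have := hdet t ht
  rw [zero_add, hσ3, detL, h0] at this
  simp at this

end Pool.Agent.V1137.Signing
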