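import Mathlib
import Pool.Agent.V1137.SigningG

/-!
# The magneto-spectral height: definitions and the lower bound from supersolutions
-/

namespace Pool.Agent.V1137.Magneto

open Finset Pool.Agent.V1137.Signing

variable {V : Type*} [Fintype V] [DecidableEq V]

/-- A magnetic potential on `G`: `σ x y ∈ S¹` for every oriented edge, `σ y x = conj (σ x y)`. -/
def IsPotential (G : SimpleGraph V) (σ : V → V → ℂ) : Prop :=
  ∀ x y, G.Adj x y → ‖σ x y‖ = 1 ∧ σ y x = (starRingEnd ℂ) (σ x y)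

/-- The magnetic Laplacian `(Δ^σ f)(x) = ∑_{y ∼ x} (f x - σ x y f y)`. -/
def magLap (G : SimpleGraph V) [DecidableRel G.Adj] (σ : V → V → ℂ) :
    (V → ℂ) →ₗ[ℂ] (V → ℂ) where
  toFun f x := ∑ y ∈ G.neighborFinset x, (f x - σ x y * f y)
  map_add' f g := by
    funext x
    simp only [Pi.add_apply, ← Finset.sum_add_distrib]
    exact Finset.sum_congr rfl fun y _ => by ring
  map_smul' c f := by
    funext x
    simp only [Pi.smul_apply, smul_eq_mul, RingHom.id_apply, Finset.mul_sum]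
    exact Finset.sum_congr rfl fun y _ => by ring

/-- The smallest eigenvalue `λ₁^σ(G)` of the magnetic Laplacian. -/
noncomputable def lam1 (G : SimpleGraph V) [DecidableRel G.Adj] (σ : V → V → ℂ) : ℝ :=
  sInf {μ : ℝ | Module.End.HasEigenvalue (magLap G σ) (μ : ℂ)}

/-- The magneto-spectral height `ν(G)`. -/
noncomputable def nu (G : SimpleGraph V) [DecidableRel G.Adj] : ℝ :=
  sSup {m : ℝ | ∃ σ : V → V → ℂ, IsPotential G σ ∧ m = lam1 G σ}

variable (G : SimpleGraph V) [DecidableRel G.Adj]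

lemma mulVec_sLap (σ : V → V → ℂ) (f : V → ℂ) : (sLap G σ).mulVec f = magLap G σ f := by
  funext x
  simp only [Matrix.mulVec, dotProduct, sLap, magLap, LinearMap.coe_mk, AddHom.coe_mk]
  rw [Finset.sum_sub_distrib, Finset.sum_const, SimpleGraph.card_neighborFinset_eq_degree,
    nsmul_eq_mul]
  have h1 : ∀ y, (if x = y then (G.degree x : ℂ) else if G.Adj x y then -σ x y else 0) * f y =
      (if x = y then (G.degree x : ℂ) * f x else 0) - (if G.Adj x y then σ x y * f y else 0) := by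
    intro y
    by_cases hxy : x = y
    · subst hxy; simp
    · rw [if_neg hxy, if_neg hxy]
      split_ifs <;> ring
  rw [Finset.sum_congr rfl fun y _ => h1 y, Finset.sum_sub_distrib]
  congr 1
  · simp
  · rw [← Finset.sum_filter]
    congr 1
    ext y
    simp

lemma herm_sLap (σ : V → V → ℂ) (hσ : IsPotential G σ) : (sLap G σ).IsHermitian := by
  ext x y
  simp only [Matrix.conjTranspose_apply, sLap]
  by_cases hxy : x = y
  · subst hxy; simp
  · rw [if_neg (Ne.symm hxy), if_neg hxy]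
    by_cases hadj : G.Adj x y
    · rw [if_pos hadj.symm, if_pos hadj, (hσ x y hadj).2]
      simp
    · rw [if_neg (fun h => hadj h.symm), if_neg hadj]
      simp

lemma exists_eig [Nonempty V] (σ : V → V → ℂ) (hσ : IsPotential G σ) :
    ∃ μ : ℝ, Module.End.HasEigenvalue (magLap G σ) (μ : ℂ) := by
  have hH := herm_sLap G σ hσ
  obtain ⟨i⟩ := (inferInstance : Nonempty V)
  refine ⟨hH.eigenvalues i, ?_⟩
  have h1 := hH.mulVec_eigenvectorBasis i
  rw [mulVec_sLap] at h1
  refine Module.End.hasEigenvalue_of_hasEigenvector (x := (hH.eigenvectorBasis i : V → ℂ)) ⟨?_, ?_⟩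
  · rw [Module.End.mem_eigenspace_iff, h1]
    ext x
    simp
  · intro h0
    have := hH.eigenvectorBasis.orthonormal.ne_zero i
    apply this
    ext x
    exact congrFun h0 x

lemma eig_bound (σ : V → V → ℂ) (hσ : IsPotential G σ) (μ : ℝ)
    (h : Module.End.HasEigenvalue (magLap G σ) (μ : ℂ)) : |μ| ≤ 2 * Fintype.card V := by
  obtain ⟨f, hf, hf0⟩ := h.exists_hasEigenvector
  rw [Module.End.mem_eigenspace_iff] at hf
  obtain ⟨v, hv⟩ := Function.ne_iff.1 hf0
  haveI : Nonempty V := ⟨v⟩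
  obtain ⟨x, hx⟩ := Finite.exists_max (fun x => ‖f x‖)
  have hpos : 0 < ‖f x‖ := lt_of_lt_of_le (norm_pos_iff.2 hv) (hx v)
  have h1 := congrFun hf x
  simp only [magLap, LinearMap.coe_mk, AddHom.coe_mk, Pi.smul_apply, smul_eq_mul] at h1
  have h2 : ‖(μ : ℂ) * f x‖ ≤ ∑ y ∈ G.neighborFinset x, (2 * ‖f x‖) := by
    rw [← h1]
    refine (norm_sum_le _ _).trans (Finset.sum_le_sum fun y hy => ?_)
    rw [SimpleGraph.mem_neighborFinset] at hy
    calc ‖f x - σ x y * f y‖ ≤ ‖f x‖ + ‖σ x y * f y‖ := norm_sub_le _ _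
      _ = ‖f x‖ + ‖f y‖ := by rw [norm_mul, (hσ x y hy).1, one_mul]
      _ ≤ 2 * ‖f x‖ := by have := hx y; linarith
  rw [norm_mul, Complex.norm_real, Real.norm_eq_abs, Finset.sum_const,
    SimpleGraph.card_neighborFinset_eq_degree, nsmul_eq_mul] at h2
  have h3 : (G.degree x : ℝ) ≤ Fintype.card V := by
    exact_mod_cast (G.degree_lt_card_verts x).le
  have h4 : (G.degree x : ℝ) * (2 * ‖f x‖) ≤ Fintype.card V * (2 * ‖f x‖) :=
    mul_le_mul_of_nonneg_right h3 (by positivity)
  have h5 : |μ| * ‖f x‖ ≤ (2 * Fintype.card V) * ‖f x‖ := by linarith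
  exact le_of_mul_le_mul_right h5 hpos

/-- Lower bound for the magneto-spectral height from a supersolution on directed edges. -/
theorem nu_ge [Nonempty V] (lam : ℝ) (ρ : V → V → ℝ) (r : V) (hρ : ∀ u c, 0 < ρ u c)
    (h1 : ∀ u, ∑ c ∈ G.neighborFinset u, ρ u c ≤ G.degree u - lam)
    (h2 : ∀ v u, G.Adj v u → u ≠ r →
      1 / ρ v u ≤ G.degree u - lam - ∑ c ∈ (G.neighborFinset u).erase v, ρ u c) :
    lam ≤ nu G := by
  obtain ⟨σ, hσ1, hσ2, hdet⟩ := exists_signing G lam ρ r hρ h1 h2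
  have hpot : IsPotential G σ := by
    intro x y hadj
    refine ⟨?_, ?_⟩
    · rcases hσ1 x y with h | h <;> rw [h] <;> simp
    · rw [← hσ2 x y hadj]
      rcases hσ1 x y with h | h <;> rw [h] <;> simp
  have hlam : lam ≤ lam1 G σ := by
    apply le_csInf (exists_eig G σ hpot)
    intro μ hμ
    by_contra hlt
    push Not at hlt
    obtain ⟨f, hf, hf0⟩ := Module.End.HasEigenvalue.exists_hasEigenvector hμ
    rw [Module.End.mem_eigenspace_iff] at hf
    apply hdet (-μ) (by linarith)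
    rw [← Matrix.exists_mulVec_eq_zero_iff]
    refine ⟨f, hf0, ?_⟩
    rw [Matrix.add_mulVec, mulVec_sLap, hf]
    funext x
    rw [Pi.add_apply, Matrix.mulVec_diagonal]
    simp
  have hbdd : BddAbove {m : ℝ | ∃ σ : V → V → ℂ, IsPotential G σ ∧ m = lam1 G σ} := by
    refine ⟨2 * Fintype.card V, ?_⟩
    rintro m ⟨τ, hτ, rfl⟩
    obtain ⟨μ, hμ⟩ := exists_eig G τ hτ
    have hb := eig_bound G τ hτ μ hμ
    have : lam1 G τ ≤ μ := by
      apply csInf_le _ hμ
      refine ⟨-(2 * Fintype.card V), fun ν hν => ?_⟩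
      have := eig_bound G τ hτ ν hν
      exact (abs_le.1 this).1
    exact this.trans ((le_abs_self μ).trans hb)
  exact hlam.trans (le_csSup hbdd ⟨σ, hpot, rfl⟩)

/-- Graphs of minimum degree at least `d ≥ 2` have `ν(G) ≥ d - 2 √(d - 1)`. -/
theorem nu_ge_of_minDeg [Nonempty V] (d : ℕ) (hd : 2 ≤ d) (hG : ∀ v, d ≤ G.degree v) :
    (d : ℝ) - 2 * Real.sqrt ((d : ℝ) - 1) ≤ nu G := by
  obtain ⟨r⟩ := (inferInstance : Nonempty V)
  have hd' : (2 : ℝ) ≤ d := by exact_mod_cast hd
  set q := Real.sqrt ((d : ℝ) - 1) with hq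
  have hqq : q * q = (d : ℝ) - 1 := Real.mul_self_sqrt (by linarith)
  have hq1 : 1 ≤ q := by
    rw [hq]
    apply Real.one_le_sqrt.2
    linarith
  have hq0 : 0 < q := by linarith
  refine nu_ge G _ (fun _ _ => 1 / q) r (fun _ _ => by positivity) ?_ ?_
  · intro u
    have hdeg : (d : ℝ) ≤ G.degree u := by exact_mod_cast hG u
    rw [Finset.sum_const, SimpleGraph.card_neighborFinset_eq_degree, nsmul_eq_mul]
    have h1 : (G.degree u : ℝ) * (1 / q) = G.degree u / q := by ring
    rw [h1, div_le_iff₀ hq0]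
    nlinarith
  · intro v u hadj _
    have hdeg : (d : ℝ) ≤ G.degree u := by exact_mod_cast hG u
    have hc : (((G.neighborFinset u).erase v).card : ℝ) = G.degree u - 1 := by
      rw [Finset.card_erase_of_mem (by simpa using hadj.symm),
        SimpleGraph.card_neighborFinset_eq_degree, Nat.cast_sub (by
          have := hG u; omega)]
      simp
    rw [Finset.sum_const, nsmul_eq_mul, hc, one_div_one_div]
    have h1 : ((G.degree u : ℝ) - 1) * (1 / q) = (G.degree u - 1) / q := by ring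
    rw [h1]
    have h2 : ((G.degree u : ℝ) - 1) / q ≤ G.degree u - (d - 2 * q) - q := by
      rw [div_le_iff₀ hq0]
      nlinarith
    linarith

end Pool.Agent.V1137.Magneto
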