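import Mathlib

open Filter Topology Set

namespace Pool.Agent.V1137.PixleyRoy

/-- The underlying set of the Pixley-Roy hyperspace: nonempty finite subsets of `X`. -/
def PR (X : Type*) : Type _ := {A : Set X // A.Finite ∧ A.Nonempty}

/-- The basic set `[F, V]` of all `H` with `F ⊆ H ⊆ V`. -/
def box {X : Type*} (F : PR X) (V : Set X) : Set (PR X) := {H | F.1 ⊆ H.1 ∧ H.1 ⊆ V}

/-- The Pixley-Roy topology: a set is open if with each of its points `F` it contains some `[F, V]`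
with `V` open in `X` and `F ⊆ V`. -/
instance {X : Type*} [TopologicalSpace X] : TopologicalSpace (PR X) where
  IsOpen 𝒰 := ∀ F ∈ 𝒰, ∃ V : Set X, IsOpen V ∧ F.1 ⊆ V ∧ box F V ⊆ 𝒰
  isOpen_univ := fun F _ => ⟨Set.univ, isOpen_univ, Set.subset_univ _, Set.subset_univ _⟩
  isOpen_inter := by
    intro 𝒰 𝒱 h1 h2 F hF
    obtain ⟨V, hV, hFV, hb⟩ := h1 F hF.1
    obtain ⟨W, hW, hFW, hc⟩ := h2 F hF.2
    refine ⟨V ∩ W, hV.inter hW, Set.subset_inter hFV hFW, fun H hH => ⟨hb ?_, hc ?_⟩⟩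
    · exact ⟨hH.1, hH.2.trans Set.inter_subset_left⟩
    · exact ⟨hH.1, hH.2.trans Set.inter_subset_right⟩
  isOpen_sUnion := by
    intro S hS F hF
    obtain ⟨𝒰, h𝒰, hF𝒰⟩ := hF
    obtain ⟨V, hV, hFV, hb⟩ := hS 𝒰 h𝒰 F hF𝒰
    exact ⟨V, hV, hFV, hb.trans (Set.subset_sUnion_of_mem h𝒰)⟩

variable {X : Type*} [TopologicalSpace X]

theorem isOpen_iff (𝒰 : Set (PR X)) :
    IsOpen 𝒰 ↔ ∀ F ∈ 𝒰, ∃ V : Set X, IsOpen V ∧ F.1 ⊆ V ∧ box F V ⊆ 𝒰 := Iff.rfl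

theorem isOpen_box (F : PR X) (V : Set X) (hV : IsOpen V) : IsOpen (box F V) := by
  intro H hH
  exact ⟨V, hV, hH.2, fun G hG => ⟨hH.1.trans hG.1, hG.2⟩⟩

theorem mem_box (F : PR X) (V : Set X) (hF : F.1 ⊆ V) : F ∈ box F V := ⟨Set.Subset.rfl, hF⟩

/-- The sets `[F, V]` form a local base at `F`. -/
theorem hasBasis_nhds (F : PR X) :
    (𝓝 F).HasBasis (fun V : Set X => IsOpen V ∧ F.1 ⊆ V) (fun V => box F V) := by
  constructor
  intro 𝒰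
  constructor
  · intro h
    obtain ⟨𝒱, h𝒱, hop, hF⟩ := mem_nhds_iff.1 h
    obtain ⟨V, hV, hFV, hb⟩ := hop F hF
    exact ⟨V, ⟨hV, hFV⟩, hb.trans h𝒱⟩
  · rintro ⟨V, ⟨hV, hFV⟩, hb⟩
    exact mem_of_superset ((isOpen_box F V hV).mem_nhds (mem_box F V hFV)) hb

theorem eventually_of_tendsto {H : ℕ → PR X} {G : PR X} (h : Tendsto H atTop (𝓝 G))
    (V : Set X) (hV : IsOpen V) (hG : G.1 ⊆ V) :
    ∀ᶠ k in atTop, G.1 ⊆ (H k).1 ∧ (H k).1 ⊆ V :=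
  h ((isOpen_box G V hV).mem_nhds (mem_box G V hG))

/-- Adding a point to a nonempty finite set. -/
def add (F : PR X) (x : X) : PR X :=
  ⟨insert x F.1, F.2.1.insert x, Set.insert_nonempty x F.1⟩

theorem add_mem_box (F : PR X) (V : Set X) (hF : F.1 ⊆ V) (x : X) (hx : x ∈ V) :
    add F x ∈ box F V :=
  ⟨Set.subset_insert x F.1, Set.insert_subset hx hF⟩

end Pool.Agent.V1137.PixleyRoy
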