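import Mathlib

open MeasureTheory ProbabilityTheory Set

namespace Pool.Agent.V1137.FIID

/-- The law of iid uniform labels in `[0, 1]` indexed by `V`. -/
noncomputable def unif (V : Type) : Measure (V → unitInterval) :=
  Measure.infinitePi (fun _ : V => (volume : Measure unitInterval))

instance (V : Type) : IsProbabilityMeasure (unif V) := by
  unfold unif; infer_instance

/-- A factor of iid on the graph `G` with values in decorations `V → V → β`, satisfying `P` almost
surely: a measurable, `Aut(G)`-equivariant map of the labels. -/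
def ExistsFIID {V : Type} (G : SimpleGraph V) {β : Type} [MeasurableSpace β]
    (P : (V → V → β) → Prop) : Prop :=
  ∃ Φ : (V → unitInterval) → (V → V → β),
    (∀ x y, Measurable fun ω => Φ ω x y) ∧
    (∀ (σ : G ≃g G) (ω : V → unitInterval) (x y : V),
      Φ (fun v => ω (σ v)) x y = Φ ω (σ x) (σ y)) ∧
    ∀ᵐ ω ∂(unif V), P (Φ ω)

/-- Balanced orientations of a `2d`-regular graph: `o x y` says that `x y` is an edge oriented from
`x` to `y`; every vertex has out-degree and in-degree `d`. -/
structure IsBalancedOrientation {V : Type} (G : SimpleGraph V) (d : ℕ) (o : V → V → Bool) :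
    Prop where
  adj : ∀ x y, o x y = true → G.Adj x y
  orient : ∀ x y, G.Adj x y → o y x = !(o x y)
  out : ∀ x, {y | o x y = true}.ncard = d
  inn : ∀ x, {y | o y x = true}.ncard = d

/-- Perfect matchings: a symmetric set of edges covering every vertex exactly once. -/
structure IsPerfectMatching {V : Type} (G : SimpleGraph V) (m : V → V → Bool) : Prop where
  adj : ∀ x y, m x y = true → G.Adj x y
  symm : ∀ x y, m x y = true → m y x = true
  cover : ∀ x, ∃! y, m x y = true

/-- Schreier decorations with `d` colours: `c x y = some i` says that `x y` is an edge of colour `i`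
oriented from `x` to `y`. -/
structure IsSchreier {V : Type} (G : SimpleGraph V) (d : ℕ) (c : V → V → Option (Fin d)) :
    Prop where
  adj : ∀ x y, (c x y).isSome = true → G.Adj x y
  orient : ∀ x y, G.Adj x y → (c y x).isSome = !(c x y).isSome
  out : ∀ x i, ∃! y, c x y = some i
  inn : ∀ x i, ∃! y, c y x = some i

instance (d : ℕ) : MeasurableSpace (Option (Fin d)) := ⊤

/-- Finitely many orbits of vertices. -/
def QuasiTransitive {V : Type} (G : SimpleGraph V) : Prop :=
  ∃ S : Finset V, ∀ x : V, ∃ σ : G ≃g G, σ x ∈ S

theorem schreier_balanced_aux {V : Type} {d : ℕ} (c : V → V → Option (Fin d))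
    (h : ∀ x i, ∃! y, c x y = some i) (x : V) : {y | (c x y).isSome = true}.ncard = d := by
  choose f hf huniq using fun i => h x i
  have hinj : Function.Injective f := by
    intro i j hij
    have h1 : c x (f i) = some i := hf i
    have h2 : c x (f j) = some j := hf j
    rw [hij, h2] at h1
    exact (Option.some_injective _ h1).symm
  have hset : {y | (c x y).isSome = true} = Set.range f := by
    ext y
    constructor
    · intro hy
      obtain ⟨i, hi⟩ := Option.isSome_iff_exists.1 (show (c x y).isSome = true from hy)
      exact ⟨i, (huniq i y hi).symm⟩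
    · rintro ⟨i, rfl⟩
      have h1 : c x (f i) = some i := hf i
      show (c x (f i)).isSome = true
      rw [h1]; rfl
  rw [hset, ← Set.image_univ, Set.ncard_image_of_injective _ hinj, Set.ncard_univ]
  simp

/-- A Schreier decoration gives a balanced orientation. -/
theorem schreier_balanced {V : Type} {G : SimpleGraph V} {d : ℕ} {c : V → V → Option (Fin d)}
    (h : IsSchreier G d c) : IsBalancedOrientation G d (fun x y => (c x y).isSome) where
  adj := h.adj
  orient := h.orient
  out := schreier_balanced_aux c h.out
  inn := schreier_balanced_aux (fun x y => c y x) h.inn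

theorem fiid_schreier_balanced {V : Type} {G : SimpleGraph V} {d : ℕ}
    (h : ExistsFIID G (IsSchreier G d)) : ExistsFIID G (IsBalancedOrientation G d) := by
  obtain ⟨Φ, hm, he, hP⟩ := h
  refine ⟨fun ω x y => (Φ ω x y).isSome, fun x y => ?_, fun σ ω x y => ?_, ?_⟩
  · exact (measurable_from_top (f := fun c : Option (Fin d) => c.isSome)).comp (hm x y)
  · show (Φ (fun v => ω (σ v)) x y).isSome = (Φ ω (σ x) (σ y)).isSome
    rw [he]
  · filter_upwards [hP] with ω hω
    exact schreier_balanced hω

/-- Relabelling the coordinates preserves the product measure. -/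
theorem measurePreserving_perm {V : Type} (σ : V ≃ V) :
    MeasurePreserving (fun (ω : V → unitInterval) v => ω (σ v)) (unif V) (unif V) :=
  ⟨measurable_pi_lambda _ fun _ => measurable_pi_apply _,
    Measure.map_infinitePi_infinitePi_of_inj (P := fun _ : V => (volume : Measure unitInterval))
      σ.injective⟩

theorem approx {V : Type} (A : Set (V → unitInterval)) (hA : MeasurableSet A) {ε : ℝ}
    (hε : 0 < ε) :
    ∃ (s : Finset V) (D : Set ((i : s) → unitInterval)), MeasurableSet D ∧
      (unif V).real (symmDiff A (cylinder s D)) < ε := by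
  have h1 : (unif V).MeasureDense (measurableCylinders fun _ : V => unitInterval) :=
    Measure.MeasureDense.of_generateFrom_isSetAlgebra_finite _ isSetAlgebra_measurableCylinders
      generateFrom_measurableCylinders.symm
  obtain ⟨t, ht, hlt⟩ := h1.approx A hA (measure_ne_top _ _) ε hε
  obtain ⟨s, D, hD, rfl⟩ := (mem_measurableCylinders _).1 ht
  refine ⟨s, D, hD, ?_⟩
  rw [measureReal_def]
  exact (ENNReal.toReal_lt_of_lt_ofReal hlt)

/-- Zero-one law: an event which is almost surely invariant under a relabelling `T` whose powers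
move every finite set off itself has probability zero or one. -/
theorem zero_one {V : Type} (T : V ≃ V)
    (hT : ∀ s : Finset V, ∃ n : ℕ, ∀ v ∈ s, ∀ w ∈ s, (T ^ n) v ≠ w)
    (A : Set (V → unitInterval)) (hA : MeasurableSet A)
    (hinv : (fun (ω : V → unitInterval) v => ω (T v)) ⁻¹' A =ᵐ[unif V] A) :
    (unif V).real A = 0 ∨ (unif V).real A = 1 := by
  classical
  -- invariance under powers
  have hinvn : ∀ n : ℕ, (fun (ω : V → unitInterval) v => ω ((T ^ n) v)) ⁻¹' A =ᵐ[unif V] A := by
    intro n
    induction n with
    | zero => rfl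
    | succ n ih =>
      have h1 : (fun (ω : V → unitInterval) v => ω ((T ^ (n + 1)) v)) ⁻¹' A =
          (fun (ω : V → unitInterval) v => ω (T v)) ⁻¹'
            ((fun (ω : V → unitInterval) v => ω ((T ^ n) v)) ⁻¹' A) := by
        ext ω
        simp only [Set.mem_preimage, pow_succ', Equiv.Perm.mul_apply]
      rw [h1]
      exact ((measurePreserving_perm T).quasiMeasurePreserving.preimage_ae_eq ih).trans hinv
  set a := (unif V).real A with ha
  have ha0 : 0 ≤ a := measureReal_nonneg
  have ha1 : a ≤ 1 := measureReal_le_one
  have key : ∀ ε : ℝ, 0 < ε → |a - a * a| ≤ 4 * ε := by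
    intro ε hε
    obtain ⟨s, D, hD, hlt⟩ := approx A hA hε
    obtain ⟨n, hn⟩ := hT s
    let S : (V → unitInterval) → (V → unitInterval) := fun ω v => ω ((T ^ n) v)
    have hS : MeasurePreserving S (unif V) (unif V) := measurePreserving_perm (T ^ n)
    let C : Set (V → unitInterval) := (fun (ω : V → unitInterval) (i : s) => ω i) ⁻¹' D
    have hCm : MeasurableSet C := (measurable_pi_lambda _ fun _ => measurable_pi_apply _) hD
    have hlt : (unif V).real (symmDiff A C) < ε := hlt
    set d := (unif V).real C with hd
    have hd0 : 0 ≤ d := measureReal_nonneg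
    have hd1 : d ≤ 1 := measureReal_le_one
    have hCS : (unif V).real (S ⁻¹' C) = d := hS.measureReal_preimage hCm.nullMeasurableSet
    -- independence
    have hindep : (unif V).real (C ∩ S ⁻¹' C) = d * d := by
      have hi : iIndepFun (fun (v : V) (ω : V → unitInterval) => ω v) (unif V) :=
        iIndepFun_infinitePi (P := fun _ : V => (volume : Measure unitInterval))
          (X := fun _ x => x) (fun _ => measurable_id)
      let t : Finset V := s.map (T ^ n).toEmbedding
      have hdisj : Disjoint s t := by
        rw [Finset.disjoint_left]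
        intro v hv hvt
        obtain ⟨w, hw, hwv⟩ := Finset.mem_map.1 hvt
        exact hn w hw v hv hwv
      have h1 := hi.indepFun_finset s t hdisj (fun v => measurable_pi_apply v)
      let g : ((i : t) → unitInterval) → ((i : s) → unitInterval) := fun y i =>
        y ⟨(T ^ n) i.1, Finset.mem_map.2 ⟨i.1, i.2, rfl⟩⟩
      have hg : Measurable g := measurable_pi_lambda _ fun i => measurable_pi_apply _
      have h2 := h1.measure_inter_preimage_eq_mul D (g ⁻¹' D) hD (hg hD)
      have e1 : (fun (ω : V → unitInterval) (i : s) => ω i) ⁻¹' D = C := rfl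
      have e2 : (fun (ω : V → unitInterval) (i : t) => ω i) ⁻¹' (g ⁻¹' D) = S ⁻¹' C := rfl
      rw [e1, e2] at h2
      rw [measureReal_def, h2, ENNReal.toReal_mul]
      change (unif V).real C * (unif V).real (S ⁻¹' C) = d * d
      rw [hCS]
    -- approximation of A ∩ S⁻¹ A
    have hAS : (unif V).real (A ∩ S ⁻¹' A) = a := by
      have h1 : (A ∩ S ⁻¹' A : Set (V → unitInterval)) =ᵐ[unif V] A := by
        have h2 : (A ∩ S ⁻¹' A : Set (V → unitInterval)) =ᵐ[unif V]
            (A ∩ A : Set (V → unitInterval)) := ae_eq_set_inter (ae_eq_refl A) (hinvn n)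
        rwa [Set.inter_self] at h2
      rw [measureReal_def, measure_congr h1]
      rfl
    have hSm : MeasurableSet (S ⁻¹' A) := hS.measurable hA
    have hSC : MeasurableSet (S ⁻¹' C) := hS.measurable hCm
    have b1 : |a - d| ≤ ε :=
      (abs_measureReal_sub_le_measureReal_symmDiff hA.nullMeasurableSet
        hCm.nullMeasurableSet).trans hlt.le
    have b2 : (unif V).real (symmDiff (S ⁻¹' A) (S ⁻¹' C)) ≤ ε := by
      have h1 : symmDiff (S ⁻¹' A) (S ⁻¹' C) = S ⁻¹' (symmDiff A C) := rfl
      rw [h1, hS.measureReal_preimage (hA.symmDiff hCm).nullMeasurableSet]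
      exact hlt.le
    have b3 : |a - d * d| ≤ 2 * ε := by
      rw [← hAS, ← hindep]
      refine (abs_measureReal_sub_le_measureReal_symmDiff (hA.inter hSm).nullMeasurableSet
        (hCm.inter hSC).nullMeasurableSet).trans ?_
      have h1 : symmDiff (A ∩ S ⁻¹' A) (C ∩ S ⁻¹' C) ⊆
          symmDiff A C ∪ symmDiff (S ⁻¹' A) (S ⁻¹' C) := by
        intro ω hω
        simp only [Set.mem_symmDiff, Set.mem_inter_iff, Set.mem_union] at hω ⊢
        tauto
      calc (unif V).real (symmDiff (A ∩ S ⁻¹' A) (C ∩ S ⁻¹' C))
          ≤ (unif V).real (symmDiff A C ∪ symmDiff (S ⁻¹' A) (S ⁻¹' C)) := measureReal_mono h1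
        _ ≤ (unif V).real (symmDiff A C) + (unif V).real (symmDiff (S ⁻¹' A) (S ⁻¹' C)) :=
          measureReal_union_le _ _
        _ ≤ 2 * ε := by linarith
    rw [abs_le] at b1 b3 ⊢
    constructor <;> nlinarith
  have h0 : a - a * a = 0 := by
    by_contra hne
    have hpos : 0 < |a - a * a| := abs_pos.2 hne
    have := key (|a - a * a| / 8) (by linarith)
    linarith
  have h1 : a * (1 - a) = 0 := by linarith
  rcases mul_eq_zero.1 h1 with h | h
  · left; exact h
  · right; linarith

end Pool.Agent.V1137.FIID
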