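import Mathlib
import Pool.Agent.V1137.FIID

open MeasureTheory Set

namespace Pool.Agent.V1137.BlockChain

open Pool.Agent.V1137.FIID

/-- The adjacency inside a block on the vertices `u=0, v=1, a=2, b=3, c=4, e=5`. -/
def blk (i j : Fin 6) : Bool :=
  decide ((i, j) ∈ ([(0, 1), (0, 2), (0, 3), (1, 4), (1, 5), (2, 3), (2, 4), (2, 5), (3, 4),
    (3, 5), (4, 5)] : List (Fin 6 × Fin 6))) ||
  decide ((j, i) ∈ ([(0, 1), (0, 2), (0, 3), (1, 4), (1, 5), (2, 3), (2, 4), (2, 5), (3, 4),
    (3, 5), (4, 5)] : List (Fin 6 × Fin 6)))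

/-- Adjacency of the vertices of type `i` and `j` in blocks at difference `m`. -/
def A (m : ℤ) (i j : Fin 6) : Bool :=
  (decide (m = 0) && blk i j) || (decide (m = 1) && decide (i = 1) && decide (j = 0)) ||
    (decide (m = -1) && decide (i = 0) && decide (j = 1))

theorem blk_symm : ∀ i j, blk i j = blk j i := by decide

theorem blk_irrefl : ∀ i, blk i i = false := by decide

theorem A_symm (m : ℤ) (i j : Fin 6) : A (-m) j i = A m i j := by
  unfold A
  rw [blk_symm j i]
  have h0 : decide (-m = 0) = decide (m = 0) := by simp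
  have h1 : decide (-m = 1) = decide (m = -1) := by
    rw [decide_eq_decide]; omega
  have h2 : decide (-m = -1) = decide (m = 1) := by
    rw [decide_eq_decide]; omega
  rw [h0, h1, h2, Bool.or_assoc, Bool.or_assoc]
  congr 1
  rw [Bool.or_comm, Bool.and_assoc, Bool.and_assoc, Bool.and_assoc, Bool.and_assoc]
  congr 2 <;> rw [Bool.and_comm]

abbrev V : Type := ℤ × Fin 6

/-- The chain of blocks. -/
def G : SimpleGraph V where
  Adj x y := A (y.1 - x.1) x.2 y.2 = true
  symm := ⟨fun x y h => by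
    have := A_symm (y.1 - x.1) x.2 y.2
    rw [show -(y.1 - x.1) = x.1 - y.1 by ring] at this
    rw [this]; exact h⟩
  loopless := ⟨fun x h => by
    simp only [sub_self] at h
    unfold A at h
    rw [blk_irrefl] at h
    simp at h⟩

/-- The neighbours of a vertex of type `i`, relative to its block. -/
def nb0 (i : Fin 6) : Finset V :=
  match i with
  | 0 => {(0, 1), (0, 2), (0, 3), (-1, 1)}
  | 1 => {(0, 0), (0, 4), (0, 5), (1, 0)}
  | 2 => {(0, 0), (0, 3), (0, 4), (0, 5)}
  | 3 => {(0, 0), (0, 2), (0, 4), (0, 5)}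
  | 4 => {(0, 1), (0, 2), (0, 3), (0, 5)}
  | 5 => {(0, 1), (0, 2), (0, 3), (0, 4)}

theorem mem_nb0 (m : ℤ) (i j : Fin 6) : (m, j) ∈ nb0 i ↔ A m i j = true := by
  fin_cases i <;> fin_cases j <;> simp [A, nb0, blk]

/-- The neighbours of a vertex. -/
def nbF (x : V) : Finset V := (nb0 x.2).image (fun z => (x.1 + z.1, z.2))

theorem mem_nbF (x y : V) : y ∈ nbF x ↔ G.Adj x y := by
  show y ∈ nbF x ↔ A (y.1 - x.1) x.2 y.2 = true
  rw [← mem_nb0]
  unfold nbF
  rw [Finset.mem_image]
  constructor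
  · rintro ⟨z, hz, rfl⟩
    simpa using hz
  · intro h
    exact ⟨_, h, by ext <;> simp⟩

instance (x y : V) : Decidable (G.Adj x y) := inferInstanceAs (Decidable (_ = true))

/-- Translation of the chain. -/
def tr (c : ℤ) : G ≃g G where
  toFun x := (x.1 + c, x.2)
  invFun x := (x.1 - c, x.2)
  left_inv x := by ext <;> simp
  right_inv x := by ext <;> simp
  map_rel_iff' := by
    intro x y
    show A (y.1 + c - (x.1 + c)) x.2 y.2 = true ↔ A (y.1 - x.1) x.2 y.2 = true
    rw [show y.1 + c - (x.1 + c) = y.1 - x.1 by ring]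

theorem tr_apply (c : ℤ) (x : V) : tr c x = (x.1 + c, x.2) := rfl

/-- Swapping the two ends of a block. -/
def sw (i : Fin 6) : Fin 6 := ![1, 0, 4, 5, 2, 3] i

theorem sw_sw : ∀ i, sw (sw i) = i := by decide

theorem blk_sw : ∀ i j, blk (sw i) (sw j) = blk i j := by decide

theorem sw_one : ∀ i, decide (sw i = 1) = decide (i = 0) := by decide

theorem sw_zero : ∀ i, decide (sw i = 0) = decide (i = 1) := by decide

theorem A_sw (m : ℤ) (i j : Fin 6) : A (-m) (sw i) (sw j) = A m i j := by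
  unfold A
  have h0 : decide (-m = 0) = decide (m = 0) := by simp
  have h1 : decide (-m = 1) = decide (m = -1) := by
    rw [decide_eq_decide]; omega
  have h2 : decide (-m = -1) = decide (m = 1) := by
    rw [decide_eq_decide]; omega
  rw [blk_sw, h0, h1, h2, sw_one, sw_zero, sw_zero, sw_one, Bool.or_assoc, Bool.or_assoc]
  congr 1
  rw [Bool.or_comm]

/-- Reflection of the chain. -/
def rf : G ≃g G where
  toFun x := (-x.1, sw x.2)
  invFun x := (-x.1, sw x.2)
  left_inv x := by ext <;> simp [sw_sw]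
  right_inv x := by ext <;> simp [sw_sw]
  map_rel_iff' := by
    intro x y
    show A (-y.1 - -x.1) (sw x.2) (sw y.2) = true ↔ A (y.1 - x.1) x.2 y.2 = true
    rw [show -y.1 - -x.1 = -(y.1 - x.1) by ring, A_sw]

theorem rf_apply (x : V) : rf x = (-x.1, sw x.2) := rfl

/-- The invariant set of edges which is the canonical perfect matching: edges with three common
neighbours, and edges which are not the middle of a cycle of length four. -/
def M (x y : V) : Prop :=
  G.Adj x y ∧ ((∃ p q r, p ≠ q ∧ p ≠ r ∧ q ≠ r ∧ G.Adj x p ∧ G.Adj x q ∧ G.Adj x r ∧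
    G.Adj y p ∧ G.Adj y q ∧ G.Adj y r) ∨ ¬ ∃ p q, G.Adj x p ∧ G.Adj p q ∧ G.Adj q y ∧ p ≠ y ∧ q ≠ x)

theorem M_of (σ : G ≃g G) (x y : V) (h : M x y) : M (σ x) (σ y) := by
  obtain ⟨h1, h2⟩ := h
  refine ⟨σ.map_adj_iff.2 h1, ?_⟩
  rcases h2 with ⟨p, q, r, hpq, hpr, hqr, a1, a2, a3, a4, a5, a6⟩ | h2
  · left
    exact ⟨σ p, σ q, σ r, σ.injective.ne hpq, σ.injective.ne hpr, σ.injective.ne hqr,
      σ.map_adj_iff.2 a1, σ.map_adj_iff.2 a2, σ.map_adj_iff.2 a3, σ.map_adj_iff.2 a4,
      σ.map_adj_iff.2 a5, σ.map_adj_iff.2 a6⟩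
  · right
    rintro ⟨p, q, a1, a2, a3, a4, a5⟩
    apply h2
    refine ⟨σ.symm p, σ.symm q, ?_, ?_, ?_, ?_, ?_⟩
    · rw [← σ.map_adj_iff]; simpa using a1
    · rw [← σ.map_adj_iff]; simpa using a2
    · rw [← σ.map_adj_iff]; simpa using a3
    · rintro rfl; exact a4 (by simp)
    · rintro rfl; exact a5 (by simp)

theorem M_iff (σ : G ≃g G) (x y : V) : M (σ x) (σ y) ↔ M x y := by
  refine ⟨fun h => ?_, M_of σ x y⟩
  have := M_of σ.symm _ _ h
  simpa using this

/-- The partner of the vertex of type `i` in block `0`. -/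
def partner (i : Fin 6) : V := ![(-1, 1), (1, 0), (0, 3), (0, 2), (0, 5), (0, 4)] i

/-- The decidable version of `M`. -/
def MF (x y : V) : Prop :=
  (∃ p ∈ nbF x, ∃ q ∈ nbF x, ∃ r ∈ nbF x, p ≠ q ∧ p ≠ r ∧ q ≠ r ∧ p ∈ nbF y ∧ q ∈ nbF y ∧
    r ∈ nbF y) ∨ ¬ ∃ p ∈ nbF x, ∃ q ∈ nbF p, y ∈ nbF q ∧ p ≠ y ∧ q ≠ x

instance (x y : V) : Decidable (MF x y) := by unfold MF; infer_instance

theorem M_iff_MF (x y : V) : M x y ↔ y ∈ nbF x ∧ MF x y := by
  unfold M MF
  simp only [mem_nbF]
  constructor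
  · rintro ⟨h1, h2⟩
    refine ⟨h1, ?_⟩
    rcases h2 with ⟨p, q, r, hpq, hpr, hqr, a1, a2, a3, a4, a5, a6⟩ | h2
    · exact Or.inl ⟨p, a1, q, a2, r, a3, hpq, hpr, hqr, a4, a5, a6⟩
    · right
      rintro ⟨p, a1, q, a2, a3, a4, a5⟩
      exact h2 ⟨p, q, a1, a2, a3, a4, a5⟩
  · rintro ⟨h1, h2⟩
    refine ⟨h1, ?_⟩
    rcases h2 with ⟨p, a1, q, a2, r, a3, hpq, hpr, hqr, a4, a5, a6⟩ | h2
    · exact Or.inl ⟨p, q, r, hpq, hpr, hqr, a1, a2, a3, a4, a5, a6⟩
    · right
      rintro ⟨p, q, a1, a2, a3, a4, a5⟩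
      exact h2 ⟨p, a1, q, a2, a3, a4, a5⟩

set_option maxRecDepth 100000 in
theorem MF_base : ∀ i : Fin 6, ∀ y ∈ nbF (0, i), MF (0, i) y ↔ y = partner i := by
  decide

theorem partner_mem : ∀ i : Fin 6, partner i ∈ nbF (0, i) := by decide

theorem M_base (i : Fin 6) (y : V) : M (0, i) y ↔ y = partner i := by
  rw [M_iff_MF]
  constructor
  · rintro ⟨h1, h2⟩
    exact (MF_base i y h1).1 h2
  · rintro rfl
    exact ⟨partner_mem i, (MF_base i _ (partner_mem i)).2 rfl⟩

theorem M_unique (x : V) : ∃! y, M x y := by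
  obtain ⟨k, i⟩ := x
  have h1 : ∀ y, M (k, i) y ↔ tr (-k) y = partner i := by
    intro y
    rw [← M_iff (tr (-k)), ← M_base]
    have : tr (-k) (k, i) = (0, i) := by rw [tr_apply]; simp
    rw [this]
  refine ⟨(tr (-k)).symm (partner i), ?_, ?_⟩
  · show M (k, i) _
    rw [h1]
    simp
  · intro y hy
    have hy' : M (k, i) y := hy
    rw [h1] at hy'
    rw [← hy']
    simp

theorem M_symm (x y : V) (h : M x y) : M y x := by
  obtain ⟨h1, h2⟩ := h
  refine ⟨h1.symm, ?_⟩
  rcases h2 with ⟨p, q, r, hpq, hpr, hqr, a1, a2, a3, a4, a5, a6⟩ | h2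
  · exact Or.inl ⟨p, q, r, hpq, hpr, hqr, a4, a5, a6, a1, a2, a3⟩
  · right
    rintro ⟨p, q, a1, a2, a3, a4, a5⟩
    exact h2 ⟨q, p, a3.symm, a2.symm, a1.symm, a5, a4⟩

open Classical in
/-- The constant factor of iid given by the canonical perfect matching. -/
theorem fiid_matching : ExistsFIID G (IsPerfectMatching G) := by
  refine ⟨fun _ x y => decide (M x y), fun x y => measurable_const, fun σ ω x y => ?_, ?_⟩
  · show decide (M x y) = decide (M (σ x) (σ y))
    rw [decide_eq_decide]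
    exact (M_iff σ x y).symm
  · refine Filter.Eventually.of_forall fun ω => ⟨fun x y h => ?_, fun x y h => ?_, fun x => ?_⟩
    · exact (of_decide_eq_true h).1
    · exact decide_eq_true (M_symm _ _ (of_decide_eq_true h))
    · simpa using M_unique x

theorem degree (x : V) : (G.neighborSet x).ncard = 4 := by
  have h1 : G.neighborSet x = (nbF x : Set V) := by
    ext y
    simp [mem_nbF]
  rw [h1, Set.ncard_coe_finset]
  unfold nbF
  rw [Finset.card_image_of_injective]
  · generalize x.2 = i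
    revert i
    decide
  · intro z w h
    simp only [Prod.mk.injEq, add_right_inj] at h
    exact Prod.ext h.1 h.2

theorem quasi : QuasiTransitive G := by
  refine ⟨Finset.univ.image (fun i : Fin 6 => ((0 : ℤ), i)), fun x => ⟨tr (-x.1), ?_⟩⟩
  rw [tr_apply]
  exact Finset.mem_image.2 ⟨x.2, Finset.mem_univ _, by simp⟩

/-- The number of outgoing edges as a sum. -/
theorem out_sum {o : V → V → Bool} (h : IsBalancedOrientation G 2 o) (k : ℤ) (i : Fin 6) :
    ∑ z ∈ nb0 i, (if o (k, i) (k + z.1, z.2) = true then 1 else 0) = 2 := by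
  have h1 := h.out (k, i)
  have h2 : {y | o (k, i) y = true} = ((nbF (k, i)).filter (fun y => o (k, i) y = true) : Set V) := by
    ext y
    simp only [Set.mem_ofPred_eq, Finset.coe_filter, mem_nbF]
    exact ⟨fun hy => ⟨h.adj _ _ hy, hy⟩, fun hy => hy.2⟩
  rw [h2, Set.ncard_coe_finset, Finset.card_filter] at h1
  unfold nbF at h1
  rw [Finset.sum_image] at h1
  · exact h1
  · intro z _ w _ hzw
    simp only [Prod.mk.injEq, add_right_inj] at hzw
    exact Prod.ext hzw.1 hzw.2

/-- In a balanced orientation consecutive bridges are oriented the same way. -/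
theorem bridge {o : V → V → Bool} (h : IsBalancedOrientation G 2 o) (k : ℤ) :
    o (k, 1) (k + 1, 0) = o (k - 1, 1) (k, 0) := by
  let b : V → V → ℕ := fun x y => if o x y = true then 1 else 0
  have hb : ∀ x y, G.Adj x y → b x y + b y x = 1 := by
    intro x y hxy
    have := h.orient x y hxy
    simp only [b, this]
    cases o x y <;> simp
  have adj : ∀ i j : Fin 6, blk i j = true → G.Adj (k, i) (k, j) := by
    intro i j hij
    show A (k - k) i j = true
    simp [A, hij]
  have s0 := out_sum h k 0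
  have s1 := out_sum h k 1
  have s2 := out_sum h k 2
  have s3 := out_sum h k 3
  have s4 := out_sum h k 4
  have s5 := out_sum h k 5
  simp only [nb0] at s0 s1 s2 s3 s4 s5
  rw [Finset.sum_insert (by decide), Finset.sum_insert (by decide), Finset.sum_insert (by decide),
    Finset.sum_singleton] at s0 s1 s2 s3 s4 s5
  have t0 : b (k, 0) (k, 1) + b (k, 0) (k, 2) + b (k, 0) (k, 3) + b (k, 0) (k - 1, 1) = 2 := by
    simpa [b, add_assoc, sub_eq_add_neg] using s0
  have t1 : b (k, 1) (k, 0) + b (k, 1) (k, 4) + b (k, 1) (k, 5) + b (k, 1) (k + 1, 0) = 2 := by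
    simpa [b, add_assoc, sub_eq_add_neg] using s1
  have t2 : b (k, 2) (k, 0) + b (k, 2) (k, 3) + b (k, 2) (k, 4) + b (k, 2) (k, 5) = 2 := by
    simpa [b, add_assoc, sub_eq_add_neg] using s2
  have t3 : b (k, 3) (k, 0) + b (k, 3) (k, 2) + b (k, 3) (k, 4) + b (k, 3) (k, 5) = 2 := by
    simpa [b, add_assoc, sub_eq_add_neg] using s3
  have t4 : b (k, 4) (k, 1) + b (k, 4) (k, 2) + b (k, 4) (k, 3) + b (k, 4) (k, 5) = 2 := by
    simpa [b, add_assoc, sub_eq_add_neg] using s4
  have t5 : b (k, 5) (k, 1) + b (k, 5) (k, 2) + b (k, 5) (k, 3) + b (k, 5) (k, 4) = 2 := by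
    simpa [b, add_assoc, sub_eq_add_neg] using s5
  have e01 := hb _ _ (adj 0 1 (by decide))
  have e02 := hb _ _ (adj 0 2 (by decide))
  have e03 := hb _ _ (adj 0 3 (by decide))
  have e14 := hb _ _ (adj 1 4 (by decide))
  have e15 := hb _ _ (adj 1 5 (by decide))
  have e23 := hb _ _ (adj 2 3 (by decide))
  have e24 := hb _ _ (adj 2 4 (by decide))
  have e25 := hb _ _ (adj 2 5 (by decide))
  have e34 := hb _ _ (adj 3 4 (by decide))
  have e35 := hb _ _ (adj 3 5 (by decide))
  have e45 := hb _ _ (adj 4 5 (by decide))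
  have ebr : b (k - 1, 1) (k, 0) + b (k, 0) (k - 1, 1) = 1 := by
    apply hb
    show A (k - (k - 1)) 1 0 = true
    rw [show k - (k - 1) = 1 by ring]
    decide
  have key : b (k, 1) (k + 1, 0) = b (k - 1, 1) (k, 0) := by omega
  simp only [b] at key
  cases h1 : o (k, 1) (k + 1, 0) <;> cases h2 : o (k - 1, 1) (k, 0) <;> simp_all

theorem not_fiid_balanced : ¬ ExistsFIID G (IsBalancedOrientation G 2) := by
  rintro ⟨Φ, hm, he, hP⟩
  let B : Set (V → unitInterval) := {ω | Φ ω (0, 1) (1, 0) = true}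
  have hB : MeasurableSet B := (hm (0, 1) (1, 0)) (measurableSet_singleton true)
  -- invariance under translation
  have hinv : (fun (ω : V → unitInterval) v => ω ((tr 1).toEquiv v)) ⁻¹' B =ᵐ[unif V] B := by
    filter_upwards [hP] with ω hω
    apply propext
    show Φ (fun v => ω (tr 1 v)) (0, 1) (1, 0) = true ↔ Φ ω (0, 1) (1, 0) = true
    rw [he (tr 1)]
    have h1 := bridge hω 1
    have e1 : tr 1 ((0 : ℤ), (1 : Fin 6)) = (1, 1) := by rw [tr_apply]; simp
    have e2 : tr 1 ((1 : ℤ), (0 : Fin 6)) = (1 + 1, 0) := by rw [tr_apply]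
    rw [e1, e2, h1]
    simp
  have hpow : ∀ (n : ℕ) (v : V), (((tr 1).toEquiv) ^ n) v = (v.1 + n, v.2) := by
    intro n
    induction n with
    | zero => intro v; simp
    | succ n ih =>
      intro v
      rw [pow_succ', Equiv.Perm.mul_apply, ih]
      show tr 1 (v.1 + n, v.2) = _
      rw [tr_apply]
      push_cast
      simp [add_assoc]
  have hT : ∀ s : Finset V, ∃ n : ℕ, ∀ v ∈ s, ∀ w ∈ s, (((tr 1).toEquiv) ^ n) v ≠ w := by
    intro s
    refine ⟨(s.sup fun v => v.1.natAbs) * 2 + 1, fun v hv w hw hcon => ?_⟩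
    rw [hpow] at hcon
    have h1 : v.1.natAbs ≤ s.sup fun v => v.1.natAbs := Finset.le_sup (f := fun v : V => v.1.natAbs) hv
    have h2 : w.1.natAbs ≤ s.sup fun v => v.1.natAbs := Finset.le_sup (f := fun v : V => v.1.natAbs) hw
    have h3 := congrArg Prod.fst hcon
    simp only at h3
    push_cast at h3
    omega
  have h01 := zero_one (tr 1).toEquiv hT B hB hinv
  -- the reflection exchanges `B` and its complement
  have hrf : (fun (ω : V → unitInterval) v => ω (rf.toEquiv v)) ⁻¹' B =ᵐ[unif V]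
      (Bᶜ : Set (V → unitInterval)) := by
    filter_upwards [hP] with ω hω
    apply propext
    show Φ (fun v => ω (rf v)) (0, 1) (1, 0) = true ↔ ¬ Φ ω (0, 1) (1, 0) = true
    rw [he rf]
    have e1 : rf ((0 : ℤ), (1 : Fin 6)) = (0, 0) := by rw [rf_apply]; rfl
    have e2 : rf ((1 : ℤ), (0 : Fin 6)) = (-1, 1) := by rw [rf_apply]; rfl
    rw [e1, e2]
    have h1 := bridge hω 0
    have h2 := hω.orient (-1, 1) (0, 0) (by decide)
    rw [h2]
    have h3 : Φ ω (0, 1) (1, 0) = Φ ω (-1, 1) (0, 0) := by simpa using h1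
    rw [h3]
    simp
  have hrf' : (unif V).real B = (unif V).real Bᶜ := by
    have h1 : (unif V).real ((fun (ω : V → unitInterval) v => ω (rf.toEquiv v)) ⁻¹' B) =
        (unif V).real B :=
      (measurePreserving_perm rf.toEquiv).measureReal_preimage hB.nullMeasurableSet
    rw [← h1, measureReal_def, measure_congr hrf]
    rfl
  have hc : (unif V).real Bᶜ = 1 - (unif V).real B := probReal_compl_eq_one_sub hB
  rcases h01 with h | h <;> rw [hc, h] at hrf' <;> norm_num at hrf'

end Pool.Agent.V1137.BlockChain
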