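import Mathlib

/-!
# The spectral gap of a graph and Rayleigh quotients
-/

namespace Pool.Agent.V1137.Gap

open Finset Matrix

variable {V : Type*} [Fintype V] [DecidableEq V]

/-- The spectral gap `λ₂(G)`: the second smallest eigenvalue (with multiplicity) of the
combinatorial Laplacian `D - A`. (`eigenvalues₀` lists the eigenvalues in decreasing order.) -/
noncomputable def lam2 (G : SimpleGraph V) [DecidableRel G.Adj] : ℝ :=
  if h : 2 ≤ Fintype.card V then
    (G.isHermitian_lapMatrix (R := ℝ)).eigenvalues₀ ⟨Fintype.card V - 2, by omega⟩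
  else 0

variable (G : SimpleGraph V) [DecidableRel G.Adj]

/-- Rayleigh bound for the spectral gap. -/
theorem lam2_mul_le (hn : 2 ≤ Fintype.card V) (f : V → ℝ) (hf : ∑ v, f v = 0) :
    lam2 G * ∑ v, f v ^ 2 ≤ f ⬝ᵥ ((G.lapMatrix ℝ) *ᵥ f) := by
  classical
  set L := G.lapMatrix ℝ with hL
  have hA : L.IsHermitian := G.isHermitian_lapMatrix (R := ℝ)
  have hpsd : L.PosSemidef := G.posSemidef_lapMatrix ℝ
  have hnonneg : ∀ g : V → ℝ, 0 ≤ g ⬝ᵥ (L *ᵥ g) := by
    intro g
    have := hpsd.dotProduct_mulVec_nonneg g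
    simpa using this
  by_cases hpos : lam2 G ≤ 0
  · have h1 : 0 ≤ ∑ v, f v ^ 2 := Finset.sum_nonneg fun v _ => sq_nonneg _
    exact (mul_nonpos_of_nonpos_of_nonneg hpos h1).trans (hnonneg f)
  push Not at hpos
  let b := hA.eigenvectorBasis
  -- coordinates
  let c : (V → ℝ) → V → ℝ := fun g i => ∑ v, (b i) v * g v
  have hc : ∀ (g : V → ℝ) i, c g i = inner ℝ (b i) (WithLp.toLp 2 g : EuclideanSpace ℝ V) := by
    intro g i
    rw [EuclideanSpace.inner_eq_star_dotProduct]
    simp only [c, dotProduct, Pi.star_apply, star_trivial]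
    exact Finset.sum_congr rfl fun v _ => mul_comm _ _
  have hinner : ∀ g h : V → ℝ, ∑ i, c g i * c h i = ∑ v, g v * h v := by
    intro g h
    have h1 := b.sum_inner_mul_inner (WithLp.toLp 2 g : EuclideanSpace ℝ V)
      (WithLp.toLp 2 h : EuclideanSpace ℝ V)
    have h2 : inner ℝ (WithLp.toLp 2 g : EuclideanSpace ℝ V)
        (WithLp.toLp 2 h : EuclideanSpace ℝ V) = ∑ v, g v * h v := by
      rw [EuclideanSpace.inner_eq_star_dotProduct]
      simp only [dotProduct, Pi.star_apply, star_trivial]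
      exact Finset.sum_congr rfl fun v _ => mul_comm _ _
    rw [← h2, ← h1]
    refine Finset.sum_congr rfl fun i _ => ?_
    rw [hc, hc, real_inner_comm]
  have hsymm : ∀ g h : V → ℝ, g ⬝ᵥ (L *ᵥ h) = (L *ᵥ g) ⬝ᵥ h := by
    intro g h
    rw [Matrix.dotProduct_mulVec, ← Matrix.mulVec_transpose]
    have : Lᵀ = L := G.isSymm_lapMatrix (R := ℝ)
    rw [this]
  have heig : ∀ (g : V → ℝ) i, c (L *ᵥ g) i = hA.eigenvalues i * c g i := by
    intro g i
    have h1 : c (L *ᵥ g) i = (fun v => (b i) v) ⬝ᵥ (L *ᵥ g) := rfl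
    rw [h1, hsymm]
    have h2 := hA.mulVec_eigenvectorBasis i
    have h3 : (L *ᵥ fun v => (b i) v) = fun v => hA.eigenvalues i * (b i) v := h2
    rw [h3]
    simp only [dotProduct, c, Finset.mul_sum]
    exact Finset.sum_congr rfl fun v _ => by ring
  have hquad : f ⬝ᵥ (L *ᵥ f) = ∑ i, hA.eigenvalues i * c f i ^ 2 := by
    have h1 : f ⬝ᵥ (L *ᵥ f) = ∑ v, f v * (L *ᵥ f) v := rfl
    rw [h1, ← hinner f (L *ᵥ f)]
    refine Finset.sum_congr rfl fun i _ => ?_
    rw [heig]; ring
  have hnorm : ∑ v, f v ^ 2 = ∑ i, c f i ^ 2 := by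
    have := hinner f f
    simp only [sq]
    exact this.symm
  -- the index of the smallest eigenvalue
  let e := (Fintype.equivOfCardEq (Fintype.card_fin (Fintype.card V))).symm
  let e' : V ≃ Fin (Fintype.card V) := e
  let i0 : V := e'.symm ⟨Fintype.card V - 1, by omega⟩
  have hlam : ∀ i, i ≠ i0 → lam2 G ≤ hA.eigenvalues i := by
    intro i hi
    have h1 : lam2 G = hA.eigenvalues₀ ⟨Fintype.card V - 2, by omega⟩ := by
      rw [lam2, dif_pos hn]
    have h2 : hA.eigenvalues i = hA.eigenvalues₀ (e' i) := rfl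
    rw [h1, h2]
    apply hA.eigenvalues₀_antitone
    have h3 : e' i ≠ ⟨Fintype.card V - 1, by omega⟩ := by
      intro h
      apply hi
      simp only [i0]
      rw [← h, Equiv.symm_apply_apply]
    have h4 : (e' i).val ≠ Fintype.card V - 1 := fun h => h3 (Fin.ext h)
    have h5 := (e' i).isLt
    rw [Fin.le_def]
    simp only
    omega
  -- the constant vector
  have hone : L *ᵥ (fun _ => (1 : ℝ)) = 0 := G.lapMatrix_mulVec_const_eq_zero
  have hc1 : ∀ i, i ≠ i0 → c (fun _ => 1) i = 0 := by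
    intro i hi
    have h1 := heig (fun _ => 1) i
    rw [hone] at h1
    have h2 : c 0 i = 0 := by simp [c]
    rw [h2] at h1
    have h3 : 0 < hA.eigenvalues i := lt_of_lt_of_le hpos (hlam i hi)
    exact (mul_eq_zero.1 h1.symm).resolve_left h3.ne'
  have hc0 : c f i0 = 0 := by
    have h1 := hinner (fun _ => 1) f
    simp only [one_mul] at h1
    rw [hf, Finset.sum_eq_single i0 (fun i _ hi => by rw [hc1 i hi, zero_mul])
      (fun h => absurd (Finset.mem_univ _) h)] at h1
    have h2 := hinner (fun _ => 1) (fun _ => 1)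
    rw [Finset.sum_eq_single i0 (fun i _ hi => by rw [hc1 i hi, zero_mul])
      (fun h => absurd (Finset.mem_univ _) h)] at h2
    have h3 : c (fun _ => 1) i0 ≠ 0 := by
      intro h0
      rw [h0] at h2
      simp at h2
      have : Fintype.card V = 0 := by exact_mod_cast h2.symm
      omega
    exact (mul_eq_zero.1 h1).resolve_left h3
  rw [hquad, hnorm, Finset.mul_sum]
  apply Finset.sum_le_sum
  intro i _
  by_cases hi : i = i0
  · rw [hi, hc0]; simp
  · exact mul_le_mul_of_nonneg_right (hlam i hi) (sq_nonneg _)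

/-- The gap is at most twice any degree. -/
theorem lam2_le_degree (hn : 2 ≤ Fintype.card V) (v : V) : lam2 G ≤ 2 * G.degree v := by
  have hn' : (2 : ℝ) ≤ Fintype.card V := by exact_mod_cast hn
  set n : ℝ := (Fintype.card V : ℝ) with hnn
  let f : V → ℝ := fun x => (if x = v then 1 else 0) - 1 / n
  have hsum : ∑ x, f x = 0 := by
    simp only [f, Finset.sum_sub_distrib, Finset.sum_ite_eq', Finset.mem_univ, if_true,
      Finset.sum_const, Finset.card_univ, nsmul_eq_mul]
    rw [← hnn]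
    field_simp
    ring
  have hsq : ∑ x, f x ^ 2 = 1 - 1 / n := by
    have : ∀ x, f x ^ 2 = (if x = v then 1 - 2 / n else 0) + 1 / n ^ 2 := by
      intro x
      simp only [f]
      split_ifs
      · field_simp; ring
      · field_simp; ring
    simp only [this, Finset.sum_add_distrib, Finset.sum_ite_eq', Finset.mem_univ, if_true,
      Finset.sum_const, Finset.card_univ, nsmul_eq_mul]
    rw [← hnn]
    field_simp
    ring
  have hquad : f ⬝ᵥ ((G.lapMatrix ℝ) *ᵥ f) = G.degree v := by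
    have h1 : (G.lapMatrix ℝ) *ᵥ f = (G.lapMatrix ℝ) *ᵥ (Pi.single v 1) := by
      have : f = Pi.single v 1 - (1 / n) • (fun _ => (1 : ℝ)) := by
        funext x
        simp only [f, Pi.sub_apply, Pi.smul_apply, smul_eq_mul, mul_one]
        by_cases h : x = v
        · subst h; simp
        · simp [h]
      rw [this, Matrix.mulVec_sub, Matrix.mulVec_smul, G.lapMatrix_mulVec_const_eq_zero, smul_zero,
        sub_zero]
    have h2 : f ⬝ᵥ ((G.lapMatrix ℝ) *ᵥ f) = (Pi.single v 1) ⬝ᵥ ((G.lapMatrix ℝ) *ᵥ f) := by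
      have : f = Pi.single v 1 - (1 / n) • (fun _ => (1 : ℝ)) := by
        funext x
        simp only [f, Pi.sub_apply, Pi.smul_apply, smul_eq_mul, mul_one]
        by_cases h : x = v
        · subst h; simp
        · simp [h]
      conv_lhs => rw [show f ⬝ᵥ ((G.lapMatrix ℝ) *ᵥ f) =
        (Pi.single v 1 - (1 / n) • (fun _ => (1 : ℝ))) ⬝ᵥ ((G.lapMatrix ℝ) *ᵥ f) by rw [← this]]
      rw [sub_dotProduct, smul_dotProduct]
      have h3 : (fun _ : V => (1 : ℝ)) ⬝ᵥ ((G.lapMatrix ℝ) *ᵥ f) = 0 := by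
        rw [Matrix.dotProduct_mulVec, ← Matrix.mulVec_transpose]
        have : (G.lapMatrix ℝ)ᵀ = G.lapMatrix ℝ := G.isSymm_lapMatrix (R := ℝ)
        rw [this, G.lapMatrix_mulVec_const_eq_zero, zero_dotProduct]
      rw [h3, smul_zero, sub_zero]
    rw [h2, h1]
    simp [SimpleGraph.lapMatrix, SimpleGraph.degMatrix, single_dotProduct, Matrix.mulVec_single]
  have h := lam2_mul_le G hn f hsum
  rw [hsq, hquad] at h
  have h1 : (1 : ℝ) / 2 ≤ 1 - 1 / n := by
    have : 1 / n ≤ 1 / 2 := one_div_le_one_div_of_le (by norm_num) hn'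
    linarith
  have hdeg : (0 : ℝ) ≤ G.degree v := Nat.cast_nonneg _
  by_cases hpos : lam2 G ≤ 0
  · linarith
  · push Not at hpos
    have := mul_le_mul_of_nonneg_left h1 hpos.le
    linarith

end Pool.Agent.V1137.Gap
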