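import Mathlib
import Pool.Agent.V1137.Gap
import Pool.Agent.V1137.Magneto

/-!
# Threads of degree-two vertices in a graph of minimum degree at least two
-/

namespace Pool.Agent.V1137.Threads

open Finset Matrix Pool.Agent.V1137.Gap Pool.Agent.V1137.Magneto

variable {V : Type*} [Fintype V] [DecidableEq V] (G : SimpleGraph V) [DecidableRel G.Adj] (r : V)

/-- Special vertices: the root and the vertices of degree at least three. -/
def Sp (x : V) : Prop := x = r ∨ 3 ≤ G.degree x

open Classical in
/-- Continue a walk without backtracking. -/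
noncomputable def nxt (v u : V) : V := if h : ∃ c, G.Adj u c ∧ c ≠ v then h.choose else u

/-- One step of a non-backtracking walk. -/
noncomputable def st (p : V × V) : V × V := (p.2, nxt G p.1 p.2)

/-- The vertices of the non-backtracking walk starting with the directed edge `p`. -/
noncomputable def q (p : V × V) (n : ℕ) : V := ((st G)^[n] p).1

variable (hdeg : ∀ x, 2 ≤ G.degree x)

include hdeg in
lemma nxt_spec (v u : V) : G.Adj u (nxt G v u) ∧ nxt G v u ≠ v := by
  have h : ∃ c, G.Adj u c ∧ c ≠ v := by
    by_contra hcon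
    push Not at hcon
    have : G.neighborFinset u ⊆ {v} := by
      intro c hc
      rw [SimpleGraph.mem_neighborFinset] at hc
      simp [hcon c hc]
    have h1 := Finset.card_le_card this
    rw [SimpleGraph.card_neighborFinset_eq_degree, Finset.card_singleton] at h1
    have := hdeg u
    omega
  rw [nxt, dif_pos h]
  exact h.choose_spec

lemma q_zero (p : V × V) : q G p 0 = p.1 := rfl

lemma q_one (p : V × V) : q G p 1 = p.2 := rfl

lemma st_iter (p : V × V) (n : ℕ) : (st G)^[n] p = (q G p n, q G p (n + 1)) := by
  have h1 : (st G)^[n + 1] p = st G ((st G)^[n] p) := Function.iterate_succ_apply' _ _ _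
  apply Prod.ext
  · rfl
  · simp only [q, h1, st]

lemma q_add_two (p : V × V) (n : ℕ) : q G p (n + 2) = nxt G (q G p n) (q G p (n + 1)) := by
  have h1 : (st G)^[n + 1] p = st G ((st G)^[n] p) := Function.iterate_succ_apply' _ _ _
  have h2 := st_iter G p (n + 1)
  have h3 : q G p (n + 2) = ((st G)^[n + 1] p).2 := by rw [h2]
  rw [h3, h1, st_iter]
  rfl

lemma q_st (p : V × V) (n : ℕ) : q G (st G p) n = q G p (n + 1) := by
  simp only [q]
  rw [← Function.iterate_succ_apply]

lemma q_shift (p : V × V) (m n : ℕ) : q G ((st G)^[m] p) n = q G p (n + m) := by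
  simp only [q]
  rw [Function.iterate_add_apply]

include hdeg in
lemma q_adj (p : V × V) (hp : G.Adj p.1 p.2) (n : ℕ) : G.Adj (q G p n) (q G p (n + 1)) := by
  cases n with
  | zero => exact hp
  | succ n =>
    rw [q_add_two]
    exact (nxt_spec G hdeg _ _).1

include hdeg in
lemma q_nb (p : V × V) (n : ℕ) : q G p (n + 2) ≠ q G p n := by
  rw [q_add_two]
  exact (nxt_spec G hdeg _ _).2

include hdeg in
lemma nbr_nonspecial (x a b : V) (hx : ¬ Sp G r x) (ha : G.Adj x a) (hb : G.Adj x b)
    (hab : a ≠ b) : G.neighborFinset x = {a, b} := by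
  symm
  apply Finset.eq_of_subset_of_card_le
  · intro c hc
    simp only [Finset.mem_insert, Finset.mem_singleton] at hc
    rw [SimpleGraph.mem_neighborFinset]
    rcases hc with rfl | rfl
    · exact ha
    · exact hb
  · rw [SimpleGraph.card_neighborFinset_eq_degree, Finset.card_pair hab]
    simp only [Sp, not_or, not_le] at hx
    omega

include hdeg in
lemma q_nbr (p : V × V) (hp : G.Adj p.1 p.2) (n : ℕ) (hn : ¬ Sp G r (q G p (n + 1))) :
    G.neighborFinset (q G p (n + 1)) = {q G p n, q G p (n + 2)} :=
  nbr_nonspecial G r hdeg _ _ _ hn (q_adj G hdeg p hp n).symm (q_adj G hdeg p hp (n + 1))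
    (q_nb G hdeg p n).symm

include hdeg in
lemma st_inj (p p' : V × V) (hp : G.Adj p.1 p.2) (hp' : G.Adj p'.1 p'.2)
    (h2 : ¬ Sp G r p.2) (h : st G p = st G p') : p = p' := by
  have e2 : p.2 = p'.2 := congrArg Prod.fst h
  have e3 : nxt G p.1 p.2 = nxt G p'.1 p'.2 := congrArg Prod.snd h
  have n1 := nbr_nonspecial G r hdeg p.2 p.1 (nxt G p.1 p.2) h2 hp.symm
    (nxt_spec G hdeg p.1 p.2).1 (nxt_spec G hdeg p.1 p.2).2.symm
  have hmem : p'.1 ∈ G.neighborFinset p.2 := by
    rw [SimpleGraph.mem_neighborFinset, e2]; exact hp'.symm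
  rw [n1] at hmem
  simp only [Finset.mem_insert, Finset.mem_singleton] at hmem
  rcases hmem with h1 | h1
  · exact Prod.ext h1.symm e2
  · exfalso
    rw [e3] at h1
    exact (nxt_spec G hdeg p'.1 p'.2).2 h1.symm

include hdeg in
/-- Every non-backtracking walk meets a special vertex. -/
lemma exists_special (hconn : G.Connected) (p : V × V) (hp : G.Adj p.1 p.2) :
    ∃ n, Sp G r (q G p (n + 1)) := by
  by_contra hcon
  push Not at hcon
  have hadj : ∀ n, G.Adj ((st G)^[n] p).1 ((st G)^[n] p).2 := by
    intro n; rw [st_iter]; exact q_adj G hdeg p hp n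
  have hback : ∀ m k, (st G)^[m] p = (st G)^[m + k] p → p = (st G)^[k] p := by
    intro m
    induction m with
    | zero => intro k h; simpa using h
    | succ m ih =>
      intro k h
      apply ih
      rw [Function.iterate_succ_apply', show m + 1 + k = (m + k) + 1 by ring,
        Function.iterate_succ_apply'] at h
      refine st_inj G r hdeg _ _ (hadj m) (hadj (m + k)) ?_ h
      rw [st_iter]
      exact hcon m
  obtain ⟨m, n, hmn, heq⟩ := Finite.exists_ne_map_eq_of_infinite (fun n : ℕ => (st G)^[n] p)
  have hper : ∃ k, 1 ≤ k ∧ q G p 0 = q G p k := by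
    rcases lt_or_gt_of_ne hmn with h | h
    · refine ⟨n - m, by omega, ?_⟩
      have := hback m (n - m) (by rw [show m + (n - m) = n by omega]; exact heq)
      have h1 := congrArg Prod.fst this
      exact h1
    · refine ⟨m - n, by omega, ?_⟩
      have := hback n (m - n) (by rw [show n + (m - n) = m by omega]; exact heq.symm)
      have h1 := congrArg Prod.fst this
      exact h1
  obtain ⟨k, hk1, hk⟩ := hper
  have hclosed : ∀ x y, (∃ n, x = q G p (n + 1)) → G.Adj x y → ∃ n, y = q G p (n + 1) := by
    rintro x y ⟨n, rfl⟩ hxy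
    have hmem : y ∈ G.neighborFinset (q G p (n + 1)) := by
      rw [SimpleGraph.mem_neighborFinset]; exact hxy
    rw [q_nbr G r hdeg p hp n (hcon n)] at hmem
    simp only [Finset.mem_insert, Finset.mem_singleton] at hmem
    rcases hmem with h | h
    · cases n with
      | zero => exact ⟨k - 1, by rw [h, hk, show k - 1 + 1 = k by omega]⟩
      | succ n => exact ⟨n, h⟩
    · exact ⟨n + 1, h⟩
  have hall : ∀ x y, G.Reachable x y → (∃ n, x = q G p (n + 1)) → ∃ n, y = q G p (n + 1) := by
    rintro x y ⟨w⟩
    induction w with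
    | nil => exact id
    | cons h _ ih => exact fun hx => ih (hclosed _ _ hx h)
  obtain ⟨n, hn⟩ := hall p.2 r (hconn.preconnected _ _) ⟨0, rfl⟩
  exact hcon n (by rw [← hn]; exact Or.inl rfl)

open Classical in
/-- Number of steps to the first special vertex. -/
noncomputable def ell (p : V × V) : ℕ :=
  if h : ∃ n, Sp G r (q G p (n + 1)) then Nat.find h + 1 else 1

lemma ell_pos (p : V × V) : 1 ≤ ell G r p := by
  unfold ell; split_ifs <;> omega

lemma ell_special (p : V × V) (h : Sp G r p.2) : ell G r p = 1 := by
  classical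
  have hex : ∃ n, Sp G r (q G p (n + 1)) := ⟨0, h⟩
  rw [ell, dif_pos hex]
  have : Nat.find hex = 0 := by
    rw [Nat.find_eq_zero]
    exact h
  omega

include hdeg in
lemma ell_nonspecial (hconn : G.Connected) (p : V × V) (hp : G.Adj p.1 p.2) (h : ¬ Sp G r p.2) :
    ell G r p = ell G r (st G p) + 1 := by
  classical
  have hex := exists_special G r hdeg hconn p hp
  have hp' : G.Adj (st G p).1 (st G p).2 := (nxt_spec G hdeg p.1 p.2).1
  have hex' := exists_special G r hdeg hconn (st G p) hp'
  rw [ell, dif_pos hex, ell, dif_pos hex']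
  congr 1
  rw [Nat.find_eq_iff]
  constructor
  · have := Nat.find_spec hex'
    rw [q_st] at this
    exact this
  · intro m hm hsp
    cases m with
    | zero => exact h hsp
    | succ m =>
      have h1 : m < Nat.find hex' := by omega
      apply Nat.find_min hex' h1
      rw [q_st]
      exact hsp

include hdeg in
lemma ell_spec (hconn : G.Connected) (p : V × V) (hp : G.Adj p.1 p.2) :
    Sp G r (q G p (ell G r p)) ∧ ∀ n, 1 ≤ n → n < ell G r p → ¬ Sp G r (q G p n) := by
  classical
  have hex := exists_special G r hdeg hconn p hp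
  rw [ell, dif_pos hex]
  refine ⟨Nat.find_spec hex, fun n hn hlt hsp => ?_⟩
  obtain ⟨m, rfl⟩ : ∃ m, n = m + 1 := ⟨n - 1, by omega⟩
  exact Nat.find_min hex (by omega : m < Nat.find hex) hsp

include hdeg in
/-- The interior vertices of a thread are distinct. -/
lemma q_inj (hconn : G.Connected) (p : V × V) (hp : G.Adj p.1 p.2) : ∀ d i : ℕ, 1 ≤ d → 1 ≤ i →
    i + d < ell G r p → q G p i ≠ q G p (i + d) := by
  obtain ⟨hsp, hnsp⟩ := ell_spec G r hdeg hconn p hp
  intro d
  induction d using Nat.strong_induction_on with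
  | _ d ih =>
    intro i hd hi hlt heq
    rcases Nat.lt_or_ge d 3 with h3 | h3
    · interval_cases d
      · have := q_adj G hdeg p hp i
        rw [heq] at this
        exact G.loopless.irrefl _ this
      · exact q_nb G hdeg p i heq.symm
    · obtain ⟨i', rfl⟩ : ∃ i', i = i' + 1 := ⟨i - 1, by omega⟩
      have n1 := q_nbr G r hdeg p hp i' (hnsp _ (by omega) (by omega))
      have n2 := q_nbr G r hdeg p hp (i' + d) (by
        rw [show i' + d + 1 = i' + 1 + d by ring]
        exact hnsp _ (by omega) hlt)
      rw [show i' + d + 1 = i' + 1 + d by ring, ← heq] at n2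
      have hmem : q G p (i' + 2) ∈ G.neighborFinset (q G p (i' + 1)) := by
        rw [n1]; simp
      rw [n2] at hmem
      simp only [Finset.mem_insert, Finset.mem_singleton] at hmem
      rcases hmem with h | h
      · -- reversal
        have := ih (d - 2) (by omega) (i' + 2) (by omega) (by omega) (by omega)
        apply this
        rw [h]
        congr 1
        omega
      · -- same direction: the walk would be periodic
        have hst : (st G)^[i' + 1] p = (st G)^[i' + 1 + d] p := by
          rw [st_iter, st_iter, heq, h]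
          congr 2
          ring
        have h5 : ∀ m, q G p (m + (i' + 1)) = q G p (m + (i' + 1 + d)) := by
          intro m
          rw [← q_shift, ← q_shift, hst]
        have h6 := h5 (ell G r p - (i' + 1 + d))
        rw [show ell G r p - (i' + 1 + d) + (i' + 1 + d) = ell G r p by omega] at h6
        have h7 := hnsp (ell G r p - (i' + 1 + d) + (i' + 1)) (by omega) (by omega)
        rw [h6] at h7
        exact h7 hsp

include hdeg in
/-- A long thread forces a small spectral gap. -/
theorem lam2_le_thread (hconn : G.Connected) (p : V × V) (hp : G.Adj p.1 p.2)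
    (hmax : ∀ p' : V × V, G.Adj p'.1 p'.2 → ell G r p' ≤ ell G r p) (h3 : 3 ≤ ell G r p) :
    lam2 G ≤ (2 * Real.pi / ell G r p) ^ 2 := by
  obtain ⟨hsp, hnsp⟩ := ell_spec G r hdeg hconn p hp
  -- the first vertex is special too
  have hsp0 : Sp G r (q G p 0) := by
    by_contra h0
    set p' : V × V := (nxt G p.2 p.1, p.1) with hp'
    have hadj' : G.Adj p'.1 p'.2 := (nxt_spec G hdeg p.2 p.1).1.symm
    have hst : st G p' = p := by
      have n1 := nbr_nonspecial G r hdeg p.1 (nxt G p.2 p.1) (nxt G (nxt G p.2 p.1) p.1) h0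
        (nxt_spec G hdeg _ _).1 (nxt_spec G hdeg _ _).1 (nxt_spec G hdeg _ _).2.symm
      have hmem : p.2 ∈ G.neighborFinset p.1 := by
        rw [SimpleGraph.mem_neighborFinset]; exact hp
      rw [n1] at hmem
      simp only [Finset.mem_insert, Finset.mem_singleton] at hmem
      rcases hmem with h | h
      · exact absurd h.symm (nxt_spec G hdeg p.2 p.1).2
      · exact Prod.ext rfl h.symm
    have h1 := ell_nonspecial G r hdeg hconn p' hadj' h0
    rw [hst] at h1
    have := hmax p' hadj'
    omega
  set K := ell G r p with hK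
  have hKpos : (0 : ℝ) < K := by exact_mod_cast (by omega : 0 < K)
  set θ : ℝ := 2 * Real.pi / K with hθ
  let s : ℕ → ℝ := fun i => Real.sin (θ * i)
  let f : V → ℝ := fun x => ∑ i ∈ Finset.Ico 1 K, if x = q G p i then s i else 0
  have hinj : ∀ i j, 1 ≤ i → i < K → 1 ≤ j → j < K → q G p i = q G p j → i = j := by
    intro i j hi hiK hj hjK h
    rcases lt_trichotomy i j with hlt | heq | hgt
    · exfalso
      refine q_inj G r hdeg hconn p hp (j - i) i (by omega) hi (by omega) ?_
      rw [show i + (j - i) = j by omega]; exact h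
    · exact heq
    · exfalso
      refine q_inj G r hdeg hconn p hp (i - j) j (by omega) hj (by omega) ?_
      rw [show j + (i - j) = i by omega]; exact h.symm
  have hfq : ∀ j, 1 ≤ j → j < K → f (q G p j) = s j := by
    intro j hj hjK
    simp only [f]
    rw [Finset.sum_eq_single j]
    · simp
    · intro i hi hij
      rw [Finset.mem_Ico] at hi
      rw [if_neg]
      intro h
      exact hij (hinj i j hi.1 hi.2 hj hjK h.symm)
    · intro h
      exact absurd (Finset.mem_Ico.2 ⟨hj, hjK⟩) h
  have hf0 : ∀ x, (∀ j, 1 ≤ j → j < K → x ≠ q G p j) → f x = 0 := by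
    intro x hx
    simp only [f]
    apply Finset.sum_eq_zero
    intro i hi
    rw [Finset.mem_Ico] at hi
    rw [if_neg (hx i hi.1 hi.2)]
  have hfs : ∀ x, Sp G r x → f x = 0 := by
    intro x hx
    apply hf0
    intro j hj hjK h
    exact hnsp j hj hjK (h ▸ hx)
  have hθK : θ * K = 2 * Real.pi := by rw [hθ]; field_simp
  have hfq' : ∀ j, j ≤ K → f (q G p j) = s j := by
    intro j hj
    rcases Nat.eq_zero_or_pos j with rfl | hpos
    · rw [hfs _ hsp0]; simp [s]
    · rcases Nat.lt_or_ge j K with hlt | hge
      · exact hfq j hpos hlt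
      · have : j = K := by omega
        subst this
        rw [hfs _ hsp]
        simp only [s]
        rw [hθK, Real.sin_two_pi]
  -- sum zero
  have hsum : ∑ x, f x = 0 := by
    simp only [f]
    rw [Finset.sum_comm]
    simp only [Finset.sum_ite_eq', Finset.mem_univ, if_true]
    have hrefl : ∑ i ∈ Finset.Ico 1 K, s i = ∑ i ∈ Finset.Ico 1 K, s (K - i) := by
      refine Finset.sum_nbij' (fun i => K - i) (fun i => K - i) ?_ ?_ ?_ ?_ ?_
      · intro i hi; rw [Finset.mem_Ico] at hi ⊢; omega
      · intro i hi; rw [Finset.mem_Ico] at hi ⊢; omega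
      · intro i hi; rw [Finset.mem_Ico] at hi; omega
      · intro i hi; rw [Finset.mem_Ico] at hi; omega
      · intro i hi
        rw [Finset.mem_Ico] at hi
        rw [show K - (K - i) = i by omega]
    have hneg : ∀ i ∈ Finset.Ico 1 K, s (K - i) = - s i := by
      intro i hi
      rw [Finset.mem_Ico] at hi
      simp only [s]
      rw [Nat.cast_sub (by omega), mul_sub, hθK, Real.sin_two_pi_sub]
    rw [Finset.sum_congr rfl hneg, Finset.sum_neg_distrib] at hrefl
    linarith
  -- eigenfunction property on the support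
  have hquad : f ⬝ᵥ ((G.lapMatrix ℝ) *ᵥ f) = (2 - 2 * Real.cos θ) * ∑ x, f x ^ 2 := by
    rw [Finset.mul_sum]
    simp only [dotProduct]
    apply Finset.sum_congr rfl
    intro x _
    by_cases hx : ∃ j, 1 ≤ j ∧ j < K ∧ x = q G p j
    · obtain ⟨j, hj, hjK, rfl⟩ := hx
      obtain ⟨i, rfl⟩ : ∃ i, j = i + 1 := ⟨j - 1, by omega⟩
      have hns := hnsp (i + 1) hj hjK
      have hnb := q_nbr G r hdeg p hp i hns
      have hdg : G.degree (q G p (i + 1)) = 2 := by
        rw [← SimpleGraph.card_neighborFinset_eq_degree, hnb,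
          Finset.card_pair (q_nb G hdeg p i).symm]
      rw [SimpleGraph.lapMatrix_mulVec_apply, hnb, Finset.sum_pair (q_nb G hdeg p i).symm, hdg,
        hfq' i (by omega), hfq' (i + 1) (by omega), hfq' (i + 2) (by omega)]
      have htrig : s i + s (i + 2) = 2 * Real.cos θ * s (i + 1) := by
        simp only [s]
        push_cast
        have e1 : θ * (i : ℝ) = θ * (i + 1) - θ := by ring
        have e2 : θ * ((i : ℝ) + 2) = θ * (i + 1) + θ := by ring
        rw [e1, e2, Real.sin_sub, Real.sin_add]
        ring
      rw [htrig]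
      push_cast
      ring
    · push Not at hx
      rw [hf0 x hx]
      ring
  have hcard : 2 ≤ Fintype.card V := by
    have := G.degree_lt_card_verts p.1
    have := hdeg p.1
    omega
  have hray := lam2_mul_le G hcard f hsum
  rw [hquad] at hray
  have hpos : 0 < ∑ x, f x ^ 2 := by
    refine Finset.sum_pos' (fun x _ => sq_nonneg _) ⟨q G p 1, Finset.mem_univ _, ?_⟩
    rw [hfq' 1 (by omega)]
    have hs1 : 0 < s 1 := by
      simp only [s]
      apply Real.sin_pos_of_pos_of_lt_pi
      · simp only [hθ, Nat.cast_one, mul_one]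
        positivity
      · simp only [hθ, Nat.cast_one, mul_one]
        rw [div_lt_iff₀ hKpos]
        have : (3 : ℝ) ≤ K := by exact_mod_cast h3
        nlinarith [Real.pi_pos]
    positivity
  have h1 : lam2 G ≤ 2 - 2 * Real.cos θ := le_of_mul_le_mul_right hray hpos
  have h2 := Real.one_sub_sq_div_two_le_cos (x := θ)
  linarith

/-- The concave profile used for the supersolution. -/
noncomputable def prof (K : ℝ) (j : ℝ) : ℝ := 15 * K ^ 2 + j * (8 * K - j)

open Classical in
/-- The supersolution. -/
noncomputable def rho (K : ℕ) (v u : V) : ℝ :=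
  if G.Adj v u then prof K ((ell G r (v, u) : ℝ) - 1) / prof K (ell G r (v, u)) else 1

include hdeg in
/-- Lower bound for the magneto-spectral height in terms of the longest thread. -/
theorem nu_ge_thread (hconn : G.Connected) (K : ℕ) (hK : 1 ≤ K)
    (hmax : ∀ p' : V × V, G.Adj p'.1 p'.2 → ell G r p' ≤ K) :
    1 / (11 * (K : ℝ) ^ 2) ≤ nu G := by
  have hK1 : (1 : ℝ) ≤ K := by exact_mod_cast hK
  have hprof_pos : ∀ j : ℝ, 0 ≤ j → j ≤ K → 0 < prof K j := by
    intro j h0 h1
    simp only [prof]
    nlinarith
  have hprof_le : ∀ j : ℝ, 0 ≤ j → j ≤ K → prof K j ≤ 22 * (K : ℝ) ^ 2 := by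
    intro j h0 h1
    simp only [prof]
    nlinarith
  have hell : ∀ v u, G.Adj v u → 1 ≤ (ell G r (v, u) : ℝ) ∧ (ell G r (v, u) : ℝ) ≤ K := by
    intro v u h
    exact ⟨by exact_mod_cast ell_pos G r (v, u), by exact_mod_cast hmax (v, u) h⟩
  have : Nonempty V := hconn.nonempty
  have hrho_pos : ∀ v u, 0 < rho G r K v u := by
    intro v u
    unfold rho
    split_ifs with h
    · obtain ⟨h1, h2⟩ := hell v u h
      exact div_pos (hprof_pos _ (by linarith) (by linarith)) (hprof_pos _ (by linarith) h2)
    · exact one_pos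
  set δ : ℝ := (6 * K + 1) / (22 * (K : ℝ) ^ 2) with hδ
  have hrho_le : ∀ v u, G.Adj v u → rho G r K v u ≤ 1 - δ := by
    intro v u h
    obtain ⟨h1, h2⟩ := hell v u h
    rw [rho, if_pos h]
    set L : ℝ := (ell G r (v, u) : ℝ)
    have hp := hprof_pos L (by linarith) h2
    have hle := hprof_le L (by linarith) h2
    rw [div_le_iff₀ hp]
    have h3 : prof K (L - 1) = prof K L - (8 * K - 2 * L + 1) := by simp only [prof]; ring
    have h4 : δ * prof K L ≤ 6 * K + 1 := by
      rw [hδ, div_mul_eq_mul_div, div_le_iff₀ (by positivity)]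
      exact mul_le_mul_of_nonneg_left hle (by positivity)
    rw [h3]
    linarith
  have hδ_ge : 1 / (11 * (K : ℝ) ^ 2) ≤ δ := by
    rw [hδ, div_le_div_iff₀ (by positivity) (by positivity)]
    nlinarith
  refine nu_ge G _ (rho G r K) r hrho_pos ?_ ?_
  · intro u
    have h1 : ∑ c ∈ G.neighborFinset u, rho G r K u c ≤ ∑ c ∈ G.neighborFinset u, (1 - δ) := by
      apply Finset.sum_le_sum
      intro c hc
      rw [SimpleGraph.mem_neighborFinset] at hc
      exact hrho_le u c hc
    rw [Finset.sum_const, SimpleGraph.card_neighborFinset_eq_degree, nsmul_eq_mul] at h1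
    have hd : (2 : ℝ) ≤ G.degree u := by exact_mod_cast hdeg u
    have hδ0 : 0 ≤ δ := by positivity
    nlinarith
  · intro v u hadj hur
    have hc : (((G.neighborFinset u).erase v).card : ℝ) = G.degree u - 1 := by
      rw [Finset.card_erase_of_mem (by simpa using hadj.symm),
        SimpleGraph.card_neighborFinset_eq_degree, Nat.cast_sub (by
          have := hdeg u; omega)]
      simp
    by_cases hsp : Sp G r u
    · -- degree at least three
      have hd3 : 3 ≤ G.degree u := hsp.resolve_left hur
      have hd : (3 : ℝ) ≤ G.degree u := by exact_mod_cast hd3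
      have hl : ell G r (v, u) = 1 := ell_special G r (v, u) hsp
      have h1 : ∑ c ∈ (G.neighborFinset u).erase v, rho G r K u c ≤
          ∑ c ∈ (G.neighborFinset u).erase v, (1 - δ) := by
        apply Finset.sum_le_sum
        intro c hc
        have := Finset.mem_of_mem_erase hc
        rw [SimpleGraph.mem_neighborFinset] at this
        exact hrho_le u c this
      rw [Finset.sum_const, nsmul_eq_mul, hc] at h1
      have h2 : 1 / rho G r K v u = 1 + (8 * K - 1) / (15 * (K : ℝ) ^ 2) := by
        rw [rho, if_pos hadj, hl]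
        simp only [prof, Nat.cast_one]
        field_simp
        ring
      rw [h2]
      have hδ0 : 0 ≤ δ := by positivity
      have h3 : (8 * (K : ℝ) - 1) / (15 * (K : ℝ) ^ 2) + 1 / (11 * (K : ℝ) ^ 2) ≤ 2 * δ := by
        rw [hδ]
        rw [div_add_div _ _ (by positivity) (by positivity), mul_div_assoc',
          div_le_div_iff₀ (by positivity) (by positivity)]
        have hk2 : (0 : ℝ) < (K : ℝ) ^ 2 := by positivity
        nlinarith [mul_pos hk2 hk2]
      nlinarith
    · -- degree two
      have hd2 : G.degree u = 2 := by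
        have h1 := hdeg u
        simp only [Sp, not_or, not_le] at hsp
        omega
      have hns := nxt_spec G hdeg v u
      have hnb := nbr_nonspecial G r hdeg u v (nxt G v u) hsp hadj.symm hns.1 hns.2.symm
      have herase : (G.neighborFinset u).erase v = {nxt G v u} := by
        rw [hnb]
        ext c
        simp only [Finset.mem_erase, Finset.mem_insert, Finset.mem_singleton]
        constructor
        · rintro ⟨h1, h2 | h2⟩
          · exact absurd h2 h1
          · exact h2
        · rintro rfl
          exact ⟨hns.2, Or.inr rfl⟩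
      have hl := ell_nonspecial G r hdeg hconn (v, u) hadj hsp
      have hst : st G (v, u) = (u, nxt G v u) := rfl
      rw [hst] at hl
      rw [herase, Finset.sum_singleton, hd2]
      rw [rho, if_pos hadj, rho, if_pos hns.1, hl]
      obtain ⟨h1, h2⟩ := hell v u hadj
      rw [hl] at h2
      push_cast at h2
      obtain ⟨h3, h4⟩ := hell u (nxt G v u) hns.1
      set L : ℝ := (ell G r (u, nxt G v u) : ℝ)
      push_cast
      have hp := hprof_pos L (by linarith) h4
      have hle := hprof_le L (by linarith) h4
      rw [one_div_div, show L + 1 - 1 = L by ring, div_le_iff₀ hp]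
      have h5 : prof K (L + 1) + prof K (L - 1) = 2 * prof K L - 2 := by
        simp only [prof]; ring
      have h6 : 1 / (11 * (K : ℝ) ^ 2) * prof K L ≤ 2 := by
        rw [div_mul_eq_mul_div, one_mul, div_le_iff₀ (by positivity)]
        linarith
      have h7 : (2 - 1 / (11 * (K : ℝ) ^ 2) - prof K (L - 1) / prof K L) * prof K L =
          2 * prof K L - 1 / (11 * (K : ℝ) ^ 2) * prof K L - prof K (L - 1) := by
        field_simp
      push_cast at h7 ⊢
      rw [h7]
      linarith

end Pool.Agent.V1137.Threads
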