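import Mathlib
import Pool.Agent.V1137.FIID

open MeasureTheory Set

namespace Pool.Agent.V1137.TwistedLayers

open Pool.Agent.V1137.FIID

abbrev W : Type := ZMod 7 × ℤ

/-- The step `2 ^ k` modulo `7`. -/
def stp (k : ℤ) : ZMod 7 := if k % 3 = 0 then 1 else if k % 3 = 1 then 2 else 4

theorem stp_add (a b : ℤ) : stp (a + b) = stp a * stp b := by
  unfold stp
  have ha : a % 3 = 0 ∨ a % 3 = 1 ∨ a % 3 = 2 := by omega
  have hb : b % 3 = 0 ∨ b % 3 = 1 ∨ b % 3 = 2 := by omega
  rcases ha with ha | ha | ha <;> rcases hb with hb | hb | hb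
  · have h : (a + b) % 3 = 0 := by omega
    rw [ha, hb, h]; decide
  · have h : (a + b) % 3 = 1 := by omega
    rw [ha, hb, h]; decide
  · have h : (a + b) % 3 = 2 := by omega
    rw [ha, hb, h]; decide
  · have h : (a + b) % 3 = 1 := by omega
    rw [ha, hb, h]; decide
  · have h : (a + b) % 3 = 2 := by omega
    rw [ha, hb, h]; decide
  · have h : (a + b) % 3 = 0 := by omega
    rw [ha, hb, h]; decide
  · have h : (a + b) % 3 = 2 := by omega
    rw [ha, hb, h]; decide
  · have h : (a + b) % 3 = 0 := by omega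
    rw [ha, hb, h]; decide
  · have h : (a + b) % 3 = 1 := by omega
    rw [ha, hb, h]; decide

theorem stp_zero : stp 0 = 1 := rfl

theorem stp_neg_mul (a : ℤ) : stp (-a) * stp a = 1 := by
  rw [← stp_add]; simp [stp_zero]

theorem stp_mul_neg (a : ℤ) : stp a * stp (-a) = 1 := by
  rw [← stp_add]; simp [stp_zero]

theorem stp_ne (k : ℤ) : stp k ≠ 0 := by
  intro h
  have := stp_mul_neg k
  rw [h, zero_mul] at this
  exact absurd this (by decide)

theorem add_self_ne : ∀ a : ZMod 7, a ≠ 0 → a + a ≠ 0 := by decide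

/-- The neighbours of a vertex. -/
def nbF (x : W) : Finset W :=
  {(x.1 + stp x.2, x.2), (x.1 - stp x.2, x.2), (x.1, x.2 + 1), (x.1, x.2 - 1)}

theorem mem_nbF (x y : W) : y ∈ nbF x ↔ y = (x.1 + stp x.2, x.2) ∨ y = (x.1 - stp x.2, x.2) ∨
    y = (x.1, x.2 + 1) ∨ y = (x.1, x.2 - 1) := by
  simp [nbF]

theorem nbF_symm (x y : W) (h : y ∈ nbF x) : x ∈ nbF y := by
  rw [mem_nbF] at h ⊢
  rcases h with rfl | rfl | rfl | rfl
  · right; left; ext <;> simp
  · left; ext <;> simp
  · right; right; right; ext <;> simp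
  · right; right; left; ext <;> simp

/-- The layered graph. -/
def G : SimpleGraph W where
  Adj x y := y ∈ nbF x
  symm := ⟨fun x y h => nbF_symm x y h⟩
  loopless := ⟨fun x h => by
    rw [mem_nbF] at h
    have hs := stp_ne x.2
    rcases h with h | h | h | h
    · have := congrArg Prod.fst h; simp at this; exact hs this
    · have := congrArg Prod.fst h; simp [sub_eq_add_neg] at this; exact hs this
    · have := congrArg Prod.snd h; simp at this
    · have := congrArg Prod.snd h
      simp only at this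
      omega⟩

theorem adj_iff (x y : W) : G.Adj x y ↔ y ∈ nbF x := Iff.rfl

/-- The affine maps `(i, k) ↦ (2 ^ a i + b, k + a)`. -/
def gf (a : ℤ) (b : ZMod 7) (x : W) : W := (stp a * x.1 + b, x.2 + a)

theorem gf_fwd (a : ℤ) (b : ZMod 7) (x y : W) (h : y ∈ nbF x) : gf a b y ∈ nbF (gf a b x) := by
  rw [mem_nbF] at h ⊢
  unfold gf
  have e := stp_add x.2 a
  rcases h with rfl | rfl | rfl | rfl
  · left; ext
    · simp only [e]; ring
    · rfl
  · right; left; ext
    · simp only [e]; ring
    · rfl
  · right; right; left; ext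
    · rfl
    · simp only; ring
  · right; right; right; ext
    · rfl
    · simp only; ring

theorem gf_inv (a : ℤ) (b : ZMod 7) (x : W) : gf (-a) (-(stp (-a) * b)) (gf a b x) = x := by
  unfold gf
  ext
  · have := stp_neg_mul a
    simp only
    linear_combination x.1 * this
  · simp

theorem gf_inv' (a : ℤ) (b : ZMod 7) (x : W) : gf a b (gf (-a) (-(stp (-a) * b)) x) = x := by
  unfold gf
  ext
  · have := stp_mul_neg a
    simp only
    linear_combination (x.1 - b) * this
  · simp

/-- The affine maps as automorphisms. -/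
def gA (a : ℤ) (b : ZMod 7) : G ≃g G where
  toFun := gf a b
  invFun := gf (-a) (-(stp (-a) * b))
  left_inv := gf_inv a b
  right_inv := gf_inv' a b
  map_rel_iff' := by
    intro x y
    refine ⟨fun h => ?_, gf_fwd a b x y⟩
    have h1 := gf_fwd (-a) (-(stp (-a) * b)) (gf a b x) (gf a b y) h
    rw [gf_inv, gf_inv] at h1
    exact h1

theorem gA_apply (a : ℤ) (b : ZMod 7) (x : W) : gA a b x = gf a b x := rfl

/-- The automorphism moving `x` to the base vertex. -/
def base (x : W) : G ≃g G := gA (-x.2) (-(stp (-x.2) * x.1))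

theorem base_self (x : W) : base x x = (0, 0) := by
  unfold base
  rw [gA_apply]
  unfold gf
  ext
  · simp only; ring
  · simp

/-- Every vertex can be moved to every other vertex. -/
theorem transitive (x y : W) : ∃ σ : G ≃g G, σ x = y :=
  ⟨(base x).trans (base y).symm, by
    show (base y).symm (base x x) = y
    rw [base_self, ← base_self y]
    simp⟩

theorem iso_mem (σ : G ≃g G) (x y : W) : σ y ∈ nbF (σ x) ↔ y ∈ nbF x := σ.map_adj_iff

/-- There is a cycle `y, x, z, q, p` of length five. -/
def C5 (y x z : W) : Prop :=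
  ∃ p ∈ nbF y, ∃ q ∈ nbF p, z ∈ nbF q ∧ p ≠ x ∧ q ≠ x ∧ p ≠ z ∧ q ≠ y

instance (y x z : W) : Decidable (C5 y x z) := by unfold C5; infer_instance

theorem C5_of (σ : G ≃g G) {y x z : W} (h : C5 y x z) : C5 (σ y) (σ x) (σ z) := by
  obtain ⟨p, hp, q, hq, hz, h1, h2, h3, h4⟩ := h
  exact ⟨σ p, (iso_mem σ _ _).2 hp, σ q, (iso_mem σ _ _).2 hq, (iso_mem σ _ _).2 hz,
    σ.injective.ne h1, σ.injective.ne h2, σ.injective.ne h3, σ.injective.ne h4⟩

theorem C5_iff (σ : G ≃g G) (y x z : W) : C5 (σ y) (σ x) (σ z) ↔ C5 y x z := by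
  refine ⟨fun h => ?_, C5_of σ⟩
  have := C5_of σ.symm h
  simpa using this

/-- Vertical edges, defined from the graph. -/
def Ver (x y : W) : Prop := y ∈ nbF x ∧ ∃ z ∈ nbF x, z ≠ y ∧ ¬ C5 y x z

instance (x y : W) : Decidable (Ver x y) := by unfold Ver; infer_instance

theorem Ver_of (σ : G ≃g G) {x y : W} (h : Ver x y) : Ver (σ x) (σ y) := by
  obtain ⟨h1, z, hz, hzy, hC⟩ := h
  exact ⟨(iso_mem σ _ _).2 h1, σ z, (iso_mem σ _ _).2 hz, σ.injective.ne hzy,
    fun hcon => hC ((C5_iff σ _ _ _).1 hcon)⟩

theorem Ver_iff (σ : G ≃g G) (x y : W) : Ver (σ x) (σ y) ↔ Ver x y := by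
  refine ⟨fun h => ?_, Ver_of σ⟩
  have := Ver_of σ.symm h
  simpa using this

set_option maxRecDepth 100000 in
theorem Ver_base : ∀ y ∈ nbF ((0, 0) : W), (Ver (0, 0) y ↔ y = (0, 1) ∨ y = (0, -1)) := by
  decide

theorem gf_up (a : ℤ) (b : ZMod 7) (x : W) :
    gf a b (x.1, x.2 + 1) = ((gf a b x).1, (gf a b x).2 + 1) := by
  unfold gf; ext
  · rfl
  · simp only; ring

theorem gf_dn (a : ℤ) (b : ZMod 7) (x : W) :
    gf a b (x.1, x.2 - 1) = ((gf a b x).1, (gf a b x).2 - 1) := by
  unfold gf; ext
  · rfl
  · simp only; ring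

theorem base_up (x : W) : base x (x.1, x.2 + 1) = (0, 1) := by
  have h := gf_up (-x.2) (-(stp (-x.2) * x.1)) x
  have h2 := base_self x
  unfold base at h2 ⊢
  rw [gA_apply] at h2 ⊢
  rw [h, h2]
  rfl

theorem base_dn (x : W) : base x (x.1, x.2 - 1) = (0, -1) := by
  have h := gf_dn (-x.2) (-(stp (-x.2) * x.1)) x
  have h2 := base_self x
  unfold base at h2 ⊢
  rw [gA_apply] at h2 ⊢
  rw [h, h2]
  rfl

theorem Ver_explicit (x y : W) : Ver x y ↔ y = (x.1, x.2 + 1) ∨ y = (x.1, x.2 - 1) := by
  rw [← Ver_iff (base x), base_self]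
  constructor
  · intro h
    rcases (Ver_base _ h.1).1 h with h1 | h1
    · left
      rw [← base_up x] at h1
      exact (base x).injective h1
    · right
      rw [← base_dn x] at h1
      exact (base x).injective h1
  · rintro (rfl | rfl)
    · rw [base_up]; exact (Ver_base _ (by decide)).2 (Or.inl rfl)
    · rw [base_dn]; exact (Ver_base _ (by decide)).2 (Or.inr rfl)

/-- Horizontal edges. -/
def Hor (x y : W) : Prop := y ∈ nbF x ∧ ¬ Ver x y

theorem Hor_iff (σ : G ≃g G) (x y : W) : Hor (σ x) (σ y) ↔ Hor x y := by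
  unfold Hor; rw [iso_mem, Ver_iff]

theorem Hor_explicit (x y : W) :
    Hor x y ↔ y = (x.1 + stp x.2, x.2) ∨ y = (x.1 - stp x.2, x.2) := by
  unfold Hor
  rw [mem_nbF, Ver_explicit]
  constructor
  · rintro ⟨h | h | h | h, h2⟩
    · exact Or.inl h
    · exact Or.inr h
    · exact absurd (Or.inl h) h2
    · exact absurd (Or.inr h) h2
  · rintro (rfl | rfl)
    · refine ⟨Or.inl rfl, ?_⟩
      rintro (h | h)
      · have := congrArg Prod.snd h; simp only at this; omega
      · have := congrArg Prod.snd h; simp only at this; omega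
    · refine ⟨Or.inr (Or.inl rfl), ?_⟩
      rintro (h | h)
      · have := congrArg Prod.snd h; simp only at this; omega
      · have := congrArg Prod.snd h; simp only at this; omega

/-- Vertical edges going up, defined from the graph. -/
def Up (x y : W) : Prop :=
  Ver x y ∧ ∃ p q r, Hor x p ∧ Hor p q ∧ Ver q r ∧ Hor r y

theorem Up_of (σ : G ≃g G) {x y : W} (h : Up x y) : Up (σ x) (σ y) := by
  obtain ⟨h1, p, q, r, a, b, c, d⟩ := h
  exact ⟨(Ver_iff σ _ _).2 h1, σ p, σ q, σ r, (Hor_iff σ _ _).2 a, (Hor_iff σ _ _).2 b,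
    (Ver_iff σ _ _).2 c, (Hor_iff σ _ _).2 d⟩

theorem Up_iff (σ : G ≃g G) (x y : W) : Up (σ x) (σ y) ↔ Up x y := by
  refine ⟨fun h => ?_, Up_of σ⟩
  have := Up_of σ.symm h
  simpa using this

theorem stp_succ (k : ℤ) : stp (k + 1) = 2 * stp k := by
  rw [stp_add]
  have : stp 1 = 2 := rfl
  rw [this]; ring

theorem zmod_aux : ∀ i s : ZMod 7, s ≠ 0 →
    i ≠ i + 2 * s + 2 * s + s ∧ i ≠ i + 2 * s + 2 * s - s ∧
    i ≠ i + 2 * s - 2 * s + s ∧ i ≠ i + 2 * s - 2 * s - s ∧
    i ≠ i - 2 * s + 2 * s + s ∧ i ≠ i - 2 * s + 2 * s - s ∧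
    i ≠ i - 2 * s - 2 * s + s ∧ i ≠ i - 2 * s - 2 * s - s := by decide

theorem Up_explicit (x y : W) : Up x y ↔ y = (x.1, x.2 + 1) := by
  constructor
  · rintro ⟨hv, p, q, r, h1, h2, h3, h4⟩
    rw [Ver_explicit] at hv h3
    rw [Hor_explicit] at h1 h2 h4
    rcases hv with hv | hv
    · exact hv
    · exfalso
      obtain ⟨i, k⟩ := x
      obtain ⟨s, hs⟩ : ∃ s, s = stp (k - 1) := ⟨_, rfl⟩
      have hsk : stp k = 2 * s := by
        have := stp_succ (k - 1)
        rw [sub_add_cancel] at this
        rw [this, hs]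
      have hs0 : s ≠ 0 := hs ▸ stp_ne _
      obtain ⟨z1, z2, z3, z4, z5, z6, z7, z8⟩ := zmod_aux i s hs0
      simp only at h1 hv
      rw [hsk] at h1
      rcases h1 with rfl | rfl <;> simp only at h2 <;> rw [hsk] at h2 <;>
      rcases h2 with rfl | rfl <;> simp only at h3 <;>
      rcases h3 with rfl | rfl <;> simp only at h4 <;>
      rcases h4 with h4 | h4 <;>
      have e1 := congrArg Prod.fst (hv.symm.trans h4) <;>
      have e2 := congrArg Prod.snd (hv.symm.trans h4) <;>
      simp only at e1 e2 <;>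
      first
        | omega
        | (rw [← hs] at e1
           first
             | exact z1 e1
             | exact z2 e1
             | exact z3 e1
             | exact z4 e1
             | exact z5 e1
             | exact z6 e1
             | exact z7 e1
             | exact z8 e1)
  · rintro rfl
    refine ⟨(Ver_explicit _ _).2 (Or.inl rfl), (x.1 + stp x.2, x.2),
      (x.1 + stp x.2 + stp x.2, x.2), (x.1 + stp x.2 + stp x.2, x.2 + 1), ?_, ?_, ?_, ?_⟩
    · exact (Hor_explicit _ _).2 (Or.inl rfl)
    · exact (Hor_explicit _ _).2 (Or.inl rfl)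
    · exact (Ver_explicit _ _).2 (Or.inl rfl)
    · refine (Hor_explicit _ _).2 (Or.inr ?_)
      ext
      · simp only [stp_succ]; ring
      · rfl

/-- A closed horizontal path of length seven. -/
theorem path_form (f : ZMod 7 → W) (hf : ∀ j, Hor (f j) (f (j + 1))) (hinj : Function.Injective f) :
    ∃ e : ZMod 7, (e = 1 ∨ e = -1) ∧
      ∀ j, f j = ((f 0).1 + j * (e * stp (f 0).2), (f 0).2) := by
  have hne2 : ∀ j : ZMod 7, j + 1 + 1 ≠ j := by decide
  -- the first step
  obtain ⟨e, he, h1⟩ : ∃ e : ZMod 7, (e = 1 ∨ e = -1) ∧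
      f (0 + 1) = ((f 0).1 + e * stp (f 0).2, (f 0).2) := by
    rcases (Hor_explicit _ _).1 (hf 0) with h | h
    · exact ⟨1, Or.inl rfl, by rw [h]; ext <;> simp⟩
    · exact ⟨-1, Or.inr rfl, by rw [h]; ext <;> simp [sub_eq_add_neg]⟩
  refine ⟨e, he, ?_⟩
  -- all steps agree
  have step : ∀ n : ℕ, f (n : ZMod 7) = ((f 0).1 + n * (e * stp (f 0).2), (f 0).2) ∧
      f ((n : ZMod 7) + 1) = ((f 0).1 + (n + 1) * (e * stp (f 0).2), (f 0).2) := by
    intro n
    induction n with
    | zero =>
      refine ⟨by ext <;> simp, ?_⟩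
      rw [Nat.cast_zero, h1]
      ext <;> simp
    | succ n ih =>
      obtain ⟨ih1, ih2⟩ := ih
      refine ⟨by rw [Nat.cast_succ]; exact ih2, ?_⟩
      rw [Nat.cast_succ]
      have h2 := (Hor_explicit _ _).1 (hf ((n : ZMod 7) + 1))
      have h3 : f ((n : ZMod 7) + 1 + 1) ≠ f (n : ZMod 7) := hinj.ne (hne2 _)
      rw [ih2] at h2
      rw [ih1] at h3
      simp only at h2
      rcases he with rfl | rfl
      · rcases h2 with h2 | h2
        · rw [h2]; ext
          · simp only; ring
          · rfl
        · exfalso; apply h3; rw [h2]; ext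
          · simp only; ring
          · rfl
      · rcases h2 with h2 | h2
        · exfalso; apply h3; rw [h2]; ext
          · simp only; ring
          · rfl
        · rw [h2]; ext
          · simp only; ring
          · rfl
  intro j
  have := (step j.val).1
  rw [ZMod.natCast_zmod_val] at this
  exact this

/-- The orientation of the horizontal cycles: from the largest label towards the larger of its two
neighbours. -/
def Or7 (ω : W → unitInterval) (x y : W) : Prop :=
  ∃ f : ZMod 7 → W, ((∀ j, Hor (f j) (f (j + 1))) ∧ Function.Injective f ∧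
    ∃ j, x = f j ∧ y = f (j + 1)) ∧ (∀ j, j ≠ 0 → ω (f j) < ω (f 0)) ∧ ω (f (-1)) < ω (f 1)

theorem Or7_of (σ : G ≃g G) (ω : W → unitInterval) {x y : W}
    (h : Or7 (fun v => ω (σ v)) x y) : Or7 ω (σ x) (σ y) := by
  obtain ⟨f, ⟨h1, h2, j, h3, h4⟩, h5, h6⟩ := h
  exact ⟨fun j => σ (f j), ⟨fun j => (Hor_iff σ _ _).2 (h1 j), fun a b hab => h2 (σ.injective hab),
    j, by rw [h3], by rw [h4]⟩, h5, h6⟩

theorem Or7_iff (σ : G ≃g G) (ω : W → unitInterval) (x y : W) :
    Or7 (fun v => ω (σ v)) x y ↔ Or7 ω (σ x) (σ y) := by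
  refine ⟨Or7_of σ ω, fun h => ?_⟩
  have h1 : Or7 (fun v => (fun v => ω (σ v)) (σ.symm v)) (σ x) (σ y) := by
    have : (fun v => (fun v => ω (σ v)) (σ.symm v)) = ω := by ext v; simp
    rw [this]; exact h
  have h2 := Or7_of σ.symm (fun v => ω (σ v)) h1
  simpa using h2

theorem measurable_Or7 (x y : W) : MeasurableSet {ω : W → unitInterval | Or7 ω x y} := by
  have hlt : ∀ a b : W, MeasurableSet {ω : W → unitInterval | ω a < ω b} := fun a b =>
    measurableSet_lt (measurable_pi_apply a) (measurable_pi_apply b)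
  have h : {ω : W → unitInterval | Or7 ω x y} = ⋃ f : ZMod 7 → W,
      ({_ω : W → unitInterval | (∀ j, Hor (f j) (f (j + 1))) ∧ Function.Injective f ∧
        ∃ j, x = f j ∧ y = f (j + 1)} ∩
      ((⋂ j : ZMod 7, ⋂ _ : j ≠ 0, {ω : W → unitInterval | ω (f j) < ω (f 0)}) ∩
        {ω : W → unitInterval | ω (f (-1)) < ω (f 1)})) := by
    ext ω
    simp only [Set.mem_iUnion, Set.mem_inter_iff, Set.mem_iInter]
    rfl
  rw [h]
  refine MeasurableSet.iUnion fun f => ?_
  refine MeasurableSet.inter (MeasurableSet.const _) (MeasurableSet.inter ?_ (hlt _ _))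
  exact MeasurableSet.iInter fun j => MeasurableSet.iInter fun _ => hlt _ _

/-- For distinct labels the orientation is consistent along each layer. -/
theorem Or7_explicit (ω : W → unitInterval) (hω : Function.Injective ω) (k : ℤ) :
    ∃ e : ZMod 7, (e = 1 ∨ e = -1) ∧
      ∀ (i : ZMod 7) (y : W), Or7 ω (i, k) y ↔ y = (i + e * stp k, k) := by
  obtain ⟨m, -, hm⟩ := Finset.exists_max_image (Finset.univ : Finset (ZMod 7))
    (fun i => ω (i, k)) ⟨0, Finset.mem_univ _⟩
  have hmax : ∀ i, i ≠ m → ω (i, k) < ω (m, k) := fun i hi =>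
    lt_of_le_of_ne (hm i (Finset.mem_univ _)) (hω.ne (by simpa using hi))
  have hs := stp_ne k
  have hne : m + stp k ≠ m - stp k := by
    intro h
    have : stp k + stp k = 0 := by linear_combination h
    exact add_self_ne _ hs this
  -- the sign
  obtain ⟨e, he, hlt⟩ : ∃ e : ZMod 7, (e = 1 ∨ e = -1) ∧
      ω (m - e * stp k, k) < ω (m + e * stp k, k) := by
    rcases lt_or_gt_of_ne (hω.ne (show ((m - stp k, k) : W) ≠ (m + stp k, k) by
      simpa using hne.symm)) with h | h
    · exact ⟨1, Or.inl rfl, by simpa using h⟩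
    · exact ⟨-1, Or.inr rfl, by simpa [sub_eq_add_neg] using h⟩
  refine ⟨e, he, fun i y => ⟨?_, ?_⟩⟩
  · rintro ⟨f, ⟨h1, h2, j, h3, h4⟩, h5, h6⟩
    obtain ⟨e', he', hf⟩ := path_form f h1 h2
    have hk : (f 0).2 = k := by
      have := hf j
      rw [← h3] at this
      exact (congrArg Prod.snd this).symm
    obtain ⟨i0, hi0⟩ : ∃ i0, i0 = (f 0).1 := ⟨_, rfl⟩
    rw [hk, ← hi0] at hf
    have hes : e' * stp k ≠ 0 := by
      rcases he' with rfl | rfl
      · simpa using hs
      · simpa using hs
    -- the starting point is the maximum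
    have hi0m : i0 = m := by
      by_contra hcon
      have hc := hmax i0 hcon
      obtain ⟨j', hj'⟩ : ∃ j' : ZMod 7, i0 + j' * (e' * stp k) = m := by
        have : ∀ a b c : ZMod 7, b ≠ 0 → ∃ j', a + j' * b = c := by decide
        exact this i0 (e' * stp k) m hes
      have hj0 : j' ≠ 0 := by
        rintro rfl
        apply hcon
        rw [← hj']; ring
      have h7 := h5 j' hj0
      rw [hf j', hf 0, hj'] at h7
      rw [zero_mul, add_zero] at h7
      exact lt_asymm h7 hc
    rw [hi0m] at hf
    rw [hf (-1), hf 1] at h6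
    have hee : e' = e := by
      rcases he' with rfl | rfl <;> rcases he with rfl | rfl
      · rfl
      · exfalso
        simp only [one_mul, neg_mul, sub_neg_eq_add] at h6 hlt
        rw [← sub_eq_add_neg] at h6 hlt
        exact lt_asymm h6 hlt
      · exfalso
        simp only [one_mul, neg_mul, neg_neg] at h6 hlt
        rw [← sub_eq_add_neg] at h6
        exact lt_asymm h6 hlt
      · rfl
    have e1 := h3
    rw [hf j] at e1
    rw [h4, hf (j + 1)]
    have e2 : i = m + j * (e' * stp k) := congrArg Prod.fst e1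
    rw [e2, hee]
    ext
    · simp only; ring
    · rfl
  · rintro rfl
    have hes : e * stp k ≠ 0 := by
      rcases he with rfl | rfl
      · simpa using hs
      · simpa using hs
    refine ⟨fun j => (m + j * (e * stp k), k), ⟨fun j => ?_, ?_, ?_⟩, fun j hj => ?_, ?_⟩
    · rw [Hor_explicit]
      rcases he with rfl | rfl
      · left; ext
        · simp only; ring
        · rfl
      · right; ext
        · simp only; ring
        · rfl
    · intro a b hab
      have h1 : m + a * (e * stp k) = m + b * (e * stp k) := congrArg Prod.fst hab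
      have : ∀ m a b c : ZMod 7, c ≠ 0 → m + a * c = m + b * c → a = b := by decide
      exact this m a b _ hes h1
    · obtain ⟨j, hj⟩ : ∃ j : ZMod 7, m + j * (e * stp k) = i := by
        have : ∀ a b c : ZMod 7, b ≠ 0 → ∃ j', a + j' * b = c := by decide
        exact this m (e * stp k) i hes
      refine ⟨j, by simp only [hj], ?_⟩
      rw [← hj]
      ext
      · simp only; ring
      · rfl
    · have h1 : m + j * (e * stp k) ≠ m := by
        intro hcon
        have : ∀ m j c : ZMod 7, c ≠ 0 → m + j * c = m → j = 0 := by decide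
        exact hj (this m j _ hes hcon)
      have h2 := hmax _ h1
      simpa using h2
    · have e1 : m + -1 * (e * stp k) = m - e * stp k := by ring
      have e2 : m + 1 * (e * stp k) = m + e * stp k := by ring
      simp only [e1, e2]
      exact hlt

open Classical in
/-- The decoration: colour `0` is the vertical colour, oriented upwards; colour `1` is the
horizontal colour. -/
noncomputable def dec (ω : W → unitInterval) (x y : W) : Option (Fin 2) :=
  if Up x y then some 0 else if Or7 ω x y then some 1 else none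

theorem dec_measurable (x y : W) : Measurable fun ω => dec ω x y := by
  classical
  unfold dec
  exact Measurable.ite (MeasurableSet.const _) measurable_const
    (Measurable.ite (measurable_Or7 x y) measurable_const measurable_const)

theorem dec_equivariant (σ : G ≃g G) (ω : W → unitInterval) (x y : W) :
    dec (fun v => ω (σ v)) x y = dec ω (σ x) (σ y) := by
  classical
  unfold dec
  exact if_congr (Up_iff σ x y).symm rfl (if_congr (Or7_iff σ ω x y) rfl rfl)

theorem labels_injective : ∀ᵐ ω ∂(unif W), Function.Injective ω := by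
  have h : ∀ x y : W, x ≠ y → ∀ᵐ ω ∂(unif W), ω x ≠ ω y := by
    intro x y hxy
    rw [ae_iff]
    have h1 : {ω : W → unitInterval | ¬ ω x ≠ ω y} =
        (fun ω : W → unitInterval => (ω x, ω y)) ⁻¹' {p | p.1 = p.2} := by
      ext ω; simp
    have hm : MeasurableSet {p : unitInterval × unitInterval | p.1 = p.2} :=
      measurableSet_eq_fun measurable_fst measurable_snd
    rw [h1, ← Measure.map_apply ((measurable_pi_apply x).prodMk (measurable_pi_apply y)) hm]
    unfold unif
    rw [Measure.infinitePi_map_eval_prod hxy, Measure.measure_prod_null hm]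
    refine Filter.Eventually.of_forall fun a => ?_
    have h2 : Prod.mk a ⁻¹' {p : unitInterval × unitInterval | p.1 = p.2} = {a} := by
      ext b; simp [eq_comm]
    show volume (Prod.mk a ⁻¹' {p : unitInterval × unitInterval | p.1 = p.2}) = 0
    rw [h2]
    simp
  have h2 : ∀ᵐ ω ∂(unif W), ∀ x y : W, x ≠ y → ω x ≠ ω y := by
    rw [ae_all_iff]; intro x
    rw [ae_all_iff]; intro y
    by_cases hxy : x = y
    · exact Filter.Eventually.of_forall fun ω h => absurd hxy h
    · filter_upwards [h x y hxy] with ω hω _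
      exact hω
  filter_upwards [h2] with ω hω x y hxy
  by_contra hne
  exact hω x y hne hxy

theorem up_ne (x : W) (c : ZMod 7) : ((x.1, x.2 + 1) : W) ≠ (c, x.2) := by
  intro h
  have := congrArg Prod.snd h
  simp only at this
  omega

/-- For distinct labels the decoration is a Schreier decoration. -/
theorem dec_schreier (ω : W → unitInterval) (hω : Function.Injective ω) :
    IsSchreier G 2 (dec ω) := by
  classical
  choose e he hO using fun k => Or7_explicit ω hω k
  have hO' : ∀ x y : W, Or7 ω x y ↔ y = (x.1 + e x.2 * stp x.2, x.2) := fun x y => hO x.2 x.1 y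
  have hsne : ∀ k, e k * stp k ≠ 0 := by
    intro k
    have hs := stp_ne k
    rcases he k with h | h
    · rw [h]; simpa using hs
    · rw [h]; simpa using hs
  have hdec : ∀ x y : W, dec ω x y = if y = (x.1, x.2 + 1) then some 0 else
      if y = (x.1 + e x.2 * stp x.2, x.2) then some 1 else none := by
    intro x y
    unfold dec
    simp only [Up_explicit, hO']
  have h0 : ∀ x y : W, dec ω x y = some 0 ↔ y = (x.1, x.2 + 1) := by
    intro x y
    rw [hdec]
    split_ifs with h1 h2
    · simp [h1]
    · simp [h1]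
    · simp [h1]
  have h1 : ∀ x y : W, dec ω x y = some 1 ↔ y = (x.1 + e x.2 * stp x.2, x.2) := by
    intro x y
    rw [hdec]
    split_ifs with h1 h2
    · rw [h1]
      constructor
      · intro h; exact absurd h (by decide)
      · intro h; exact absurd h (up_ne x _)
    · simp [h2]
    · simp [h2]
  have hsome : ∀ x y : W, (dec ω x y).isSome = true ↔
      y = (x.1, x.2 + 1) ∨ y = (x.1 + e x.2 * stp x.2, x.2) := by
    intro x y
    rw [hdec]
    split_ifs with h1 h2
    · simp [h1]
    · simp [h2]
    · simp [h1, h2]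
  refine ⟨fun x y h => ?_, fun x y h => ?_, fun x i => ?_, fun x i => ?_⟩
  · rw [adj_iff, mem_nbF]
    rcases (hsome x y).1 h with h | h
    · exact Or.inr (Or.inr (Or.inl h))
    · rcases he x.2 with h2 | h2
      · left; rw [h, h2, one_mul]
      · right; left; rw [h, h2]; ext
        · simp only; ring
        · rfl
  · -- exactly one of the two directions
    have hb : ∀ a b : Bool, (a = true ↔ ¬ b = true) → a = !b := by decide
    apply hb
    rw [hsome, hsome]
    rw [adj_iff, mem_nbF] at h
    obtain ⟨i, k⟩ := x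
    have hs := hsne k
    have hne : ∀ a b : ZMod 7, b ≠ 0 → a ≠ a + b ∧ a ≠ a - b ∧ a ≠ a + b + b ∧ a ≠ a - b - b := by
      decide
    rcases h with rfl | rfl | rfl | rfl
    · simp only [Prod.mk.injEq]
      have hs1 := stp_ne k
      obtain ⟨n1, n2, n3, n4⟩ := hne i (stp k) hs1
      rcases he k with h2 | h2 <;> rw [h2]
      · simp
        exact n3
      · simp
        intro hcon
        have : stp k + stp k = 0 := by linear_combination hcon
        exact add_self_ne _ hs1 this
    · simp only [Prod.mk.injEq]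
      have hs1 := stp_ne k
      rcases he k with h2 | h2 <;> rw [h2]
      · simp
        intro hcon
        have : stp k + stp k = 0 := by linear_combination -hcon
        exact add_self_ne _ hs1 this
      · simp [sub_eq_add_neg]
        intro hcon
        have : stp k + stp k = 0 := by linear_combination hcon
        exact add_self_ne _ hs1 this
    · simp only [Prod.mk.injEq]
      constructor
      · rintro (⟨-, h⟩ | ⟨-, h⟩) <;> omega
      · intro h
        exfalso
        apply h
        left
        trivial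
    · simp only [Prod.mk.injEq]
      constructor
      · intro _
        rintro (⟨-, h⟩ | ⟨-, h⟩) <;> omega
      · intro _
        left
        exact ⟨trivial, by omega⟩
  · fin_cases i
    · exact ⟨(x.1, x.2 + 1), (h0 _ _).2 rfl, fun y hy => (h0 _ _).1 hy⟩
    · exact ⟨(x.1 + e x.2 * stp x.2, x.2), (h1 _ _).2 rfl, fun y hy => (h1 _ _).1 hy⟩
  · fin_cases i
    · refine ⟨(x.1, x.2 - 1), (h0 _ _).2 (by ext <;> simp), fun y hy => ?_⟩
      have := (h0 _ _).1 hy
      rw [this]; ext <;> simp
    · refine ⟨(x.1 - e x.2 * stp x.2, x.2), (h1 _ _).2 (by ext <;> simp), fun y hy => ?_⟩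
      have h3 := (h1 _ _).1 hy
      have h4 : x.2 = y.2 := by rw [h3]
      have h5 : x.1 = y.1 + e y.2 * stp y.2 := by rw [h3]
      rw [h5, h4]; ext <;> simp

/-- The decoration has an infinite monochromatic path. -/
def HasInfinitePath {V : Type} {d : ℕ} (c : V → V → Option (Fin d)) : Prop :=
  ∃ (i : Fin d) (p : ℤ → V), Function.Injective p ∧ ∀ n, c (p n) (p (n + 1)) = some i

theorem dec_path (ω : W → unitInterval) : HasInfinitePath (dec ω) := by
  refine ⟨0, fun n => (0, n), fun a b h => congrArg Prod.snd h, fun n => ?_⟩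
  unfold dec
  rw [if_pos ((Up_explicit _ _).2 rfl)]

theorem fiid_dec : ExistsFIID G (fun c => IsSchreier G 2 c ∧ HasInfinitePath c) := by
  refine ⟨dec, dec_measurable, dec_equivariant, ?_⟩
  filter_upwards [labels_injective] with ω hω
  exact ⟨dec_schreier ω hω, dec_path ω⟩

theorem reach_up (i : ZMod 7) (n : ℕ) (k : ℤ) : G.Reachable (i, k) (i, k + n) := by
  induction n with
  | zero => simp
  | succ n ih =>
    refine ih.trans (SimpleGraph.Adj.reachable ?_)
    rw [adj_iff, mem_nbF]
    right; right; left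
    push_cast
    ext
    · rfl
    · simp only; ring

theorem reach_vert (i : ZMod 7) (k l : ℤ) : G.Reachable (i, k) (i, l) := by
  rcases le_total k l with h | h
  · have := reach_up i (l - k).toNat k
    rwa [Int.toNat_of_nonneg (by omega), add_sub_cancel] at this
  · have := reach_up i (k - l).toNat l
    rw [Int.toNat_of_nonneg (by omega), add_sub_cancel] at this
    exact this.symm

theorem reach_hor (n : ℕ) : G.Reachable ((0 : ZMod 7), (0 : ℤ)) ((n : ZMod 7), 0) := by
  induction n with
  | zero => simp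
  | succ n ih =>
    refine ih.trans (SimpleGraph.Adj.reachable ?_)
    rw [adj_iff, mem_nbF]
    left
    ext
    · simp [stp_zero]
    · rfl

theorem connected : G.Connected := by
  rw [SimpleGraph.connected_iff]
  refine ⟨?_, ⟨(0, 0)⟩⟩
  have h : ∀ x : W, G.Reachable (0, 0) x := by
    rintro ⟨i, k⟩
    have h1 := reach_hor i.val
    rw [ZMod.natCast_zmod_val] at h1
    exact h1.trans (reach_vert i 0 k)
  intro x y
  exact (h x).symm.trans (h y)

theorem degree (x : W) : (G.neighborSet x).ncard = 4 := by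
  have h1 : G.neighborSet x = (nbF x : Set W) := by
    ext y
    simp [adj_iff]
  rw [h1, Set.ncard_coe_finset]
  have h2 : nbF x = (nbF (0, 0)).map (base x).symm.toEquiv.toEmbedding := by
    ext y
    rw [Finset.mem_map_equiv]
    rw [← iso_mem (base x), base_self]
    rfl
  rw [h2, Finset.card_map]
  decide

end Pool.Agent.V1137.TwistedLayers
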