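import Mathlib
import Pool.Agent.W218.SI.Lin6

/-!
Simultaneous prime values of `m_i t + c_i` for `t` in an arbitrary dense subset of a short interval of
multipliers, for a positive proportion of the vectors of residues in short intervals.
-/

set_option autoImplicit false

open Finset Real Filter

namespace Pool.Agent.V1137.SI3

open Pool.Agent.W218.SI Pool.Agent.W218.HF Pool.Agent.W218.LF Pool.Agent.W218.PF Pool.Agent.W218.PG Pool.Agent.Erdos456
  Pool.Agent.Erdos456.Mert

/-- the number of `t ∈ T` for which all `m_i t + c_i` are prime -/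
def cnt {k : ℕ} (m c : Fin k → ℕ) (T : Finset ℕ) : ℕ := (T.filter (fun t : ℕ => ∀ i, (m i * t + c i).Prime)).card

/-- the shifted leading terms -/
def lead' {k : ℕ} (a B : Fin k → ℕ) (i : Fin k) (n : ℕ) : ℤ := (a i : ℤ) * n + B i

theorem linS : ∃ η : ℝ, 0 < η ∧ η < 1 ∧ ∀ k : ℕ, 1 ≤ k → ∀ c ρ : ℝ, 0 < c → 0 < ρ →
    ∃ κ : ℝ, 0 < κ ∧ ∃ A₀ : ℕ, 4 ≤ A₀ ∧ ∀ a B H : Fin k → ℕ, (∀ i, A₀ ≤ a i) →
    (∀ i, c * a i ≤ Nat.totient (a i)) → (∀ i, B i ≤ a i) → (∀ i, (a i : ℝ) ^ (1 - η) ≤ H i) →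
    (∀ i, H i ≤ a i) → ∀ y x : ℕ, c * ∏ i, Real.log (a i) ≤ x →
    (∀ i, ((y + x : ℕ) : ℝ) ≤ (a i : ℝ) ^ η) → ∀ T ⊆ Ioc y (y + x), ρ * x ≤ (T.card : ℝ) →
    κ * ∏ i, (H i : ℝ) ≤ ((((Fintype.piFinset (fun i : Fin k => Ioc (B i) (B i + H i))).filter (fun b =>
      κ * T.card / (∏ i, Real.log (a i)) ≤ cnt a b T ∧
      κ * cnt a b T ≤ T.card / (∏ i, Real.log (a i)))).card : ℕ) : ℝ) := by
  classical
  obtain ⟨δ, hδ, hδ1, hmain⟩ := main6
  refine ⟨δ / 4, by positivity, by linarith, fun k hk c ρ hc hρ => ?_⟩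
  obtain ⟨C, hC, Xm, hXm⟩ := mom_shift (2 * k) (by omega)
  obtain ⟨κ, hκ, H₀, hH₀, hM⟩ := hmain k hk (1 / (c * ρ)) ((1 / c) ^ (2 * k) * C / ρ ^ 2)
    (by positivity) (by positivity)
  set Y : ℕ := Xm + 1 with hY
  obtain ⟨Z, hZ⟩ : ∃ Z : ℕ, ∀ X : ℕ, Z ≤ X → (H₀ : ℝ) ≤ (X : ℝ) ^ (1 - δ / 4) := by
    have h1 := (tendsto_rpow_atTop (by linarith : 0 < 1 - δ / 4)).comp tendsto_natCast_atTop_atTop
    have h2 := h1.eventually_ge_atTop (H₀ : ℝ)
    rw [eventually_atTop] at h2
    exact h2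
  obtain ⟨Z', hZ'⟩ : ∃ Z : ℕ, ∀ X : ℕ, Z ≤ X → (2 : ℝ) ≤ (X : ℝ) ^ (δ / 2) := by
    have h1 := (tendsto_rpow_atTop (by linarith : 0 < δ / 2)).comp tendsto_natCast_atTop_atTop
    have h2 := h1.eventually_ge_atTop (2 : ℝ)
    rw [eventually_atTop] at h2
    exact h2
  have h1δk : (1 - δ / 4) ^ k ≤ 1 := pow_le_one₀ (by linarith) (by linarith)
  have h1δ : 0 < 1 - δ / 4 := by linarith
  refine ⟨κ * (1 - δ / 4) ^ k, by positivity, max (max Z Z') (max H₀ ⌈Real.exp ((Y : ℝ) / c)⌉₊),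
    hH₀.trans ((le_max_left _ _).trans (le_max_right _ _)), ?_⟩
  intro a B H ha hφ hB hHa hHa' y x hcx hxa T hT hTc
  have haY : ∀ i, max H₀ ⌈Real.exp ((Y : ℝ) / c)⌉₊ ≤ a i := fun i => (le_max_right _ _).trans (ha i)
  have haH₀ : ∀ i, H₀ ≤ a i := fun i => (le_max_left _ _).trans (haY i)
  have haZ : ∀ i, Z ≤ a i := fun i => ((le_max_left _ _).trans (le_max_left _ _)).trans (ha i)
  have haZ' : ∀ i, Z' ≤ a i := fun i => ((le_max_right _ _).trans (le_max_left _ _)).trans (ha i)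
  have hHH₀ : ∀ i, H₀ ≤ H i := fun i => by
    have := (hZ (a i) (haZ i)).trans (hHa i)
    exact_mod_cast this
  have h4 : (4 : ℝ) ≤ (max H₀ ⌈Real.exp ((Y : ℝ) / c)⌉₊ : ℕ) := by
    exact_mod_cast hH₀.trans (le_max_left _ _)
  have hl := log_prod_ge hk (by linarith) haY
  have hYl : (Y : ℝ) / c ≤ Real.log ((max H₀ ⌈Real.exp ((Y : ℝ) / c)⌉₊ : ℕ) : ℝ) := by
    rw [Real.le_log_iff_exp_le (by linarith)]
    exact (Nat.le_ceil _).trans (by exact_mod_cast le_max_right _ _)
  have hYx : (Y : ℝ) ≤ x := by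
    have h1 := hYl.trans hl
    rw [div_le_iff₀ hc] at h1
    linarith
  have hYx' : Y ≤ x := by exact_mod_cast hYx
  have hx0 : (0 : ℝ) < x := by
    have : (1 : ℝ) ≤ Y := by rw [hY]; push_cast; linarith [show (0 : ℝ) ≤ (Xm : ℝ) from Nat.cast_nonneg _]
    linarith
  have h2 : (x : ℝ) ≤ T.card / ρ := by rw [le_div_iff₀ hρ]; linarith
  have ha4 : ∀ i, (4 : ℝ) ≤ a i := fun i => by exact_mod_cast hH₀.trans (haH₀ i)
  have hTpos : (0 : ℝ) < T.card := lt_of_lt_of_le (by positivity) hTc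
  have hlH : ∀ i, (1 - δ / 4) * log (a i) ≤ log (H i) := fun i => by
    rw [← Real.log_rpow (by linarith [ha4 i])]
    exact Real.log_le_log (by have := ha4 i; positivity) (hHa i)
  have hH1 : ∀ i, 1 < H i := fun i => by have := hHH₀ i; omega
  have hlH2 : ∀ i, log (H i : ℝ) ≤ log (a i) := fun i =>
    Real.log_le_log (by exact_mod_cast (by have := hH1 i; omega : 0 < H i)) (by exact_mod_cast hHa' i)
  have hlH0 : ∀ i, 0 < log (H i : ℝ) := fun i => Real.log_pos (by exact_mod_cast hH1 i)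
  have hla0 : ∀ i, 0 < log (a i : ℝ) := fun i => Real.log_pos (by linarith [ha4 i])
  have hprod1 : ∏ i, log (H i : ℝ) ≤ ∏ i, log (a i : ℝ) :=
    prod_le_prod (fun i _ => (hlH0 i).le) (fun i _ => hlH2 i)
  have hprod2 : (1 - δ / 4) ^ k * ∏ i, log (a i : ℝ) ≤ ∏ i, log (H i : ℝ) := by
    calc (1 - δ / 4) ^ k * ∏ i, log (a i : ℝ) = ∏ i, ((1 - δ / 4) * log (a i : ℝ)) := by
          rw [prod_mul_distrib, prod_const, card_univ, Fintype.card_fin]
      _ ≤ _ := prod_le_prod (fun i _ => mul_nonneg h1δ.le (hla0 i).le) (fun i _ => hlH i)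
  have hprod0 : 0 < ∏ i, log (H i : ℝ) := prod_pos fun i _ => hlH0 i
  have hproda : 0 < ∏ i, log (a i : ℝ) := prod_pos fun i _ => hla0 i
  have key : κ * ∏ i, (H i : ℝ) ≤ ((((Fintype.piFinset (fun i : Fin k => Ioc 0 (H i))).filter (fun b =>
      κ * T.card / (∏ i, Real.log (H i)) ≤ primeS (lead' a B) b T ∧
      κ * primeS (lead' a B) b T ≤ T.card / (∏ i, Real.log (H i)))).card : ℕ) : ℝ) := by
    apply hM H hHH₀ (lead' a B) T
    · intro i t ht
      have ht' := mem_Ioc.1 (hT ht)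
      have ha0 : (0 : ℝ) < a i := by linarith [ha4 i]
      have ht1 : 1 ≤ t := by omega
      unfold lead'
      constructor
      · have h3 : (1 : ℤ) ≤ t := by omega
        have h5 : (H i : ℤ) ≤ a i := by exact_mod_cast hHa' i
        have h6 : (0 : ℤ) ≤ a i := Int.natCast_nonneg _
        have h7 : (0 : ℤ) ≤ B i := Int.natCast_nonneg _
        nlinarith
      · push_cast
        have h3 : (t : ℝ) ≤ (a i : ℝ) ^ (δ / 4) := by
          refine le_trans ?_ (hxa i)
          exact_mod_cast ht'.2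
        have h5 : (B i : ℝ) ≤ a i := by exact_mod_cast hB i
        have h6 : (1 : ℝ) ≤ t := by exact_mod_cast ht1
        have h8 : (a i : ℝ) * t + B i ≤ 2 * ((a i : ℝ) * (a i : ℝ) ^ (δ / 4)) := by
          calc (a i : ℝ) * t + B i ≤ (a i : ℝ) * t + (a i : ℝ) * t := by
                nlinarith
            _ ≤ (a i : ℝ) * (a i : ℝ) ^ (δ / 4) + (a i : ℝ) * (a i : ℝ) ^ (δ / 4) := by gcongr
            _ = _ := by ring
        calc ((a i : ℝ) * t + B i) ^ (1 - δ) ≤ (2 * ((a i : ℝ) * (a i : ℝ) ^ (δ / 4))) ^ (1 - δ) := by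
              apply Real.rpow_le_rpow (by positivity) h8 (by linarith)
          _ = (2 : ℝ) ^ (1 - δ) * (a i : ℝ) ^ ((1 + δ / 4) * (1 - δ)) := by
              rw [Real.mul_rpow (by norm_num) (by positivity), Real.rpow_mul ha0.le, Real.rpow_add ha0, Real.rpow_one]
          _ ≤ (2 : ℝ) ^ (1 : ℝ) * (a i : ℝ) ^ ((1 + δ / 4) * (1 - δ)) := by
              gcongr
              · norm_num
              · linarith
          _ ≤ (a i : ℝ) ^ (δ / 2) * (a i : ℝ) ^ ((1 + δ / 4) * (1 - δ)) := by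
              rw [Real.rpow_one]
              gcongr
              exact hZ' (a i) (haZ' i)
          _ = (a i : ℝ) ^ (δ / 2 + (1 + δ / 4) * (1 - δ)) := by rw [← Real.rpow_add ha0]
          _ ≤ (a i : ℝ) ^ (1 - δ / 4) := by
              apply Real.rpow_le_rpow_of_exponent_le (by linarith [ha4 i])
              nlinarith
          _ ≤ H i := hHa i
    · intro t₁ _ t₂ _ hne i h
      unfold lead' at h
      apply hne
      have ha0 : (a i : ℤ) ≠ 0 := by
        have := hH₀.trans (haH₀ i)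
        omega
      have h' : (a i : ℤ) * t₁ = (a i : ℤ) * t₂ := by linarith
      exact_mod_cast mul_left_cancel₀ ha0 h'
    · intro i
      have h3 := hXm x (by omega) y T hT
      have hga : GG (a i) ≤ 1 / c := by
        unfold GG
        have hφ0 : (0 : ℝ) < Nat.totient (a i) := by
          have : 0 < a i := by have := hH₀.trans (haH₀ i); omega
          exact_mod_cast Nat.totient_pos.2 this
        rw [div_le_div_iff₀ hφ0 hc]
        linarith [hφ i]
      have h5 : ∀ s ∈ T, ∀ t ∈ T, GG (lead' a B i s - lead' a B i t).natAbs ^ (2 * k) ≤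
          (1 / c) ^ (2 * k) * GG ((s : ℤ) - t).natAbs ^ (2 * k) := by
        intro s _ t _
        have e : (lead' a B i s - lead' a B i t).natAbs = a i * ((s : ℤ) - t).natAbs := by
          unfold lead'
          have : (a i : ℤ) * s + B i - ((a i : ℤ) * t + B i) = (a i : ℤ) * ((s : ℤ) - t) := by ring
          rw [this, Int.natAbs_mul, Int.natAbs_natCast]
        rw [e, ← mul_pow]
        apply pow_le_pow_left₀ (GG_nonneg _)
        calc GG (a i * ((s : ℤ) - t).natAbs) ≤ GG (a i) * GG ((s : ℤ) - t).natAbs := GG_mul_le _ _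
          _ ≤ _ := mul_le_mul_of_nonneg_right hga (GG_nonneg _)
      calc _ ≤ ∑ s ∈ T, ∑ t ∈ T, (1 / c) ^ (2 * k) * GG ((s : ℤ) - t).natAbs ^ (2 * k) :=
            sum_le_sum fun s hs => sum_le_sum fun t ht => h5 s hs t ht
        _ = (1 / c) ^ (2 * k) * ∑ s ∈ T, ∑ t ∈ T, GG ((s : ℤ) - t).natAbs ^ (2 * k) := by
            rw [mul_sum]
            apply sum_congr rfl
            intro s _
            rw [mul_sum]
        _ ≤ (1 / c) ^ (2 * k) * (C * (T.card / ρ) ^ 2) := by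
            apply mul_le_mul_of_nonneg_left _ (by positivity)
            refine h3.trans ?_
            gcongr
        _ = _ := by field_simp
    · calc ∏ i, Real.log (H i) ≤ ∏ i, Real.log (a i) := hprod1
        _ = 1 / c * (c * ∏ i, Real.log (a i)) := by field_simp
        _ ≤ 1 / c * (T.card / ρ) := by
            have := hcx.trans h2
            gcongr
        _ = _ := by field_simp
  have hHH : 0 ≤ ∏ i, (H i : ℝ) := prod_nonneg fun i _ => Nat.cast_nonneg _
  have hκκ : κ * (1 - δ / 4) ^ k ≤ κ := mul_le_of_le_one_right hκ.le h1δk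
  refine (mul_le_mul_of_nonneg_right hκκ hHH).trans (key.trans (Nat.cast_le.2 ?_))
  apply card_le_card_of_injOn (fun b i => B i + b i)
  · intro b hb
    rw [mem_coe, mem_filter, Fintype.mem_piFinset] at hb
    rw [mem_coe, mem_filter, Fintype.mem_piFinset]
    have e : primeS (lead' a B) b T = cnt a (fun i => B i + b i) T := by
      unfold primeS cnt
      congr 1
      apply filter_congr
      intro n _
      have key2 : ∀ i, (lead' a B i n + b i).toNat = a i * n + (B i + b i) := by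
        intro i
        unfold lead'
        have : (a i : ℤ) * n + B i + b i = ((a i * n + (B i + b i) : ℕ) : ℤ) := by push_cast; ring
        rw [this, Int.toNat_natCast]
      simp only [key2]
    rw [e] at hb
    refine ⟨fun i => ?_, le_trans ?_ hb.2.1, ?_⟩
    · have := mem_Ioc.1 (hb.1 i)
      simp only [mem_Ioc]
      omega
    · have e1 : κ * (1 - δ / 4) ^ k * T.card ≤ κ * T.card := by gcongr
      exact div_le_div₀ (by positivity) e1 hprod0 hprod1
    · have h6 := hb.2.2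
      rw [le_div_iff₀ hprod0] at h6
      rw [le_div_iff₀ hproda]
      have h7 : (0 : ℝ) ≤ cnt a (fun i => B i + b i) T := Nat.cast_nonneg _
      calc κ * (1 - δ / 4) ^ k * cnt a (fun i => B i + b i) T * ∏ i, log (a i : ℝ) =
            κ * cnt a (fun i => B i + b i) T * ((1 - δ / 4) ^ k * ∏ i, log (a i : ℝ)) := by ring
        _ ≤ κ * cnt a (fun i => B i + b i) T * ∏ i, log (H i : ℝ) := by gcongr
        _ ≤ T.card := h6
  · intro b _ b' _ h
    funext i
    have h1 := congrFun h i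
    simp only at h1
    omega

end Pool.Agent.V1137.SI3
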