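import Mathlib

open Topology Set

namespace Pool.Agent.V1137.GluedSquare

/-- A quotient of a compact Hausdorff space by a closed equivalence relation: the quotient map is
closed. -/
theorem isClosedMap_mk {P : Type*} [TopologicalSpace P] [CompactSpace P] [T2Space P]
    (s : Setoid P) (h : IsClosed {p : P × P | s p.1 p.2}) :
    IsClosedMap (Quotient.mk s) := by
  intro C hC
  rw [← isQuotientMap_quotient_mk'.isClosed_preimage]
  have h1 : (Quotient.mk s) ⁻¹' (Quotient.mk s '' C) =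
      Prod.snd '' ({p : P × P | s p.1 p.2} ∩ (C ×ˢ Set.univ)) := by
    ext y
    constructor
    · rintro ⟨x, hx, hxy⟩
      exact ⟨(x, y), ⟨Quotient.exact hxy, hx, trivial⟩, rfl⟩
    · rintro ⟨⟨x, y'⟩, ⟨hr, hx, -⟩, rfl⟩
      exact ⟨x, hx, Quotient.sound hr⟩
  have h2 : IsClosed ((Quotient.mk s) ⁻¹' (Quotient.mk s '' C)) := by
    rw [h1]
    have h3 : IsClosed ({p : P × P | s p.1 p.2} ∩ (C ×ˢ Set.univ)) :=
      h.inter (hC.prod isClosed_univ)
    exact (h3.isCompact.image continuous_snd).isClosed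
  exact h2

theorem t2_quotient {P : Type*} [TopologicalSpace P] [CompactSpace P] [T2Space P]
    (s : Setoid P) (h : IsClosed {p : P × P | s p.1 p.2}) : T2Space (Quotient s) := by
  have hcl := isClosedMap_mk s h
  have hcont : Continuous (Quotient.mk s) := continuous_quotient_mk'
  have hsing : ∀ z : Quotient s, IsClosed ({z} : Set (Quotient s)) := by
    intro z
    obtain ⟨x, rfl⟩ := Quotient.exists_rep z
    have := hcl {x} isClosed_singleton
    rwa [Set.image_singleton] at this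
  refine ⟨fun z w hzw => ?_⟩
  have hK := (hsing z).preimage hcont
  have hL := (hsing w).preimage hcont
  have hd : Disjoint (Quotient.mk s ⁻¹' {z}) (Quotient.mk s ⁻¹' {w}) := by
    rw [Set.disjoint_left]
    intro x hx hx'
    exact hzw (hx.symm.trans hx')
  obtain ⟨U, V, hU, hV, hKU, hLV, hUV⟩ := normal_separation hK hL hd
  refine ⟨(Quotient.mk s '' Uᶜ)ᶜ, (Quotient.mk s '' Vᶜ)ᶜ, (hcl _ hU.isClosed_compl).isOpen_compl,
    (hcl _ hV.isClosed_compl).isOpen_compl, ?_, ?_, ?_⟩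
  · rintro ⟨x, hx, hxz⟩
    exact hx (hKU hxz)
  · rintro ⟨x, hx, hxz⟩
    exact hx (hLV hxz)
  · rw [Set.disjoint_left]
    intro y hy hy'
    obtain ⟨x, rfl⟩ := Quotient.exists_rep y
    have h1 : x ∈ U := by
      by_contra hc; exact hy ⟨x, hc, rfl⟩
    have h2 : x ∈ V := by
      by_contra hc; exact hy' ⟨x, hc, rfl⟩
    exact Set.disjoint_left.1 hUV h1 h2

/-- The equivalence relation on `X × X × Bool` generated by `(x, y, b) ∼ (y, x, b)` and
`(x, x, b) ∼ (x, x, b')`. -/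
def rel (X : Type*) : Setoid (X × X × Bool) where
  r p q := ((p.1 = q.1 ∧ p.2.1 = q.2.1) ∨ (p.1 = q.2.1 ∧ p.2.1 = q.1)) ∧
    (p.2.2 = q.2.2 ∨ p.1 = p.2.1)
  iseqv := by
    refine ⟨?_, ?_, ?_⟩
    · rintro ⟨x, y, b⟩
      exact ⟨Or.inl ⟨rfl, rfl⟩, Or.inl rfl⟩
    · rintro ⟨x, y, b⟩ ⟨x', y', b'⟩ ⟨h1, h2⟩
      simp only at h1 h2 ⊢
      rcases h1 with ⟨rfl, rfl⟩ | ⟨rfl, rfl⟩
      · exact ⟨Or.inl ⟨rfl, rfl⟩, h2.imp Eq.symm id⟩
      · exact ⟨Or.inr ⟨rfl, rfl⟩, h2.imp Eq.symm Eq.symm⟩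
    · rintro ⟨x, y, b⟩ ⟨x', y', b'⟩ ⟨x'', y'', b''⟩ ⟨h1, h2⟩ ⟨h3, h4⟩
      simp only at h1 h2 h3 h4 ⊢
      rcases h1 with ⟨rfl, rfl⟩ | ⟨rfl, rfl⟩
      · refine ⟨h3, ?_⟩
        rcases h2 with rfl | h2
        · exact h4
        · exact Or.inr h2
      · refine ⟨?_, ?_⟩
        · rcases h3 with ⟨rfl, rfl⟩ | ⟨rfl, rfl⟩
          · exact Or.inr ⟨rfl, rfl⟩
          · exact Or.inl ⟨rfl, rfl⟩
        · rcases h2 with rfl | h2
          · exact h4.imp id Eq.symm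
          · exact Or.inr h2

/-- Two copies of the symmetric square of `X`, glued along the diagonal. -/
def G (X : Type*) : Type _ := Quotient (rel X)

/-- The point of sheet `b` given by the unordered pair `x, y`. -/
def mk {X : Type*} (p : X × X × Bool) : G X := Quotient.mk (rel X) p

theorem mk_surj {X : Type*} (z : G X) : ∃ p : X × X × Bool, mk p = z := Quotient.exists_rep z

theorem mk_eq {X : Type*} {x y x' y' : X} {b b' : Bool} :
    mk (x, y, b) = mk (x', y', b') ↔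
      ((x = x' ∧ y = y') ∨ (x = y' ∧ y = x')) ∧ (b = b' ∨ x = y) :=
  ⟨fun h => Quotient.exact h, fun h => Quotient.sound h⟩

instance {X : Type*} [TopologicalSpace X] : TopologicalSpace (G X) :=
  inferInstanceAs (TopologicalSpace (Quotient (rel X)))

theorem isQuotientMap_mk {X : Type*} [TopologicalSpace X] :
    IsQuotientMap (mk : X × X × Bool → G X) := isQuotientMap_quotient_mk'

theorem continuous_mk {X : Type*} [TopologicalSpace X] :
    Continuous (mk : X × X × Bool → G X) := isQuotientMap_mk.continuous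

instance {X : Type*} [TopologicalSpace X] [CompactSpace X] : CompactSpace (G X) :=
  inferInstanceAs (CompactSpace (Quotient (rel X)))

theorem isClosed_rel {X : Type*} [TopologicalSpace X] [T2Space X] :
    IsClosed {p : (X × X × Bool) × (X × X × Bool) | rel X p.1 p.2} := by
  have h : {p : (X × X × Bool) × (X × X × Bool) | rel X p.1 p.2} =
      (({p | p.1.1 = p.2.1} ∩ {p | p.1.2.1 = p.2.2.1}) ∪
        ({p | p.1.1 = p.2.2.1} ∩ {p | p.1.2.1 = p.2.1})) ∩
      ({p | p.1.2.2 = p.2.2.2} ∪ {p | p.1.1 = p.1.2.1}) := rfl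
  rw [h]
  refine IsClosed.inter (IsClosed.union (IsClosed.inter ?_ ?_) (IsClosed.inter ?_ ?_))
    (IsClosed.union ?_ ?_)
  all_goals exact isClosed_eq (by fun_prop) (by fun_prop)

instance {X : Type*} [TopologicalSpace X] [CompactSpace X] [T2Space X] : T2Space (G X) :=
  t2_quotient (rel X) isClosed_rel

theorem isClosedMap_mk' {X : Type*} [TopologicalSpace X] [CompactSpace X] [T2Space X] :
    IsClosedMap (mk : X × X × Bool → G X) := isClosedMap_mk (rel X) isClosed_rel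

/-- Functoriality. -/
def map {X Y : Type*} (f : X → Y) : G X → G Y :=
  Quotient.map (fun p => (f p.1, f p.2.1, p.2.2)) (by
    rintro ⟨x, y, b⟩ ⟨x', y', b'⟩ ⟨h1, h2⟩
    simp only at h1 h2
    refine ⟨?_, ?_⟩
    · rcases h1 with ⟨rfl, rfl⟩ | ⟨rfl, rfl⟩
      · exact Or.inl ⟨rfl, rfl⟩
      · exact Or.inr ⟨rfl, rfl⟩
    · exact h2.imp id (congrArg f))

theorem map_mk {X Y : Type*} (f : X → Y) (x y : X) (b : Bool) :
    map f (mk (x, y, b)) = mk (f x, f y, b) := rfl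

theorem map_id {X : Type*} (z : G X) : map id z = z := by
  obtain ⟨⟨x, y, b⟩, rfl⟩ := mk_surj z
  rfl

theorem map_comp {X Y Z : Type*} (f : X → Y) (g : Y → Z) (z : G X) :
    map (g ∘ f) z = map g (map f z) := by
  obtain ⟨⟨x, y, b⟩, rfl⟩ := mk_surj z
  rfl

theorem continuous_map {X Y : Type*} [TopologicalSpace X] [TopologicalSpace Y] {f : X → Y}
    (hf : Continuous f) : Continuous (map f) := by
  refine isQuotientMap_mk.continuous_iff.2 ?_
  have h : map f ∘ mk = mk ∘ (fun p : X × X × Bool => (f p.1, f p.2.1, p.2.2)) := by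
    ext ⟨x, y, b⟩; rfl
  rw [h]
  exact continuous_mk.comp (by fun_prop)

theorem map_injective {X Y : Type*} {f : X → Y} (hf : Function.Injective f) :
    Function.Injective (map f) := by
  intro z w h
  obtain ⟨⟨x, y, b⟩, rfl⟩ := mk_surj z
  obtain ⟨⟨x', y', b'⟩, rfl⟩ := mk_surj w
  rw [map_mk, map_mk, mk_eq] at h
  rw [mk_eq]
  simpa only [hf.eq_iff] using h

theorem map_surjective {X Y : Type*} {f : X → Y} (hf : Function.Surjective f) :
    Function.Surjective (map f) := by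
  intro z
  obtain ⟨⟨x, y, b⟩, rfl⟩ := mk_surj z
  obtain ⟨x', rfl⟩ := hf x
  obtain ⟨y', rfl⟩ := hf y
  exact ⟨mk (x', y', b), rfl⟩

/-- The points supported in a set. -/
theorem mem_range_val {X : Type*} (A : Set X) (x y : X) (b : Bool) :
    mk (x, y, b) ∈ Set.range (map (Subtype.val : A → X)) ↔ x ∈ A ∧ y ∈ A := by
  constructor
  · rintro ⟨z, hz⟩
    obtain ⟨⟨u, v, c⟩, rfl⟩ := mk_surj z
    rw [map_mk, mk_eq] at hz
    rcases hz.1 with ⟨h1, h2⟩ | ⟨h1, h2⟩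
    · exact ⟨h1 ▸ u.2, h2 ▸ v.2⟩
    · exact ⟨h2 ▸ v.2, h1 ▸ u.2⟩
  · rintro ⟨hx, hy⟩
    exact ⟨mk (⟨x, hx⟩, ⟨y, hy⟩, b), rfl⟩

theorem range_val_iInter {X : Type*} {ι : Type*} (A : ι → Set X) :
    Set.range (map (Subtype.val : (⋂ i, A i : Set X) → X)) =
      ⋂ i, Set.range (map (Subtype.val : A i → X)) := by
  ext z
  obtain ⟨⟨x, y, b⟩, rfl⟩ := mk_surj z
  rw [mem_range_val, Set.mem_iInter]
  simp only [mem_range_val, Set.mem_iInter]
  exact ⟨fun h i => ⟨h.1 i, h.2 i⟩, fun h => ⟨fun i => (h i).1, fun i => (h i).2⟩⟩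

theorem preimage_range_val {X Y : Type*} (f : X → Y) (Z : Set Y) :
    map f ⁻¹' (Set.range (map (Subtype.val : Z → Y))) =
      Set.range (map (Subtype.val : (f ⁻¹' Z : Set X) → X)) := by
  ext z
  obtain ⟨⟨x, y, b⟩, rfl⟩ := mk_surj z
  rw [Set.mem_preimage, map_mk, mem_range_val, mem_range_val]
  rfl

/-- Every point comes from a map of a two point set. -/
theorem degree_two {X : Type*} (z : G X) : ∃ (ξ : Fin 2 → X) (w : G (Fin 2)), map ξ w = z := by
  obtain ⟨⟨x, y, b⟩, rfl⟩ := mk_surj z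
  exact ⟨![x, y], mk (0, 1, b), rfl⟩

instance {X : Type*} [Finite X] : Finite (G X) :=
  inferInstanceAs (Finite (Quotient (rel X)))

/-- The image of a nonempty open set under `map f`, for `f` an open map, contains a nonempty open
set. -/
theorem image_open {X Y : Type*} [TopologicalSpace X] [TopologicalSpace Y] [T2Space Y]
    {f : X → Y} (hf : IsOpenMap f) (U : Set (G X)) (hU : IsOpen U) (hne : U.Nonempty) :
    ∃ O : Set (G Y), IsOpen O ∧ O.Nonempty ∧ O ⊆ map f '' U := by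
  have hW : IsOpen (mk ⁻¹' U : Set (X × X × Bool)) := hU.preimage continuous_mk
  -- a box around a point of the preimage
  have hbox : ∀ x y b, mk (x, y, b) ∈ U → ∃ V₁ V₂ : Set X, IsOpen V₁ ∧ IsOpen V₂ ∧ x ∈ V₁ ∧
      y ∈ V₂ ∧ ∀ u ∈ V₁, ∀ v ∈ V₂, mk (u, v, b) ∈ U := by
    intro x y b h
    have h1 : IsOpen ((fun p : X × X => (p.1, p.2, b)) ⁻¹' (mk ⁻¹' U)) :=
      hW.preimage (by fun_prop)
    obtain ⟨V₁, V₂, hV₁, hV₂, hx, hy, hsub⟩ := isOpen_prod_iff.1 h1 x y h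
    exact ⟨V₁, V₂, hV₁, hV₂, hx, hy, fun u hu v hv => hsub (Set.mk_mem_prod hu hv)⟩
  by_cases hcase : ∃ x y b, mk (x, y, b) ∈ U ∧ f x ≠ f y
  · obtain ⟨x, y, b, hxy, hne'⟩ := hcase
    obtain ⟨V₁, V₂, hV₁, hV₂, hx, hy, hsub⟩ := hbox x y b hxy
    refine ⟨mk '' {p : Y × Y × Bool | p.1 ∈ f '' V₁ ∧ p.2.1 ∈ f '' V₂ ∧ p.2.2 = b ∧ p.1 ≠ p.2.1},
      ?_, ?_, ?_⟩
    · rw [← isQuotientMap_mk.isOpen_preimage]
      have h1 : mk ⁻¹' (mk '' {p : Y × Y × Bool | p.1 ∈ f '' V₁ ∧ p.2.1 ∈ f '' V₂ ∧ p.2.2 = b ∧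
          p.1 ≠ p.2.1}) =
          {p : Y × Y × Bool | ((p.1 ∈ f '' V₁ ∧ p.2.1 ∈ f '' V₂) ∨
            (p.2.1 ∈ f '' V₁ ∧ p.1 ∈ f '' V₂)) ∧ p.2.2 = b ∧ p.1 ≠ p.2.1} := by
        ext ⟨u, v, c⟩
        constructor
        · rintro ⟨⟨u', v', c'⟩, ⟨h1, h2, h3, h4⟩, h5⟩
          simp only at h1 h2 h3 h4
          rw [mk_eq] at h5
          obtain ⟨h5, h6⟩ := h5
          have h6' : c' = c := by
            rcases h6 with h6 | h6
            · exact h6
            · exact absurd h6 h4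
          rcases h5 with ⟨rfl, rfl⟩ | ⟨rfl, rfl⟩
          · exact ⟨Or.inl ⟨h1, h2⟩, h6' ▸ h3, h4⟩
          · exact ⟨Or.inr ⟨h1, h2⟩, h6' ▸ h3, h4.symm⟩
        · rintro ⟨h1, h2, h3⟩
          simp only at h1 h2 h3
          rcases h1 with ⟨h1, h1'⟩ | ⟨h1, h1'⟩
          · exact ⟨(u, v, c), ⟨h1, h1', h2, h3⟩, rfl⟩
          · exact ⟨(v, u, c), ⟨h1, h1', h2, h3.symm⟩, mk_eq.2 ⟨Or.inr ⟨rfl, rfl⟩, Or.inl rfl⟩⟩
      rw [h1]
      have o1 := hf V₁ hV₁
      have o2 := hf V₂ hV₂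
      refine IsOpen.inter (IsOpen.union (IsOpen.inter ?_ ?_) (IsOpen.inter ?_ ?_))
        (IsOpen.inter ?_ ?_)
      · exact o1.preimage (by fun_prop)
      · exact o2.preimage (by fun_prop)
      · exact o1.preimage (by fun_prop)
      · exact o2.preimage (by fun_prop)
      · exact (isOpen_discrete {b}).preimage (f := fun p : Y × Y × Bool => p.2.2) (by fun_prop)
      · exact isOpen_ne_fun (by fun_prop) (by fun_prop)
    · exact ⟨mk (f x, f y, b), (f x, f y, b), ⟨⟨x, hx, rfl⟩, ⟨y, hy, rfl⟩, rfl, hne'⟩, rfl⟩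
    · rintro _ ⟨⟨u, v, c⟩, ⟨⟨u', hu', rfl⟩, ⟨v', hv', rfl⟩, rfl, -⟩, rfl⟩
      exact ⟨mk (u', v', _), hsub u' hu' v' hv', rfl⟩
  · push Not at hcase
    obtain ⟨z, hz⟩ := hne
    obtain ⟨⟨x, y, b⟩, rfl⟩ := mk_surj z
    obtain ⟨V₁, V₂, hV₁, hV₂, hx, hy, hsub⟩ := hbox x y b hz
    have h1 : f '' V₁ = {f x} := by
      ext w
      constructor
      · rintro ⟨u, hu, rfl⟩
        have e1 := hcase u y b (hsub u hu y hy)
        have e2 := hcase x y b hz
        exact e1.trans e2.symm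
      · rintro rfl
        exact ⟨x, hx, rfl⟩
    have h2 : IsOpen ({f x} : Set Y) := h1 ▸ hf V₁ hV₁
    refine ⟨{mk (f x, f x, b)}, ?_, ⟨_, rfl⟩, ?_⟩
    · rw [← isQuotientMap_mk.isOpen_preimage]
      have h3 : mk ⁻¹' {mk (f x, f x, b)} = {p : Y × Y × Bool | p.1 = f x ∧ p.2.1 = f x} := by
        ext ⟨u, v, c⟩
        show mk (u, v, c) = mk (f x, f x, b) ↔ u = f x ∧ v = f x
        rw [mk_eq]
        constructor
        · rintro ⟨⟨h1, h2⟩ | ⟨h1, h2⟩, -⟩
          · exact ⟨h1, h2⟩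
          · exact ⟨h1, h2⟩
        · rintro ⟨rfl, rfl⟩
          exact ⟨Or.inl ⟨rfl, rfl⟩, Or.inr rfl⟩
      rw [h3]
      refine IsOpen.inter ?_ ?_
      · exact h2.preimage (f := fun p : Y × Y × Bool => p.1) (by fun_prop)
      · exact h2.preimage (f := fun p : Y × Y × Bool => p.2.1) (by fun_prop)
    · rintro _ rfl
      refine ⟨mk (x, y, b), hz, ?_⟩
      rw [map_mk, hcase x y b hz]

end Pool.Agent.V1137.GluedSquare
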