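import Mathlib

open Topology Set TopologicalSpace Cardinal

namespace Pool.Agent.V1137.Weight

/-- The weight of a topological space: the least cardinality of a base. -/
noncomputable def weight (X : Type) [TopologicalSpace X] : Cardinal.{0} :=
  sInf {c | ∃ B : Set (Set X), IsTopologicalBasis B ∧ Cardinal.mk B = c}

theorem exists_basis (X : Type) [TopologicalSpace X] :
    ∃ B : Set (Set X), IsTopologicalBasis B ∧ Cardinal.mk B = weight X :=
  csInf_mem (s := {c | ∃ B : Set (Set X), IsTopologicalBasis B ∧ Cardinal.mk B = c})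
    ⟨_, _, isTopologicalBasis_opens, rfl⟩

theorem weight_le {X : Type} [TopologicalSpace X] {B : Set (Set X)} (hB : IsTopologicalBasis B) :
    weight X ≤ Cardinal.mk B :=
  csInf_le' ⟨B, hB, rfl⟩

theorem weight_le_range {X : Type} [TopologicalSpace X] {ι : Type} (f : ι → Set X)
    (hB : IsTopologicalBasis (Set.range f)) : weight X ≤ Cardinal.mk ι :=
  (weight_le hB).trans Cardinal.mk_range_le

theorem aleph0_le_weight (X : Type) [TopologicalSpace X] [T2Space X] [Infinite X] :
    ℵ₀ ≤ weight X := by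
  obtain ⟨B, hB, hBc⟩ := exists_basis X
  rw [← hBc]
  by_contra hcon
  have h1 : Finite B := Cardinal.lt_aleph0_iff_finite.1 (not_le.1 hcon)
  have h2 : Function.Injective (fun x : X => {U : B | x ∈ U.1}) := by
    intro x y hxy
    by_contra hne
    obtain ⟨U, V, hU, hV, hx, hy, hUV⟩ := t2_separation hne
    obtain ⟨W, hW, hxW, hWU⟩ := hB.exists_subset_of_mem_open hx hU
    have h3 : (⟨W, hW⟩ : B) ∈ {U : B | x ∈ U.1} := hxW
    have h4 : (⟨W, hW⟩ : B) ∈ {U : B | y ∈ U.1} := by
      have h5 : {U : B | x ∈ U.1} = {U : B | y ∈ U.1} := hxy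
      rw [← h5]; exact h3
    exact Set.disjoint_left.1 hUV (hWU h4) hy
  have h3 : Finite X := Finite.of_injective _ h2
  exact not_finite X

theorem weight_le_of_isInducing {X Y : Type} [TopologicalSpace X] [TopologicalSpace Y]
    {e : X → Y} (he : IsInducing e) : weight X ≤ weight Y := by
  obtain ⟨B, hB, hBc⟩ := exists_basis Y
  rw [← hBc]
  exact (weight_le (hB.isInducing he)).trans Cardinal.mk_image_le

theorem weight_prod_le (X Y : Type) [TopologicalSpace X] [TopologicalSpace Y] :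
    weight (X × Y) ≤ weight X * weight Y := by
  obtain ⟨B, hB, hBc⟩ := exists_basis X
  obtain ⟨C, hC, hCc⟩ := exists_basis Y
  rw [← hBc, ← hCc]
  exact (weight_le (hB.prod hC)).trans Cardinal.mk_image2_le

theorem weight_le_aleph0_of_finite (X : Type) [TopologicalSpace X] [Finite X] :
    weight X ≤ ℵ₀ := by
  obtain ⟨B, hB, hBc⟩ := exists_basis X
  rw [← hBc]
  exact Cardinal.mk_le_aleph0

/-- The weight does not increase under continuous surjections of compact Hausdorff spaces. -/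
theorem weight_image_le {P Q : Type} [TopologicalSpace P] [TopologicalSpace Q] [CompactSpace P]
    [T2Space Q] {q : P → Q} (hq : Continuous q) (hs : Function.Surjective q)
    (hinf : ℵ₀ ≤ weight P) : weight Q ≤ weight P := by
  obtain ⟨B, hB, hBc⟩ := exists_basis P
  have hBinf : Infinite B := by
    rw [← Cardinal.aleph0_le_mk_iff, hBc]; exact hinf
  rw [← hBc, ← Cardinal.mk_finset_of_infinite B]
  have hcl : IsClosedMap q := hq.isClosedMap
  refine weight_le_range (fun S : Finset B => (q '' (⋃ U ∈ S, U.1)ᶜ)ᶜ) ?_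
  refine isTopologicalBasis_of_isOpen_of_nhds ?_ ?_
  · rintro _ ⟨S, rfl⟩
    have h1 : IsOpen (⋃ U ∈ S, U.1) := isOpen_biUnion fun U _ => hB.isOpen U.2
    exact (hcl _ h1.isClosed_compl).isOpen_compl
  · intro z O hz hO
    have hK : IsCompact (q ⁻¹' {z}) := (isClosed_singleton.preimage hq).isCompact
    have hO' : IsOpen (q ⁻¹' O) := hO.preimage hq
    have hcover : ∀ x ∈ q ⁻¹' {z}, ∃ U : B, x ∈ U.1 ∧ U.1 ⊆ q ⁻¹' O := by
      intro x hx
      have hx' : q x ∈ O := by
        have : q x = z := hx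
        rw [this]; exact hz
      obtain ⟨W, hW, hxW, hWO⟩ := hB.exists_subset_of_mem_open (show x ∈ q ⁻¹' O from hx') hO'
      exact ⟨⟨W, hW⟩, hxW, hWO⟩
    have hcover' : q ⁻¹' {z} ⊆ ⋃ U : {U : B // U.1 ⊆ q ⁻¹' O}, U.1.1 := by
      intro x hx
      obtain ⟨U, hxU, hUO⟩ := hcover x hx
      exact Set.mem_iUnion.2 ⟨⟨U, hUO⟩, hxU⟩
    obtain ⟨t, ht⟩ := hK.elim_finite_subcover (fun U : {U : B // U.1 ⊆ q ⁻¹' O} => U.1.1)
      (fun U => hB.isOpen U.1.2) hcover'
    classical
    refine ⟨_, ⟨t.image Subtype.val, rfl⟩, ?_, ?_⟩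
    · rintro ⟨x, hx, hxz⟩
      apply hx
      obtain ⟨U, hU, hxU⟩ := Set.mem_iUnion₂.1 (ht hxz)
      exact Set.mem_iUnion₂.2 ⟨U.1, Finset.mem_image_of_mem _ hU, hxU⟩
    · intro w hw
      obtain ⟨x, rfl⟩ := hs w
      have hx : x ∈ ⋃ U ∈ t.image Subtype.val, (U : B).1 := by
        by_contra hc
        exact hw ⟨x, hc, rfl⟩
      obtain ⟨U, hU, hxU⟩ := Set.mem_iUnion₂.1 hx
      obtain ⟨U', hU', rfl⟩ := Finset.mem_image.1 hU
      exact U'.2 hxU

end Pool.Agent.V1137.Weight
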