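import Mathlib
import Pool.Agent.V1137.Weight

open Topology Set CategoryTheory CategoryTheory.Limits

namespace Pool.Agent.V1137.NormalFunctor

open Pool.Agent.V1137.Weight

/-- A closed subset of a compactum, as a compactum. -/
def sub {X : CompHaus.{0}} (A : Set X) (hA : IsClosed A) : CompHaus.{0} :=
  haveI : CompactSpace A := isCompact_iff_compactSpace.1 hA.isCompact
  CompHaus.of A

/-- The inclusion of a closed subset. -/
def incl {X : CompHaus.{0}} (A : Set X) (hA : IsClosed A) : sub A hA ⟶ X :=
  haveI : CompactSpace A := isCompact_iff_compactSpace.1 hA.isCompact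
  CompHausLike.ofHom (fun _ => True) (X := A) (Y := X) ⟨Subtype.val, continuous_subtype_val⟩

/-- For a functor `F` and a closed subset `A` of `X`, the subset `F A` of `F X`. -/
def FSet (F : CompHaus.{0} ⥤ CompHaus.{0}) {X : CompHaus.{0}} (A : Set X) (hA : IsClosed A) :
    Set (F.obj X) := Set.range (F.map (incl A hA))

/-- Normal functors on compacta, in the sense of Shchepin. -/
structure IsNormal (F : CompHaus.{0} ⥤ CompHaus.{0}) : Prop where
  /-- `F` is monomorphic. -/
  mono : ∀ {X Y : CompHaus.{0}} (f : X ⟶ Y), Function.Injective f → Function.Injective (F.map f)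
  /-- `F` is epimorphic. -/
  epi : ∀ {X Y : CompHaus.{0}} (f : X ⟶ Y), Function.Surjective f → Function.Surjective (F.map f)
  /-- `F` is continuous: it commutes with limits of inverse spectra (cofiltered limits). -/
  cont : ∀ (J : Type) [SmallCategory J] [IsCofiltered J], PreservesLimitsOfShape J F
  /-- `F` preserves intersections of closed subsets. -/
  inter : ∀ {X : CompHaus.{0}} {ι : Type} (A : ι → Set X) (hA : ∀ i, IsClosed (A i)),
    FSet F (⋂ i, A i) (isClosed_iInter hA) = ⋂ i, FSet F (A i) (hA i)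
  /-- `F` preserves the empty set. -/
  empty : ∀ X : CompHaus.{0}, IsEmpty X → IsEmpty (F.obj X)
  /-- `F` preserves the one-point space. -/
  point : ∀ X : CompHaus.{0}, Nonempty X ∧ Subsingleton X →
    Nonempty (F.obj X) ∧ Subsingleton (F.obj X)
  /-- `F` preserves the weight of infinite compacta. -/
  weight : ∀ X : CompHaus.{0}, Infinite X → weight (F.obj X) = weight X
  /-- `F` preserves preimages. -/
  preimage : ∀ {X Y : CompHaus.{0}} (f : X ⟶ Y) (Z : Set Y) (hZ : IsClosed Z),
    F.map f ⁻¹' FSet F Z hZ = FSet F (f ⁻¹' Z) (hZ.preimage f.hom.hom.continuous)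

/-- `F` is finitary. -/
def IsFinitary (F : CompHaus.{0} ⥤ CompHaus.{0}) : Prop :=
  ∀ X : CompHaus.{0}, Finite X → Finite (F.obj X)

/-- `F` has degree at most `n`: every point of `F X` lies in `F ξ (F n)` for some map `ξ : n → X`
from the discrete space with `n` points. -/
def DegreeLE (F : CompHaus.{0} ⥤ CompHaus.{0}) (n : ℕ) : Prop :=
  ∀ (X : CompHaus.{0}) (z : F.obj X), ∃ (ξ : CompHaus.of (Fin n) ⟶ X)
    (w : F.obj (CompHaus.of (Fin n))), F.map ξ w = z

/-- A map is skeletal if preimages of nowhere dense sets are nowhere dense. -/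
def Skeletal {X Y : Type} [TopologicalSpace X] [TopologicalSpace Y] (f : X → Y) : Prop :=
  ∀ A : Set Y, IsNowhereDense A → IsNowhereDense (f ⁻¹' A)

/-- `F` is open: it preserves open surjections. -/
def IsOpenFunctor (F : CompHaus.{0} ⥤ CompHaus.{0}) : Prop :=
  ∀ {X Y : CompHaus.{0}} (f : X ⟶ Y), IsOpenMap f → Function.Surjective f → IsOpenMap (F.map f)

/-- `F` is skeletal: `F f` is skeletal for every open surjection `f`. -/
def IsSkeletalFunctor (F : CompHaus.{0} ⥤ CompHaus.{0}) : Prop :=
  ∀ {X Y : CompHaus.{0}} (f : X ⟶ Y), IsOpenMap f → Function.Surjective f → Skeletal (F.map f)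

/-- A commutative square `f ∘ pX = pY ∘ ft` of compacta. -/
structure Square where
  /-- upper left corner -/
  Xt : CompHaus.{0}
  /-- upper right corner -/
  Yt : CompHaus.{0}
  /-- lower left corner -/
  X : CompHaus.{0}
  /-- lower right corner -/
  Y : CompHaus.{0}
  /-- upper map -/
  ft : Xt ⟶ Yt
  /-- lower map -/
  f : X ⟶ Y
  /-- left map -/
  pX : Xt ⟶ X
  /-- right map -/
  pY : Yt ⟶ Y
  comm : pX ≫ f = ft ≫ pY

/-- The image of a square under a functor. -/
def Square.map (F : CompHaus.{0} ⥤ CompHaus.{0}) (D : Square) : Square where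
  Xt := F.obj D.Xt
  Yt := F.obj D.Yt
  X := F.obj D.X
  Y := F.obj D.Y
  ft := F.map D.ft
  f := F.map D.f
  pX := F.map D.pX
  pY := F.map D.pY
  comm := by rw [← F.map_comp, ← F.map_comp, D.comm]

/-- All four maps of the square are surjective. -/
def Square.Surj (D : Square) : Prop :=
  Function.Surjective D.ft ∧ Function.Surjective D.f ∧ Function.Surjective D.pX ∧
    Function.Surjective D.pY

/-- All four spaces of the square are finite. -/
def Square.Fin (D : Square) : Prop := Finite D.Xt ∧ Finite D.Yt ∧ Finite D.X ∧ Finite D.Y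

/-- Bicommutative squares. -/
def Square.Bicommutative (D : Square) : Prop :=
  ∀ x : D.X, D.ft '' (D.pX ⁻¹' {x}) = D.pY ⁻¹' {D.f x}

/-- Skeletal squares. -/
def Square.Skel (D : Square) : Prop :=
  ∀ x : D.X, ∀ U ∈ 𝓝 x, ∃ V : Set D.Y, IsOpen V ∧ V.Nonempty ∧ V ⊆ D.f '' U ∧
    D.pY ⁻¹' V ⊆ D.ft '' (D.pX ⁻¹' U)

/-- `F` is finitely bicommutative. -/
def IsFinitelyBicommutative (F : CompHaus.{0} ⥤ CompHaus.{0}) : Prop :=
  ∀ D : Square, D.Fin → D.Surj → D.Bicommutative → (D.map F).Bicommutative

end Pool.Agent.V1137.NormalFunctor
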