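import Mathlib
import Pool.Agent.V1137.Weight
import Pool.Agent.V1137.NormalFunctor
import Pool.Agent.V1137.GluedSquare

open Topology Set CategoryTheory CategoryTheory.Limits
open scoped Cardinal

namespace Pool.Agent.V1137.GluedFunctor

open Pool.Agent.V1137.Weight Pool.Agent.V1137.NormalFunctor Pool.Agent.V1137.GluedSquare

/-- The functor sending a compactum `X` to two copies of its symmetric square, glued along the
diagonal. -/
def GF : CompHaus.{0} ⥤ CompHaus.{0} where
  obj X := CompHaus.of (G X)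
  map {X Y} f := CompHausLike.ofHom _ ⟨map f, continuous_map f.hom.hom.continuous⟩
  map_id X := by
    ext z
    exact map_id z
  map_comp f g := by
    ext z
    exact map_comp _ _ z

theorem GF_map_apply {X Y : CompHaus.{0}} (f : X ⟶ Y) (z : G X) :
    (GF.map f : G X → G Y) z = map f z := rfl

section Limits

variable {J : Type} [SmallCategory J] (K : J ⥤ CompHaus.{0})

/-- Points of the limit of `K` are compatible families. -/
theorem lim_ext {x y : (CompHaus.limitCone.{0, 0} K).pt}
    (h : ∀ j, (CompHaus.limitCone.{0, 0} K).π.app j x = (CompHaus.limitCone.{0, 0} K).π.app j y) :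
    x = y :=
  Subtype.ext (funext fun j => h j)

theorem lim_mk (s : ∀ j, K.obj j) (hs : ∀ {i j : J} (f : i ⟶ j), K.map f (s i) = s j) :
    ∃ x : (CompHaus.limitCone.{0, 0} K).pt,
      ∀ j, (CompHaus.limitCone.{0, 0} K).π.app j x = s j :=
  ⟨⟨s, hs⟩, fun _ => rfl⟩

theorem lim_compat (x : (CompHaus.limitCone.{0, 0} K).pt) {i j : J} (f : i ⟶ j) :
    K.map f ((CompHaus.limitCone.{0, 0} K).π.app i x) =
      (CompHaus.limitCone.{0, 0} K).π.app j x := x.2 f

variable [IsCofiltered J]

theorem inj_aux (z w : G (CompHaus.limitCone.{0, 0} K).pt)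
    (h : ∀ j, map ((CompHaus.limitCone.{0, 0} K).π.app j) z =
      map ((CompHaus.limitCone.{0, 0} K).π.app j) w) : z = w := by
  obtain ⟨⟨x, y, b⟩, rfl⟩ := mk_surj z
  obtain ⟨⟨x', y', b'⟩, rfl⟩ := mk_surj w
  simp only [map_mk, mk_eq] at h
  by_cases hxy : x = y
  · subst hxy
    have h1 : ∀ j, (CompHaus.limitCone.{0, 0} K).π.app j x =
        (CompHaus.limitCone.{0, 0} K).π.app j x' := by
      intro j
      rcases (h j).1 with ⟨h1, -⟩ | ⟨-, h1⟩ <;> exact h1
    have h2 : ∀ j, (CompHaus.limitCone.{0, 0} K).π.app j x =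
        (CompHaus.limitCone.{0, 0} K).π.app j y' := by
      intro j
      rcases (h j).1 with ⟨-, h1⟩ | ⟨h1, -⟩ <;> exact h1
    have e1 := lim_ext K h1
    have e2 := lim_ext K h2
    subst e1
    exact mk_eq.2 ⟨Or.inl ⟨rfl, e2⟩, Or.inr rfl⟩
  · obtain ⟨j₀, hj₀⟩ : ∃ j, (CompHaus.limitCone.{0, 0} K).π.app j x ≠
        (CompHaus.limitCone.{0, 0} K).π.app j y := by
      by_contra hc
      push Not at hc
      exact hxy (lim_ext K hc)
    have hb : b = b' := by
      rcases (h j₀).2 with h1 | h1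
      · exact h1
      · exact absurd h1 hj₀
    refine mk_eq.2 ⟨?_, Or.inl hb⟩
    -- the matching at an index above `j₀` determines the matching everywhere
    rcases (h j₀).1 with ⟨h1, h2⟩ | ⟨h1, h2⟩
    · left
      have key : ∀ j, (CompHaus.limitCone.{0, 0} K).π.app j x =
          (CompHaus.limitCone.{0, 0} K).π.app j x' ∧
          (CompHaus.limitCone.{0, 0} K).π.app j y =
          (CompHaus.limitCone.{0, 0} K).π.app j y' := by
        intro j
        obtain ⟨k, f, g, -⟩ := IsCofilteredOrEmpty.cone_objs j j₀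
        rcases (h k).1 with ⟨h3, h4⟩ | ⟨h3, h4⟩
        · rw [← lim_compat K x f, ← lim_compat K x' f, ← lim_compat K y f, ← lim_compat K y' f,
            h3, h4]
          exact ⟨rfl, rfl⟩
        · exfalso
          apply hj₀
          rw [h2, ← lim_compat K x g, h3, lim_compat K y' g]
      exact ⟨lim_ext K fun j => (key j).1, lim_ext K fun j => (key j).2⟩
    · right
      have key : ∀ j, (CompHaus.limitCone.{0, 0} K).π.app j x =
          (CompHaus.limitCone.{0, 0} K).π.app j y' ∧
          (CompHaus.limitCone.{0, 0} K).π.app j y =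
          (CompHaus.limitCone.{0, 0} K).π.app j x' := by
        intro j
        obtain ⟨k, f, g, -⟩ := IsCofilteredOrEmpty.cone_objs j j₀
        rcases (h k).1 with ⟨h3, h4⟩ | ⟨h3, h4⟩
        · exfalso
          apply hj₀
          rw [h2, ← lim_compat K x g, h3, lim_compat K x' g]
        · rw [← lim_compat K x f, ← lim_compat K x' f, ← lim_compat K y f, ← lim_compat K y' f,
            h3, h4]
          exact ⟨rfl, rfl⟩
      exact ⟨lim_ext K fun j => (key j).1, lim_ext K fun j => (key j).2⟩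

/-- The representatives of the members of a compatible family of points of `G (K j)`. -/
def reps (s : ∀ j, G (K.obj j)) (hs : ∀ {i j : J} (f : i ⟶ j), map (K.map f) (s i) = s j) :
    J ⥤ Type where
  obj j := {p : K.obj j × K.obj j × Bool // mk p = s j}
  map {i j} f := ↾fun p => ⟨(K.map f p.1.1, K.map f p.1.2.1, p.1.2.2),
    (congrArg (map (K.map f)) p.2).trans (hs f)⟩
  map_id j := by
    refine ConcreteCategory.hom_ext _ _ fun p => Subtype.ext ?_
    obtain ⟨⟨x, y, b⟩, hp⟩ := p
    show (K.map (𝟙 j) x, K.map (𝟙 j) y, b) = (x, y, b)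
    simp
  map_comp f g := by
    refine ConcreteCategory.hom_ext _ _ fun p => Subtype.ext ?_
    obtain ⟨⟨x, y, b⟩, hp⟩ := p
    show (K.map (f ≫ g) x, K.map (f ≫ g) y, b) = (K.map g (K.map f x), K.map g (K.map f y), b)
    simp

theorem surj_aux (s : ∀ j, G (K.obj j)) (hs : ∀ {i j : J} (f : i ⟶ j),
    map (K.map f) (s i) = s j) :
    ∃ z : G (CompHaus.limitCone.{0, 0} K).pt,
      ∀ j, map ((CompHaus.limitCone.{0, 0} K).π.app j) z = s j := by
  have hfin : ∀ j, Finite ((reps K s hs).obj j) := by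
    intro j
    obtain ⟨⟨x, y, b⟩, hp⟩ := mk_surj (s j)
    have h1 : ({p : K.obj j × K.obj j × Bool | mk p = s j} : Set _) ⊆
        (Set.image2 (fun u v => (u, v)) {x, y}
          (Set.image2 (fun u v => (u, v)) {x, y} Set.univ)) := by
      rintro ⟨u, v, c⟩ hq
      have hq' : mk (u, v, c) = mk (x, y, b) := Eq.trans hq hp.symm
      rw [mk_eq] at hq'
      rcases hq'.1 with ⟨rfl, rfl⟩ | ⟨rfl, rfl⟩
      · exact ⟨u, by simp, (v, c), ⟨v, by simp, c, trivial, rfl⟩, rfl⟩
      · exact ⟨u, by simp, (v, c), ⟨v, by simp, c, trivial, rfl⟩, rfl⟩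
    have h2 : ({p : K.obj j × K.obj j × Bool | mk p = s j} : Set _).Finite := by
      refine Set.Finite.subset ?_ h1
      exact Set.Finite.image2 _ (by simp) (Set.Finite.image2 _ (by simp) Set.finite_univ)
    exact h2.to_subtype
  have hne : ∀ j, Nonempty ((reps K s hs).obj j) := by
    intro j
    obtain ⟨p, hp⟩ := mk_surj (s j)
    exact ⟨⟨p, hp⟩⟩
  obtain ⟨t, ht⟩ := nonempty_sections_of_finite_cofiltered_system (reps K s hs)
  have ht' : ∀ {i j : J} (f : i ⟶ j),
      (K.map f (t i).1.1, K.map f (t i).1.2.1, (t i).1.2.2) = (t j).1 := by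
    intro i j f
    exact congrArg Subtype.val (ht f)
  obtain ⟨x, hx⟩ := lim_mk K (fun j => (t j).1.1) (fun f => congrArg Prod.fst (ht' f))
  obtain ⟨y, hy⟩ := lim_mk K (fun j => (t j).1.2.1)
    (fun f => congrArg (fun p => p.2.1) (ht' f))
  have hb : ∀ {i j : J} (_ : i ⟶ j), (t i).1.2.2 = (t j).1.2.2 := fun f =>
    congrArg (fun p => p.2.2) (ht' f)
  obtain ⟨j₀⟩ : Nonempty J := IsCofiltered.nonempty
  have hb' : ∀ j, (t j).1.2.2 = (t j₀).1.2.2 := by
    intro j
    obtain ⟨k, f, g, -⟩ := IsCofilteredOrEmpty.cone_objs j j₀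
    rw [← hb f, hb g]
  refine ⟨mk (x, y, (t j₀).1.2.2), fun j => ?_⟩
  rw [map_mk, hx j, hy j, ← hb' j]
  exact (t j).2

/-- The functor `GF` preserves cofiltered limits. -/
theorem preserves : PreservesLimitsOfShape J GF := by
  refine ⟨fun {K} => ?_⟩
  refine preservesLimit_of_preserves_limit_cone (CompHaus.limitConeIsLimit.{0, 0} K) ?_
  let hL := CompHaus.limitConeIsLimit.{0, 0} (K ⋙ GF)
  let T := GF.mapCone (CompHaus.limitCone.{0, 0} K)
  have hfac : ∀ (z : T.pt) (j : J), (CompHaus.limitCone.{0, 0} (K ⋙ GF)).π.app j (hL.lift T z) =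
      map ((CompHaus.limitCone.{0, 0} K).π.app j) z := by
    intro z j
    have h1 : hL.lift T ≫ (CompHaus.limitCone.{0, 0} (K ⋙ GF)).π.app j = T.π.app j :=
      hL.fac T j
    exact ConcreteCategory.congr_hom h1 z
  have hbij : Function.Bijective (hL.lift T) := by
    constructor
    · intro z w hzw
      apply inj_aux K z w
      intro j
      rw [← hfac z j, ← hfac w j, hzw]
    · intro u
      obtain ⟨z, hz⟩ := surj_aux K
        (fun j => (CompHaus.limitCone.{0, 0} (K ⋙ GF)).π.app j u)
        (fun f => lim_compat (K ⋙ GF) u f)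
      refine ⟨z, lim_ext (K ⋙ GF) fun j => ?_⟩
      rw [hfac z j]
      exact hz j
  haveI : IsIso (hL.lift T) := CompHausLike.isIso_of_bijective _ hbij
  exact IsLimit.ofPointIso hL

end Limits

theorem FSet_eq {X : CompHaus.{0}} (A : Set X) (hA : IsClosed A) :
    FSet GF A hA = (Set.range (map (Subtype.val : A → X)) : Set (G X)) := rfl

theorem weight_eq (X : CompHaus.{0}) (hX : Infinite X) : weight (GF.obj X) = weight X := by
  have hinf : ℵ₀ ≤ weight X := aleph0_le_weight X
  apply le_antisymm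
  · have h1 : weight (X × X × Bool) ≤ weight X := by
      calc weight (X × X × Bool) ≤ weight X * weight (X × Bool) := weight_prod_le _ _
        _ ≤ weight X * (weight X * weight Bool) := by
          gcongr
          exact weight_prod_le _ _
        _ ≤ weight X * (weight X * ℵ₀) := by
          gcongr
          exact weight_le_aleph0_of_finite Bool
        _ ≤ weight X := by
          rw [Cardinal.mul_aleph0_eq hinf, Cardinal.mul_eq_self hinf]
    have h2 : ℵ₀ ≤ weight (X × X × Bool) := aleph0_le_weight _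
    exact (weight_image_le (P := X × X × Bool) (Q := G X) continuous_mk mk_surj h2).trans h1
  · have hc : Continuous (fun x : X => (mk (x, x, false) : G X)) :=
      continuous_mk.comp (by fun_prop)
    have hi : Function.Injective (fun x : X => (mk (x, x, false) : G X)) := by
      intro x y hxy
      have h1 : mk (x, x, false) = mk (y, y, false) := hxy
      rw [mk_eq] at h1
      rcases h1.1 with ⟨h, -⟩ | ⟨h, -⟩ <;> exact h
    exact weight_le_of_isInducing (hc.isClosedEmbedding hi).isInducing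

theorem isNormal : IsNormal GF where
  mono f hf := map_injective hf
  epi f hf := map_surjective hf
  cont _ _ _ := preserves
  inter A hA := range_val_iInter A
  empty X hX := by
    refine ⟨fun z => ?_⟩
    obtain ⟨⟨x, -, -⟩, -⟩ := mk_surj (z : G X)
    exact hX.false x
  point X hX := by
    obtain ⟨⟨x⟩, hs⟩ := hX
    refine ⟨⟨(mk (x, x, false) : G X)⟩, ⟨fun z w => ?_⟩⟩
    obtain ⟨⟨a, b, c⟩, rfl⟩ := mk_surj (z : G X)
    obtain ⟨⟨a', b', c'⟩, rfl⟩ := mk_surj (w : G X)
    exact mk_eq.2 ⟨Or.inl ⟨hs.elim _ _, hs.elim _ _⟩, Or.inr (hs.elim _ _)⟩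
  weight := weight_eq
  preimage f Z hZ := preimage_range_val f Z

theorem isFinitary : IsFinitary GF := by
  intro X hX
  exact inferInstanceAs (Finite (G X))

theorem degreeLE : DegreeLE GF 2 := by
  intro X z
  obtain ⟨ξ, w, hw⟩ := degree_two (z : G X)
  exact ⟨CompHausLike.ofHom _ ⟨ξ, continuous_of_discreteTopology⟩, w, hw⟩

theorem isSkeletal : IsSkeletalFunctor GF := by
  intro X Y f hf _ A hA
  show interior (closure (GF.map f ⁻¹' A)) = ∅
  by_contra hne
  have hne' : (interior (closure (GF.map f ⁻¹' A))).Nonempty :=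
    Set.nonempty_iff_ne_empty.2 hne
  obtain ⟨O, hO, hOne, hOs⟩ := image_open (X := X) (Y := Y) hf
    (interior (closure (GF.map f ⁻¹' A))) isOpen_interior hne'
  have hc : Continuous (GF.map f : G X → G Y) := (GF.map f).hom.hom.continuous
  have h1 : O ⊆ closure A := by
    intro w hw
    obtain ⟨z, hz, rfl⟩ := hOs hw
    have h2 : z ∈ closure (GF.map f ⁻¹' A) := interior_subset hz
    exact hc.closure_preimage_subset A h2
  have h2 : O ⊆ interior (closure A) := interior_maximal h1 hO
  have h3 : interior (closure A) = ∅ := hA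
  obtain ⟨w, hw⟩ := hOne
  exact (Set.ext_iff.1 h3 w).1 (h2 hw)

/-- The functor is not open: for the projection `Y × Bool → Y` the image of an open set of pairs
in different fibres is a whole sheet. -/
theorem not_isOpen : ¬ IsOpenFunctor GF := by
  intro h
  let Y : CompHaus.{0} := CompHaus.of (ℕ → Bool)
  let X : CompHaus.{0} := CompHaus.of ((ℕ → Bool) × Bool)
  let f : X ⟶ Y := CompHausLike.ofHom _ ⟨Prod.fst, continuous_fst⟩
  have hf : IsOpenMap f := isOpenMap_fst
  have hs : Function.Surjective f := fun y => ⟨(y, false), rfl⟩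
  have hmap : IsOpenMap (map (Prod.fst : (ℕ → Bool) × Bool → (ℕ → Bool))) := h f hf hs
  let U : Set (G ((ℕ → Bool) × Bool)) :=
    mk '' {p | p.1.2 ≠ p.2.1.2 ∧ p.2.2 = false}
  have hU : IsOpen U := by
    rw [← isQuotientMap_mk.isOpen_preimage]
    have h1 : mk ⁻¹' U = {p : ((ℕ → Bool) × Bool) × ((ℕ → Bool) × Bool) × Bool |
        p.1.2 ≠ p.2.1.2 ∧ p.2.2 = false} := by
      ext ⟨x, y, b⟩
      constructor
      · rintro ⟨⟨x', y', b'⟩, ⟨h1, h2⟩, h3⟩
        simp only at h1 h2
        rw [mk_eq] at h3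
        obtain ⟨h3, h4⟩ := h3
        have h5 : b' = b := by
          rcases h4 with h4 | h4
          · exact h4
          · exact absurd (congrArg Prod.snd h4) h1
        rcases h3 with ⟨rfl, rfl⟩ | ⟨rfl, rfl⟩
        · exact ⟨h1, h5 ▸ h2⟩
        · exact ⟨h1.symm, h5 ▸ h2⟩
      · intro hp
        exact ⟨_, hp, rfl⟩
    rw [h1]
    refine IsOpen.inter ?_ ?_
    · exact isOpen_ne_fun (by fun_prop) (by fun_prop)
    · exact (isOpen_discrete {false}).preimage
        (f := fun p : ((ℕ → Bool) × Bool) × ((ℕ → Bool) × Bool) × Bool => p.2.2) (by fun_prop)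
  have h1 := (hmap U hU).preimage (continuous_mk (X := ℕ → Bool))
  have h2 : IsOpen ((fun p : (ℕ → Bool) × (ℕ → Bool) => (p.1, p.2, true)) ⁻¹'
      (mk ⁻¹' (map (Prod.fst : (ℕ → Bool) × Bool → (ℕ → Bool)) '' U))) :=
    h1.preimage (by fun_prop)
  have h3 : ((fun p : (ℕ → Bool) × (ℕ → Bool) => (p.1, p.2, true)) ⁻¹'
      (mk ⁻¹' (map (Prod.fst : (ℕ → Bool) × Bool → (ℕ → Bool)) '' U))) = {p | p.1 = p.2} := by
    ext ⟨u, v⟩
    constructor
    · rintro ⟨z, ⟨⟨x, y, b⟩, ⟨h3, h4⟩, rfl⟩, h5⟩
      simp only at h3 h4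
      rw [map_mk, mk_eq] at h5
      obtain ⟨h5, h6⟩ := h5
      rcases h6 with h6 | h6
      · rw [h4] at h6
        exact absurd h6 (by simp)
      · rcases h5 with ⟨h5, h7⟩ | ⟨h5, h7⟩
        · exact h5.symm.trans (h6.trans h7)
        · exact (h5.symm.trans (h6.trans h7)).symm
    · intro huv
      have huv' : u = v := huv
      subst huv'
      refine ⟨mk ((u, false), (u, true), false), ⟨_, ⟨by simp, rfl⟩, rfl⟩, ?_⟩
      rw [map_mk]
      exact mk_eq.2 ⟨Or.inl ⟨rfl, rfl⟩, Or.inr rfl⟩
  rw [h3] at h2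
  -- the Cantor space is not discrete
  have h4 : IsOpen ({fun _ => false} : Set (ℕ → Bool)) := by
    have h5 : IsOpen ((fun v : ℕ → Bool => ((fun _ => false : ℕ → Bool), v)) ⁻¹'
        {p : (ℕ → Bool) × (ℕ → Bool) | p.1 = p.2}) := h2.preimage (by fun_prop)
    convert h5 using 1
    ext v
    exact ⟨fun h => h.symm, fun h => h.symm⟩
  rw [isOpen_pi_iff] at h4
  obtain ⟨I, u, hu, hsub⟩ := h4 _ rfl
  obtain ⟨n, hn⟩ := Infinite.exists_notMem_finset I
  have h5 : (fun m => decide (m = n) : ℕ → Bool) ∈ ({fun _ => false} : Set (ℕ → Bool)) := by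
    apply hsub
    intro i hi
    have hin : i ≠ n := fun h => hn (h ▸ hi)
    have h6 := (hu i hi).2
    simpa [hin] using h6
  have h6 := congrFun (show (fun m => decide (m = n) : ℕ → Bool) = fun _ => false from h5) n
  simp at h6

/-- The square given by the two projections of `Bool × Bool` to `Bool`. -/
def sq : Square where
  Xt := CompHaus.of (Bool × Bool)
  Yt := CompHaus.of Bool
  X := CompHaus.of Bool
  Y := CompHaus.of Unit
  ft := CompHausLike.ofHom _ ⟨Prod.snd, continuous_snd⟩
  f := CompHausLike.ofHom _ ⟨fun _ => (), continuous_const⟩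
  pX := CompHausLike.ofHom _ ⟨Prod.fst, continuous_fst⟩
  pY := CompHausLike.ofHom _ ⟨fun _ => (), continuous_const⟩
  comm := rfl

theorem sq_fin : sq.Fin :=
  ⟨inferInstanceAs (Finite (Bool × Bool)), inferInstanceAs (Finite Bool),
    inferInstanceAs (Finite Bool), inferInstanceAs (Finite Unit)⟩

theorem sq_surj : sq.Surj :=
  ⟨fun y => ⟨(false, y), rfl⟩, fun _ => ⟨false, rfl⟩, fun x => ⟨(x, false), rfl⟩,
    fun _ => ⟨false, rfl⟩⟩

theorem sq_bicommutative : sq.Bicommutative := by
  intro x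
  ext y
  exact ⟨fun _ => rfl, fun _ => ⟨(x, y), rfl, rfl⟩⟩

theorem sq_skel : sq.Skel := by
  intro x U hU
  have hx : x ∈ U := mem_of_mem_nhds hU
  exact ⟨Set.univ, isOpen_univ, ⟨(), trivial⟩, fun y _ => ⟨x, hx, rfl⟩,
    fun y _ => ⟨(x, y), hx, rfl⟩⟩

/-- The obstruction: a point of the second sheet that is not hit. -/
theorem sq_key (w : G (Bool × Bool)) (hw : map Prod.fst w = mk (false, true, false)) :
    map Prod.snd w ≠ (mk (false, true, true) : G Bool) := by
  intro h
  obtain ⟨⟨x, y, b⟩, rfl⟩ := mk_surj w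
  rw [map_mk, mk_eq] at hw h
  have hb : b = false := by
    rcases hw.2 with h1 | h1
    · exact h1
    · rcases hw.1 with ⟨h2, h3⟩ | ⟨h2, h3⟩
      · rw [h2, h3] at h1; exact absurd h1 (by simp)
      · rw [h2, h3] at h1; exact absurd h1 (by simp)
  rcases h.2 with h1 | h1
  · rw [hb] at h1; exact absurd h1 (by simp)
  · rcases h.1 with ⟨h2, h3⟩ | ⟨h2, h3⟩
    · rw [h2, h3] at h1; exact absurd h1 (by simp)
    · rw [h2, h3] at h1; exact absurd h1 (by simp)

theorem not_bicommutative : ¬ (sq.map GF).Bicommutative := by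
  intro h
  have h1 := h (mk (false, true, false) : G Bool)
  have h2 : (mk (false, true, true) : G Bool) ∈
      (sq.map GF).pY ⁻¹' {(sq.map GF).f (mk (false, true, false) : G Bool)} := by
    show map (fun _ : Bool => ()) (mk (false, true, true)) =
      map (fun _ : Bool => ()) (mk (false, true, false))
    rw [map_mk, map_mk]
    exact mk_eq.2 ⟨Or.inl ⟨rfl, rfl⟩, Or.inr rfl⟩
  rw [← h1] at h2
  obtain ⟨w, hw1, hw2⟩ := h2
  exact sq_key w hw1 hw2

theorem not_isFinitelyBicommutative : ¬ IsFinitelyBicommutative GF := fun h =>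
  not_bicommutative (h sq sq_fin sq_surj sq_bicommutative)

theorem not_skel : ¬ (sq.map GF).Skel := by
  intro h
  have hfin : Finite (G Bool) := inferInstance
  have hdisc : DiscreteTopology (G Bool) := Finite.instDiscreteTopology
  have hnhds : ({(mk (false, true, false) : G Bool)} : Set (G Bool)) ∈
      𝓝 (mk (false, true, false) : G Bool) := (isOpen_discrete _).mem_nhds rfl
  obtain ⟨V, hV, ⟨v, hv⟩, hVU, hVt⟩ := h (mk (false, true, false) : G Bool)
    ({(mk (false, true, false) : G Bool)} : Set (G Bool)) hnhds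
  have h2 : (mk (false, true, true) : G Bool) ∈ (sq.map GF).pY ⁻¹' V := by
    obtain ⟨z, hz, hzv⟩ := hVU hv
    have hz' : z = (mk (false, true, false) : G Bool) := hz
    subst hz'
    show map (fun _ : Bool => ()) (mk (false, true, true)) ∈ V
    have h3 : map (fun _ : Bool => ()) (mk (false, true, true)) =
        map (fun _ : Bool => ()) (mk (false, true, false)) := by
      rw [map_mk, map_mk]
      exact mk_eq.2 ⟨Or.inl ⟨rfl, rfl⟩, Or.inr rfl⟩
    rw [h3]
    have h4 : map (fun _ : Bool => ()) (mk (false, true, false)) = v := hzv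
    rw [h4]
    exact hv
  obtain ⟨w, hw1, hw2⟩ := hVt h2
  exact sq_key w hw1 hw2

end Pool.Agent.V1137.GluedFunctor
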