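import Pool.Agent.V1137.Pm2
import Pool.Agent.TH882.I9

/-! Systems of linear forms `k_j ± n` at the elements of a set of primes which is dense in all
classes: all vectors outside a set of density zero, with a constant which does not depend on the
exceptional set. -/

set_option autoImplicit false

open Finset Filter Topology Polynomial

namespace Pool.Agent.V1137.Unav

open Pool.Agent.H361R2.PP
open Pool.Agent.TH882.PC (wX wX_one wX_pos)
open Pool.Agent.TH882.IS (rhoS RepA PH Dn clsT)
open Pool.Agent.TH882.KS (LocV Sp rl rl_low rl_pos S_prod)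

/-- a set of primes which is dense in all reduced classes -/
def AllDense (P : Set ℕ) : Prop := ∃ c : ℝ, 0 < c ∧ ∃ X₀ : ℕ, ∀ X : ℕ, X₀ ≤ X → ∀ b : ℕ,
  b < Wm X → b.Coprime (Wm X) →
    c * (X / (Nat.totient (Wm X) * Real.log X)) ≤ ((PS P X b).card : ℝ)

theorem isolated_all (Λ : ℝ) (hΛ : 0 < Λ) : AllDense (isolated Λ) := by
  classical
  obtain ⟨c, hc, X₀, h⟩ := Pool.Agent.TH882.IS.isoD (2 * Λ) (by positivity)
  refine ⟨c, hc, max X₀ 2, fun X hX b hb hbc => (h X (by omega) b hb hbc).trans ?_⟩
  apply Nat.cast_le.2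
  apply card_le_card
  intro n hn
  unfold Pool.Agent.TH882.IS.IP at hn
  unfold PS
  rw [mem_filter] at hn ⊢
  refine ⟨hn.1, hn.2.1, ?_⟩
  have hn1 := mem_SI.1 hn.1
  intro q hq habs
  have hX2 : 2 ≤ X := by omega
  have hX0 : (0 : ℝ) < X := by
    have : 0 < X := by omega
    exact_mod_cast this
  have hXr : (2 : ℝ) ≤ X := by exact_mod_cast hX2
  have e1 : Real.log n ≤ 2 * Real.log X := by
    have hn0 : (0 : ℝ) < n := by
      have : 0 < n := by omega
      exact_mod_cast this
    calc Real.log n ≤ Real.log ((X : ℝ) ^ 2) := by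
          apply Real.log_le_log hn0
          have : (n : ℝ) < 2 * X := by exact_mod_cast hn1.2.1
          nlinarith
      _ = 2 * Real.log X := by
          rw [Real.log_pow]
          push_cast
          ring
  have e2 := mul_le_mul_of_nonneg_left e1 hΛ.le
  have h3 := abs_le.1 habs
  exact hn.2.2 q hq (by linarith) (by linarith)

lemma one_sub_sum_le (S : Finset ℕ) (f : ℕ → ℝ) (h : ∀ p ∈ S, 0 ≤ f p ∧ f p ≤ 1) :
    1 - ∑ p ∈ S, f p ≤ ∏ p ∈ S, (1 - f p) ∧ ∏ p ∈ S, (1 - f p) ≤ 1 ∧
      0 ≤ ∏ p ∈ S, (1 - f p) := by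
  classical
  induction S using Finset.induction_on with
  | empty => simp
  | insert a S ha ih =>
    obtain ⟨h1, h2, h3⟩ := ih fun p hp => h p (mem_insert_of_mem hp)
    obtain ⟨h4, h5⟩ := h a (mem_insert_self _ _)
    rw [sum_insert ha, prod_insert ha]
    refine ⟨?_, ?_, ?_⟩
    · nlinarith
    · nlinarith
    · exact mul_nonneg (by linarith) h3

lemma sum_inv_sq (a n : ℕ) (ha : 2 ≤ a) :
    ∑ i ∈ Ico a (a + n), 1 / (i : ℝ) ^ 2 ≤ 1 / ((a : ℝ) - 1) - 1 / ((a : ℝ) + n - 1) := by
  induction n with
  | zero => simp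
  | succ n ih =>
    rw [← add_assoc, sum_Ico_succ_top (by omega)]
    have har : (2 : ℝ) ≤ a := by exact_mod_cast ha
    have hn : (0 : ℝ) ≤ n := Nat.cast_nonneg n
    have e1 : 1 / (((a + n : ℕ) : ℝ)) ^ 2 ≤ 1 / ((a : ℝ) + n - 1) - 1 / ((a : ℝ) + (n + 1 : ℕ) - 1) := by
      push_cast
      have e2 : 1 / ((a : ℝ) + n - 1) - 1 / ((a : ℝ) + (n + 1) - 1) =
          1 / (((a : ℝ) + n - 1) * (a + n)) := by
        have h1 : (a : ℝ) + n - 1 ≠ 0 := by linarith
        have h2 : (a : ℝ) + (n + 1) - 1 ≠ 0 := by linarith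
        have h3 : (a : ℝ) + n ≠ 0 := by linarith
        field_simp
        ring
      rw [e2]
      apply one_div_le_one_div_of_le
      · apply mul_pos <;> linarith
      · nlinarith
    linarith

/-- the singular series of a locally possible system of linear forms is bounded below -/
lemma sing_lin (r : ℕ) : ∃ τ : ℝ, 0 < τ ∧ ∀ (σ : Fin r → ℤ), (∀ j, σ j = 1 ∨ σ j = -1) →
    ∀ (X : ℕ) (k : Fin r → ℕ), LocV σ (fun _ => Polynomial.X) k →
    τ * ((Nat.totient (Wm X) : ℝ) ^ (r + 1) / (Wm X : ℝ) ^ r) ≤
      ((rhoS σ (fun _ => Polynomial.X) X (fun j => (k j : ℤ))).card : ℝ) := by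
  classical
  set m : ℕ := r + 1 with hm
  set P0 : ℕ := 2 * m ^ 2 + 2 with hP0
  set cs : ℝ := ∏ p ∈ (range P0).filter Nat.Prime, (1 / (p : ℝ)) with hcs
  have hcs0 : 0 < cs := by
    rw [hcs]
    apply prod_pos
    intro p hp
    have : (0 : ℝ) < p := by exact_mod_cast (mem_filter.1 hp).2.pos
    positivity
  refine ⟨cs / 2, by positivity, ?_⟩
  intro σ hσ X k hL
  have hWp := Wm_pos X
  have hW0 : (0 : ℝ) < Wm X := by exact_mod_cast hWp
  have hφ0 : (0 : ℝ) < Nat.totient (Wm X) := by exact_mod_cast Nat.totient_pos.2 hWp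
  have hS := S_prod σ (fun _ => Polynomial.X) X k
  have key : cs / 2 ≤ ∏ p ∈ PH X, Sp σ (fun _ => Polynomial.X) p k := by
    rw [← prod_filter_mul_prod_filter_not (PH X) (fun p => P0 ≤ p)]
    have hbig : 1 / 2 ≤ ∏ p ∈ (PH X).filter (fun p => P0 ≤ p), Sp σ (fun _ => Polynomial.X) p k := by
      have h1 : ∀ p ∈ (PH X).filter (fun p => P0 ≤ p), 0 ≤ (m : ℝ) ^ 2 / (p : ℝ) ^ 2 ∧
          (m : ℝ) ^ 2 / (p : ℝ) ^ 2 ≤ 1 := by
        intro p hp
        rw [mem_filter] at hp
        have hm1 : m ≤ p := by
          have := hp.2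
          nlinarith
        have hp0 : (0 : ℝ) < p := by
          have : 0 < p := by omega
          exact_mod_cast this
        refine ⟨by positivity, ?_⟩
        rw [div_le_one (by positivity)]
        exact pow_le_pow_left₀ (Nat.cast_nonneg _) (by exact_mod_cast hm1) 2
      obtain ⟨h2, -, h3⟩ := one_sub_sum_le _ _ h1
      have h4 : ∑ p ∈ (PH X).filter (fun p => P0 ≤ p), (m : ℝ) ^ 2 / (p : ℝ) ^ 2 ≤ 1 / 2 := by
        have e1 : (PH X).filter (fun p => P0 ≤ p) ⊆ Ico P0 (P0 + (HH X + 1)) := by
          intro p hp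
          rw [mem_filter] at hp
          have := hp.1
          unfold Pool.Agent.TH882.IS.PH at this
          rw [mem_filter, mem_range] at this
          rw [mem_Ico]
          omega
        have hP0r : (P0 : ℝ) - 1 = 2 * (m : ℝ) ^ 2 + 1 := by
          rw [hP0]
          push_cast
          ring
        calc ∑ p ∈ (PH X).filter (fun p => P0 ≤ p), (m : ℝ) ^ 2 / (p : ℝ) ^ 2 ≤
            ∑ p ∈ Ico P0 (P0 + (HH X + 1)), (m : ℝ) ^ 2 / (p : ℝ) ^ 2 :=
              sum_le_sum_of_subset_of_nonneg e1 fun p _ _ => by positivity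
          _ = (m : ℝ) ^ 2 * ∑ p ∈ Ico P0 (P0 + (HH X + 1)), 1 / (p : ℝ) ^ 2 := by
              rw [mul_sum]
              apply sum_congr rfl
              intro p _
              ring
          _ ≤ (m : ℝ) ^ 2 * (1 / ((P0 : ℝ) - 1)) := by
              apply mul_le_mul_of_nonneg_left _ (by positivity)
              have e2 := sum_inv_sq P0 (HH X + 1) (by omega)
              have e3 : 0 ≤ 1 / ((P0 : ℝ) + ((HH X + 1 : ℕ) : ℝ) - 1) := by
                have : (0 : ℝ) ≤ ((HH X + 1 : ℕ) : ℝ) := Nat.cast_nonneg _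
                have h5 : 0 ≤ 2 * (m : ℝ) ^ 2 + 1 := by positivity
                apply one_div_nonneg.2
                linarith
              linarith
          _ ≤ 1 / 2 := by
              rw [hP0r, mul_one_div, div_le_div_iff₀ (by positivity) (by norm_num)]
              linarith
      have h5 : ∏ p ∈ (PH X).filter (fun p => P0 ≤ p), (1 - (m : ℝ) ^ 2 / (p : ℝ) ^ 2) ≤
          ∏ p ∈ (PH X).filter (fun p => P0 ≤ p), Sp σ (fun _ => Polynomial.X) p k := by
        apply Finset.prod_le_prod
        · intro p hp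
          linarith [(h1 p hp).2]
        · intro p hp
          rw [mem_filter] at hp
          have hpp : p.Prime := by
            have := hp.1
            unfold Pool.Agent.TH882.IS.PH at this
            exact (mem_filter.1 this).2
          have hm1 : 2 * m ≤ p := by
            have := hp.2
            nlinarith
          have hm1r : 2 * (m : ℝ) ≤ p := by exact_mod_cast hm1
          have hmpos : (1 : ℝ) ≤ m := by
            have : 1 ≤ m := by omega
            exact_mod_cast this
          have hp0 : (0 : ℝ) < p := by linarith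
          have hp1 : (0 : ℝ) < (p : ℝ) - 1 := by linarith
          have h6 := rl_low σ hσ (fun _ => Polynomial.X) (fun _ => by simp) p hpp (fun _ => by
            simp only [leadingCoeff_X]
            intro h
            have := Int.le_of_dvd (by norm_num) h
            have := hpp.two_le
            omega) k
          have h7 : (p : ℝ) - m ≤ rl σ (fun _ => Polynomial.X) p k := by
            have h8 : p ≤ rl σ (fun _ => Polynomial.X) p k + m := by
              have h9 : ∑ _j : Fin r, (Polynomial.X : ℤ[X]).natDegree = r := by simp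
              rw [h9] at h6
              omega
            have h9 : (p : ℝ) ≤ rl σ (fun _ => Polynomial.X) p k + m := by exact_mod_cast h8
            linarith
          unfold Sp
          set u : ℝ := (m : ℝ) / p with hu
          have hu1 : u ≤ 1 / 2 := by
            rw [hu, div_le_div_iff₀ hp0 (by norm_num)]
            linarith
          have hu0 : 0 ≤ u := by positivity
          have h8 : ((p : ℝ) - 1) ^ (r + 1) ≤ (p : ℝ) ^ (r + 1) * Real.exp (-u) := by
            have e1 : (p : ℝ) - 1 ≤ p * Real.exp (-(1 / p)) := by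
              have := Real.one_sub_le_exp_neg (1 / (p : ℝ))
              calc (p : ℝ) - 1 = p * (1 - 1 / p) := by field_simp
                _ ≤ _ := mul_le_mul_of_nonneg_left this hp0.le
            calc ((p : ℝ) - 1) ^ (r + 1) ≤ (p * Real.exp (-(1 / p))) ^ (r + 1) :=
                  pow_le_pow_left₀ hp1.le e1 _
              _ = (p : ℝ) ^ (r + 1) * Real.exp (-u) := by
                  rw [mul_pow, ← Real.exp_nat_mul]
                  congr 2
                  rw [hu, hm]
                  push_cast
                  field_simp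
          rw [le_div_iff₀ (by positivity)]
          have h9 : (m : ℝ) ^ 2 / (p : ℝ) ^ 2 = u ^ 2 := by rw [hu, div_pow]
          rw [h9]
          have h10 : 0 ≤ 1 - u ^ 2 := by nlinarith
          have h11 : (1 + u) * Real.exp (-u) ≤ 1 := by
            have e1 := Real.add_one_le_exp u
            calc (1 + u) * Real.exp (-u) ≤ Real.exp u * Real.exp (-u) :=
                  mul_le_mul_of_nonneg_right (by linarith) (Real.exp_pos _).le
              _ = 1 := by rw [← Real.exp_add, add_neg_cancel, Real.exp_zero]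
          calc (1 - u ^ 2) * ((p : ℝ) - 1) ^ (r + 1) ≤
              (1 - u ^ 2) * ((p : ℝ) ^ (r + 1) * Real.exp (-u)) :=
                mul_le_mul_of_nonneg_left h8 h10
            _ = (p : ℝ) ^ (r + 1) * (1 - u) * ((1 + u) * Real.exp (-u)) := by ring
            _ ≤ (p : ℝ) ^ (r + 1) * (1 - u) * 1 := by
                apply mul_le_mul_of_nonneg_left h11
                have : 0 ≤ 1 - u := by linarith
                positivity
            _ = (p : ℝ) ^ r * (p - m) := by
                rw [hu, pow_succ]
                field_simp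
            _ ≤ _ := mul_le_mul_of_nonneg_left h7 (by positivity)
      linarith
    have hsmall : cs ≤ ∏ p ∈ (PH X).filter (fun p => ¬ P0 ≤ p),
        Sp σ (fun _ => Polynomial.X) p k := by
      have e1 : ∏ p ∈ (PH X).filter (fun p => ¬ P0 ≤ p), (1 / (p : ℝ)) ≤
          ∏ p ∈ (PH X).filter (fun p => ¬ P0 ≤ p), Sp σ (fun _ => Polynomial.X) p k := by
        apply Finset.prod_le_prod
        · intro p _
          positivity
        · intro p hp
          have hpp : p.Prime := by
            have := (mem_filter.1 hp).1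
            unfold Pool.Agent.TH882.IS.PH at this
            exact (mem_filter.1 this).2
          have hp2 : (2 : ℝ) ≤ p := by exact_mod_cast hpp.two_le
          have hp1 : (0 : ℝ) < (p : ℝ) - 1 := by linarith
          have e2 : (1 : ℝ) ≤ rl σ (fun _ => Polynomial.X) p k := by
            exact_mod_cast rl_pos σ (fun _ => Polynomial.X) p hpp k hL
          unfold Sp
          rw [div_le_div_iff₀ (by linarith) (by positivity), one_mul]
          calc ((p : ℝ) - 1) ^ (r + 1) ≤ (p : ℝ) ^ (r + 1) :=
                pow_le_pow_left₀ hp1.le (by linarith) _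
            _ = (p : ℝ) ^ r * 1 * p := by ring
            _ ≤ _ := by
                apply mul_le_mul_of_nonneg_right _ (by linarith)
                exact mul_le_mul_of_nonneg_left e2 (by positivity)
      refine le_trans ?_ e1
      rw [hcs]
      have hsub : (PH X).filter (fun p => ¬ P0 ≤ p) ⊆ (range P0).filter Nat.Prime := by
        intro p hp
        rw [mem_filter] at hp ⊢
        rw [mem_range]
        have := hp.1
        unfold Pool.Agent.TH882.IS.PH at this
        exact ⟨by omega, (mem_filter.1 this).2⟩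
      rw [← prod_sdiff hsub]
      have e3 : ∏ p ∈ (range P0).filter Nat.Prime \ (PH X).filter (fun p => ¬ P0 ≤ p),
          (1 / (p : ℝ)) ≤ 1 := by
        apply prod_le_one
        · intro p _
          positivity
        · intro p hp
          have hpp := (mem_filter.1 (Finset.mem_sdiff.1 hp).1).2
          have : (1 : ℝ) ≤ p := by exact_mod_cast hpp.one_le
          rw [div_le_one (by linarith)]
          exact this
      have e4 : 0 ≤ ∏ p ∈ (PH X).filter (fun p => ¬ P0 ≤ p), (1 / (p : ℝ)) :=
        prod_nonneg fun p _ => by positivity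
      calc _ ≤ 1 * ∏ p ∈ (PH X).filter (fun p => ¬ P0 ≤ p), (1 / (p : ℝ)) :=
            mul_le_mul_of_nonneg_right e3 e4
        _ = _ := one_mul _
    calc cs / 2 = 1 / 2 * cs := by ring
      _ ≤ _ := mul_le_mul hbig hsmall hcs0.le (by linarith)
  rw [hS] at key
  calc cs / 2 * ((Nat.totient (Wm X) : ℝ) ^ (r + 1) / (Wm X : ℝ) ^ r) ≤
      ((rhoS σ (fun _ => Polynomial.X) X (fun j => (k j : ℤ))).card : ℝ) *
      ((Wm X : ℝ) ^ r / (Nat.totient (Wm X) : ℝ) ^ (r + 1)) *
        ((Nat.totient (Wm X) : ℝ) ^ (r + 1) / (Wm X : ℝ) ^ r) :=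
        mul_le_mul_of_nonneg_right key (by positivity)
    _ = _ := by field_simp

end Pool.Agent.V1137.Unav
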