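import Pool.Agent.V1137.Lin

/-! Systems of linear forms `k_j ± n` at the elements of a set of primes which is dense in all
classes, continued. -/

set_option autoImplicit false

open Finset Filter Topology Polynomial

namespace Pool.Agent.V1137.Unav

open Pool.Agent.H361R2.PP
open Pool.Agent.TH882.PC (wX wX_one wX_pos)
open Pool.Agent.TH882.IS (rhoS RepA PH Dn clsT)
open Pool.Agent.TH882.KS (LocV)

open Classical in
/-- the primes `n < 2 X`, `n ≥ X`, of `P` for which all `k j + σ j * n` are prime -/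
noncomputable def Blk {r : ℕ} (P : Set ℕ) (σ : Fin r → ℤ) (X : ℕ) (k : Fin r → ℕ) : Finset ℕ :=
  (Ico X (2 * X)).filter (fun n => n.Prime ∧ n ∈ P ∧ ∀ j, ((k j : ℤ) + σ j * n).toNat.Prime)

open Classical in
lemma block (r : ℕ) (P : Set ℕ) (hP : AllDense P) : ∃ c : ℝ, 0 < c ∧
    ∀ (σ : Fin r → ℤ), (∀ j, σ j = 1 ∨ σ j = -1) → ∀ (B : ℕ) (η : ℝ), 0 < η →
    ∃ X₀ : ℕ, ∀ X : ℕ, X₀ ≤ X →
      (((Fintype.piFinset (fun _ : Fin r => Ico 1 (B * X))).filter (fun k =>
        (∀ j, σ j = -1 → 3 * X < k j) ∧ LocV σ (fun _ => Polynomial.X) k ∧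
        ((Blk P σ X k).card : ℝ) < c * (X / Real.log X ^ (r + 1)))).card : ℝ) ≤
        η * (X : ℝ) ^ r := by
  obtain ⟨c0, hc0, X00, hX00⟩ := hP
  obtain ⟨τ, hτ, hsing⟩ := sing_lin r
  refine ⟨τ * c0 / (8 * ((r : ℝ) + 1) ^ r), by positivity, ?_⟩
  intro σ hσ B η hη
  have hDn : ∀ X, X00 ≤ X → Dn (PS P) c0 X := by
    intro X hX b hb hbc
    refine ⟨?_, hX00 X hX b hb hbc⟩
    intro n hn
    unfold PS at hn
    rw [mem_filter] at hn ⊢
    exact ⟨hn.1, hn.2.1⟩
  obtain ⟨X1, h1⟩ := clsT σ hσ (fun _ => Polynomial.X) (fun _ => by simp) (fun _ => by simp)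
    (B + 5) η hη c0 hc0 (PS P) X00 hDn
  refine ⟨max X1 16, fun X hX => ?_⟩
  have hX1 : X1 ≤ X := by omega
  have hX16 : 16 ≤ X := by omega
  have hXr : (16 : ℝ) ≤ X := by exact_mod_cast hX16
  have hX0 : (0 : ℝ) < X := by linarith
  have hl1 : 1 ≤ Real.log X := by
    rw [Real.le_log_iff_exp_le hX0]
    have := Real.exp_one_lt_d9
    linarith
  have hWp := Wm_pos X
  have hW0 : (0 : ℝ) < Wm X := by exact_mod_cast hWp
  have hφ0 : (0 : ℝ) < Nat.totient (Wm X) := by exact_mod_cast Nat.totient_pos.2 hWp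
  set Y : Fin r → ℕ := fun j => if σ j = 1 then 3 * X else 0 with hY
  have hYs : ∀ j, Y j ≤ 3 * X := by
    intro j
    rw [hY]
    simp only
    split_ifs
    · exact le_rfl
    · exact Nat.zero_le _
  obtain ⟨Bd, hB1, hB2⟩ := h1 X hX1 Y (fun _ => 3 * X + 1) (fun _ => (B + 5) * X) (by
      intro j n hn1 hn2
      simp only [Polynomial.eval_X]
      rcases hσ j with hs | hs
      · have eY : Y j = 3 * X := by rw [hY]; simp only; rw [if_pos hs]
        rw [eY, hs]
        push_cast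
        constructor <;> omega
      · have eY : Y j = 0 := by
          rw [hY]
          simp only
          rw [if_neg]
          rw [hs]
          norm_num
        rw [eY, hs]
        push_cast
        constructor <;> omega) (fun j => by have := hYs j; omega) (fun _ => by
          have : (B + 5) * X = B * X + 5 * X := by ring
          omega) (fun _ => by simp)
  have hinj : Function.Injective (fun k : Fin r → ℕ => fun j => k j + Y j) := by
    intro k k' hkk
    funext j
    have := congrFun hkk j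
    simp only at this
    omega
  have hsub : ((Fintype.piFinset (fun _ : Fin r => Ico 1 (B * X))).filter (fun k =>
        (∀ j, σ j = -1 → 3 * X < k j) ∧ LocV σ (fun _ => Polynomial.X) k ∧
        ((Blk P σ X k).card : ℝ) < τ * c0 / (8 * ((r : ℝ) + 1) ^ r) *
          (X / Real.log X ^ (r + 1)))).image (fun k => fun j => k j + Y j) ⊆ Bd := by
    intro N hN
    rw [mem_image] at hN
    obtain ⟨k, hk, rfl⟩ := hN
    rw [mem_filter, Fintype.mem_piFinset] at hk
    obtain ⟨hk1, hk2, hLoc, hno⟩ := hk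
    by_contra hcB
    have e0 : (fun j => ((k j + Y j : ℕ) : ℤ) - (Y j : ℤ)) = fun j => (k j : ℤ) := by
      funext j
      push_cast
      ring
    have e1 := hB2 (fun j => k j + Y j) (by
      rw [Fintype.mem_piFinset]
      intro j
      have h2 := mem_Ico.1 (hk1 j)
      have h3 := hYs j
      have h4 : (B + 5) * X = B * X + 5 * X := by ring
      rw [mem_Ico]
      refine ⟨?_, by omega⟩
      rcases hσ j with hs | hs
      · have eY : Y j = 3 * X := by rw [hY]; simp only; rw [if_pos hs]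
        omega
      · have := hk2 j hs
        omega) hcB
    rw [e0] at e1
    have e2 : ((RepA σ (fun _ => Polynomial.X) (PS P) X (fun j => (k j : ℤ))).card : ℝ) ≤
        ((Blk P σ X k).card : ℝ) := by
      apply Nat.cast_le.2
      apply card_le_card
      intro n hn
      unfold RepA at hn
      unfold Blk
      rw [mem_filter] at hn ⊢
      have hnP := hn.2.1
      unfold PS at hnP
      rw [mem_filter] at hnP
      refine ⟨hn.1, hnP.2.1, hnP.2.2, fun j => ?_⟩
      have := hn.2.2 j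
      rwa [Polynomial.eval_X] at this
    have hρ := hsing σ hσ X k hLoc
    have hsum : ((∑ _j : Fin r, (Polynomial.X : ℤ[X]).natDegree : ℕ) : ℝ) = r := by simp
    rw [hsum] at e1
    have e3 : τ * c0 / (8 * ((r : ℝ) + 1) ^ r) * (X / Real.log X ^ (r + 1)) ≤
        ((rhoS σ (fun _ => Polynomial.X) X (fun j => (k j : ℤ))).card : ℝ) / 2 * (wX X ^ r *
          (c0 * (X / (Nat.totient (Wm X) * Real.log X))) / 4 /
          (((r : ℝ) + 1) * Real.log X) ^ r) := by
      have f1 : τ * c0 / (8 * ((r : ℝ) + 1) ^ r) * (X / Real.log X ^ (r + 1)) =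
          (τ * ((Nat.totient (Wm X) : ℝ) ^ (r + 1) / (Wm X : ℝ) ^ r)) / 2 * (wX X ^ r *
          (c0 * (X / (Nat.totient (Wm X) * Real.log X))) / 4 /
          (((r : ℝ) + 1) * Real.log X) ^ r) := by
        unfold wX
        rw [div_pow, mul_pow, pow_succ (Nat.totient (Wm X) : ℝ) r, pow_succ (Real.log X) r]
        field_simp
        ring
      rw [f1]
      have hwp := wX_pos X
      apply mul_le_mul_of_nonneg_right _ (by positivity)
      linarith
    linarith
  have hc1 := card_le_card hsub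
  rw [card_image_of_injective _ hinj] at hc1
  have hc2 : (Bd.card : ℝ) ≤ η * (X : ℝ) ^ r := by
    refine hB1.trans (le_of_eq ?_)
    rw [prod_congr rfl fun j _ => by rw [natDegree_X, pow_one]]
    rw [prod_const, card_univ, Fintype.card_fin]
  exact le_trans (by exact_mod_cast hc1) hc2

open Classical in
/-- the primes `n ≤ y` of `P` for which all `k j + σ j * n` are prime -/
noncomputable def ArgL {r : ℕ} (P : Set ℕ) (σ : Fin r → ℤ) (y : ℕ) (k : Fin r → ℕ) : Finset ℕ :=
  (Icc 1 y).filter (fun n => n.Prime ∧ n ∈ P ∧ ∀ j, ((k j : ℤ) + σ j * n).toNat.Prime)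

open Classical in
theorem lin_all (r : ℕ) (P : Set ℕ) (hP : AllDense P) : ∃ c : ℝ, 0 < c ∧
    ∀ (σ : Fin r → ℤ), (∀ j, σ j = 1 ∨ σ j = -1) → ∀ (K : ℕ) (θ η : ℝ), 0 < θ → 0 < η →
    ∃ x₀ : ℕ, ∀ x : ℕ, x₀ ≤ x →
      (((Fintype.piFinset (fun _ : Fin r => Icc 1 (K * x))).filter (fun k =>
        LocV σ (fun _ => Polynomial.X) k ∧ ∃ y : ℕ, θ * x ≤ y ∧ y ≤ x ∧
          (∀ j, σ j = -1 → y ≤ k j) ∧
          ((ArgL P σ y k).card : ℝ) < c * (y / Real.log y ^ (r + 1)))).card : ℝ) ≤
        η * (x : ℝ) ^ r := by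
  obtain ⟨c, hc, h⟩ := block r P hP
  refine ⟨c / 16, by positivity, ?_⟩
  intro σ hσ K θ η hθ hη
  set I : ℕ := ⌈1 / θ⌉₊ with hI
  set B : ℕ := K * 2 ^ (I + 4) + 1 with hB
  obtain ⟨X₀, h0⟩ := h σ hσ B (η / (I + 1)) (by positivity)
  refine ⟨2 ^ (I + 3) * (X₀ + 16), fun x hx => ?_⟩
  have hXi : ∀ i ≤ I, X₀ + 16 ≤ x / 2 ^ (i + 3) := by
    intro i hi
    rw [Nat.le_div_iff_mul_le (by positivity)]
    calc (X₀ + 16) * 2 ^ (i + 3) ≤ (X₀ + 16) * 2 ^ (I + 3) :=
          Nat.mul_le_mul_left _ (Nat.pow_le_pow_right (by norm_num) (by omega))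
      _ = 2 ^ (I + 3) * (X₀ + 16) := mul_comm _ _
      _ ≤ x := hx
  have hx0 : 0 < x := by
    have : 0 < 2 ^ (I + 3) * (X₀ + 16) := by positivity
    omega
  have hx0r : (0 : ℝ) < x := by exact_mod_cast hx0
  have hsub : (Fintype.piFinset (fun _ : Fin r => Icc 1 (K * x))).filter (fun k =>
        LocV σ (fun _ => Polynomial.X) k ∧ ∃ y : ℕ, θ * x ≤ y ∧ y ≤ x ∧
          (∀ j, σ j = -1 → y ≤ k j) ∧
          ((ArgL P σ y k).card : ℝ) < c / 16 * (y / Real.log y ^ (r + 1))) ⊆
      (range (I + 1)).biUnion (fun i => (Fintype.piFinset (fun _ : Fin r =>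
        Ico 1 (B * (x / 2 ^ (i + 3))))).filter (fun k =>
        (∀ j, σ j = -1 → 3 * (x / 2 ^ (i + 3)) < k j) ∧ LocV σ (fun _ => Polynomial.X) k ∧
        ((Blk P σ (x / 2 ^ (i + 3)) k).card : ℝ) <
          c * ((x / 2 ^ (i + 3) : ℕ) / Real.log (x / 2 ^ (i + 3) : ℕ) ^ (r + 1)))) := by
    intro k hk
    rw [mem_filter, Fintype.mem_piFinset] at hk
    obtain ⟨hk1, hLoc, y, hy1, hy2, hy3, hy4⟩ := hk
    have hy0r : (0 : ℝ) < y := lt_of_lt_of_le (by positivity) hy1
    have hy0 : 0 < y := by exact_mod_cast hy0r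
    set i : ℕ := Nat.log 2 (x / y) with hi
    have hxy : 1 ≤ x / y := by
      rw [Nat.le_div_iff_mul_le hy0]
      omega
    have hi1 : 2 ^ i ≤ x / y := Nat.pow_log_le_self 2 (by omega)
    have hi2 : x / y < 2 ^ (i + 1) := Nat.lt_pow_succ_log_self (by norm_num) _
    have hyi1 : y * 2 ^ i ≤ x := by
      calc y * 2 ^ i ≤ y * (x / y) := Nat.mul_le_mul_left _ hi1
        _ ≤ x := Nat.mul_div_le x y
    have hyi2 : x < y * 2 ^ (i + 1) := by
      calc x < y * (x / y + 1) := Nat.lt_mul_div_succ x hy0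
        _ ≤ y * 2 ^ (i + 1) := Nat.mul_le_mul_left _ hi2
    have hiI : i ≤ I := by
      have e1 : (2 : ℝ) ^ i ≤ 1 / θ := by
        rw [le_div_iff₀ hθ]
        have e2 : (y : ℝ) * 2 ^ i ≤ x := by exact_mod_cast hyi1
        have e3 : θ * x * 2 ^ i ≤ x := (mul_le_mul_of_nonneg_right hy1 (by positivity)).trans e2
        have e4 : (2 ^ i * θ) * x ≤ 1 * x := by linarith
        exact le_of_mul_le_mul_right e4 hx0r
      have e2 : (i : ℝ) < 2 ^ i := by exact_mod_cast Nat.lt_two_pow_self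
      have e3 : (i : ℝ) ≤ I := (e2.le.trans e1).trans (Nat.le_ceil _)
      exact_mod_cast e3
    rw [mem_biUnion]
    refine ⟨i, mem_range.2 (by omega), ?_⟩
    set X : ℕ := x / 2 ^ (i + 3) with hX
    have hXX := hXi i hiI
    rw [← hX] at hXX
    have hp3 : (2 : ℕ) ^ (i + 3) = 8 * 2 ^ i := by rw [pow_add]; ring
    have hp1 : (2 : ℕ) ^ (i + 1) = 2 * 2 ^ i := by rw [pow_add]; ring
    have h2i : 0 < (2 : ℕ) ^ i := by positivity
    have hXm : 8 * 2 ^ i * X ≤ x := by
      rw [← hp3, hX]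
      exact Nat.mul_div_le x _
    have hXM : x < 8 * 2 ^ i * (X + 1) := by
      rw [← hp3, hX]
      exact Nat.lt_mul_div_succ x (by positivity)
    have h4X : 4 * X < y := by
      have e1 : 8 * 2 ^ i * X < y * (2 * 2 ^ i) := by
        rw [← hp1]
        exact lt_of_le_of_lt hXm hyi2
      have e2 : (4 * X) * (2 * 2 ^ i) < y * (2 * 2 ^ i) := by
        calc (4 * X) * (2 * 2 ^ i) = 8 * 2 ^ i * X := by ring
          _ < _ := e1
      exact Nat.lt_of_mul_lt_mul_right e2
    have hy16 : y ≤ 16 * X := by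
      have e1 : y * 2 ^ i < (8 * (X + 1)) * 2 ^ i := by
        calc y * 2 ^ i ≤ x := hyi1
          _ < 8 * 2 ^ i * (X + 1) := hXM
          _ = _ := by ring
      have e2 := Nat.lt_of_mul_lt_mul_right e1
      omega
    rw [mem_filter, Fintype.mem_piFinset]
    refine ⟨fun j => ?_, fun j hj => ?_, hLoc, ?_⟩
    · have h5 := mem_Icc.1 (hk1 j)
      rw [mem_Ico]
      refine ⟨h5.1, ?_⟩
      have e1 : K * x ≤ K * 2 ^ (I + 4) * X := by
        have f1 : x ≤ 2 ^ (I + 4) * X := by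
          calc x ≤ 8 * 2 ^ i * (X + 1) := hXM.le
            _ ≤ 8 * 2 ^ i * (2 * X) := Nat.mul_le_mul_left _ (by omega)
            _ = 2 ^ (i + 4) * X := by rw [pow_add]; ring
            _ ≤ 2 ^ (I + 4) * X :=
              Nat.mul_le_mul_right _ (Nat.pow_le_pow_right (by norm_num) (by omega))
        calc K * x ≤ K * (2 ^ (I + 4) * X) := Nat.mul_le_mul_left _ f1
          _ = _ := by ring
      have e2 : B * X = K * 2 ^ (I + 4) * X + X := by rw [hB]; ring
      omega
    · have := hy3 j hj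
      omega
    · have hX16 : 16 ≤ X := by omega
      have hXr : (16 : ℝ) ≤ X := by exact_mod_cast hX16
      have hX0 : (0 : ℝ) < X := by linarith
      have hl1 : 1 ≤ Real.log X := by
        rw [Real.le_log_iff_exp_le hX0]
        have := Real.exp_one_lt_d9
        linarith
      have hXy : (X : ℝ) ≤ y := by
        have : X ≤ y := by omega
        exact_mod_cast this
      have hly : Real.log X ≤ Real.log y := Real.log_le_log hX0 hXy
      have e1 : ((Blk P σ X k).card : ℝ) ≤ ((ArgL P σ y k).card : ℝ) := by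
        apply Nat.cast_le.2
        apply card_le_card
        intro n hn
        unfold Blk at hn
        unfold ArgL
        rw [mem_filter, mem_Ico] at hn
        rw [mem_filter, mem_Icc]
        exact ⟨⟨by omega, by omega⟩, hn.2⟩
      refine lt_of_le_of_lt e1 (lt_of_lt_of_le hy4 ?_)
      have e2 : (y : ℝ) / Real.log y ^ (r + 1) ≤ 16 * X / Real.log X ^ (r + 1) :=
        div_le_div₀ (by positivity) (by exact_mod_cast hy16) (by positivity)
          (pow_le_pow_left₀ (by linarith) hly _)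
      calc c / 16 * (y / Real.log y ^ (r + 1)) ≤ c / 16 * (16 * X / Real.log X ^ (r + 1)) :=
            mul_le_mul_of_nonneg_left e2 (by positivity)
        _ = _ := by ring
  have hc1 : (((range (I + 1)).biUnion (fun i => (Fintype.piFinset (fun _ : Fin r =>
        Ico 1 (B * (x / 2 ^ (i + 3))))).filter (fun k =>
        (∀ j, σ j = -1 → 3 * (x / 2 ^ (i + 3)) < k j) ∧ LocV σ (fun _ => Polynomial.X) k ∧
        ((Blk P σ (x / 2 ^ (i + 3)) k).card : ℝ) <
          c * ((x / 2 ^ (i + 3) : ℕ) / Real.log (x / 2 ^ (i + 3) : ℕ) ^ (r + 1))))).card : ℝ) ≤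
      ∑ i ∈ range (I + 1), (((Fintype.piFinset (fun _ : Fin r =>
        Ico 1 (B * (x / 2 ^ (i + 3))))).filter (fun k =>
        (∀ j, σ j = -1 → 3 * (x / 2 ^ (i + 3)) < k j) ∧ LocV σ (fun _ => Polynomial.X) k ∧
        ((Blk P σ (x / 2 ^ (i + 3)) k).card : ℝ) <
          c * ((x / 2 ^ (i + 3) : ℕ) / Real.log (x / 2 ^ (i + 3) : ℕ) ^ (r + 1)))).card : ℝ) := by
    exact_mod_cast card_biUnion_le
  refine le_trans (by exact_mod_cast card_le_card hsub) (hc1.trans ?_)
  calc _ ≤ ∑ _i ∈ range (I + 1), (η / (I + 1) * (x : ℝ) ^ r) := by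
        apply sum_le_sum
        intro i hi
        rw [mem_range] at hi
        refine (h0 (x / 2 ^ (i + 3)) (by have := hXi i (by omega); omega)).trans ?_
        apply mul_le_mul_of_nonneg_left _ (by positivity)
        apply pow_le_pow_left₀ (Nat.cast_nonneg _)
        exact_mod_cast Nat.div_le_self _ _
    _ = η * (x : ℝ) ^ r := by
        rw [sum_const, card_range, nsmul_eq_mul]
        push_cast
        field_simp

/-- density zero -/
lemma tendsto_zero_of (r : ℕ) (f : ℕ → ℝ) (hf : ∀ x, 0 ≤ f x)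
    (h : ∀ η : ℝ, 0 < η → ∃ x₀ : ℕ, ∀ x : ℕ, x₀ ≤ x → f x ≤ η * (x : ℝ) ^ r) :
    Tendsto (fun x : ℕ => f x / (x : ℝ) ^ r) atTop (𝓝 0) := by
  rw [Metric.tendsto_atTop]
  intro ε hε
  obtain ⟨x₀, h0⟩ := h (ε / 2) (by positivity)
  refine ⟨max x₀ 1, fun x hx => ?_⟩
  have hx1 : 1 ≤ x := (le_max_right _ _).trans hx
  have hx0 : (0 : ℝ) < (x : ℝ) ^ r := by
    have : (0 : ℝ) < x := by exact_mod_cast hx1
    positivity
  have h1 := h0 x ((le_max_left _ _).trans hx)
  rw [Real.dist_eq, sub_zero, abs_of_nonneg (div_nonneg (hf x) hx0.le), div_lt_iff₀ hx0]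
  have : ε / 2 * (x : ℝ) ^ r < ε * (x : ℝ) ^ r := by
    apply mul_lt_mul_of_pos_right _ hx0
    linarith
  linarith

end Pool.Agent.V1137.Unav
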