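import Pool.Agent.TH882.K4
import Pool.Agent.V1137.Unav

/-! Systems of polynomials `k_j ± g_j(n)` with varying constant terms, evaluated at the elements of
a set of primes which is dense in most classes. -/

set_option autoImplicit false

open Finset Filter Topology Polynomial

namespace Pool.Agent.V1137.Unav

open Pool.Agent.H361R2.PP
open Pool.Agent.TH882.PC (wX wX_one wX_pos)
open Pool.Agent.TH882.IS (rhoS RepA)
open Pool.Agent.TH882.JS (MostDense clsM Rd)
open Pool.Agent.TH882.KS (LocV sing_most)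
open Pool.Agent.H373R2.T7 (cf abs_eval_le)

open Classical in
/-- the primes `n ≤ x` of `P` for which all `k j + σ j * g j (n)` are prime -/
noncomputable def Arg {r : ℕ} (P : Set ℕ) (σ : Fin r → ℤ) (g : Fin r → ℤ[X]) (x : ℕ)
    (k : Fin r → ℕ) : Finset ℕ :=
  (Icc 1 x).filter (fun n => n.Prime ∧ n ∈ P ∧
    ∀ j, ((k j : ℤ) + σ j * (g j).eval (n : ℤ)).toNat.Prime)

open Classical in
/-- few vectors have a small component -/
lemma few_small {r : ℕ} (d : Fin r → ℕ) (T : Fin r → ℕ) (K x : ℕ) (θ K' : ℝ) (hθ : 0 ≤ θ)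
    (hK' : 1 ≤ K') (hK : (K : ℝ) ≤ K') (hT : ∀ j, (T j : ℝ) ≤ θ * (x : ℝ) ^ d j) :
    (((Fintype.piFinset (fun j : Fin r => Icc 1 (K * x ^ d j))).filter
      (fun k => ∃ j, k j ≤ T j)).card : ℝ) ≤ r * (θ * K' ^ r) * ∏ j, (x : ℝ) ^ d j := by
  have h1 : (Fintype.piFinset (fun j : Fin r => Icc 1 (K * x ^ d j))).filter
      (fun k => ∃ j, k j ≤ T j) ⊆ (univ : Finset (Fin r)).biUnion (fun j =>
        Fintype.piFinset (fun i : Fin r => if i = j then Icc 1 (T j) else Icc 1 (K * x ^ d i))) := by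
    intro k hk
    rw [mem_filter, Fintype.mem_piFinset] at hk
    obtain ⟨hk1, j, hj⟩ := hk
    rw [mem_biUnion]
    refine ⟨j, mem_univ j, ?_⟩
    rw [Fintype.mem_piFinset]
    intro i
    by_cases hij : i = j
    · subst hij
      rw [if_pos rfl, mem_Icc]
      exact ⟨(mem_Icc.1 (hk1 i)).1, hj⟩
    · rw [if_neg hij]
      exact hk1 i
  have h2 := (card_le_card h1).trans card_biUnion_le
  have h3 : ∀ j : Fin r, ((Fintype.piFinset (fun i : Fin r => if i = j then Icc 1 (T j) else
      Icc 1 (K * x ^ d i))).card : ℝ) ≤ θ * K' ^ r * ∏ j, (x : ℝ) ^ d j := by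
    intro j
    rw [Fintype.card_piFinset]
    push_cast
    have e1 : ∏ i : Fin r, (((if i = j then Icc 1 (T j) else Icc 1 (K * x ^ d i)).card : ℕ) : ℝ) ≤
        ∏ i : Fin r, ((if i = j then θ else K') * (x : ℝ) ^ d i) := by
      apply Finset.prod_le_prod (fun _ _ => Nat.cast_nonneg _)
      intro i _
      by_cases hij : i = j
      · subst hij
        rw [if_pos rfl, if_pos rfl, Nat.card_Icc]
        simpa using hT i
      · rw [if_neg hij, if_neg hij, Nat.card_Icc]
        have h0 : 0 ≤ (x : ℝ) ^ d i := by positivity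
        rw [Nat.add_sub_cancel]
        push_cast
        exact mul_le_mul_of_nonneg_right hK h0
    refine e1.trans ?_
    rw [prod_mul_distrib]
    apply mul_le_mul_of_nonneg_right _ (prod_nonneg fun i _ => by positivity)
    rw [← mul_prod_erase univ _ (mem_univ j), if_pos rfl]
    apply mul_le_mul_of_nonneg_left _ hθ
    have e3 : ∏ i ∈ univ.erase j, (if i = j then θ else K') = K' ^ (r - 1) := by
      rw [prod_congr rfl (g := fun _ => K') (fun i hi => if_neg (ne_of_mem_erase hi))]
      rw [prod_const, card_erase_of_mem (mem_univ j), card_univ, Fintype.card_fin]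
    rw [e3]
    exact pow_le_pow_right₀ hK' (Nat.sub_le _ _)
  calc _ ≤ ((∑ j : Fin r, (Fintype.piFinset (fun i : Fin r => if i = j then Icc 1 (T j) else
      Icc 1 (K * x ^ d i))).card : ℕ) : ℝ) := by exact_mod_cast h2
    _ = ∑ j : Fin r, ((Fintype.piFinset (fun i : Fin r => if i = j then Icc 1 (T j) else
      Icc 1 (K * x ^ d i))).card : ℝ) := by push_cast; rfl
    _ ≤ ∑ _j : Fin r, (θ * K' ^ r * ∏ j, (x : ℝ) ^ d j) := sum_le_sum fun j _ => h3 j
    _ = _ := by
        rw [sum_const, card_univ, Fintype.card_fin, nsmul_eq_mul]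
        ring

open Classical in
theorem sys_pm {r : ℕ} (σ : Fin r → ℤ) (hσ : ∀ j, σ j = 1 ∨ σ j = -1) (g : Fin r → ℤ[X])
    (hd : ∀ j, 1 ≤ (g j).natDegree) (hl : ∀ j, 0 < (g j).leadingCoeff) (P : Set ℕ)
    (hA : MostDense (PS P)) (K : ℕ) (κ : ℝ) (hκ : 0 < κ) : ∃ c : ℝ, 0 < c ∧ ∃ x₀ : ℕ,
      ∀ x : ℕ, x₀ ≤ x →
      (((Fintype.piFinset (fun j : Fin r => Icc 1 (K * x ^ (g j).natDegree))).filter
        (fun k => LocV σ g k ∧ ((Arg P σ g x k).card : ℝ) <
          c * (x / Real.log x ^ (r + 1)))).card : ℝ) ≤ κ * ∏ j, (x : ℝ) ^ (g j).natDegree := by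
  set K' : ℝ := K + 1 with hK'
  have hK'1 : 1 ≤ K' := by
    rw [hK']
    have : (0 : ℝ) ≤ K := Nat.cast_nonneg _
    linarith
  set θ : ℝ := κ / (3 * (r + 1) * K' ^ r) with hθ
  have hθ0 : 0 < θ := by rw [hθ]; positivity
  have hrθ : (r : ℝ) * (θ * K' ^ r) ≤ κ / 3 := by
    rw [hθ]
    have e1 : (r : ℝ) * (κ / (3 * (r + 1) * K' ^ r) * K' ^ r) = κ / 3 * (r / (r + 1)) := by
      have : (K' ^ r) ≠ 0 := by positivity
      field_simp
    rw [e1]
    have e2 : (r : ℝ) / (r + 1) ≤ 1 := by
      rw [div_le_one (by positivity)]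
      linarith
    calc κ / 3 * (r / (r + 1)) ≤ κ / 3 * 1 := mul_le_mul_of_nonneg_left e2 (by positivity)
      _ = κ / 3 := mul_one _
  set Sc : ℕ := ∑ j, cf (g j) with hSc
  have hcfS : ∀ j, cf (g j) ≤ Sc := fun j =>
    single_le_sum (f := fun j => cf (g j)) (fun i _ => Nat.zero_le _) (mem_univ j)
  set b : ℕ := ⌈6 * Sc / θ⌉₊ + 3 with hb
  have hb3 : 3 ≤ b := by omega
  have hbθ : 6 * Sc / θ ≤ b := by
    have : (⌈6 * Sc / θ⌉₊ : ℝ) ≤ b := by
      have : ⌈6 * Sc / θ⌉₊ ≤ b := by omega
      exact_mod_cast this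
    exact (Nat.le_ceil _).trans this
  have hb0 : (0 : ℝ) < b := by
    have : 0 < b := by omega
    exact_mod_cast this
  set B : ℕ := ∑ j, (cf (g j) * 3 ^ (g j).natDegree + K * (2 * b) ^ (g j).natDegree) + 3 with hB
  have hB0 : (0 : ℝ) < B := by
    have : 0 < B := by omega
    exact_mod_cast this
  obtain ⟨τ, hτ, hsing⟩ := sing_most σ hσ g hd hl (κ / 3 / (B : ℝ) ^ r) (by positivity)
  obtain ⟨c0, hc0, X1, h1⟩ := clsM σ hσ g hd hl B (κ / 3) τ (by positivity) hτ (PS P) hA
  have hpos : ∀ j, ∃ n0 : ℕ, ∀ n : ℕ, n0 ≤ n → 0 ≤ (g j).eval (n : ℤ) := fun j =>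
    Pool.Agent.TH882.PA.pos (g j) (hd j) (hl j) 0
  choose n0 hn0 using hpos
  refine ⟨c0 * τ / (2 * b), by positivity,
    b * (X1 + ∑ j, n0 j + 16) + ⌈2 / θ⌉₊, ?_⟩
  intro x hx
  set X : ℕ := x / b with hX
  have hXb : b * X ≤ x := Nat.mul_div_le x b
  have hXX : X1 + ∑ j, n0 j + 16 ≤ X := by
    rw [hX, Nat.le_div_iff_mul_le (by omega)]
    calc (X1 + ∑ j, n0 j + 16) * b = b * (X1 + ∑ j, n0 j + 16) := mul_comm _ _
      _ ≤ x := by omega
  have hxb : x ≤ 2 * b * X := by
    have e1 : x < b * (X + 1) := by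
      rw [hX]
      exact Nat.lt_mul_div_succ x (by omega)
    have e2 : b * (X + 1) ≤ 2 * b * X := by
      calc b * (X + 1) ≤ b * (2 * X) := Nat.mul_le_mul_left _ (by omega)
        _ = 2 * b * X := by ring
    omega
  have hX3 : 3 * X ≤ x := (Nat.mul_le_mul_right X hb3).trans hXb
  have hn0j : ∀ j, n0 j ≤ X := by
    intro j
    have : n0 j ≤ ∑ j, n0 j := single_le_sum (f := n0) (fun i _ => Nat.zero_le _) (mem_univ j)
    omega
  have hXr : (16 : ℝ) ≤ X := by
    have : 16 ≤ X := by omega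
    exact_mod_cast this
  have hX0 : (0 : ℝ) < X := by linarith
  have hXx : (X : ℝ) ≤ x := by
    have : X ≤ x := by omega
    exact_mod_cast this
  have hxbr : (x : ℝ) ≤ 2 * b * X := by exact_mod_cast hxb
  have hx0 : (0 : ℝ) < x := by linarith
  set ℓ := Real.log X with hℓ
  have hl1 : 1 ≤ ℓ := by
    rw [hℓ, Real.le_log_iff_exp_le hX0]
    have := Real.exp_one_lt_d9
    linarith
  have hlx : ℓ ≤ Real.log x := Real.log_le_log hX0 hXx
  have hWp := Wm_pos X
  have hW0 : (0 : ℝ) < Wm X := by exact_mod_cast hWp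
  have hφ0 : (0 : ℝ) < Nat.totient (Wm X) := by exact_mod_cast Nat.totient_pos.2 hWp
  have hWX : Wm X ≤ X := by
    have e1 := Pool.Agent.H325R2.wtx1 X (by omega)
    have e2 : (Wm X : ℝ) ≤ X := by
      refine e1.trans ?_
      calc ℓ ^ (7 / 20 : ℝ) ≤ ℓ ^ (1 : ℝ) :=
            Real.rpow_le_rpow_of_exponent_le hl1 (by norm_num)
        _ = ℓ := Real.rpow_one _
        _ ≤ X := by
            have := Real.log_le_sub_one_of_pos hX0
            linarith
    exact_mod_cast e2
  set C : Fin r → ℕ := fun j => cf (g j) * (3 * X) ^ (g j).natDegree with hC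
  set Y : Fin r → ℕ := fun j => if σ j = 1 then C j else 0 with hY
  have hXd : ∀ j, X ≤ X ^ (g j).natDegree := fun j => by
    calc X = X ^ 1 := (pow_one _).symm
      _ ≤ X ^ (g j).natDegree := Nat.pow_le_pow_right (by omega) (hd j)
  have hBj : ∀ j, cf (g j) * 3 ^ (g j).natDegree + K * (2 * b) ^ (g j).natDegree + 3 ≤ B := by
    intro j
    have : cf (g j) * 3 ^ (g j).natDegree + K * (2 * b) ^ (g j).natDegree ≤
        ∑ j, (cf (g j) * 3 ^ (g j).natDegree + K * (2 * b) ^ (g j).natDegree) :=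
      single_le_sum (f := fun j => cf (g j) * 3 ^ (g j).natDegree + K * (2 * b) ^ (g j).natDegree)
        (fun i _ => Nat.zero_le _) (mem_univ j)
    omega
  have hZB : ∀ j, C j + 1 + K * x ^ (g j).natDegree + X ≤ B * X ^ (g j).natDegree := by
    intro j
    have e1 : C j = cf (g j) * 3 ^ (g j).natDegree * X ^ (g j).natDegree := by
      rw [hC]
      simp only
      rw [mul_pow]
      ring
    have e2 : K * x ^ (g j).natDegree ≤ K * (2 * b) ^ (g j).natDegree * X ^ (g j).natDegree := by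
      calc K * x ^ (g j).natDegree ≤ K * (2 * b * X) ^ (g j).natDegree :=
            Nat.mul_le_mul_left _ (Nat.pow_le_pow_left hxb _)
        _ = _ := by rw [mul_pow]; ring
    have e3 := Nat.mul_le_mul_right (X ^ (g j).natDegree) (hBj j)
    have e4 : (cf (g j) * 3 ^ (g j).natDegree + K * (2 * b) ^ (g j).natDegree + 3) *
        X ^ (g j).natDegree = cf (g j) * 3 ^ (g j).natDegree * X ^ (g j).natDegree +
        K * (2 * b) ^ (g j).natDegree * X ^ (g j).natDegree + 3 * X ^ (g j).natDegree := by ring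
    rw [e4] at e3
    have e5 : 1 ≤ X ^ (g j).natDegree := Nat.one_le_pow _ _ (by omega)
    have e6 := hXd j
    omega
  obtain ⟨Bd, hB1, hB2⟩ := h1 X (by omega) Y (fun j => C j + 1)
    (fun j => C j + 1 + K * x ^ (g j).natDegree + X) (by
      intro j n hn1 hn2
      have e1 := hn0 j n (by have := hn0j j; omega)
      have e2 := abs_eval_le (g j) n (by omega)
      have e3 : (g j).eval (n : ℤ) ≤ C j := by
        calc (g j).eval (n : ℤ) ≤ |(g j).eval (n : ℤ)| := le_abs_self _
          _ ≤ (cf (g j) : ℤ) * (n : ℤ) ^ (g j).natDegree := e2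
          _ ≤ (C j : ℤ) := by
              have : cf (g j) * n ^ (g j).natDegree ≤ C j :=
                Nat.mul_le_mul_left _ (Nat.pow_le_pow_left hn2 _)
              exact_mod_cast this
      rcases hσ j with hs | hs
      · have eY : Y j = C j := by rw [hY]; simp only; rw [if_pos hs]
        rw [eY, hs]
        push_cast
        constructor <;> linarith
      · have eY : Y j = 0 := by
          rw [hY]
          simp only
          rw [if_neg]
          rw [hs]
          norm_num
        rw [eY, hs]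
        push_cast
        constructor <;> linarith) (fun j => by
          have : Y j ≤ C j := by
            rw [hY]
            simp only
            split_ifs
            · exact le_rfl
            · exact Nat.zero_le _
          omega) (fun j => by omega) hZB
  -- the vectors with small singular series
  set Ex := (Fintype.piFinset (fun j : Fin r => Ico 1 (1 + K * x ^ (g j).natDegree + X))).filter
    (fun k => LocV σ g k ∧ ((rhoS σ g X
      (fun j => (k j : ℤ))).card : ℝ) <
        τ * ((Nat.totient (Wm X) : ℝ) ^ (r + 1) / (Wm X : ℝ) ^ r)) with hEx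
  have hExc : (Ex.card : ℝ) ≤ κ / 3 / (B : ℝ) ^ r *
      ∏ j, (((1 + K * x ^ (g j).natDegree + X : ℕ)) : ℝ) :=
    hsing X hWX (fun _ => 1) (fun j => 1 + K * x ^ (g j).natDegree + X)
      (fun j => by omega) (fun j => by omega)
  set PX : ℝ := ∏ j, (X : ℝ) ^ (g j).natDegree with hPX
  have hPX0 : 0 ≤ PX := prod_nonneg fun j _ => by positivity
  have hExc2 : (Ex.card : ℝ) ≤ κ / 3 * PX := by
    refine hExc.trans ?_
    have e1 : ∏ j, (((1 + K * x ^ (g j).natDegree + X : ℕ)) : ℝ) ≤ (B : ℝ) ^ r * PX := by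
      calc ∏ j, (((1 + K * x ^ (g j).natDegree + X : ℕ)) : ℝ) ≤
          ∏ j, ((B : ℝ) * (X : ℝ) ^ (g j).natDegree) := by
            apply Finset.prod_le_prod (fun _ _ => Nat.cast_nonneg _)
            intro j _
            have e2 : 1 + K * x ^ (g j).natDegree + X ≤ B * X ^ (g j).natDegree := by
              have := hZB j
              omega
            exact_mod_cast e2
        _ = _ := by
            rw [prod_mul_distrib]
            simp only [prod_const, card_univ, Fintype.card_fin, ← hPX]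
    calc κ / 3 / (B : ℝ) ^ r * ∏ j, (((1 + K * x ^ (g j).natDegree + X : ℕ)) : ℝ) ≤
        κ / 3 / (B : ℝ) ^ r * ((B : ℝ) ^ r * PX) := mul_le_mul_of_nonneg_left e1 (by positivity)
      _ = _ := by field_simp
  -- the vectors with a small component
  set Sm := (Fintype.piFinset (fun j : Fin r => Icc 1 (K * x ^ (g j).natDegree))).filter
    (fun k => ∃ j, k j ≤ C j) with hSm
  have hθx : 2 / θ ≤ x := by
    have e1 : (⌈2 / θ⌉₊ : ℝ) ≤ x := by
      have : ⌈2 / θ⌉₊ ≤ x := by omega
      exact_mod_cast this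
    exact (Nat.le_ceil _).trans e1
  have hSmc : (Sm.card : ℝ) ≤ κ / 3 * ∏ j, (x : ℝ) ^ (g j).natDegree := by
    refine (few_small (fun j => (g j).natDegree) C K x θ K' hθ0.le hK'1 (by rw [hK']; linarith)
      ?_).trans ?_
    · intro j
      have e1 : (C j : ℝ) = cf (g j) * (3 * X : ℝ) ^ (g j).natDegree := by
        rw [hC]
        push_cast
        rfl
      rw [e1]
      have e2 : (3 * X : ℝ) ^ (g j).natDegree ≤ 3 / b * (x : ℝ) ^ (g j).natDegree := by
        have f1 : (3 * X : ℝ) ≤ 3 / b * x := by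
          have : (b : ℝ) * X ≤ x := by exact_mod_cast hXb
          rw [div_mul_eq_mul_div, le_div_iff₀ hb0]
          linarith
        calc (3 * X : ℝ) ^ (g j).natDegree ≤ (3 / b * x) ^ (g j).natDegree :=
              pow_le_pow_left₀ (by positivity) f1 _
          _ = (3 / b) ^ (g j).natDegree * (x : ℝ) ^ (g j).natDegree := mul_pow _ _ _
          _ ≤ (3 / b) ^ 1 * (x : ℝ) ^ (g j).natDegree := by
              apply mul_le_mul_of_nonneg_right _ (by positivity)
              apply pow_le_pow_of_le_one (by positivity) _ (hd j)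
              rw [div_le_one hb0]
              exact_mod_cast hb3
          _ = _ := by rw [pow_one]
      have e3 : (cf (g j) : ℝ) * (3 / b) ≤ θ := by
        have f1 : (cf (g j) : ℝ) ≤ Sc := by exact_mod_cast hcfS j
        rw [div_le_iff₀ hθ0] at hbθ
        rw [mul_div_assoc', div_le_iff₀ hb0]
        have f2 : (0 : ℝ) ≤ Sc := Nat.cast_nonneg _
        nlinarith
      calc (cf (g j) : ℝ) * (3 * X : ℝ) ^ (g j).natDegree ≤
          cf (g j) * (3 / b * (x : ℝ) ^ (g j).natDegree) :=
            mul_le_mul_of_nonneg_left e2 (Nat.cast_nonneg _)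
        _ = (cf (g j) * (3 / b)) * (x : ℝ) ^ (g j).natDegree := by ring
        _ ≤ θ * (x : ℝ) ^ (g j).natDegree := mul_le_mul_of_nonneg_right e3 (by positivity)
    · exact mul_le_mul_of_nonneg_right hrθ (prod_nonneg fun j _ => by positivity)
  set Tt := (Fintype.piFinset (fun j : Fin r => Icc 1 (K * x ^ (g j).natDegree))).filter
        (fun k => LocV σ g k ∧ ((Arg P σ g x k).card : ℝ) <
          c0 * τ / (2 * b) * (x / Real.log x ^ (r + 1))) with hTt
  have hinj : Function.Injective (fun k : Fin r → ℕ => fun j => k j + Y j) := by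
    intro k k' hkk
    funext j
    have := congrFun hkk j
    simp only at this
    omega
  have hsub : Tt.image (fun k => fun j => k j + Y j) ⊆
      Bd ∪ (Ex ∪ Sm).image (fun k => fun j => k j + Y j) := by
    intro N hN
    rw [mem_image] at hN
    obtain ⟨k, hk, rfl⟩ := hN
    rw [hTt, mem_filter, Fintype.mem_piFinset] at hk
    obtain ⟨hk1, hLoc, hno⟩ := hk
    rw [mem_union]
    by_contra hcon
    rw [not_or] at hcon
    obtain ⟨hcB, hcE'⟩ := hcon
    have hcE : k ∉ Ex ∧ k ∉ Sm := by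
      constructor
      · intro h
        exact hcE' (mem_image.2 ⟨k, mem_union_left _ h, rfl⟩)
      · intro h
        exact hcE' (mem_image.2 ⟨k, mem_union_right _ h, rfl⟩)
    have e0 : (fun j => ((k j + Y j : ℕ) : ℤ) - (Y j : ℤ)) = fun j => (k j : ℤ) := by
      funext j
      push_cast
      ring
    have hkI : ∀ j, 1 ≤ k j ∧ k j ≤ K * x ^ (g j).natDegree := fun j => mem_Icc.1 (hk1 j)
    have hkC : ∀ j, C j < k j := by
      intro j
      by_contra hc
      push Not at hc
      apply hcE.2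
      rw [hSm, mem_filter, Fintype.mem_piFinset]
      exact ⟨hk1, j, hc⟩
    have hρ : τ * ((Nat.totient (Wm X) : ℝ) ^ (r + 1) / (Wm X : ℝ) ^ r) ≤
        ((rhoS σ g X (fun j => (k j : ℤ))).card : ℝ) := by
      by_contra hc
      push Not at hc
      apply hcE.1
      rw [hEx, mem_filter, Fintype.mem_piFinset]
      refine ⟨fun j => ?_, hLoc, hc⟩
      rw [mem_Ico]
      have := hkI j
      omega
    have hYC : ∀ j, Y j ≤ C j := by
      intro j
      rw [hY]
      simp only
      split_ifs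
      · exact le_rfl
      · exact Nat.zero_le _
    have e1 := hB2 (fun j => k j + Y j) (by
      rw [Fintype.mem_piFinset]
      intro j
      rw [mem_Ico]
      have := hkI j
      have := hkC j
      have := hYC j
      omega) hcB (by
      rw [e0]
      exact hρ)
    rw [e0] at e1
    have e2 : ((RepA σ g (PS P) X (fun j => (k j : ℤ))).card : ℝ) ≤
        ((Arg P σ g x k).card : ℝ) := by
      apply Nat.cast_le.2
      apply card_le_card
      intro n hn
      unfold RepA at hn
      unfold Arg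
      rw [mem_filter] at hn ⊢
      rw [mem_Ico] at hn
      have hnP := hn.2.1
      unfold PS at hnP
      rw [mem_filter] at hnP
      refine ⟨?_, hnP.2.1, hnP.2.2, hn.2.2⟩
      rw [mem_Icc]
      omega
    have hwp := wX_pos X
    have e3 : c0 * τ * (X / ℓ ^ (r + 1)) ≤ c0 * (((rhoS σ g X
        (fun j => (k j : ℤ))).card : ℝ) * wX X ^ r *
          (X / (Nat.totient (Wm X) * ℓ ^ (r + 1)))) := by
      have f1 : c0 * τ * (X / ℓ ^ (r + 1)) =
          c0 * ((τ * ((Nat.totient (Wm X) : ℝ) ^ (r + 1) / (Wm X : ℝ) ^ r)) * wX X ^ r *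
          (X / (Nat.totient (Wm X) * ℓ ^ (r + 1)))) := by
        unfold wX
        rw [div_pow, pow_succ (Nat.totient (Wm X) : ℝ) r]
        field_simp
      rw [f1]
      apply mul_le_mul_of_nonneg_left _ hc0.le
      apply mul_le_mul_of_nonneg_right _ (by positivity)
      exact mul_le_mul_of_nonneg_right hρ (by positivity)
    have e4 : c0 * τ / (2 * b) * (x / Real.log x ^ (r + 1)) ≤ c0 * τ * (X / ℓ ^ (r + 1)) := by
      have f1 : (x : ℝ) / Real.log x ^ (r + 1) ≤ 2 * b * X / ℓ ^ (r + 1) :=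
        div_le_div₀ (by positivity) hxbr (by positivity)
          (pow_le_pow_left₀ (by linarith) hlx _)
      calc c0 * τ / (2 * b) * (x / Real.log x ^ (r + 1)) ≤
          c0 * τ / (2 * b) * (2 * b * X / ℓ ^ (r + 1)) :=
            mul_le_mul_of_nonneg_left f1 (by positivity)
        _ = _ := by field_simp
    linarith
  have hc1 := card_le_card hsub
  rw [card_image_of_injective _ hinj] at hc1
  have hc2 := card_union_le Bd ((Ex ∪ Sm).image (fun k => fun j => k j + Y j))
  rw [card_image_of_injective _ hinj] at hc2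
  have hc4 := card_union_le Ex Sm
  have hc3 : (Tt.card : ℝ) ≤ (Bd.card : ℝ) + (Ex.card + Sm.card) := by
    have : Tt.card ≤ Bd.card + (Ex.card + Sm.card) := by omega
    exact_mod_cast this
  have hPx : PX ≤ ∏ j, (x : ℝ) ^ (g j).natDegree := by
    apply Finset.prod_le_prod (fun _ _ => by positivity)
    intro j _
    exact pow_le_pow_left₀ hX0.le hXx _
  have hB1' : (Bd.card : ℝ) ≤ κ / 3 * PX := hB1
  have hPx3 := mul_le_mul_of_nonneg_left hPx (by positivity : 0 ≤ κ / 3)
  calc (Tt.card : ℝ) ≤ κ / 3 * PX + (κ / 3 * PX + κ / 3 * ∏ j, (x : ℝ) ^ (g j).natDegree) := by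
        linarith
    _ ≤ κ / 3 * (∏ j, (x : ℝ) ^ (g j).natDegree) + (κ / 3 * (∏ j, (x : ℝ) ^ (g j).natDegree) +
        κ / 3 * ∏ j, (x : ℝ) ^ (g j).natDegree) := by linarith
    _ = _ := by ring

/-- a common constant for finitely many assertions -/
lemma common {ι : Type*} (S : Finset ι) (Q : ι → ℝ → ℕ → Prop)
    (mono : ∀ i c c' x, c' ≤ c → Q i c x → Q i c' x)
    (h : ∀ i ∈ S, ∃ c : ℝ, 0 < c ∧ ∃ x₀ : ℕ, ∀ x : ℕ, x₀ ≤ x → Q i c x) :
    ∃ c : ℝ, 0 < c ∧ ∃ x₀ : ℕ, ∀ x : ℕ, x₀ ≤ x → ∀ i ∈ S, Q i c x := by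
  classical
  induction S using Finset.induction_on with
  | empty => exact ⟨1, one_pos, 0, fun x _ i hi => absurd hi (notMem_empty i)⟩
  | insert a S ha ih =>
    obtain ⟨c1, hc1, x1, h1⟩ := ih fun i hi => h i (mem_insert_of_mem hi)
    obtain ⟨c2, hc2, x2, h2⟩ := h a (mem_insert_self _ _)
    refine ⟨min c1 c2, lt_min hc1 hc2, max x1 x2, fun x hx i hi => ?_⟩
    rcases mem_insert.1 hi with rfl | hi
    · exact mono _ _ _ _ (min_le_right _ _) (h2 x ((le_max_right _ _).trans hx))
    · exact mono _ _ _ _ (min_le_left _ _) (h1 x ((le_max_left _ _).trans hx) i hi)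

end Pool.Agent.V1137.Unav
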