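import Pool.Agent.V1137.Unav
import Pool.Agent.TH882.I4

/-! Examples of sets of primes which are dense in most classes. -/

set_option autoImplicit false

open Finset

namespace Pool.Agent.V1137.Unav

open Pool.Agent.H361R2.PP
open Pool.Agent.TH882.JS (Rd MostDense)

open Classical in
/-- the primes `q ≠ p` with `|q - p| ≤ R` of the colour of `p` -/
noncomputable def sameColour {s : ℕ} (χ : ℕ → Fin s) (R : ℝ) (p : ℕ) : Finset ℕ :=
  (Icc 1 (p + ⌊R⌋₊)).filter (fun q => q.Prime ∧ q ≠ p ∧ |(q : ℝ) - p| ≤ R ∧ χ q = χ p)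

/-- the primes with at least `m` close primes of the same colour -/
def clustered {s : ℕ} (χ : ℕ → Fin s) (m : ℕ) (ε : ℝ) : Set ℕ :=
  {p : ℕ | m ≤ (sameColour χ (ε * Real.log p) p).card}

theorem clustered_meets {s : ℕ} (χ : ℕ → Fin s) (m : ℕ) (ε : ℝ) (hε : 0 < ε) :
    Meets (s * m + 1) ε (clustered χ m ε) := by
  classical
  refine ⟨1, fun u v hu hv hc => ?_⟩
  set S := (Icc u v).filter Nat.Prime with hS
  obtain ⟨i, -, hi⟩ := exists_lt_card_fiber_of_mul_lt_card_of_maps_to (s := S)
    (t := (univ : Finset (Fin s))) (f := χ) (n := m) (fun p _ => mem_univ _) (by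
      rw [card_univ, Fintype.card_fin]
      omega)
  set F := S.filter (fun p => χ p = i) with hF
  have hne : F.Nonempty := by
    rw [← card_pos]
    omega
  obtain ⟨p, hp⟩ := hne
  have hpF := hp
  rw [hF, mem_filter, hS, mem_filter, mem_Icc] at hpF
  obtain ⟨⟨⟨hp1, hp2⟩, hpp⟩, hpi⟩ := hpF
  refine ⟨p, ?_, hp1, hp2, hpp⟩
  change m ≤ (sameColour χ (ε * Real.log p) p).card
  have h1 : m ≤ (F.erase p).card := by
    rw [card_erase_of_mem hp]
    omega
  refine h1.trans (card_le_card ?_)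
  intro q hq
  rw [mem_erase, hF, mem_filter, hS, mem_filter, mem_Icc] at hq
  obtain ⟨hqp, ⟨⟨hq1, hq2⟩, hqq⟩, hqi⟩ := hq
  have hu0 : (0 : ℝ) < u := by
    have : 0 < u := by omega
    exact_mod_cast this
  have hlog : Real.log u ≤ Real.log p := Real.log_le_log hu0 (by exact_mod_cast hp1)
  have hε1 := mul_le_mul_of_nonneg_left hlog hε.le
  have e1 : (p : ℝ) ≤ v := by exact_mod_cast hp2
  have e2 : (q : ℝ) ≤ v := by exact_mod_cast hq2
  have e3 : (u : ℝ) ≤ p := by exact_mod_cast hp1
  have e4 : (u : ℝ) ≤ q := by exact_mod_cast hq1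
  have habs : |(q : ℝ) - p| ≤ ε * Real.log p := by
    rw [abs_le]
    constructor <;> linarith
  unfold sameColour
  rw [mem_filter, mem_Icc]
  refine ⟨⟨hqq.one_le, ?_⟩, hqq, hqp, habs, by rw [hqi, hpi]⟩
  have h0 : 0 ≤ ε * Real.log p := mul_nonneg hε.le (Real.log_natCast_nonneg p)
  by_cases hle : q ≤ p
  · exact hle.trans (Nat.le_add_right _ _)
  · have h2 : q - p ≤ ⌊ε * Real.log p⌋₊ := by
      rw [Nat.le_floor_iff h0, Nat.cast_sub (by omega)]
      exact (abs_le.1 habs).2
    omega

/-- a larger set of primes -/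
lemma MostDense.mono {A B : ℕ → ℕ → Finset ℕ} (hA : MostDense A)
    (hB : ∀ X b, B X b ⊆ (SI X b).filter Nat.Prime) (X₁ : ℕ)
    (hAB : ∀ X, X₁ ≤ X → ∀ b, A X b ⊆ B X b) : MostDense B := by
  classical
  refine ⟨hB, fun η hη => ?_⟩
  obtain ⟨c, hc, X₀, h⟩ := hA.2 η hη
  refine ⟨c, hc, max X₀ X₁, fun X hX => ?_⟩
  refine le_trans ?_ (h X ((le_max_left _ _).trans hX))
  apply Nat.cast_le.2
  apply card_le_card
  intro b hb
  rw [mem_filter] at hb ⊢
  refine ⟨hb.1, lt_of_le_of_lt ?_ hb.2⟩
  exact_mod_cast card_le_card (hAB X ((le_max_right _ _).trans hX) b)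

/-- the primes at distance more than `Λ log p` from every other prime -/
def isolated (Λ : ℝ) : Set ℕ := {p : ℕ | ∀ q : ℕ, q.Prime → |(q : ℝ) - p| ≤ Λ * Real.log p → q = p}

/-- **the isolated primes are dense in all classes** -/
theorem isolated_most (Λ : ℝ) (hΛ : 0 < Λ) : MostDense (PS (isolated Λ)) := by
  classical
  obtain ⟨c, hc, X₀, h⟩ := Pool.Agent.TH882.IS.isoD (2 * Λ) (by positivity)
  have h1 : MostDense (Pool.Agent.TH882.IS.IP (2 * Λ)) := by
    refine ⟨fun X b n hn => ?_, fun η hη => ⟨c, hc, X₀, fun X hX => ?_⟩⟩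
    · unfold Pool.Agent.TH882.IS.IP at hn
      rw [mem_filter] at hn ⊢
      exact ⟨hn.1, hn.2.1⟩
    · have e1 : (Rd X).filter (fun b => ((Pool.Agent.TH882.IS.IP (2 * Λ) X b).card : ℝ) <
          c * (X / (Nat.totient (Wm X) * Real.log X))) = ∅ := by
        rw [filter_eq_empty_iff]
        intro b hb
        unfold Rd at hb
        rw [mem_filter, mem_range] at hb
        rw [not_lt]
        exact h X hX b hb.1 hb.2
      rw [e1, card_empty, Nat.cast_zero]
      positivity
  apply MostDense.mono h1 _ 2 _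
  · intro X b n hn
    unfold PS at hn
    rw [mem_filter] at hn ⊢
    exact ⟨hn.1, hn.2.1⟩
  · intro X hX b n hn
    unfold Pool.Agent.TH882.IS.IP at hn
    unfold PS
    rw [mem_filter] at hn ⊢
    refine ⟨hn.1, hn.2.1, ?_⟩
    have hn1 := mem_SI.1 hn.1
    intro q hq habs
    have hX0 : (0 : ℝ) < X := by
      have : 0 < X := by omega
      exact_mod_cast this
    have hXr : (2 : ℝ) ≤ X := by exact_mod_cast hX
    have e1 : Real.log n ≤ 2 * Real.log X := by
      have hn0 : (0 : ℝ) < n := by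
        have : 0 < n := by omega
        exact_mod_cast this
      calc Real.log n ≤ Real.log ((X : ℝ) ^ 2) := by
            apply Real.log_le_log hn0
            have : (n : ℝ) < 2 * X := by exact_mod_cast hn1.2.1
            nlinarith
        _ = 2 * Real.log X := by
            rw [Real.log_pow]
            push_cast
            ring
    have e2 := mul_le_mul_of_nonneg_left e1 hΛ.le
    have h3 := abs_le.1 habs
    exact hn.2.2 q hq (by linarith) (by linarith)

end Pool.Agent.V1137.Unav
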