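import Pool.Agent.V1137.Pm
import Pool.Agent.V1137.Unav2

/-! One polynomial: the case `r = 1` of `sys_pm`. -/

set_option autoImplicit false

open Finset Filter Topology Polynomial

namespace Pool.Agent.V1137.Unav

open Pool.Agent.TH882.JS (MostDense)
open Pool.Agent.TH882.KS (LocV)

open Classical in
/-- the primes `n ≤ x` of `P` for which `k + s * g (n)` is prime -/
noncomputable def Arg1 (P : Set ℕ) (s : ℤ) (g : ℤ[X]) (x k : ℕ) : Finset ℕ :=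
  (Icc 1 x).filter (fun n => n.Prime ∧ n ∈ P ∧ ((k : ℤ) + s * g.eval (n : ℤ)).toNat.Prime)

/-- no local obstruction -/
def Loc1 (s : ℤ) (g : ℤ[X]) (k : ℕ) : Prop :=
  ∀ l : ℕ, l.Prime → ∃ y : ℤ, ¬ (l : ℤ) ∣ y ∧ ¬ (l : ℤ) ∣ (k : ℤ) + s * g.eval y

open Classical in
theorem one_pm (s : ℤ) (hs : s = 1 ∨ s = -1) (g : ℤ[X]) (hd : 1 ≤ g.natDegree)
    (hl : 0 < g.leadingCoeff) (P : Set ℕ) (hA : MostDense (PS P)) (K : ℕ) (κ : ℝ) (hκ : 0 < κ) :
    ∃ c : ℝ, 0 < c ∧ ∃ x₀ : ℕ, ∀ x : ℕ, x₀ ≤ x →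
      (((Icc 1 (K * x ^ g.natDegree)).filter
        (fun k => Loc1 s g k ∧ ((Arg1 P s g x k).card : ℝ) <
          c * (x / Real.log x ^ 2))).card : ℝ) ≤ κ * (x : ℝ) ^ g.natDegree := by
  obtain ⟨c, hc, x₀, h⟩ := sys_pm (fun _ : Fin 1 => s) (fun _ => hs) (fun _ => g) (fun _ => hd)
    (fun _ => hl) P hA K κ hκ
  refine ⟨c, hc, x₀, fun x hx => ?_⟩
  have h1 := h x hx
  rw [Fin.prod_univ_one] at h1
  refine le_trans ?_ h1
  apply Nat.cast_le.2
  apply card_le_card_of_injOn (fun k => fun _ : Fin 1 => k)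
  · intro k hk
    have hk' := mem_filter.1 (mem_coe.1 hk)
    apply mem_coe.2
    rw [mem_filter, Fintype.mem_piFinset]
    refine ⟨fun _ => hk'.1, fun l hl' => ?_, ?_⟩
    · obtain ⟨y, hy1, hy2⟩ := hk'.2.1 l hl'
      exact ⟨y, hy1, fun _ => hy2⟩
    · refine lt_of_le_of_lt ?_ hk'.2.2
      apply Nat.cast_le.2
      apply card_le_card
      intro n hn
      unfold Arg at hn
      unfold Arg1
      rw [mem_filter] at hn ⊢
      exact ⟨hn.1, hn.2.1, hn.2.2.1, hn.2.2.2 0⟩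
  · intro k _ k' _ h
    exact congrFun h 0

end Pool.Agent.V1137.Unav
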