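import Mathlib

open Filter Topology Set

namespace Pool.Agent.V1137.SHDCube

/-- A space is selectively highly divergent if for every sequence `U n` of nonempty open sets one
can choose points `x n ∈ U n` such that no subsequence of `x` converges. -/
def SHD (X : Type*) [TopologicalSpace X] : Prop :=
  ∀ U : ℕ → Set X, (∀ n, IsOpen (U n) ∧ (U n).Nonempty) →
    ∃ x : ℕ → X, (∀ n, x n ∈ U n) ∧
      ∀ φ : ℕ → ℕ, StrictMono φ → ∀ a : X, ¬ Tendsto (fun k => x (φ k)) atTop (𝓝 a)

/-- The index set of the Cantor cube used below. -/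
abbrev I : Type := (ℕ → Bool) × (ℕ → Bool)

theorem uncountable_J : ¬ (Set.univ : Set (ℕ → Bool)).Countable := by
  have h3 : Cardinal.aleph0 < Cardinal.mk (ℕ → Bool) := by
    have := Cardinal.cantor Cardinal.aleph0
    simpa using this
  intro h
  have h1 : Countable (ℕ → Bool) := Set.countable_univ_iff.1 h
  have h2 : (Cardinal.mk (ℕ → Bool)) ≤ Cardinal.aleph0 := Cardinal.mk_le_aleph0
  exact absurd h2 (not_le.2 h3)

/-- A countable subset of `T × J` misses a whole horizontal line. -/
theorem exists_line {T : Type*} (C : Set (T × (ℕ → Bool))) (hC : C.Countable) :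
    ∃ j : ℕ → Bool, ∀ p ∈ C, p.2 ≠ j := by
  by_contra hcon
  push Not at hcon
  apply uncountable_J
  refine (hC.image Prod.snd).mono ?_
  intro j _
  obtain ⟨p, hp, hpj⟩ := hcon j
  exact ⟨p, hp, hpj⟩

/-- A nonempty open subset of `2 ^ ι` contains, for each of its points `u`, some basic open set. -/
theorem exists_cyl' {ι : Type*} (U : Set (ι → Bool)) (hU : IsOpen U) (u : ι → Bool) (hu : u ∈ U) :
    ∃ (F : Finset ι), ∀ w : ι → Bool, (∀ i ∈ F, w i = u i) → w ∈ U := by
  rw [isOpen_pi_iff] at hU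
  obtain ⟨F, v, hv, hsub⟩ := hU u hu
  refine ⟨F, fun w hw => hsub ?_⟩
  intro i hi
  rw [hw i hi]
  exact (hv i hi).2

theorem exists_cyl {ι : Type*} (U : Set (ι → Bool)) (hU : IsOpen U) (hne : U.Nonempty) :
    ∃ (u : ι → Bool) (F : Finset ι), ∀ w : ι → Bool, (∀ i ∈ F, w i = u i) → w ∈ U := by
  obtain ⟨u, hu⟩ := hne
  obtain ⟨F, hF⟩ := exists_cyl' U hU u hu
  exact ⟨u, F, hF⟩

/-- A sequence in a discrete two point space which takes both values infinitely often does not
converge. -/
theorem alt_not_tendsto (φ : ℕ → ℕ) (hφ : StrictMono φ) (b : Bool) (f : ℕ → Bool)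
    (hf : ∀ m, f m = true ↔ ∃ k, φ (2 * k) = m) :
    ¬ Tendsto (fun k => f (φ k)) atTop (𝓝 b) := by
  intro h
  rw [nhds_discrete, tendsto_pure] at h
  rw [eventually_atTop] at h
  obtain ⟨N, hN⟩ := h
  have h1 : f (φ (2 * N)) = b := hN _ (by omega)
  have h2 : f (φ (2 * N + 1)) = b := hN _ (by omega)
  have h3 : f (φ (2 * N)) = true := (hf _).2 ⟨N, rfl⟩
  have h4 : f (φ (2 * N + 1)) = true := by rw [h2, ← h1, h3]
  obtain ⟨k, hk⟩ := (hf _).1 h4
  have := hφ.injective hk
  omega

/-- Selection lemma in the Cantor cube `2 ^ I`: a sequence of basic open sets admits a choice of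
points no subsequence of which converges. -/
theorem cube_choice (u : ℕ → I → Bool) (F : ℕ → Finset I) :
    ∃ x : ℕ → I → Bool, (∀ n, ∀ i ∈ F n, x n i = u n i) ∧
      ∀ φ : ℕ → ℕ, StrictMono φ → ∀ a : I → Bool, ¬ Tendsto (fun k => x (φ k)) atTop (𝓝 a) := by
  classical
  obtain ⟨j, hj⟩ := exists_line (⋃ n, (F n : Set I))
    (Set.countable_iUnion fun n => (F n).countable_toSet)
  refine ⟨fun n p => if p.2 = j then p.1 n else u n p, fun n i hi => ?_, ?_⟩
  · have : i.2 ≠ j := hj i (Set.mem_iUnion.2 ⟨n, hi⟩)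
    simp [this]
  · intro φ hφ a ha
    let s : ℕ → Bool := fun m => decide (∃ k, φ (2 * k) = m)
    have h1 := (tendsto_pi_nhds.1 ha) (s, j)
    simp only [if_true] at h1
    exact alt_not_tendsto φ hφ _ s (fun m => by simp [s]) h1

/-- The Cantor cube `2 ^ I` is selectively highly divergent. -/
theorem shd_cube : SHD (I → Bool) := by
  intro U hU
  choose u F hF using fun n => exists_cyl (U n) (hU n).1 (hU n).2
  obtain ⟨x, hx, hdiv⟩ := cube_choice u F
  exact ⟨x, fun n => hF n _ (hx n), hdiv⟩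

/-- The `Σ`-product: points of `2 ^ ι` with countable support. -/
def Sig (ι : Type*) : Set (ι → Bool) := {x | {i | x i = true}.Countable}

theorem finite_mem_sig {ι : Type*} (x : ι → Bool) (h : {i | x i = true}.Finite) : x ∈ Sig ι :=
  h.countable

theorem dense_sig (ι : Type*) : Dense (Sig ι) := by
  classical
  rw [dense_iff_inter_open]
  intro U hU hne
  obtain ⟨u, F, hF⟩ := exists_cyl U hU hne
  refine ⟨fun i => if i ∈ F then u i else false, hF _ (fun i hi => by simp [hi]), ?_⟩
  apply finite_mem_sig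
  refine F.finite_toSet.subset ?_
  intro i hi
  by_contra hcon
  have hcon' : i ∉ F := hcon
  simp [hcon'] at hi

/-- Sequences in the `Σ`-product have subsequences converging in the `Σ`-product. -/
theorem sig_seq {ι : Type*} (x : ℕ → ι → Bool) (hx : ∀ n, x n ∈ Sig ι) :
    ∃ (φ : ℕ → ℕ) (a : ι → Bool), StrictMono φ ∧ a ∈ Sig ι ∧
      Tendsto (fun k => x (φ k)) atTop (𝓝 a) := by
  classical
  set C : Set ι := ⋃ n, {i | x n i = true} with hC
  have hCc : C.Countable := Set.countable_iUnion fun n => hx n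
  have : Countable C := hCc.to_subtype
  obtain ⟨b, φ, hφ, hb⟩ := CompactSpace.tendsto_subseq (fun n => (fun i : C => x n i : C → Bool))
  refine ⟨φ, fun i => if h : i ∈ C then b ⟨i, h⟩ else false, hφ, ?_, ?_⟩
  · refine hCc.mono ?_
    intro i hi
    by_contra hcon
    simp only [Set.mem_ofPred_eq, dif_neg hcon] at hi
    exact absurd hi (by simp)
  · rw [tendsto_pi_nhds]
    intro i
    by_cases h : i ∈ C
    · simp only [dif_pos h]
      exact (tendsto_pi_nhds.1 hb) ⟨i, h⟩
    · simp only [dif_neg h]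
      have : ∀ k, x (φ k) i = false := by
        intro k
        by_contra hcon
        exact h (Set.mem_iUnion.2 ⟨φ k, by simpa using hcon⟩)
      simp [this]

/-- The `Σ`-product is not selectively highly divergent. -/
theorem not_shd_sig (ι : Type*) : ¬ SHD (Sig ι) := by
  intro h
  have : Nonempty (Sig ι) := ⟨⟨fun _ => false, by simp [Sig]⟩⟩
  obtain ⟨x, -, hx⟩ := h (fun _ => Set.univ) (fun n => ⟨isOpen_univ, Set.univ_nonempty⟩)
  obtain ⟨φ, a, hφ, ha, hlim⟩ := sig_seq (fun n => (x n : ι → Bool)) (fun n => (x n).2)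
  refine hx φ hφ ⟨a, ha⟩ ?_
  rw [tendsto_subtype_rng]
  exact hlim

end Pool.Agent.V1137.SHDCube
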