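import Pool.Agent.V1137.UnavG

/-!
Representations `2 n = p + q` of almost all even numbers as sums of two different primes, where `p`
belongs to a given set of primes which meets all short clusters of primes.
-/

set_option autoImplicit false

open Finset Filter Topology

namespace Pool.Agent.V1137.UnavD

/-- `P` meets all short clusters of primes: there are `M` and `ε > 0` such that, for all large `u`,
every interval `[u, v]` with `v ≤ u + ε log u` which contains at least `M` primes contains a prime
which belongs to `P`. -/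
def MeetsClusters (P : Set ℕ) : Prop := ∃ (M : ℕ) (ε : ℝ), 0 < ε ∧ ∃ u₀ : ℕ, ∀ u v : ℕ, u₀ ≤ u →
  (v : ℝ) ≤ u + ε * Real.log u → M ≤ ((Icc u v).filter Nat.Prime).card →
  ∃ p ∈ P, u ≤ p ∧ p ≤ v ∧ p.Prime

open Classical in
/-- The primes `p < N` in `P` for which `N - p` is a prime different from `p`. -/
noncomputable def representations (P : Set ℕ) (N : ℕ) : Finset ℕ :=
  (range N).filter (fun p => p.Prime ∧ p ∈ P ∧ (N - p).Prime ∧ N - p ≠ p)

open Classical in
/-- The even `N` in `[1, x]` with fewer than `c * N ^ 2 / (φ(N) * (log N) ^ 2)` representations. -/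
noncomputable def exceptions (P : Set ℕ) (c : ℝ) (x : ℕ) : Finset ℕ :=
  (Icc 1 x).filter (fun N => Even N ∧
    ((representations P N).card : ℝ) < c * ((N : ℝ) ^ 2 / (Nat.totient N * Real.log N ^ 2)))

lemma card_old (P : Set ℕ) (N : ℕ) :
    (Pool.Agent.V1137.UnavG.representations P N).card ≤ (representations P N).card + 1 := by
  classical
  have h : Pool.Agent.V1137.UnavG.representations P N ⊆ representations P N ∪ {N / 2} := by
    intro p hp
    unfold Pool.Agent.V1137.UnavG.representations at hp
    rw [mem_filter, mem_range] at hp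
    obtain ⟨h1, h2, h3, h4⟩ := hp
    rw [mem_union, mem_singleton]
    by_cases h5 : N - p = p
    · right
      omega
    · left
      unfold representations
      rw [mem_filter, mem_range]
      exact ⟨h1, h2, h3, h4, h5⟩
  exact (card_le_card h).trans (card_union_le _ _)

/-- **Sums of two different primes, one of them in a set of primes which meets all short clusters.**
Let `P` be a set which, for some `M` and `ε > 0`, contains a prime from every interval `[u, v]`,
`v ≤ u + ε log u`, `u` large, with at least `M` primes. For every `κ > 0` there is `c > 0` such that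
for all large `x` and all even `N ≤ x`, with at most `κ x` exceptions, there are at least
`c N ^ 2 / (φ(N) (log N) ^ 2)` primes `p < N` in `P` for which `N - p` is a prime different from
`p`. -/
theorem main (P : Set ℕ) (hP : MeetsClusters P) (κ : ℝ) (hκ : 0 < κ) : ∃ c : ℝ, 0 < c ∧
    ∀ᶠ x : ℕ in atTop, ((exceptions P c x).card : ℝ) ≤ κ * x := by
  classical
  obtain ⟨c, hc, h⟩ := Pool.Agent.V1137.UnavG.main P hP (κ / 2) (by positivity)
  refine ⟨c / 2, by positivity, ?_⟩
  -- the count tends to infinity
  have e1 : ∀ᶠ N : ℕ in atTop, 1 ≤ c / 2 * ((N : ℝ) / Real.log N ^ 2) := by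
    have h1 : Tendsto (fun N : ℕ => Real.log N ^ 2 / (N : ℝ)) atTop (𝓝 0) := by
      have h2 := (Real.isLittleO_pow_log_id_atTop (n := 2)).tendsto_div_nhds_zero
      exact h2.comp tendsto_natCast_atTop_atTop
    have h3 := h1.eventually (ge_mem_nhds (show (0 : ℝ) < c / 2 by positivity))
    filter_upwards [h3, eventually_ge_atTop 3] with N hN hN3
    have hN0 : (0 : ℝ) < N := by
      have : (3 : ℝ) ≤ N := by exact_mod_cast hN3
      linarith
    have hl : 0 < Real.log N := Real.log_pos (by
      have : (3 : ℝ) ≤ N := by exact_mod_cast hN3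
      linarith)
    rw [div_le_iff₀ hN0] at hN
    rw [mul_div_assoc', le_div_iff₀ (by positivity)]
    linarith
  obtain ⟨n₀, hn₀⟩ := eventually_atTop.1 e1
  filter_upwards [h, eventually_ge_atTop (max 1 ⌈2 * (n₀ + 3 : ℝ) / κ⌉₊)] with x hx hxb
  have hx1 : (2 * (n₀ + 3 : ℝ) / κ) ≤ x := (Nat.le_ceil _).trans (by
    exact_mod_cast (le_max_right _ _).trans hxb)
  have hx2 : (n₀ + 3 : ℝ) ≤ κ / 2 * x := by
    rw [div_le_iff₀ hκ] at hx1
    linarith
  have hsub : exceptions P (c / 2) x ⊆
      Pool.Agent.V1137.UnavG.exceptions P c x ∪ range (n₀ + 3) := by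
    intro N hN
    unfold exceptions at hN
    rw [mem_filter, mem_Icc] at hN
    obtain ⟨⟨h1, h2⟩, h3, h4⟩ := hN
    rw [mem_union, mem_range]
    by_cases h5 : N < n₀ + 3
    · exact Or.inr h5
    · left
      push Not at h5
      unfold Pool.Agent.V1137.UnavG.exceptions
      rw [mem_filter, mem_Icc]
      refine ⟨⟨h1, h2⟩, h3, ?_⟩
      have hc1 : ((Pool.Agent.V1137.UnavG.representations P N).card : ℝ) ≤
          (representations P N).card + 1 := by exact_mod_cast card_old P N
      have hφ : (0 : ℝ) < Nat.totient N := by exact_mod_cast Nat.totient_pos.2 (by omega)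
      have hφ2 : (Nat.totient N : ℝ) ≤ N := by exact_mod_cast Nat.totient_le N
      have hN0 : (0 : ℝ) < N := by exact_mod_cast (by omega : 0 < N)
      have hl : 0 < Real.log N := Real.log_pos (by exact_mod_cast (by omega : 1 < N))
      have h6 : 1 ≤ c / 2 * ((N : ℝ) ^ 2 / (Nat.totient N * Real.log N ^ 2)) := by
        refine (hn₀ N (by omega)).trans ?_
        apply mul_le_mul_of_nonneg_left _ (by positivity)
        rw [div_le_div_iff₀ (by positivity) (by positivity)]
        have : (N : ℝ) * (Nat.totient N * Real.log N ^ 2) ≤ N * (N * Real.log N ^ 2) := by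
          gcongr
        calc (N : ℝ) * (Nat.totient N * Real.log N ^ 2) ≤ N * (N * Real.log N ^ 2) := this
          _ = (N : ℝ) ^ 2 * Real.log N ^ 2 := by ring
      linarith
  calc ((exceptions P (c / 2) x).card : ℝ)
      ≤ ((Pool.Agent.V1137.UnavG.exceptions P c x ∪ range (n₀ + 3)).card : ℝ) := by
        exact_mod_cast card_le_card hsub
    _ ≤ ((Pool.Agent.V1137.UnavG.exceptions P c x).card : ℝ) + (n₀ + 3 : ℕ) := by
        have := card_union_le (Pool.Agent.V1137.UnavG.exceptions P c x) (range (n₀ + 3))
        rw [card_range] at this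
        exact_mod_cast this
    _ ≤ κ / 2 * x + κ / 2 * x := by
        push_cast
        linarith
    _ = κ * x := by ring

end Pool.Agent.V1137.UnavD
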