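import Pool.Agent.V1137.Unav
import Pool.Agent.TH882.J5

/-!
Binary Goldbach representations `N = p + q` of almost all even `N` in which `p` belongs to a given
set of primes which meets all short clusters of primes.
-/

set_option autoImplicit false

open Finset Filter Topology

namespace Pool.Agent.V1137.UnavG

/-- `P` meets all short clusters of primes: there are `M` and `ε > 0` such that, for all large `u`,
every interval `[u, v]` with `v ≤ u + ε log u` which contains at least `M` primes contains a prime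
which belongs to `P`. -/
def MeetsClusters (P : Set ℕ) : Prop := ∃ (M : ℕ) (ε : ℝ), 0 < ε ∧ ∃ u₀ : ℕ, ∀ u v : ℕ, u₀ ≤ u →
  (v : ℝ) ≤ u + ε * Real.log u → M ≤ ((Icc u v).filter Nat.Prime).card →
  ∃ p ∈ P, u ≤ p ∧ p ≤ v ∧ p.Prime

open Classical in
/-- The primes `p < N` in `P` with `N - p` prime. -/
noncomputable def representations (P : Set ℕ) (N : ℕ) : Finset ℕ :=
  (range N).filter (fun p => p.Prime ∧ p ∈ P ∧ (N - p).Prime)

open Classical in
/-- The even `N` in `[1, x]` with fewer than `c * N ^ 2 / (φ(N) * (log N) ^ 2)` representations. -/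
noncomputable def exceptions (P : Set ℕ) (c : ℝ) (x : ℕ) : Finset ℕ :=
  (Icc 1 x).filter (fun N => Even N ∧
    ((representations P N).card : ℝ) < c * ((N : ℝ) ^ 2 / (Nat.totient N * Real.log N ^ 2)))

/-- **The order of magnitude of the Goldbach counts with one summand in a set of primes which meets
all short clusters.** Let `P` be a set which, for some `M` and `ε > 0`, contains a prime from every
interval `[u, v]`, `v ≤ u + ε log u`, `u` large, with at least `M` primes. For every `κ > 0` there
is `c > 0` such that for all large `x` and all even `N ≤ x`, with at most `κ x` exceptions, there are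
at least `c N ^ 2 / (φ(N) (log N) ^ 2)` primes `p < N` in `P` with `N - p` prime. -/
theorem main (P : Set ℕ) (hP : MeetsClusters P) (κ : ℝ) (hκ : 0 < κ) : ∃ c : ℝ, 0 < c ∧
    ∀ᶠ x : ℕ in atTop, ((exceptions P c x).card : ℝ) ≤ κ * x := by
  classical
  obtain ⟨M, ε, hε, hP⟩ := hP
  obtain ⟨c, hc, X₀, h⟩ := Pool.Agent.TH882.JS.goldbach_most
    (Pool.Agent.V1137.Unav.PS P) (Pool.Agent.V1137.Unav.PS_most M ε hε P hP) (κ / 2) (by positivity)
  refine ⟨c, hc, ?_⟩
  rw [eventually_atTop]
  apply Pool.Agent.TH882.JS.dyadic2 _ κ hκ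
  refine ⟨X₀, fun X hX => (le_trans ?_ (h X hX))⟩
  apply Nat.cast_le.2
  apply card_le_card
  intro N hN
  rw [mem_filter, mem_Ico] at hN ⊢
  obtain ⟨⟨hN1, hN2⟩, hNe, hNl⟩ := hN
  refine ⟨⟨hN1, hN2⟩, hNe, lt_of_le_of_lt ?_ hNl⟩
  apply Nat.cast_le.2
  apply card_le_card
  intro p hp
  unfold Pool.Agent.TH882.JS.GA at hp
  rw [mem_filter, mem_Ico] at hp
  obtain ⟨⟨hp1, hp2⟩, hpA, hpN⟩ := hp
  unfold Pool.Agent.V1137.Unav.PS at hpA
  rw [mem_filter] at hpA
  unfold representations
  rw [mem_filter, mem_range]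
  exact ⟨by omega, hpA.2.1, hpA.2.2, hpN⟩

end Pool.Agent.V1137.UnavG
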