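import Pool.Agent.V11286.NE.Tup

/-! Windows around the points `(α_1 v_n, …, α_m v_n)` and exceptional sets of tuples which depend on the scale `n`. -/

set_option autoImplicit false

open Finset Filter Topology MeasureTheory

namespace Pool.Agent.V1137.Wsys

open scoped ENNReal NNReal
open Pool.Agent.V11286.NE (vol_cube)

/-- **almost all windows of tuples contain no element of the exceptional sets of the scales** -/
theorem ae_scale {k : ℕ} (Bad : ℕ → Set (Fin k → ℕ)) {c : ℝ} {v : ℕ → ℝ} (hv1 : ∀ n, 1 ≤ v n)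
    (hv : ∀ s : ℝ, 0 < s → Summable (fun n : ℕ => (v n) ^ (-s)))
    (h : ∀ A : ℕ, ∃ (C : ℝ) (n₁ : ℕ), ∀ n : ℕ, n₁ ≤ n → ∀ T : ℕ, 1 ≤ T → (T : ℝ) ≤ ((A : ℝ) + 1) * v n →
      ({t : Fin k → ℕ | (∀ i, t i ≤ T) ∧ t ∈ Bad n}.ncard : ℝ) ≤ C * (v n) ^ ((k : ℝ) - c))
    {θ : ℝ} (hθ1 : θ ≤ 1) (hθ : k * θ < c) :
    ∀ᵐ α : Fin k → ℝ, ∃ n₀ : ℕ, ∀ n : ℕ, n₀ ≤ n → ∀ t : Fin k → ℕ, (∀ i, |(t i : ℝ) - α i * v n| ≤ (v n) ^ θ) →
      t ∉ Bad n := by
  have hvp : ∀ n, 0 < v n := fun n => lt_of_lt_of_le one_pos (hv1 n)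
  choose C n₁ hC using h
  -- the bad sets
  set B : ℕ → ℕ → Set (Fin k → ℝ) := fun A n => {α | n₁ A ≤ n ∧ (∀ i, α i ≤ A) ∧ ∃ t : Fin k → ℕ,
    (∀ i, |(t i : ℝ) - α i * v n| ≤ (v n) ^ θ) ∧ t ∈ Bad n} with hB
  have hnull : ∀ A : ℕ, volume {α : Fin k → ℝ | ∃ᶠ n in atTop, α ∈ B A n} = 0 := by
    intro A
    apply measure_setOfPred_frequently_eq_zero
    set s : ℝ := c - k * θ with hs
    have hs0 : 0 < s := by linarith
    set K : ℝ := |C A| * 2 ^ k with hK
    have hK0 : 0 ≤ K := by positivity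
    have hbound : ∀ n, volume (B A n) ≤ ENNReal.ofReal (K * (v n) ^ (-s)) := by
      intro n
      by_cases hn : n₁ A ≤ n
      swap
      · have : B A n = ∅ := by
          rw [Set.eq_empty_iff_forall_notMem]
          rintro α ⟨h1, -⟩
          exact hn h1
        rw [this, measure_empty]
        exact bot_le
      have hn1 := hv1 n
      have hn0 := hvp n
      set T : ℕ := ⌊((A : ℝ) + 1) * v n⌋₊ with hT
      have hA0 : (0 : ℝ) ≤ A := Nat.cast_nonneg A
      have hT1 : 1 ≤ T := Nat.le_floor (by push_cast; nlinarith)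
      set F : Set (Fin k → ℕ) := {t : Fin k → ℕ | (∀ i, t i ≤ T) ∧ t ∈ Bad n} with hF
      have hFfin : F.Finite := (Set.finite_Iic (fun _ : Fin k => T)).subset fun t ht i => ht.1 i
      have hθv : (v n) ^ θ ≤ v n := by
        calc (v n) ^ θ ≤ (v n) ^ (1 : ℝ) := Real.rpow_le_rpow_of_exponent_le hn1 hθ1
          _ = v n := Real.rpow_one _
      have hsub : B A n ⊆ ⋃ t ∈ hFfin.toFinset, {α : Fin k → ℝ | ∀ i, |(t i : ℝ) - α i * v n| ≤ (v n) ^ θ} := by
        rintro α ⟨-, hα, t, ht, htB⟩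
        rw [Set.mem_iUnion₂]
        refine ⟨t, ?_, ht⟩
        rw [Set.Finite.mem_toFinset]
        refine ⟨fun i => Nat.le_floor ?_, htB⟩
        have h1 := (abs_le.1 (ht i)).2
        have h2 : α i * v n ≤ A * v n := mul_le_mul_of_nonneg_right (hα i) hn0.le
        linarith
      refine (measure_mono hsub).trans ((measure_biUnion_finset_le _ _).trans ?_)
      have h1 : ∀ t ∈ hFfin.toFinset, volume {α : Fin k → ℝ | ∀ i, |(t i : ℝ) - α i * v n| ≤ (v n) ^ θ} ≤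
          ENNReal.ofReal ((2 * ((v n) ^ θ / v n)) ^ k) := fun t _ =>
        (vol_cube t hn0 (Real.rpow_nonneg hn0.le _)).le
      refine (sum_le_card_nsmul _ _ _ h1).trans ?_
      rw [← Set.ncard_eq_toFinset_card F hFfin, nsmul_eq_mul, ← ENNReal.ofReal_natCast, ← ENNReal.ofReal_mul (Nat.cast_nonneg _)]
      apply ENNReal.ofReal_le_ofReal
      have h2 : (F.ncard : ℝ) ≤ |C A| * (v n) ^ ((k : ℝ) - c) :=
        (hC A n hn T hT1 (Nat.floor_le (by positivity))).trans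
          (mul_le_mul_of_nonneg_right (le_abs_self _) (Real.rpow_nonneg hn0.le _))
      have h4 : (2 * ((v n) ^ θ / v n)) ^ k = 2 ^ k * (v n) ^ ((θ - 1) * k) := by
        rw [mul_pow, Real.rpow_mul hn0.le, Real.rpow_natCast, Real.rpow_sub hn0, Real.rpow_one]
      rw [h4]
      calc (F.ncard : ℝ) * (2 ^ k * (v n) ^ ((θ - 1) * k)) ≤
            (|C A| * (v n) ^ ((k : ℝ) - c)) * (2 ^ k * (v n) ^ ((θ - 1) * k)) :=
              mul_le_mul_of_nonneg_right h2 (by positivity)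
        _ = K * ((v n) ^ ((k : ℝ) - c) * (v n) ^ ((θ - 1) * k)) := by rw [hK]; ring
        _ = K * (v n) ^ (-s) := by
            rw [← Real.rpow_add hn0]
            congr 2
            rw [hs]
            ring
    have hsum : Summable (fun n => K * (v n) ^ (-s)) := (hv s hs0).mul_left K
    refine ne_top_of_le_ne_top ?_ (ENNReal.tsum_le_tsum hbound)
    rw [← ENNReal.ofReal_tsum_of_nonneg (fun n => mul_nonneg hK0 (Real.rpow_nonneg (hvp n).le _)) hsum]
    exact ENNReal.ofReal_ne_top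
  have hae : ∀ᵐ α : Fin k → ℝ, ∀ A : ℕ, ¬ ∃ᶠ n in atTop, α ∈ B A n := by
    rw [ae_all_iff]
    intro A
    exact measure_eq_zero_iff_ae_notMem.1 (hnull A)
  filter_upwards [hae] with α hα
  obtain ⟨A, hA⟩ : ∃ A : ℕ, ∀ i, α i ≤ A := by
    obtain ⟨A, hA⟩ := exists_nat_ge (∑ i, |α i|)
    exact ⟨A, fun i => (le_abs_self _).trans ((single_le_sum (fun j _ => abs_nonneg (α j)) (mem_univ i)).trans hA)⟩
  have h1 := hα A
  rw [not_frequently, eventually_atTop] at h1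
  obtain ⟨n₀, hn₀⟩ := h1
  refine ⟨max n₀ (n₁ A), fun n hn t ht htB => hn₀ n ((le_max_left _ _).trans hn)
    ⟨(le_max_right _ _).trans hn, hA, t, ht, htB⟩⟩

end Pool.Agent.V1137.Wsys
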